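import Pool.Agent.Lib.MP_ff3ed7_lc.SQ.SGen

/-!
# PROJECT SQ: the general program transformation with a sequential input head (end)
-/

set_option autoImplicit false

open Finset

namespace Pool.Agent.Lib.MP_ff3ed7_lc.SQ

open Pool.Agent.Lib.MP_ff3ed7_lc.PLT

/-- **The general program transformation.** -/
theorem sgen (P : Prog) (R : ℕ) (hR : 3 ≤ R) (hP : P.Lt R) (c e : ℕ) (EY ER EM ET : Expr)
    (fY fR fM : ℕ → ℕ → ℕ → ℕ → ℕ → ℕ) (fT : ℕ → ℕ → ℕ → ℕ → ℕ → ℕ → ℕ)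
    (hY : ∀ s, EY.val s = fY (s (R + 6)) (s (R + 7)) (s (R + 8)) (s (R + 9)) (s (R + 10)))
    (hRR : ∀ s, ER.val s = fR (s (R + 6)) (s (R + 7)) (s (R + 8)) (s (R + 9)) (s (R + 10)))
    (hM : ∀ s, EM.val s = fM (s (R + 6)) (s (R + 7)) (s (R + 8)) (s (R + 9)) (s (R + 10)))
    (hT : ∀ s, ET.val s =
      fT (s (R + 6)) (s (R + 7)) (s (R + 8)) (s (R + 9)) (s (R + 10)) (s (R + 5))) :
    ∃ (P' : Prog) (C : ℕ), 1 ≤ C ∧ ∀ (x : List Bool) (y r t B k u Y RR M : ℕ),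
      k = pl c x.length → u = pl e x.length → Y = fY y r k (2 ^ k) (2 ^ u) →
      RR = fR y r k (2 ^ k) (2 ^ u) → M = fM y r k (2 ^ k) (2 ^ u) →
      1 ≤ B → k + 1 ≤ B → u + 1 ≤ B → x.length < 2 ^ B → y < 2 ^ B → r < 2 ^ B →
      (∀ i < M, SStops P x Y (blk k RR i) t B) →
      SStops P' x y r (C * ((B * B + (t + x.length)) * (M + 1))) (C * (B * B)) ∧
      (Acc P' x y r ↔
        fT y r k (2 ^ k) (2 ^ u) (Nat.card {i : Fin M // Acc P x Y (blk k RR i)}) = 1) := by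
  obtain ⟨Q, K1, hQ, hK1, h1⟩ := sprep R hR c e EY ER EM fY fR fM hY hRR hM
  obtain ⟨K2, hK2, h2⟩ := seng_run P R hR hP
  let A9 : Prog := .set 0 ET
  obtain ⟨K3, hK3, h3⟩ := Prog.cost_exec A9 trivial
  refine ⟨.seq Q (.seq (eng P R) A9), K1 + K2 * K1 + K3 * K1 + 1, by omega, ?_⟩
  intro x y r t B k u Y RR M hk hu hYv hRv hMv hB hkB huB hxB hyB hrB hst
  obtain ⟨s7, d, r7, hd, b7, z0, z1, z2, z3, z4, z5, z6, z7, z8, z9, z10⟩ :=
    h1 x y r B k u Y RR M hk hu hYv hRv hMv hB hkB huB hxB hyB hrB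
  obtain ⟨X, hX⟩ : ∃ X, X = B * B := ⟨_, rfl⟩
  have x1 : B ≤ X := hX ▸ Nat.le_mul_of_pos_left B hB
  rw [← hX] at hd ⊢
  obtain ⟨S, hS⟩ : ∃ S, S = (K1 + K2 * K1 + K3 * K1 + 1) * X := ⟨_, rfl⟩
  rw [← hS]
  have hB1 : B ≤ K1 * B := Nat.le_mul_of_pos_left B hK1
  have e1 : K2 * (K1 * B) ≤ K2 * K1 * X := by
    rw [← Nat.mul_assoc]; exact Nat.mul_le_mul_left _ x1
  have e2 : K3 * (K1 * B) ≤ K3 * K1 * X := by
    rw [← Nat.mul_assoc]; exact Nat.mul_le_mul_left _ x1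
  have eS : S = K1 * X + K2 * K1 * X + K3 * K1 * X + X := by rw [hS]; ring
  have l1 : d ≤ S := by omega
  have l2 : K2 * (K1 * B) ≤ S := by omega
  have l3 : K3 * (K1 * B) ≤ S := by omega
  have l4 : B ≤ S := by omega
  obtain ⟨s8, g8, d8, r8, c8, v8, -, -, -, f8, b8, -⟩ := h2 x Y RR k M t (K1 * B) S 0 s7 z0 z1 z2 z3
    z4 z5 (fun i hi => by
      obtain ⟨w1, w2, w3, w, w', cw, hw, hcw⟩ := hst i hi
      have hp : 2 ^ B ≤ 2 ^ (K1 * B) := Nat.pow_le_pow_right (by norm_num) hB1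
      exact ⟨w1.trans_le hp, w2.trans_le hp, w3.trans_le hp, w, w', cw, hw.mem_mono hB1, hcw⟩)
    (hB.trans hB1) l2 (Nat.zero_le _) b7
  obtain ⟨c9, -⟩ := h3 x s8 (K1 * B) (hB.trans hB1) b8
  have r9 := Prog.LF.run (x := x) (p := A9) trivial s8
  have hrun : SRun x S (.seq Q (.seq (eng P R) A9)) (ini x.length y r) 0 (A9.exec x s8) g8
      (d + (d8 + A9.tim x s8)) :=
    SRun.seq (lift r7 hQ S l1 0) (SRun.seq r8 (lift r9 trivial S (c9.trans l3) g8))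
  have fin : A9.exec x s8 0 =
      fT y r k (2 ^ k) (2 ^ u) (Nat.card {i : Fin M // Acc P x Y (blk k RR i)}) := by
    simp only [A9, Prog.exec, Function.update_self, hT]
    rw [f8 (R + 6) (by omega), f8 (R + 7) (by omega), f8 (R + 8) (by omega), f8 (R + 9) (by omega),
      f8 (R + 10) (by omega), z6, z7, z8, z9, z10, v8]
  have hpS : 2 ^ B ≤ 2 ^ S := Nat.pow_le_pow_right (by norm_num) l4
  constructor
  · refine ⟨hxB.trans_le hpS, hyB.trans_le hpS, hrB.trans_le hpS, _, _, _, hrun, ?_⟩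
    obtain ⟨T, hT'⟩ : ∃ T, T = t + x.length := ⟨_, rfl⟩
    rw [← hT'] at c8 ⊢
    have m1 : 1 ≤ M + 1 := Nat.succ_pos M
    calc d + (d8 + A9.tim x s8)
        ≤ K1 * X * (M + 1) + ((K2 * K1 * X + T) * (M + 1) + K3 * K1 * X * (M + 1)) := by
          refine Nat.add_le_add (hd.trans (Nat.le_mul_of_pos_right _ m1)) (Nat.add_le_add
            (c8.trans (Nat.mul_le_mul_right _ (Nat.add_le_add_right e1 _)))
            ((c9.trans e2).trans (Nat.le_mul_of_pos_right _ m1)))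
      _ ≤ K1 * X * (M + 1) + ((K2 * K1 * X + T) * (M + 1) + K3 * K1 * X * (M + 1)) +
          ((K1 + K2 * K1 + K3 * K1) * (T * (M + 1)) + X * (M + 1)) := Nat.le_add_right _ _
      _ = _ := by ring
  · obtain ⟨c0, hrun0, -⟩ := hrun.run
    constructor
    · rintro ⟨s', c', h', h''⟩
      obtain ⟨rfl, -⟩ := hrun0.det h'
      rw [← fin]; exact h''
    · intro h
      exact ⟨_, _, hrun0, by rw [fin]; exact h⟩

end Pool.Agent.Lib.MP_ff3ed7_lc.SQ
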