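import Pool.Agent.Lib.MP_ff3ed7_lc.SQ.Spec2

/-!
# PROJECT SQ: several random cuts (AvP)
-/

set_option autoImplicit false

open Finset

namespace Pool.Agent.Lib.MP_ff3ed7_lc.SQ

open Pool.Agent.Lib.MP_ff3ed7_lc.PLT

section Protocols

variable {X Y : Type}

/-- Sequential composition: the second protocol depends on the answer of the first one. -/
private def AvP_bind (k : Bool → Prot X Y) : Prot X Y → Prot X Y
  | .leaf b => k b
  | .alice a next => .alice a fun s => AvP_bind k (next s)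
  | .bob b next => .bob b fun s => AvP_bind k (next s)

private theorem AvP_bind_eval (k : Bool → Prot X Y) (x : X) (y : Y) (P : Prot X Y) :
    (AvP_bind k P).eval x y = (k (P.eval x y)).eval x y := by
  induction P with
  | leaf b => rfl
  | alice a next ih => exact ih (a x)
  | bob b next ih => exact ih (b y)

private theorem AvP_cost_mono (P : Prot X Y) :
    ∀ {c c' : ℕ}, P.CostLE c → c ≤ c' → P.CostLE c' := by
  induction P with
  | leaf b => intros; trivial
  | alice a next ih =>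
    intro c c' h hc
    exact ⟨lt_of_lt_of_le h.1 hc, fun s => ih s (h.2 s) (Nat.sub_le_sub_right hc 1)⟩
  | bob b next ih =>
    intro c c' h hc
    exact ⟨lt_of_lt_of_le h.1 hc, fun s => ih s (h.2 s) (Nat.sub_le_sub_right hc 1)⟩

private theorem AvP_bind_cost (k : Bool → Prot X Y) (c' : ℕ) (hk : ∀ b, (k b).CostLE c')
    (P : Prot X Y) : ∀ {c : ℕ}, P.CostLE c → (AvP_bind k P).CostLE (c + c') := by
  induction P with
  | leaf b =>
    intro c _
    exact AvP_cost_mono _ (hk b) (Nat.le_add_left _ _)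
  | alice a next ih =>
    intro c h
    refine ⟨Nat.add_pos_left h.1 _, fun s => ?_⟩
    have h1 := ih s (h.2 s)
    have h2 : c - 1 + c' = c + c' - 1 := by
      have := h.1
      omega
    rw [h2] at h1
    exact h1
  | bob b next ih =>
    intro c h
    refine ⟨Nat.add_pos_left h.1 _, fun s => ?_⟩
    have h1 := ih s (h.2 s)
    have h2 : c - 1 + c' = c + c' - 1 := by
      have := h.1
      omega
    rw [h2] at h1
    exact h1

/-- Run the protocols one after the other and accept if one of them accepts. -/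
private def AvP_or : (n : ℕ) → (Fin n → Prot X Y) → Prot X Y
  | 0, _ => .leaf false
  | n + 1, f => AvP_bind (fun b => if b = true then .leaf true else AvP_or n fun i => f i.succ)
      (f 0)

private theorem AvP_or_eval (x : X) (y : Y) : ∀ (n : ℕ) (f : Fin n → Prot X Y),
    (AvP_or n f).eval x y = true ↔ ∃ i, (f i).eval x y = true := by
  intro n
  induction n with
  | zero =>
    intro f
    constructor
    · intro h
      exact absurd h (by simp [AvP_or, Prot.eval])
    · rintro ⟨i, _⟩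
      exact i.elim0
  | succ n ih =>
    intro f
    have h1 : (AvP_or (n + 1) f).eval x y =
        ((if (f 0).eval x y = true then (.leaf true : Prot X Y)
          else AvP_or n fun i => f i.succ)).eval x y :=
      AvP_bind_eval _ x y (f 0)
    rw [h1, Fin.exists_fin_succ]
    by_cases h : (f 0).eval x y = true
    · rw [if_pos h]
      exact ⟨fun _ => Or.inl h, fun _ => rfl⟩
    · rw [if_neg h, ih]
      exact ⟨fun h2 => Or.inr h2, fun h2 => h2.resolve_left h⟩

private theorem AvP_or_cost (c : ℕ) : ∀ (n : ℕ) (f : Fin n → Prot X Y),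
    (∀ i, (f i).CostLE c) → (AvP_or n f).CostLE (n * c) := by
  intro n
  induction n with
  | zero => intro f _; trivial
  | succ n ih =>
    intro f hf
    have h1 : (AvP_or (n + 1) f).CostLE (c + n * c) := by
      refine AvP_bind_cost _ _ (fun b => ?_) (f 0) (hf 0)
      by_cases h : b = true
      · rw [if_pos h]; trivial
      · rw [if_neg h]; exact ih _ fun i => hf _
    have h2 : c + n * c = (n + 1) * c := by ring
    rwa [h2] at h1

end Protocols

/-- The number of elements with a property as a sum. -/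
private theorem AvP_card {α : Type} [Fintype α] (E : α → Prop) [DecidablePred E] :
    (Nat.card {z // E z} : ℝ) = ∑ z, if E z then (1 : ℝ) else 0 := by
  rw [Nat.card_eq_fintype_card, Fintype.card_subtype, Finset.sum_boole]

/-- Probabilities as sums over pairs. -/
private theorem AvP_prob {r q : ℕ} {V : Type} [Fintype V]
    (e : (Fin q → Bool) ≃ (Fin r → Bool) × V)
    (E : (Fin r → Bool) × V → Prop) [DecidablePred E] :
    prob q (fun ρ => E (e ρ)) =
      (∑ ρ : Fin r → Bool, ∑ v : V, if E (ρ, v) then (1 : ℝ) else 0) / 2 ^ q := by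
  unfold prob
  rw [Nat.card_congr (e.subtypeEquiv (q := fun c => E c) (fun _ => Iff.rfl)), AvP_card,
    Fintype.sum_prod_type]

/-- There are few bad cuts. -/
private theorem AvP_bad {b t k B : ℕ} (hB : B = 100 * t / 2 ^ k) (h : b * (B + 1) ≤ t) :
    100 * b ≤ 2 ^ k := by
  have h1 : 100 * t < 2 ^ k * (B + 1) := by
    rw [hB]
    exact Nat.lt_mul_div_succ _ (by positivity)
  have h2 : 100 * b * (B + 1) < 2 ^ k * (B + 1) := by
    calc 100 * b * (B + 1) = 100 * (b * (B + 1)) := by ring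
      _ ≤ 100 * t := Nat.mul_le_mul_left _ h
      _ < _ := h1
  exact (lt_of_mul_lt_mul_right h2 (zero_le)).le

theorem tAvP : S_AvP := by
  classical
  intro hPrt hCrs X Y Q Γ _ s t a k r n hQ M A Bt τ hgl hmot
  obtain ⟨B, hB⟩ : ∃ B, B = 100 * t / 2 ^ k := ⟨_, rfl⟩
  choose P hP1 hP2 using fun (ρ : Fin r → Bool) (c : ℕ) =>
    hPrt X Y Q Γ _ s B {j | j < c} hQ (M ρ) (A ρ) (Bt ρ)
  have e : (Fin (r + n * k) → Bool) ≃ (Fin r → Bool) × (Fin n → Fin (2 ^ k)) :=
    Fintype.equivOfCardEq (by simp [pow_add, pow_mul, Nat.mul_comm n k])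
  refine ⟨r + n * k, fun ρ => AvP_or n fun i => P (e ρ).1 (a + ((e ρ).2 i).1),
    fun ρ => ?_, fun x y => ?_⟩
  · rw [← hB]
    exact AvP_or_cost _ n _ fun i => hP1 _ _
  have hcut : ∀ (ρ : Fin r → Bool) (v : Fin (2 ^ k)),
      glue {j | j < a + v.1} (A ρ x) (Bt ρ y) = τ ρ x y := fun ρ v =>
    hgl ρ x y (a + v.1) (Nat.le_add_right _ _) (Nat.add_lt_add_left v.2 _)
  have h1 : ∀ (ρ : Fin r → Bool) (v : Fin (2 ^ k)), (P ρ (a + v.1)).eval x y = true →
      (M ρ).Accτ (τ ρ x y) := by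
    intro ρ v h
    have := (hP2 ρ (a + v.1) x y).1 h
    rwa [hcut ρ v] at this
  have h2 : ∀ (ρ : Fin r → Bool) (v : Fin (2 ^ k)), (M ρ).Accτ (τ ρ x y) →
      (¬ ∃ T, B < crs (M ρ) {j | j < a + v.1} ⟨(M ρ).start, 0, τ ρ x y, 0⟩ T) →
      (P ρ (a + v.1)).eval x y = true := by
    intro ρ v h hb
    have := (hP2 ρ (a + v.1) x y).2
    rw [hcut ρ v] at this
    exact this h fun T => not_lt.1 fun hT => hb ⟨T, hT⟩
  have h3 : ∀ ρ : Fin r → Bool, 100 * Nat.card {v : Fin (2 ^ k) // ∃ T, B <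
      crs (M ρ) {j | j < a + v.1} ⟨(M ρ).start, 0, τ ρ x y, 0⟩ T} ≤ 2 ^ k := fun ρ =>
    AvP_bad hB (hCrs Q Γ (M ρ) (τ ρ x y) t a (2 ^ k) B (hmot ρ x y))
  obtain ⟨E, hEd⟩ : ∃ E : (Fin r → Bool) × (Fin n → Fin (2 ^ k)) → Prop,
      E = fun z => (AvP_or n fun i => P z.1 (a + (z.2 i).1)).eval x y = true := ⟨_, rfl⟩
  have hE1 : ∀ ρ v, E (ρ, v) ↔ ∃ i, (P ρ (a + (v i).1)).eval x y = true := by
    intro ρ v
    rw [hEd]
    exact AvP_or_eval x y n _
  have hcard : (∑ _v : Fin n → Fin (2 ^ k), (1 : ℝ)) = (2 ^ k) ^ n := by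
    rw [Finset.sum_const, Finset.card_univ, Fintype.card_fun, Fintype.card_fin, Fintype.card_fin,
      nsmul_eq_mul, mul_one]
    push_cast
    ring
  have hup : ∀ ρ : Fin r → Bool,
      (∑ v : Fin n → Fin (2 ^ k), if E (ρ, v) then (1 : ℝ) else 0) ≤
        (if (M ρ).Accτ (τ ρ x y) then (1 : ℝ) else 0) * (2 ^ k) ^ n := by
    intro ρ
    rw [← hcard, Finset.mul_sum]
    refine Finset.sum_le_sum fun v _ => ?_
    rw [mul_one]
    by_cases h : E (ρ, v)
    · obtain ⟨i, hi⟩ := (hE1 ρ v).1 h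
      rw [if_pos h, if_pos (h1 ρ (v i) hi)]
    · rw [if_neg h]
      split_ifs <;> norm_num
  have hlow : ∀ ρ : Fin r → Bool,
      (1 - (1 / 100) ^ n) * ((if (M ρ).Accτ (τ ρ x y) then (1 : ℝ) else 0) * (2 ^ k) ^ n) ≤
      ∑ v : Fin n → Fin (2 ^ k), if E (ρ, v) then (1 : ℝ) else 0 := by
    intro ρ
    by_cases h : (M ρ).Accτ (τ ρ x y)
    · rw [if_pos h, one_mul]
      have h4 : (100 : ℝ) * (Nat.card {v : Fin (2 ^ k) // ∃ T, B <
          crs (M ρ) {j | j < a + v.1} ⟨(M ρ).start, 0, τ ρ x y, 0⟩ T} : ℝ) ≤ 2 ^ k := by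
        exact_mod_cast h3 ρ
      rw [AvP_card] at h4
      obtain ⟨β, hβ⟩ : ∃ β : Fin (2 ^ k) → ℝ, β = fun v => if (∃ T, B <
          crs (M ρ) {j | j < a + v.1} ⟨(M ρ).start, 0, τ ρ x y, 0⟩ T) then (1 : ℝ) else 0 :=
        ⟨_, rfl⟩
      have hβ0 : ∀ v, 0 ≤ β v := by
        intro v
        rw [hβ]
        simp only
        split_ifs <;> norm_num
      have h5 : (100 : ℝ) * ∑ v, β v ≤ 2 ^ k := by rw [hβ]; exact h4
      have h6 : (∑ v, β v) ^ n ≤ (1 / 100) ^ n * (2 ^ k) ^ n := by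
        rw [← mul_pow]
        refine pow_le_pow_left₀ (Finset.sum_nonneg fun v _ => hβ0 v) ?_ n
        linarith
      have h7 : ∑ v : Fin n → Fin (2 ^ k), ((1 : ℝ) - ∏ i, β (v i)) ≤
          ∑ v : Fin n → Fin (2 ^ k), if E (ρ, v) then (1 : ℝ) else 0 := by
        refine Finset.sum_le_sum fun v _ => ?_
        by_cases hb : ∀ i, ∃ T, B < crs (M ρ) {j | j < a + (v i).1}
            ⟨(M ρ).start, 0, τ ρ x y, 0⟩ T
        · have h8 : ∏ i, β (v i) = 1 := Finset.prod_eq_one fun i _ => by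
            rw [hβ]
            exact if_pos (hb i)
          rw [h8, sub_self]
          split_ifs <;> norm_num
        · obtain ⟨i, hi⟩ := not_forall.1 hb
          rw [if_pos ((hE1 ρ v).2 ⟨i, h2 ρ (v i) h hi⟩)]
          have h9 : 0 ≤ ∏ i, β (v i) := Finset.prod_nonneg fun i _ => hβ0 _
          linarith
      rw [Finset.sum_sub_distrib, hcard, ← Fintype.sum_pow β n] at h7
      have h10 : (1 - (1 / 100) ^ n) * ((2 : ℝ) ^ k) ^ n =
          (2 ^ k) ^ n - (1 / 100) ^ n * (2 ^ k) ^ n := by ring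
      rw [h10]
      linarith
    · rw [if_neg h, zero_mul, mul_zero]
      exact Finset.sum_nonneg fun v _ => by split_ifs <;> norm_num
  have hE : prob (r + n * k) (fun ρ =>
      (AvP_or n fun i => P (e ρ).1 (a + ((e ρ).2 i).1)).eval x y = true) =
      (∑ ρ : Fin r → Bool, ∑ v : Fin n → Fin (2 ^ k),
        if E (ρ, v) then (1 : ℝ) else 0) / 2 ^ (r + n * k) := by
    rw [← AvP_prob e E, hEd]
  have hA : prob r (fun ρ => (M ρ).Accτ (τ ρ x y)) =
      (∑ ρ : Fin r → Bool, (if (M ρ).Accτ (τ ρ x y) then (1 : ℝ) else 0) * (2 ^ k) ^ n) /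
        2 ^ (r + n * k) := by
    unfold prob
    have h8 : (2 : ℝ) ^ (r + n * k) = 2 ^ r * (2 ^ k) ^ n := by
      rw [pow_add, Nat.mul_comm n k, pow_mul]
    rw [AvP_card, ← Finset.sum_mul, h8, mul_div_mul_right _ _ (by positivity)]
  rw [hE, hA]
  constructor
  · exact div_le_div_of_nonneg_right (Finset.sum_le_sum fun ρ _ => hup ρ) (by positivity)
  · rw [← mul_div_assoc, Finset.mul_sum]
    exact div_le_div_of_nonneg_right (Finset.sum_le_sum fun ρ _ => hlow ρ) (by positivity)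

end Pool.Agent.Lib.MP_ff3ed7_lc.SQ
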