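import Pool.Agent.Lib.MP_ff3ed7_lc.SQ.Spec

/-!
# PROJECT SQ: the random cut (Avg)
-/

set_option autoImplicit false

open Finset

namespace Pool.Agent.Lib.MP_ff3ed7_lc.SQ

open Pool.Agent.Lib.MP_ff3ed7_lc.PLT

/-- The number of elements with a property as a sum. -/
private theorem Avg_card {α : Type} [Fintype α] (E : α → Prop) [DecidablePred E] :
    (Nat.card {z // E z} : ℝ) = ∑ z, if E z then (1 : ℝ) else 0 := by
  rw [Nat.card_eq_fintype_card, Fintype.card_subtype, Finset.sum_boole]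

/-- Probabilities as sums over pairs. -/
private theorem Avg_prob {r k : ℕ} (e : (Fin (r + k) → Bool) ≃ (Fin r → Bool) × Fin (2 ^ k))
    (E : (Fin r → Bool) × Fin (2 ^ k) → Prop) [DecidablePred E] :
    prob (r + k) (fun ρ => E (e ρ)) =
      (∑ ρ : Fin r → Bool, ∑ v : Fin (2 ^ k), if E (ρ, v) then (1 : ℝ) else 0) / 2 ^ (r + k) := by
  unfold prob
  rw [Nat.card_congr (e.subtypeEquiv (q := fun c => E c) (fun _ => Iff.rfl)), Avg_card,
    Fintype.sum_prod_type]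

/-- There are few bad cuts. -/
private theorem Avg_bad {b t k B : ℕ} (hB : B = 100 * t / 2 ^ k) (h : b * (B + 1) ≤ t) :
    100 * b ≤ 2 ^ k := by
  have h1 : 100 * t < 2 ^ k * (B + 1) := by
    rw [hB]
    exact Nat.lt_mul_div_succ _ (by positivity)
  have h2 : 100 * b * (B + 1) < 2 ^ k * (B + 1) := by
    calc 100 * b * (B + 1) = 100 * (b * (B + 1)) := by ring
      _ ≤ 100 * t := Nat.mul_le_mul_left _ h
      _ < _ := h1
  exact (lt_of_mul_lt_mul_right h2 (zero_le)).le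

theorem tAvg : S_Avg := by
  classical
  intro hPrt hCrs X Y Q Γ _ s t a k r hQ M A Bt τ hgl hmot
  obtain ⟨B, hB⟩ : ∃ B, B = 100 * t / 2 ^ k := ⟨_, rfl⟩
  choose P hP1 hP2 using fun (ρ : Fin r → Bool) (c : ℕ) =>
    hPrt X Y Q Γ _ s B {j | j < c} hQ (M ρ) (A ρ) (Bt ρ)
  have e : (Fin (r + k) → Bool) ≃ (Fin r → Bool) × Fin (2 ^ k) :=
    Fintype.equivOfCardEq (by simp [pow_add])
  refine ⟨fun ρ => P (e ρ).1 (a + (e ρ).2.1), fun ρ => ?_, fun x y => ?_⟩
  · rw [← hB]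
    exact hP1 _ _
  have hcut : ∀ (ρ : Fin r → Bool) (v : Fin (2 ^ k)),
      glue {j | j < a + v.1} (A ρ x) (Bt ρ y) = τ ρ x y := fun ρ v =>
    hgl ρ x y (a + v.1) (Nat.le_add_right _ _) (Nat.add_lt_add_left v.2 _)
  have h1 : ∀ (ρ : Fin r → Bool) (v : Fin (2 ^ k)), (P ρ (a + v.1)).eval x y = true →
      (M ρ).Accτ (τ ρ x y) := by
    intro ρ v h
    have := (hP2 ρ (a + v.1) x y).1 h
    rwa [hcut ρ v] at this
  have h2 : ∀ (ρ : Fin r → Bool) (v : Fin (2 ^ k)), (M ρ).Accτ (τ ρ x y) →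
      (¬ ∃ T, B < crs (M ρ) {j | j < a + v.1} ⟨(M ρ).start, 0, τ ρ x y, 0⟩ T) →
      (P ρ (a + v.1)).eval x y = true := by
    intro ρ v h hb
    have := (hP2 ρ (a + v.1) x y).2
    rw [hcut ρ v] at this
    exact this h fun T => not_lt.1 fun hT => hb ⟨T, hT⟩
  have h3 : ∀ ρ : Fin r → Bool, 100 * Nat.card {v : Fin (2 ^ k) // ∃ T, B <
      crs (M ρ) {j | j < a + v.1} ⟨(M ρ).start, 0, τ ρ x y, 0⟩ T} ≤ 2 ^ k := fun ρ =>
    Avg_bad hB (hCrs Q Γ (M ρ) (τ ρ x y) t a (2 ^ k) B (hmot ρ x y))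
  have hup : ∀ ρ : Fin r → Bool,
      (∑ v : Fin (2 ^ k), if (P ρ (a + v.1)).eval x y = true then (1 : ℝ) else 0) ≤
        (if (M ρ).Accτ (τ ρ x y) then (1 : ℝ) else 0) * 2 ^ k := by
    intro ρ
    calc (∑ v : Fin (2 ^ k), if (P ρ (a + v.1)).eval x y = true then (1 : ℝ) else 0) ≤
        ∑ _v : Fin (2 ^ k), if (M ρ).Accτ (τ ρ x y) then (1 : ℝ) else 0 := by
          refine Finset.sum_le_sum fun v _ => ?_
          by_cases h : (P ρ (a + v.1)).eval x y = true
          · rw [if_pos h, if_pos (h1 ρ v h)]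
          · rw [if_neg h]
            split_ifs <;> norm_num
      _ = _ := by
          rw [Finset.sum_const, Finset.card_univ, Fintype.card_fin, nsmul_eq_mul]
          push_cast
          ring
  have hlow : ∀ ρ : Fin r → Bool,
      99 / 100 * ((if (M ρ).Accτ (τ ρ x y) then (1 : ℝ) else 0) * 2 ^ k) ≤
      ∑ v : Fin (2 ^ k), if (P ρ (a + v.1)).eval x y = true then (1 : ℝ) else 0 := by
    intro ρ
    by_cases h : (M ρ).Accτ (τ ρ x y)
    · rw [if_pos h, one_mul]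
      have h4 : (100 : ℝ) * (Nat.card {v : Fin (2 ^ k) // ∃ T, B <
          crs (M ρ) {j | j < a + v.1} ⟨(M ρ).start, 0, τ ρ x y, 0⟩ T} : ℝ) ≤ 2 ^ k := by
        exact_mod_cast h3 ρ
      rw [Avg_card] at h4
      have h5 : ∑ v : Fin (2 ^ k), ((1 : ℝ) - if (∃ T, B <
          crs (M ρ) {j | j < a + v.1} ⟨(M ρ).start, 0, τ ρ x y, 0⟩ T) then (1 : ℝ) else 0) ≤
          ∑ v : Fin (2 ^ k), if (P ρ (a + v.1)).eval x y = true then (1 : ℝ) else 0 := by
        refine Finset.sum_le_sum fun v _ => ?_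
        by_cases hb : ∃ T, B < crs (M ρ) {j | j < a + v.1} ⟨(M ρ).start, 0, τ ρ x y, 0⟩ T
        · rw [if_pos hb]
          split_ifs <;> norm_num
        · rw [if_neg hb, if_pos (h2 ρ v h hb)]
          norm_num
      rw [Finset.sum_sub_distrib, Finset.sum_const, Finset.card_univ, Fintype.card_fin,
        nsmul_eq_mul, mul_one] at h5
      push_cast at h5
      linarith
    · rw [if_neg h, zero_mul, mul_zero]
      exact Finset.sum_nonneg fun v _ => by split_ifs <;> norm_num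
  have hE : prob (r + k) (fun ρ => (P (e ρ).1 (a + (e ρ).2.1)).eval x y = true) =
      (∑ ρ : Fin r → Bool, ∑ v : Fin (2 ^ k),
        if (P ρ (a + v.1)).eval x y = true then (1 : ℝ) else 0) / 2 ^ (r + k) :=
    Avg_prob e fun z => (P z.1 (a + z.2.1)).eval x y = true
  have hA : prob r (fun ρ => (M ρ).Accτ (τ ρ x y)) =
      (∑ ρ : Fin r → Bool, (if (M ρ).Accτ (τ ρ x y) then (1 : ℝ) else 0) * 2 ^ k) /
        2 ^ (r + k) := by
    unfold prob
    rw [Avg_card, ← Finset.sum_mul, pow_add, mul_div_mul_right _ _ (by positivity)]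
  rw [hE, hA]
  constructor
  · exact div_le_div_of_nonneg_right (Finset.sum_le_sum fun ρ _ => hup ρ) (by positivity)
  · rw [← mul_div_assoc, Finset.mul_sum]
    exact div_le_div_of_nonneg_right (Finset.sum_le_sum fun ρ _ => hlow ρ) (by positivity)

end Pool.Agent.Lib.MP_ff3ed7_lc.SQ
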