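import Pool.Agent.Lib.MP_ff3ed7_lc.PLT.BUp

/-!
# PROJECT SQ: the language `LB` is in `SBP` with the threshold `2 ^ (-(log_2 n + 5))`
-/

set_option autoImplicit false

open Finset

namespace Pool.Agent.Lib.MP_ff3ed7_lc.PLT

open Pool.Agent.Lib.MP_ff3ed7_lc.B

/-- The verifier with three more coins. -/
def verB3 : RE := tstB opsE (.reg 3) (.mod (.reg 2) (.mul (.num 32) (.mul (.reg 4) (.reg 3))))

lemma verB3_below : verB3.Below 5 := by
  simp [verB3, tstB, presB, presBG, chkG, celG, optG, affG, bMG, bBG, bbG, bRG, bvG, tblG, opsE,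
    RE.Below]

/-- **The language `LB` is in `SBP`**, with a smaller threshold. -/
theorem LB_mem3 : ∃ C : ℕ, ∀ k t : ℕ → ℕ, (∀ n, 2 * Nat.log 2 n + 7 ≤ k n) →
    (∀ n, C * (Nat.log 2 n + k n + 1) ^ 2 ≤ t n) → LB ∈ SBPt k t (fun n => Nat.log 2 n + 5) := by
  classical
  obtain ⟨P, C, hP⟩ := shell 36 10 (by norm_num) verB3 verB3_below
  refine ⟨C, fun k t hk ht => ⟨P, ?_, ?_⟩⟩
  · intro x y r hy hr
    obtain ⟨s, c, h1, h2⟩ := (hP x y r (k x.length) hy hr).1
    exact ⟨s, c, h1, h2.trans (ht _)⟩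
  · intro x
    have hacc : ∀ r < 2 ^ k x.length, (Acc P x 0 r ↔ 2 ^ 36 ≤ x.length ∧
        tstB (opsN (bit x)) (2 ^ levB x.length)
          (r % (32 * (2 ^ Nat.log 2 x.length * 2 ^ levB x.length))) = 1) :=
      fun r hr => (hP x 0 r (k x.length) (by positivity) hr).2
    rw [mem_LB]
    set N := x.length with hN
    set n := 2 ^ levB N with hn
    by_cases hN36 : 2 ^ 36 ≤ N
    · obtain ⟨l1, l2, l3⟩ := levB_spec hN36
      have hn1 : 1 ≤ n := Nat.one_le_two_pow
      set d := Nat.log 2 N + 5 + levB N with hd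
      have hD : 32 * (2 ^ Nat.log 2 N * n) = 2 ^ d := by
        rw [hn, hd, pow_add, pow_add]
        ring
      have hdk : 0 + d ≤ k N := by
        have h1 := hk N
        have h2 : levB N ≤ Nat.log 2 N := (Nat.div_le_self _ _).trans (Nat.sub_le _ _)
        omega
      have hpr : pr (k N) (fun r => Acc P x 0 r) =
          (((range (2 ^ d)).filter fun z => tstB (opsN (bit x)) n z = 1).card : ℝ) / 2 ^ d := by
        rw [← pr_eq, ← tPrB.2.2.2.1 (k N) 0 d (fun z => tstB (opsN (bit x)) n z = 1) hdk]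
        refine pr_congr fun r hr => ?_
        rw [hacc r hr, hD, pow_zero, Nat.div_one]
        exact ⟨fun h => h.2, fun h => ⟨hN36, h⟩⟩
      rw [hpr]
      have hu : ((1 : ℝ) / 2) ^ (Nat.log 2 N + 5) = (n : ℝ) / 2 ^ d := by
        rw [hd, pow_add 2 (Nat.log 2 N + 5) (levB N), one_div, inv_pow]
        rw [hn]
        push_cast
        field_simp
      rw [hu]
      have h2 : (0 : ℝ) < 2 ^ d := by positivity
      have hDn : 2 ^ 38 * n ^ 11 ≤ 2 ^ d := by
        rw [← hD]
        calc 2 ^ 38 * n ^ 11 = 4 * ((2 ^ 36 * n ^ 10) * n) := by ring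
          _ ≤ 4 * (2 ^ Nat.log 2 N * n) := Nat.mul_le_mul_left _ (Nat.mul_le_mul_right _ l1)
          _ ≤ 32 * (2 ^ Nat.log 2 N * n) := Nat.mul_le_mul_right _ (by norm_num)
      constructor
      · rintro ⟨-, h⟩
        have h3 := cnt_yes hn1 hDn (holds_tabB x n) h
        have h4 : (2 * n : ℝ) ≤ ((range (2 ^ d)).filter fun z =>
          tstB (opsN (bit x)) n z = 1).card := by exact_mod_cast h3
        rw [← mul_div_assoc]
        exact div_le_div_of_nonneg_right h4 h2.le
      · intro h
        have h5 : Valid (bSys n (bM n)) (tabB x n) ∧ (pat fun c => tabB x n (.pub c)).card ≤ n := by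
          by_contra hcon
          apply h
          refine ⟨hN36, ?_⟩
          by_cases hV : Valid (bSys n (bM n)) (tabB x n)
          · exact Or.inr (not_le.mp fun h6 => hcon ⟨hV, h6⟩)
          · exact Or.inl hV
        have h3 := (cnt_no hn1 (holds_tabB x n) h5.1 (2 ^ d)).trans h5.2
        have h4 : (((range (2 ^ d)).filter fun z =>
          tstB (opsN (bit x)) n z = 1).card : ℝ) ≤ n := by exact_mod_cast h3
        exact div_le_div_of_nonneg_right h4 h2.le
    · have hz : pr (k N) (fun r => Acc P x 0 r) = 0 := by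
        rw [pr_congr (B := fun _ => False) fun r hr => by
          rw [hacc r hr]
          exact ⟨fun h => hN36 h.1, fun h => h.elim⟩]
        unfold pr
        simp
      constructor
      · rintro ⟨h, -⟩
        exact absurd h hN36
      · intro _
        rw [hz]
        positivity

end Pool.Agent.Lib.MP_ff3ed7_lc.PLT
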