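import Pool.Agent.Lib.MP_ff3ed7_lc.SQ.Spec

/-!
# PROJECT SQ: counting the crossings (`S_Crs`)
-/

set_option autoImplicit false

open Finset

namespace Pool.Agent.Lib.MP_ff3ed7_lc.SQ

variable {Q Γ : Type}

open Classical in
/-- The crossing in the first step. -/
noncomputable def Crs_ind (M : SM Q Γ) (D : Set ℕ) (C : Cfg Q Γ) : ℕ :=
  match M.act C.q with
  | .visit j _ => if (C.h ∈ D ↔ j ∈ D) then 0 else 1
  | _ => 0

theorem Crs_succ (M : SM Q Γ) (D : Set ℕ) (C : Cfg Q Γ) (T : ℕ) :
    crs M D C (T + 1) = Crs_ind M D C + crs M D (M.step C) T := rfl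

theorem Crs_zero (M : SM Q Γ) (D : Set ℕ) (C : Cfg Q Γ) : crs M D C 0 = 0 := rfl

theorem Crs_mono_succ (M : SM Q Γ) (D : Set ℕ) (T : ℕ) :
    ∀ C : Cfg Q Γ, crs M D C T ≤ crs M D C (T + 1) := by
  induction T with
  | zero => intro C; exact Nat.zero_le _
  | succ T ih =>
    intro C
    rw [Crs_succ, Crs_succ]
    exact Nat.add_le_add_left (ih _) _

theorem Crs_mono (M : SM Q Γ) (D : Set ℕ) (C : Cfg Q Γ) : Monotone (crs M D C) :=
  monotone_nat_of_le_succ fun T => Crs_mono_succ M D T C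

open Classical in
/-- The cuts between two cells. -/
theorem Crs_count (a n h j : ℕ) (D : Fin n → Set ℕ) (hD : ∀ c i, i ∈ D c ↔ i < a + c.1) :
    ∑ c : Fin n, (if (h ∈ D c ↔ j ∈ D c) then 0 else 1) ≤ dst j h := by
  have h1 : ∑ c : Fin n, (if (h ∈ D c ↔ j ∈ D c) then 0 else 1) =
      (univ.filter fun c : Fin n => ¬ (h ∈ D c ↔ j ∈ D c)).card := by
    rw [card_filter]
    refine sum_congr rfl fun c _ => ?_
    by_cases hc : (h ∈ D c ↔ j ∈ D c)
    · rw [if_pos hc, if_neg (not_not.2 hc)]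
    · rw [if_neg hc, if_pos hc]
  rw [h1]
  have h2 : (univ.filter fun c : Fin n => ¬ (h ∈ D c ↔ j ∈ D c)).card ≤
      (Ioc (min h j) (max h j)).card := by
    refine card_le_card_of_injOn (fun c : Fin n => a + c.1) ?_ ?_
    · intro c hc
      have hc' := (mem_filter.1 (mem_coe.1 hc)).2
      rw [hD, hD] at hc'
      rw [mem_coe, mem_Ioc]
      show min h j < a + c.1 ∧ a + c.1 ≤ max h j
      omega
    · intro c _ c' _ hcc
      have h3 : a + c.1 = a + c'.1 := hcc
      exact Fin.ext (by omega)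
  refine h2.trans ?_
  rw [Nat.card_Ioc, dst]
  omega

theorem Crs_step (M : SM Q Γ) (a n : ℕ) (C : Cfg Q Γ) :
    ∑ c : Fin n, Crs_ind M {j | j < a + c.1} C + C.mot ≤ (M.step C).mot := by
  unfold SM.step Crs_ind
  cases hA : M.act C.q with
  | stop b => simp
  | jump q => simp
  | visit j f =>
    have h1 := Crs_count a n C.h j (fun c => {j | j < a + c.1}) (fun c i => Iff.rfl)
    simp only
    have h2 := Nat.add_le_add_right h1 C.mot
    rw [Nat.add_comm (dst j C.h)] at h2
    exact h2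

theorem Crs_sum (M : SM Q Γ) (a n T : ℕ) :
    ∀ C : Cfg Q Γ, ∑ c : Fin n, crs M {j | j < a + c.1} C T + C.mot ≤ (M.step^[T] C).mot := by
  induction T with
  | zero =>
    intro C
    simp only [Crs_zero, sum_const_zero, Nat.zero_add, Function.iterate_zero, id_eq, le_refl]
  | succ T ih =>
    intro C
    have h1 := ih (M.step C)
    have h2 := Crs_step M a n C
    rw [Function.iterate_succ_apply]
    refine le_trans ?_ h1
    have h3 : ∑ c : Fin n, crs M {j | j < a + c.1} C (T + 1) =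
        ∑ c : Fin n, Crs_ind M {j | j < a + c.1} C +
          ∑ c : Fin n, crs M {j | j < a + c.1} (M.step C) T := by
      rw [← sum_add_distrib]
      exact sum_congr rfl fun c _ => Crs_succ M _ C T
    rw [h3]
    omega

theorem tCrs : S_Crs := by
  classical
  intro Q Γ M τ t a n B hmot
  set C : Cfg Q Γ := ⟨M.start, 0, τ, 0⟩ with hC
  let p : Fin n → Prop := fun c => ∃ T, B < crs M {j | j < a + c.1} C T
  have hcard : Nat.card {c : Fin n // ∃ T, B < crs M {j | j < a + c.1} C T} =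
      (univ.filter p).card := by
    rw [Nat.card_eq_fintype_card, Fintype.card_subtype]
  rw [hcard]
  let Tc : Fin n → ℕ := fun c => if h : p c then h.choose else 0
  have hTc : ∀ c, p c → B < crs M {j | j < a + c.1} C (Tc c) := by
    intro c hc
    have h1 : Tc c = hc.choose := dif_pos hc
    rw [h1]
    exact hc.choose_spec
  let T := univ.sup Tc
  have hT : ∀ c, p c → B + 1 ≤ crs M {j | j < a + c.1} C T := fun c hc =>
    (hTc c hc).trans_le (Crs_mono M _ C (le_sup (mem_univ c)))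
  calc (univ.filter p).card * (B + 1) = ∑ _c ∈ univ.filter p, (B + 1) := by
        rw [sum_const, smul_eq_mul]
    _ ≤ ∑ c ∈ univ.filter p, crs M {j | j < a + c.1} C T :=
        sum_le_sum fun c hc => hT c (mem_filter.1 hc).2
    _ ≤ ∑ c : Fin n, crs M {j | j < a + c.1} C T :=
        sum_le_sum_of_subset (filter_subset _ _)
    _ ≤ ∑ c : Fin n, crs M {j | j < a + c.1} C T + C.mot := Nat.le_add_right _ _
    _ ≤ (M.step^[T] C).mot := Crs_sum M a n T C
    _ ≤ t := hmot T

end Pool.Agent.Lib.MP_ff3ed7_lc.SQ
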