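import Pool.Agent.Lib.MP_ff3ed7_lc.PLT.Lang3
import Pool.Agent.Lib.MP_ff3ed7_lc.B.Defs

/-!
# PROJECT SQ: verifiers with a sequential input head

The programs of `PLT.Lang`, with another cost: the input is in the cells `0, ..., n - 1`, cell `n` is
blank; the head moves from cell to cell, so reading cell `j` costs `|j - h|` more if the head is on
cell `h`; and every number in a register has at most `S` bits.
-/

set_option autoImplicit false

open Finset

namespace Pool.Agent.Lib.MP_ff3ed7_lc.SQ

open Pool.Agent.Lib.MP_ff3ed7_lc.PLT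

/-- The distance of two cells. -/
def dst (a b : ℕ) : ℕ := (a - b) + (b - a)

/-- `SRun x S p s h s' h' c`: on the input `x` the program `p`, started in the state `s` with the
head on cell `h`, stops in the state `s'` with the head on cell `h'` after time `c`, and all numbers
which are put into registers have at most `S` bits. -/
inductive SRun (x : List Bool) (S : ℕ) : Prog → (ℕ → ℕ) → ℕ → (ℕ → ℕ) → ℕ → ℕ → Prop
  | set (i : ℕ) (e : Expr) (s : ℕ → ℕ) (h : ℕ) (hS : e.val s < 2 ^ S) :
      SRun x S (.set i e) s h (Function.update s i (e.val s)) h (e.cost s)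
  | read (i : ℕ) (e : Expr) (s : ℕ → ℕ) (h : ℕ) (hS : bit x (e.val s) < 2 ^ S) :
      SRun x S (.read i e) s h (Function.update s i (bit x (e.val s))) (min (e.val s) x.length)
        (e.cost s + dst (min (e.val s) x.length) h)
  | seq {p q : Prog} {s s' s'' : ℕ → ℕ} {h h' h'' c c' : ℕ} (a : SRun x S p s h s' h' c)
      (b : SRun x S q s' h' s'' h'' c') : SRun x S (.seq p q) s h s'' h'' (c + c')
  | iteT {e : Expr} {p q : Prog} {s s' : ℕ → ℕ} {h h' c : ℕ} (he : e.val s ≠ 0)
      (a : SRun x S p s h s' h' c) : SRun x S (.ite e p q) s h s' h' (e.cost s + c)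
  | iteF {e : Expr} {p q : Prog} {s s' : ℕ → ℕ} {h h' c : ℕ} (he : e.val s = 0)
      (a : SRun x S q s h s' h' c) : SRun x S (.ite e p q) s h s' h' (e.cost s + c)
  | loopT {e : Expr} {p : Prog} {s s' s'' : ℕ → ℕ} {h h' h'' c c' : ℕ} (he : e.val s ≠ 0)
      (a : SRun x S p s h s' h' c) (b : SRun x S (.loop e p) s' h' s'' h'' c') :
      SRun x S (.loop e p) s h s'' h'' (e.cost s + c + c')
  | loopF {e : Expr} {p : Prog} {s : ℕ → ℕ} {h : ℕ} (he : e.val s = 0) :
      SRun x S (.loop e p) s h s h (e.cost s)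

/-- The program `P` stops within time `t` on the input `x`, the message `y` and the coins `r` (head
on cell `0`), and every register always contains a number of at most `S` bits. -/
def SStops (P : Prog) (x : List Bool) (y r t S : ℕ) : Prop :=
  x.length < 2 ^ S ∧ y < 2 ^ S ∧ r < 2 ^ S ∧
    ∃ s h c, SRun x S P (ini x.length y r) 0 s h c ∧ c ≤ t

/-- Sequential verifiers with `k n` bits of message and `k n` coins, running time `t n` and memory
`S n` (bits in each register) on the inputs of length `n`. -/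
def IsSVer (P : Prog) (k t S : ℕ → ℕ) : Prop :=
  ∀ (x : List Bool) (y r : ℕ), y < 2 ^ k x.length → r < 2 ^ k x.length →
    SStops P x y r (t x.length) (S x.length)

/-- Merlin-Arthur. -/
def MAs (k t S : ℕ → ℕ) : Set (Set (List Bool)) :=
  {L | ∃ P, IsSVer P k t S ∧ ∀ x : List Bool,
    (x ∈ L → ∃ y < 2 ^ k x.length, 2 / 3 ≤ pr (k x.length) fun r => Acc P x y r) ∧
    (x ∉ L → ∀ y < 2 ^ k x.length, pr (k x.length) (fun r => Acc P x y r) ≤ 1 / 3)}

/-- Arthur-Merlin. -/
def AMs (k t S : ℕ → ℕ) : Set (Set (List Bool)) :=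
  {L | ∃ P, IsSVer P k t S ∧ ∀ x : List Bool,
    (x ∈ L → 2 / 3 ≤ pr (k x.length) fun r => ∃ y < 2 ^ k x.length, Acc P x y r) ∧
    (x ∉ L → pr (k x.length) (fun r => ∃ y < 2 ^ k x.length, Acc P x y r) ≤ 1 / 3)}

/-- Small bounded error probability: the threshold is `2 ^ (-u)`. -/
def SBPs (k t S u : ℕ → ℕ) : Set (Set (List Bool)) :=
  {L | ∃ P, IsSVer P k t S ∧ ∀ x : List Bool,
    (x ∈ L → 2 * (1 / 2) ^ u x.length ≤ pr (k x.length) fun r => Acc P x 0 r) ∧
    (x ∉ L → pr (k x.length) (fun r => Acc P x 0 r) ≤ (1 / 2) ^ u x.length)}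

/-- `(n + 1) * (log_2 n + 2) ^ d`. -/
def ql (d n : ℕ) : ℕ := (n + 1) * pl d n

/-- `MA` with quasilinear time and polylogarithmic memory. -/
def MAql : Set (Set (List Bool)) := {L | ∃ c d e, L ∈ MAs (pl c) (ql d) (pl e)}

/-- `AM` with quasilinear time and polylogarithmic memory. -/
def AMql : Set (Set (List Bool)) := {L | ∃ c d e, L ∈ AMs (pl c) (ql d) (pl e)}

/-- `SBP` with quasilinear time and polylogarithmic memory. -/
def SBPql : Set (Set (List Bool)) := {L | ∃ c d e f, L ∈ SBPs (pl c) (ql d) (pl e) (pl f)}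

/-! ### Sequential machines (nonuniform) -/

/-- What a machine with the memory states `Q` and the tape symbols `Γ` does in a memory state: it
stops with an answer; or it changes the memory state; or it moves the head to cell `j` and, depending
on the symbol there, writes a symbol and changes the memory state. -/
inductive Act (Q Γ : Type) : Type
  | stop (b : Bool) : Act Q Γ
  | jump (q : Q) : Act Q Γ
  | visit (j : ℕ) (f : Γ → Γ × Q) : Act Q Γ

/-- Sequential machines; `sym` translates the input bits and the blank into tape symbols. -/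
structure SM (Q Γ : Type) where
  start : Q
  act : Q → Act Q Γ
  sym : Option Bool → Γ

/-- Configurations: memory state, position of the head, tape, distance covered by the head. -/
structure Cfg (Q Γ : Type) where
  q : Q
  h : ℕ
  tape : ℕ → Γ
  mot : ℕ

variable {Q Γ : Type}

/-- One step. -/
def SM.step (M : SM Q Γ) (C : Cfg Q Γ) : Cfg Q Γ :=
  match M.act C.q with
  | .stop _ => C
  | .jump q => ⟨q, C.h, C.tape, C.mot⟩
  | .visit j f => ⟨(f (C.tape j)).2, j, Function.update C.tape j (f (C.tape j)).1,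
      C.mot + dst j C.h⟩

/-- The configuration after `T` steps, on the tape `τ`. -/
def SM.run (M : SM Q Γ) (τ : ℕ → Γ) (T : ℕ) : Cfg Q Γ := M.step^[T] ⟨M.start, 0, τ, 0⟩

/-- The machine accepts. -/
def SM.Accτ (M : SM Q Γ) (τ : ℕ → Γ) : Prop := ∃ T, M.act (M.run τ T).q = .stop true

/-- The tape with the input `x`. -/
def SM.tp (M : SM Q Γ) {N : ℕ} (x : Fin N → Bool) (j : ℕ) : Γ :=
  M.sym (if h : j < N then some (x ⟨j, h⟩) else none)

/-- `f` has a Merlin-Arthur protocol with a message of `p` bits and sequential machines with `2 ^ s`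
memory states whose head covers a distance of at most `t` (one machine for every message and every
outcome of the coins). -/
def HasMAseq {N : ℕ} (f : (Fin N → Bool) → Bool) (p s t : ℕ) : Prop :=
  ∃ (r : ℕ) (Q Γ : Type) (_ : Fintype Q) (M : (Fin p → Bool) → (Fin r → Bool) → SM Q Γ),
    Fintype.card Q ≤ 2 ^ s ∧ (∀ m ρ (x : Fin N → Bool) T, ((M m ρ).run ((M m ρ).tp x) T).mot ≤ t) ∧
    (∀ x, f x = true → ∃ m, 2 / 3 ≤ prob r fun ρ => (M m ρ).Accτ ((M m ρ).tp x)) ∧
    (∀ x, f x = false → ∀ m, prob r (fun ρ => (M m ρ).Accτ ((M m ρ).tp x)) ≤ 1 / 3)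

/-- `f` has an `SBP` protocol with the threshold `2 ^ (-u)` and sequential machines with `2 ^ s`
memory states whose head covers a distance of at most `t`. -/
def HasSBPseq {N : ℕ} (f : (Fin N → Bool) → Bool) (u s t : ℕ) : Prop :=
  ∃ (r : ℕ) (Q Γ : Type) (_ : Fintype Q) (M : (Fin r → Bool) → SM Q Γ),
    Fintype.card Q ≤ 2 ^ s ∧ (∀ ρ (x : Fin N → Bool) T, ((M ρ).run ((M ρ).tp x) T).mot ≤ t) ∧
    (∀ x, f x = true → 2 * (1 / 2) ^ u ≤ prob r fun ρ => (M ρ).Accτ ((M ρ).tp x)) ∧
    (∀ x, f x = false → prob r (fun ρ => (M ρ).Accτ ((M ρ).tp x)) ≤ (1 / 2) ^ u)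

/-! ### The language with virtual words -/

/-- Bit number `i` of the virtual word of `z`. -/
def vbit (z : List Bool) (i : ℕ) : Bool :=
  let o := 2 ^ Nat.log 2 z.length / 2
  xor (if z.getD (o + 2 * i) false then z.getD (2 * i + 1) false else z.getD (2 * i) false)
    (z.getD (o + 2 * i + 1) false)

/-- The length of the virtual words of the words of length `N`. -/
def vl (N : ℕ) : ℕ := 2 ^ Nat.log 2 N / 8

/-- The virtual word of `z`. -/
def vw (z : List Bool) : List Bool := List.ofFn fun i : Fin (vl z.length) => vbit z i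

/-- The language of the words whose virtual words are in `L`. -/
def vlang (L : Set (List Bool)) : Set (List Bool) := {z | 8 ≤ z.length ∧ vw z ∈ L}

end Pool.Agent.Lib.MP_ff3ed7_lc.SQ
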