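import Pool.Agent.Lib.MP_ff3ed7_lc.PLT.G4
import Pool.Agent.Lib.MP_ff3ed7_lc.PLT.BLow
import Pool.Agent.Lib.MP_ff3ed7_lc.TotalComm
import Pool.Agent.Lib.MP_ff3ed7_lc.B.CCMA

/-!
# PROJECT SQ: communication lower bounds for the slices of the languages composed with the gadget
-/

set_option autoImplicit false

open Finset

namespace Pool.Agent.Lib.MP_ff3ed7_lc.SQ

open Pool.Agent.Lib.MP_ff3ed7_lc.B Pool.Agent.Lib.MP_ff3ed7_lc.PLT

/-- Functions which contain a given function, composed with the gadget. -/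
lemma lift_ext {ι κ : Type} {f : (ι → Bool) → Bool} {g : (κ → Bool) → Bool} (code : κ → ι)
    (hc : Function.Injective code) (hfg : ∀ x : ι → Bool, f x = g fun c => x (code c)) :
    ∃ u : (κ → Bool × Bool) → ι → Bool × Bool,
      (fun x y => lift f (u x) (u y)) = (lift g : (κ → Bool × Bool) → (κ → Bool × Bool) → Bool) := by
  classical
  let u : (κ → Bool × Bool) → ι → Bool × Bool := fun x i =>
    if h : ∃ c, code c = i then x h.choose else (false, false)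
  have hu : ∀ x c, u x (code c) = x c := by
    intro x c
    have h : ∃ c', code c' = code c := ⟨c, rfl⟩
    simp only [u, dif_pos h]
    rw [hc h.choose_spec]
  refine ⟨u, ?_⟩
  funext x y
  unfold lift
  rw [hfg]
  congr 1
  funext c
  unfold sel
  rw [hu, hu]

/-- The slices of `LG`. -/
theorem slice_LG {N : ℕ} (hN : 2 ^ 61 ≤ N) : ∃ (ℓ : ℕ) (cd' : Cl (2 ^ ℓ) → Fin N),
    pw 61 10 N = 2 ^ ℓ ∧ Function.Injective cd' ∧
    ∀ x : Fin N → Bool, slice LG N x = fb ℓ fun c => x (cd' c) := by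
  obtain ⟨ℓ, hℓ⟩ : ∃ ℓ, pw 61 10 N = 2 ^ ℓ := ⟨_, rfl⟩
  have hbd : 2 ^ 61 * (2 ^ ℓ) ^ 10 ≤ N := by
    rw [← hℓ]
    exact pw_le hN
  have hn1 : 1 ≤ 2 ^ ℓ := Nat.one_le_two_pow
  let cd' : Cl (2 ^ ℓ) → Fin N := fun c =>
    ⟨code (gR (2 ^ ℓ)) (gB (2 ^ ℓ)) (gP (gB (2 ^ ℓ))) (gX (gB (2 ^ ℓ))) (gQ (gB (2 ^ ℓ))) c,
      gcode_lt hn1 hbd c⟩
  refine ⟨ℓ, cd', hℓ, fun c c' h => gcode_inj hn1 (congrArg Fin.val h), fun x => ?_⟩
  have h1 : F2 (gtab (word x) (2 ^ ℓ)) = fb ℓ fun c => x (cd' c) := by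
    have h2 : gtab (word x) (2 ^ ℓ) = fun c => bz (x (cd' c)) := by
      funext c
      exact cast_bit_word x _
    rw [h2]
    rfl
  rw [← h1]
  rw [Bool.eq_iff_iff, slice_eq_true, word_mem_LG, hℓ]
  exact ⟨fun h => h.2, fun h => ⟨hN, h⟩⟩

/-- Communication lower bounds for `LG`. -/
theorem ccG : ∃ C : ℕ, ∀ m : ℕ,
    (∀ p c, HasMAcc (lift (slice LG m)) p c → m ≤ C * ((p + 1) * (c + 1)) ^ 10) ∧
    ∀ p c, HasPPcc (lift (slice LG m)) p c → m ≤ C * (p + c + 1) ^ 10 := by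
  refine ⟨2 ^ 61 * 144 ^ 10, fun m => ?_⟩
  have key : ∀ A : ℕ, 1 ≤ A → (2 ^ 61 ≤ m → pw 61 10 m ≤ 72 * A) →
      m ≤ 2 ^ 61 * 144 ^ 10 * A ^ 10 := by
    intro A hA h
    by_cases hN : 2 ^ 61 ≤ m
    · have h1 : m < 2 ^ 61 * (2 * pw 61 10 m) ^ 10 := lt_pw (by norm_num)
      have h2 : 2 * pw 61 10 m ≤ 144 * A := by
        have := h hN
        omega
      calc m ≤ 2 ^ 61 * (2 * pw 61 10 m) ^ 10 := h1.le
        _ ≤ 2 ^ 61 * (144 * A) ^ 10 := Nat.mul_le_mul_left _ (Nat.pow_le_pow_left h2 10)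
        _ = 2 ^ 61 * 144 ^ 10 * A ^ 10 := by rw [mul_pow, mul_assoc]
    · have h3 : 1 ≤ A ^ 10 := Nat.one_le_pow _ _ hA
      have h4 : 2 ^ 61 ≤ 2 ^ 61 * 144 ^ 10 * A ^ 10 := by
        rw [mul_assoc]
        refine Nat.le_mul_of_pos_right _ ?_
        positivity
      omega
  refine ⟨fun p c h => key _ (Nat.mul_pos (by omega) (by omega)) fun hm => ?_,
    fun p c h => key _ (by omega) fun hm => ?_⟩
  · obtain ⟨ℓ, cd', hℓ, hinj, hfg⟩ := slice_LG hm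
    obtain ⟨u, hu⟩ := lift_ext cd' hinj hfg
    have h1 := h.comap u u
    rw [hu] at h1
    classical
    have h2 := (exactDual_fb (ℓ := ℓ) (D := 2 ^ ℓ / 9) (Nat.mul_div_le _ _)).macc h1
    rw [hℓ]
    have h3 : 2 * (p + 2) * (c + 2) ≤ 8 * ((p + 1) * (c + 1)) := by nlinarith
    omega
  · obtain ⟨ℓ, cd', hℓ, hinj, hfg⟩ := slice_LG hm
    obtain ⟨u, hu⟩ := lift_ext cd' hinj hfg
    have h1 := h.comap u u
    rw [hu] at h1
    classical
    have h2 := (exactDual_fb (ℓ := ℓ) (D := 2 ^ ℓ / 9) (Nat.mul_div_le _ _)).ppcc h1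
    rw [hℓ]
    omega

/-- Communication lower bounds for `LB`. -/
theorem ccB : ∃ C : ℕ, ∀ m p c : ℕ,
    HasMAcc (lift (slice LB m)) p c → m ≤ C * ((p + 1) * (c + 1)) ^ 10 := by
  refine ⟨2 ^ 46 * 21 ^ 10, fun m p c h => ?_⟩
  have hpos : 1 ≤ ((p + 1) * (c + 1)) ^ 10 := Nat.one_le_pow _ _ (by positivity)
  by_cases hN : 2 ^ 36 ≤ m
  · obtain ⟨-, -, h3⟩ := levB_spec hN
    obtain ⟨u, hu⟩ := lift_ext (f := slice LB m) (g := fB (levB m))
      (fun c => (⟨codeB (2 ^ levB m) c, codeB_lt hN c⟩ : Fin m))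
      (fun a b h => (codeB_inj Nat.one_le_two_pow).1 (by simpa using h)) (slice_LB hN)
    have h1 := h.comap u u
    rw [hu] at h1
    have h2 : 2 ^ levB m ≤ 21 * ((p + 1) * (c + 1)) := by
      rcases Nat.lt_or_ge (2 ^ levB m) (p + 1) with h5 | h5
      · nlinarith
      · have := (sd (hid gap) (val gap) mom B.wt prd (levB m) (p + 1) (2 ^ levB m) (by omega)
          h5 le_rfl).macc h1
        rw [mul_assoc] at this
        exact this
    have h4 : (2 ^ levB m) ^ 10 ≤ (21 * ((p + 1) * (c + 1))) ^ 10 := Nat.pow_le_pow_left h2 10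
    rw [mul_pow] at h4
    calc m ≤ 2 ^ 46 * (2 ^ levB m) ^ 10 := h3.le
      _ ≤ 2 ^ 46 * (21 ^ 10 * ((p + 1) * (c + 1)) ^ 10) := Nat.mul_le_mul_left _ h4
      _ = _ := by ring
  · calc m ≤ 2 ^ 46 * 21 ^ 10 * 1 := by omega
      _ ≤ _ := Nat.mul_le_mul_left _ hpos

end Pool.Agent.Lib.MP_ff3ed7_lc.SQ
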