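import Pool.Agent.Lib.MP_ff3ed7_lc.SQ.Num
import Pool.Agent.Lib.MP_ff3ed7_lc.SQ.BUp3
import Pool.Agent.Lib.MP_ff3ed7_lc.SQ.LowG
import Pool.Agent.Lib.MP_ff3ed7_lc.PLT.Main

/-!
# PROJECT SQ: the languages of the separation
-/

set_option autoImplicit false

open Finset

namespace Pool.Agent.Lib.MP_ff3ed7_lc.SQ

open Pool.Agent.Lib.MP_ff3ed7_lc.PLT

lemma SRun.mono {x : List Bool} {S S' : ℕ} (hS : S ≤ S') {p : Prog} {s s' : ℕ → ℕ} {h h' c : ℕ}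
    (hr : SRun x S p s h s' h' c) : SRun x S' p s h s' h' c := by
  have h2 : 2 ^ S ≤ 2 ^ S' := Nat.pow_le_pow_right (by norm_num) hS
  induction hr with
  | set i e s h hb => exact .set i e s h (hb.trans_le h2)
  | read i e s h hb => exact .read i e s h (hb.trans_le h2)
  | seq a b iha ihb => exact .seq iha ihb
  | iteT he a ih => exact .iteT he ih
  | iteF he a ih => exact .iteF he ih
  | loopT he a b iha ihb => exact .loopT he iha ihb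
  | loopF he => exact .loopF he

lemma IsSVer.mono {P : Prog} {k t t' S S' : ℕ → ℕ} (h : IsSVer P k t S) (ht : ∀ n, t n ≤ t' n)
    (hS : ∀ n, S n ≤ S' n) : IsSVer P k t' S' := by
  intro x y r hy hr
  obtain ⟨h1, h2, h3, s, j, c, h4, h5⟩ := h x y r hy hr
  have h6 : 2 ^ S x.length ≤ 2 ^ S' x.length := Nat.pow_le_pow_right (by norm_num) (hS _)
  exact ⟨h1.trans_le h6, h2.trans_le h6, h3.trans_le h6, s, j, c, h4.mono (hS _), h5.trans (ht _)⟩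

lemma AMs_mono {k t t' S S' : ℕ → ℕ} (ht : ∀ n, t n ≤ t' n) (hS : ∀ n, S n ≤ S' n) :
    AMs k t S ⊆ AMs k t' S' := fun _ ⟨P, h1, h2⟩ => ⟨P, h1.mono ht hS, h2⟩

lemma SBPs_mono {k t t' S S' u : ℕ → ℕ} (ht : ∀ n, t n ≤ t' n) (hS : ∀ n, S n ≤ S' n) :
    SBPs k t S u ⊆ SBPs k t' S' u := fun _ ⟨P, h1, h2⟩ => ⟨P, h1.mono ht hS, h2⟩

lemma tm_mono (C : ℕ) {κ : ℕ → ℕ} (hκ : Monotone κ) :
    Monotone fun m => C * (Nat.log 2 m + κ (Nat.log 2 m + 3) + 1) ^ 2 := by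
  intro a b hab
  have h1 := Nat.log_mono_right (b := 2) hab
  have h2 := hκ (Nat.add_le_add_right h1 3)
  exact Nat.mul_le_mul_left _ (Nat.pow_le_pow_left (by omega) 2)

/-- The language in `AM`, for machines. -/
theorem fin_AM (hV : S_Vir) (hU : S_Up) : ∃ C, vlang LG ∈ AMs (fun n => Nat.log 2 n + 2)
    (fun n => C * (n + 1) * (Nat.log 2 n + 2) ^ 2) (fun n => C * (Nat.log 2 n + 2) ^ 2) := by
  obtain ⟨C, h1⟩ := gAM tPrB
  let κ : ℕ → ℕ := fun j => j + 2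
  have hκ : Monotone κ := fun a b h => Nat.add_le_add_right h 2
  have h2 : LG ∈ AMt (fun m => κ (Nat.log 2 m + 3))
      (fun m => C * (Nat.log 2 m + κ (Nat.log 2 m + 3) + 1) ^ 2) :=
    h1 _ _ (fun N => by simp only [κ]; omega) fun N => le_rfl
  obtain ⟨C', h3, -⟩ := hU hV LG κ κ _ (tm_mono C hκ)
  have h4 := h3 h2
  have key : ∀ n, C * (Nat.log 2 n + κ (Nat.log 2 n + 3) + 1) ^ 2 ≤
      9 * C * (Nat.log 2 n + 2) ^ 2 := by
    intro n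
    have h5 : Nat.log 2 n + κ (Nat.log 2 n + 3) + 1 ≤ 3 * (Nat.log 2 n + 2) := by
      simp only [κ]
      omega
    calc C * (Nat.log 2 n + κ (Nat.log 2 n + 3) + 1) ^ 2 ≤ C * (3 * (Nat.log 2 n + 2)) ^ 2 :=
          Nat.mul_le_mul_left _ (Nat.pow_le_pow_left h5 2)
      _ = 9 * C * (Nat.log 2 n + 2) ^ 2 := by ring
  have one : ∀ n, 1 ≤ (Nat.log 2 n + 2) ^ 2 := fun n => Nat.one_le_pow _ _ (by omega)
  refine ⟨C' * (9 * C + 1) + 9 * C + 5, AMs_mono (fun n => ?_) (fun n => ?_) h4⟩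
  · have h6 := key n
    have h7 := one n
    calc C' * (n + 1) * (C * (Nat.log 2 n + κ (Nat.log 2 n + 3) + 1) ^ 2 + 1)
        ≤ C' * (n + 1) * ((9 * C + 1) * (Nat.log 2 n + 2) ^ 2) :=
          Nat.mul_le_mul_left _ (by rw [add_mul, one_mul]; omega)
      _ = C' * (9 * C + 1) * ((n + 1) * (Nat.log 2 n + 2) ^ 2) := by ring
      _ ≤ (C' * (9 * C + 1) + 9 * C + 5) * ((n + 1) * (Nat.log 2 n + 2) ^ 2) :=
          Nat.mul_le_mul_right _ (by omega)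
      _ = _ := by ring
  · have h6 := key n
    have h8 : κ (Nat.log 2 n) + Nat.log 2 n + 4 ≤ 5 * (Nat.log 2 n + 2) ^ 2 := by
      simp only [κ]
      nlinarith
    calc C * (Nat.log 2 n + κ (Nat.log 2 n + 3) + 1) ^ 2 + κ (Nat.log 2 n) + Nat.log 2 n + 4
        ≤ (9 * C + 5) * (Nat.log 2 n + 2) ^ 2 := by rw [add_mul]; omega
      _ ≤ _ := Nat.mul_le_mul_right _ (by omega)

/-- The language in `SBP`, for machines, with `κ (log_2 n)` coins. -/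
theorem fin_SBP' (hV : S_Vir) (hU : S_Up) {κ : ℕ → ℕ} (hκ : Monotone κ)
    (h : ∀ j, 2 * j + 7 ≤ κ (j + 3)) : ∃ C, vlang LB ∈ SBPs (fun n => κ (Nat.log 2 n))
    (fun n => C * (n + 1) * (Nat.log 2 n + κ (Nat.log 2 n + 3) + 1) ^ 2)
    (fun n => C * (Nat.log 2 n + κ (Nat.log 2 n + 3) + 1) ^ 2) (fun n => Nat.log 2 n + 2) := by
  obtain ⟨C, h1⟩ := LB_mem3
  let υ : ℕ → ℕ := fun j => j + 2
  have h2 : LB ∈ SBPt (fun m => κ (Nat.log 2 m + 3))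
      (fun m => C * (Nat.log 2 m + κ (Nat.log 2 m + 3) + 1) ^ 2)
      (fun m => υ (Nat.log 2 m + 3)) := h1 _ _ (fun N => h _) fun N => le_rfl
  obtain ⟨C', -, h3⟩ := hU hV LB κ υ _ (tm_mono C hκ)
  have h4 := h3 h2
  have kl : ∀ n, κ (Nat.log 2 n) + Nat.log 2 n + 4 ≤
      5 * (Nat.log 2 n + κ (Nat.log 2 n + 3) + 1) ^ 2 := by
    intro n
    have h5 := hκ (Nat.le_add_right (Nat.log 2 n) 3)
    nlinarith
  refine ⟨C' * (C + 1) + C + 5, SBPs_mono (fun n => ?_) (fun n => ?_) h4⟩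
  · set w := Nat.log 2 n + κ (Nat.log 2 n + 3) + 1 with hw
    have h7 : 1 ≤ w ^ 2 := Nat.one_le_pow _ _ (by omega)
    calc C' * (n + 1) * (C * w ^ 2 + 1) ≤ C' * (n + 1) * ((C + 1) * w ^ 2) :=
          Nat.mul_le_mul_left _ (by rw [add_mul, one_mul]; omega)
      _ = C' * (C + 1) * ((n + 1) * w ^ 2) := by ring
      _ ≤ (C' * (C + 1) + C + 5) * ((n + 1) * w ^ 2) := Nat.mul_le_mul_right _ (by omega)
      _ = _ := by ring
  · have h8 := kl n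
    set w := Nat.log 2 n + κ (Nat.log 2 n + 3) + 1 with hw
    calc C * w ^ 2 + κ (Nat.log 2 n) + Nat.log 2 n + 4 ≤ (C + 5) * w ^ 2 := by
          rw [add_mul]
          omega
      _ ≤ _ := Nat.mul_le_mul_right _ (by omega)

/-- The language in `SBP`, for machines. -/
theorem fin_SBP (hV : S_Vir) (hU : S_Up) : ∃ C, vlang LB ∈ SBPs (fun n => 2 * (Nat.log 2 n + 2))
    (fun n => C * (n + 1) * (Nat.log 2 n + 2) ^ 2) (fun n => C * (Nat.log 2 n + 2) ^ 2)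
    (fun n => Nat.log 2 n + 2) := by
  obtain ⟨C, h1⟩ := fin_SBP' hV hU (κ := fun j => 2 * (j + 2))
    (fun a b h => Nat.mul_le_mul_left _ (Nat.add_le_add_right h 2)) fun j => by omega
  have key : ∀ n, (Nat.log 2 n + 2 * (Nat.log 2 n + 3 + 2) + 1) ^ 2 ≤
      36 * (Nat.log 2 n + 2) ^ 2 := by
    intro n
    calc (Nat.log 2 n + 2 * (Nat.log 2 n + 3 + 2) + 1) ^ 2 ≤ (6 * (Nat.log 2 n + 2)) ^ 2 :=
          Nat.pow_le_pow_left (by omega) 2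
      _ = 36 * (Nat.log 2 n + 2) ^ 2 := by ring
  refine ⟨C * 36, SBPs_mono (fun n => ?_) (fun n => ?_) h1⟩
  · calc C * (n + 1) * (Nat.log 2 n + 2 * (Nat.log 2 n + 3 + 2) + 1) ^ 2
        ≤ C * (n + 1) * (36 * (Nat.log 2 n + 2) ^ 2) := Nat.mul_le_mul_left _ (key n)
      _ = _ := by ring
  · calc C * (Nat.log 2 n + 2 * (Nat.log 2 n + 3 + 2) + 1) ^ 2
        ≤ C * (36 * (Nat.log 2 n + 2) ^ 2) := Nat.mul_le_mul_left _ (key n)
      _ = _ := by ring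

lemma mem_AMql (hV : S_Vir) (hU : S_Up) : vlang LG ∈ AMql := by
  obtain ⟨C, h⟩ := fin_AM hV hU
  refine ⟨1, 2 + C, 2 + C, ?_⟩
  have e : pl 1 = fun n => Nat.log 2 n + 2 := funext pl_one
  rw [e]
  refine AMs_mono (fun n => ?_) (fun n => ?_) h
  · calc C * (n + 1) * (Nat.log 2 n + 2) ^ 2 = (n + 1) * (C * pl 2 n) := by
          unfold pl
          ring
      _ ≤ ql (2 + C) n := Nat.mul_le_mul_left _ (pl_mul C 2 n)
  · exact pl_mul C 2 n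

lemma mem_SBPql (hV : S_Vir) (hU : S_Up) : vlang LB ∈ SBPql := by
  obtain ⟨C, h⟩ := fin_SBP' hV hU (κ := fun j => (j + 2) ^ 2)
    (fun a b h => Nat.pow_le_pow_left (Nat.add_le_add_right h 2) 2) fun j => by nlinarith
  have key : ∀ n, (Nat.log 2 n + (Nat.log 2 n + 3 + 2) ^ 2 + 1) ^ 2 ≤ 64 * pl 4 n := by
    intro n
    have h1 : Nat.log 2 n + (Nat.log 2 n + 3 + 2) ^ 2 + 1 ≤ 8 * (Nat.log 2 n + 2) ^ 2 := by
      nlinarith
    calc (Nat.log 2 n + (Nat.log 2 n + 3 + 2) ^ 2 + 1) ^ 2 ≤ (8 * (Nat.log 2 n + 2) ^ 2) ^ 2 :=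
          Nat.pow_le_pow_left h1 2
      _ = 64 * pl 4 n := by
        unfold pl
        ring
  refine ⟨2, 4 + C * 64, 4 + C * 64, 1, ?_⟩
  have e : pl 1 = fun n => Nat.log 2 n + 2 := funext pl_one
  rw [e]
  refine SBPs_mono (fun n => ?_) (fun n => ?_) h
  · calc C * (n + 1) * (Nat.log 2 n + (Nat.log 2 n + 3 + 2) ^ 2 + 1) ^ 2
        ≤ C * (n + 1) * (64 * pl 4 n) := Nat.mul_le_mul_left _ (key n)
      _ = (n + 1) * (C * 64 * pl 4 n) := by ring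
      _ ≤ ql (4 + C * 64) n := Nat.mul_le_mul_left _ (pl_mul _ _ n)
  · calc C * (Nat.log 2 n + (Nat.log 2 n + 3 + 2) ^ 2 + 1) ^ 2 ≤ C * (64 * pl 4 n) :=
          Nat.mul_le_mul_left _ (key n)
      _ = C * 64 * pl 4 n := by ring
      _ ≤ _ := pl_mul _ _ n

/-- The lower bounds for the language in `AM`. -/
theorem fin_lowG (hR : S_Red) (h1 : S_Prt) (h2 : S_Crs) (h3 : S_Avg) (h4 : S_Mj) :
    ∃ C, ∀ n, (∀ p s t, HasMAseq (slice (vlang LG) n) p s t →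
        n ≤ C * ((p + 1) * (s + 1) * (t / n + 1)) ^ 10) ∧
      ∀ u s t, HasSBPseq (slice (vlang LG) n) u s t →
        n ≤ C * (u + (s + 1) * (t / n + 1)) ^ 10 := by
  obtain ⟨C, hC⟩ := ccG
  obtain ⟨C1, hC1⟩ := low_MA hR h1 h2 h3 h4 fun m => (hC m).1
  obtain ⟨C2, hC2⟩ := low_SBP hR h1 h2 h3 h4 fun m => (hC m).2
  refine ⟨C1 + C2, fun n => ⟨fun p s t h => (hC1 n p s t h).trans ?_,
    fun u s t h => (hC2 n u s t h).trans ?_⟩⟩
  · exact Nat.mul_le_mul_right _ (Nat.le_add_right _ _)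
  · exact Nat.mul_le_mul_right _ (Nat.le_add_left _ _)

/-- The lower bounds for the language in `SBP`. -/
theorem fin_lowB (hR : S_Red) (h1 : S_Prt) (h2 : S_Crs) (h3 : S_Avg) (h4 : S_Mj) :
    ∃ C, ∀ n p s t, HasMAseq (slice (vlang LB) n) p s t →
        n ≤ C * ((p + 1) * (s + 1) * (t / n + 1)) ^ 10 := by
  obtain ⟨C, hC⟩ := ccB
  exact low_MA hR h1 h2 h3 h4 hC

end Pool.Agent.Lib.MP_ff3ed7_lc.SQ
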