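import Pool.Agent.Lib.MP_ff3ed7_lc.SQ.Spec

/-!
# SQ/Mj: amplification of protocols
-/

set_option autoImplicit false

open Finset

namespace Pool.Agent.Lib.MP_ff3ed7_lc.SQ

open Pool.Agent.Lib.MP_ff3ed7_lc.PLT
open Pool.Agent.Lib.MP_ff3ed7_lc.B (HasSBPcc)

section Protocols

variable {X Y : Type}

/-- Sequential composition: the second protocol depends on the answer of the first one. -/
private def Mj_bind (k : Bool → Prot X Y) : Prot X Y → Prot X Y
  | .leaf b => k b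
  | .alice a next => .alice a fun s => Mj_bind k (next s)
  | .bob b next => .bob b fun s => Mj_bind k (next s)

private theorem Mj_bind_eval (k : Bool → Prot X Y) (x : X) (y : Y) (P : Prot X Y) :
    (Mj_bind k P).eval x y = (k (P.eval x y)).eval x y := by
  induction P with
  | leaf b => rfl
  | alice a next ih => exact ih (a x)
  | bob b next ih => exact ih (b y)

private theorem Mj_leaf_cost (b : Bool) (c : ℕ) : (Prot.leaf b : Prot X Y).CostLE c := trivial

private theorem Mj_cost_mono (P : Prot X Y) : ∀ {c c' : ℕ}, P.CostLE c → c ≤ c' → P.CostLE c' := by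
  induction P with
  | leaf b => intros; trivial
  | alice a next ih =>
    intro c c' h hc
    exact ⟨lt_of_lt_of_le h.1 hc, fun s => ih s (h.2 s) (Nat.sub_le_sub_right hc 1)⟩
  | bob b next ih =>
    intro c c' h hc
    exact ⟨lt_of_lt_of_le h.1 hc, fun s => ih s (h.2 s) (Nat.sub_le_sub_right hc 1)⟩

private theorem Mj_bind_cost (k : Bool → Prot X Y) (c' : ℕ) (hk : ∀ b, (k b).CostLE c')
    (P : Prot X Y) : ∀ {c : ℕ}, P.CostLE c → (Mj_bind k P).CostLE (c + c') := by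
  induction P with
  | leaf b =>
    intro c _
    exact Mj_cost_mono _ (hk b) (Nat.le_add_left _ _)
  | alice a next ih =>
    intro c h
    refine ⟨Nat.add_pos_left h.1 _, fun s => ?_⟩
    have h1 := ih s (h.2 s)
    have h2 : c - 1 + c' = c + c' - 1 := by
      have := h.1
      omega
    rw [h2] at h1
    exact h1
  | bob b next ih =>
    intro c h
    refine ⟨Nat.add_pos_left h.1 _, fun s => ?_⟩
    have h1 := ih s (h.2 s)
    have h2 : c - 1 + c' = c + c' - 1 := by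
      have := h.1
      omega
    rw [h2] at h1
    exact h1

end Protocols

section Expectation

/-- The expectation over `r` random bits. -/
private noncomputable def Mj_E (r : ℕ) (f : (Fin r → Bool) → ℝ) : ℝ := (∑ ρ, f ρ) / 2 ^ r

/-- The indicator of a bit. -/
private def Mj_i (b : Bool) : ℝ := if b = true then 1 else 0

/-- The first coins. -/
private def Mj_l {a b : ℕ} (ρ : Fin (a + b) → Bool) (i : Fin a) : Bool := ρ (Fin.castAdd b i)

/-- The last coins. -/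
private def Mj_r {a b : ℕ} (ρ : Fin (a + b) → Bool) (i : Fin b) : Bool := ρ (Fin.natAdd a i)

private theorem Mj_prob (r : ℕ) (s : (Fin r → Bool) → Bool) :
    prob r (fun ρ => s ρ = true) = Mj_E r fun ρ => Mj_i (s ρ) := by
  classical
  unfold prob Mj_E Mj_i
  rw [Nat.card_eq_fintype_card, Fintype.card_subtype, Finset.sum_boole]

private theorem Mj_E_mul (a b : ℕ) (f : (Fin a → Bool) → ℝ) (g : (Fin b → Bool) → ℝ) :
    Mj_E (a + b) (fun ρ => f (Mj_l ρ) * g (Mj_r ρ)) = Mj_E a f * Mj_E b g := by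
  unfold Mj_E
  have h : ∑ ρ : Fin (a + b) → Bool, f (Mj_l ρ) * g (Mj_r ρ) = (∑ ρ, f ρ) * ∑ ρ, g ρ := by
    rw [Finset.sum_mul_sum,
      ← Fintype.sum_prod_type' (fun (x : Fin a → Bool) (y : Fin b → Bool) => f x * g y)]
    refine (Fintype.sum_equiv (Fin.appendEquiv a b) _ _ fun x => ?_).symm
    have h1 : Mj_l (Fin.appendEquiv a b x) = x.1 := by
      funext i
      simp [Mj_l, Fin.appendEquiv]
    have h2 : Mj_r (Fin.appendEquiv a b x) = x.2 := by
      funext i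
      simp [Mj_r, Fin.appendEquiv]
    rw [h1, h2]
  rw [h, pow_add]
  field_simp

private theorem Mj_E_add (r : ℕ) (f g : (Fin r → Bool) → ℝ) :
    Mj_E r (fun ρ => f ρ + g ρ) = Mj_E r f + Mj_E r g := by
  unfold Mj_E
  rw [Finset.sum_add_distrib, add_div]

private theorem Mj_E_smul (r : ℕ) (c : ℝ) (f : (Fin r → Bool) → ℝ) :
    Mj_E r (fun ρ => c * f ρ) = c * Mj_E r f := by
  unfold Mj_E
  rw [← Finset.mul_sum, mul_div_assoc]

private theorem Mj_E_one (r : ℕ) : Mj_E r (fun _ => 1) = 1 := by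
  unfold Mj_E
  simp

private theorem Mj_E_nonneg (r : ℕ) (f : (Fin r → Bool) → ℝ) (h : ∀ ρ, 0 ≤ f ρ) :
    0 ≤ Mj_E r f :=
  div_nonneg (Finset.sum_nonneg fun ρ _ => h ρ) (by positivity)

private theorem Mj_E_le_one (r : ℕ) (f : (Fin r → Bool) → ℝ) (h : ∀ ρ, f ρ ≤ 1) :
    Mj_E r f ≤ 1 := by
  unfold Mj_E
  rw [div_le_one (by positivity)]
  calc ∑ ρ, f ρ ≤ ∑ _ρ : Fin r → Bool, (1 : ℝ) := Finset.sum_le_sum fun ρ _ => h ρ
    _ = 2 ^ r := by simp

private theorem Mj_i_nonneg (b : Bool) : 0 ≤ Mj_i b := by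
  cases b <;> simp [Mj_i]

private theorem Mj_i_le_one (b : Bool) : Mj_i b ≤ 1 := by
  cases b <;> simp [Mj_i]

private theorem Mj_maj (a b c : Bool) : Mj_i ((a && b) || (a && c) || (b && c)) =
    Mj_i a * Mj_i b + (Mj_i a * Mj_i c + (Mj_i b * Mj_i c + -2 * (Mj_i a * (Mj_i b * Mj_i c)))) := by
  cases a <;> cases b <;> cases c <;> norm_num [Mj_i]

private theorem Mj_and (a b : Bool) : Mj_i (a && b) = Mj_i a * Mj_i b := by
  cases a <;> cases b <;> norm_num [Mj_i]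

/-- The probability that the majority of three independent runs accepts. -/
private theorem Mj_three (r : ℕ) (s : (Fin r → Bool) → Bool) :
    Mj_E (r + (r + r)) (fun ρ => Mj_i ((s (Mj_l ρ) && s (Mj_l (Mj_r ρ))) ||
      (s (Mj_l ρ) && s (Mj_r (Mj_r ρ))) || (s (Mj_l (Mj_r ρ)) && s (Mj_r (Mj_r ρ))))) =
    3 * (Mj_E r fun ρ => Mj_i (s ρ)) ^ 2 - 2 * (Mj_E r fun ρ => Mj_i (s ρ)) ^ 3 := by
  set q := Mj_E r fun ρ => Mj_i (s ρ) with hq
  simp only [Mj_maj]
  rw [Mj_E_add, Mj_E_add, Mj_E_add, Mj_E_smul]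
  have e1 : Mj_E (r + (r + r)) (fun ρ => Mj_i (s (Mj_l ρ)) * Mj_i (s (Mj_l (Mj_r ρ)))) = q * q := by
    have h := Mj_E_mul r (r + r) (fun ρ => Mj_i (s ρ)) (fun ρ => Mj_i (s (Mj_l ρ)) * 1)
    rw [Mj_E_mul r r (fun ρ => Mj_i (s ρ)) (fun _ => 1), Mj_E_one, ← hq] at h
    simpa using h
  have e2 : Mj_E (r + (r + r)) (fun ρ => Mj_i (s (Mj_l ρ)) * Mj_i (s (Mj_r (Mj_r ρ)))) = q * q := by
    have h := Mj_E_mul r (r + r) (fun ρ => Mj_i (s ρ)) (fun ρ => 1 * Mj_i (s (Mj_r ρ)))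
    rw [Mj_E_mul r r (fun _ => 1) (fun ρ => Mj_i (s ρ)), Mj_E_one, ← hq] at h
    simpa using h
  have e3 : Mj_E (r + (r + r)) (fun ρ => Mj_i (s (Mj_l (Mj_r ρ))) * Mj_i (s (Mj_r (Mj_r ρ)))) =
      q * q := by
    have h := Mj_E_mul r (r + r) (fun _ => 1) (fun ρ => Mj_i (s (Mj_l ρ)) * Mj_i (s (Mj_r ρ)))
    rw [Mj_E_mul r r (fun ρ => Mj_i (s ρ)) (fun ρ => Mj_i (s ρ)), Mj_E_one, ← hq] at h
    simpa using h
  have e4 : Mj_E (r + (r + r)) (fun ρ => Mj_i (s (Mj_l ρ)) * (Mj_i (s (Mj_l (Mj_r ρ))) *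
      Mj_i (s (Mj_r (Mj_r ρ))))) = q * (q * q) := by
    have h := Mj_E_mul r (r + r) (fun ρ => Mj_i (s ρ))
      (fun ρ => Mj_i (s (Mj_l ρ)) * Mj_i (s (Mj_r ρ)))
    rw [Mj_E_mul r r (fun ρ => Mj_i (s ρ)) (fun ρ => Mj_i (s ρ)), ← hq] at h
    exact h
  rw [e1, e2, e3, e4]
  ring

end Expectation

/-- **Mj**: amplification of protocols. -/
theorem tMj : S_Mj := by
  constructor
  · intro X Y F p c r P hc hyes hno
    refine ⟨r + (r + r), fun m ρ => Mj_bind (fun b1 => Mj_bind (fun b2 => Mj_bind (fun b3 =>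
      .leaf ((b1 && b2) || (b1 && b3) || (b2 && b3))) (P m (Mj_r (Mj_r ρ))))
      (P m (Mj_l (Mj_r ρ)))) (P m (Mj_l ρ)), ?_, ?_, ?_⟩
    · intro m ρ
      have h3 : ∀ b1 b2, (Mj_bind (fun b3 => Prot.leaf ((b1 && b2) || (b1 && b3) || (b2 && b3)))
          (P m (Mj_r (Mj_r ρ)))).CostLE (c + 0) := fun b1 b2 =>
        Mj_bind_cost (fun b3 => Prot.leaf ((b1 && b2) || (b1 && b3) || (b2 && b3))) 0
          (fun _ => Mj_leaf_cost _ 0) _ (hc m _)
      have h2 := Mj_bind_cost _ (c + (c + 0)) (fun b1 => Mj_bind_cost _ (c + 0) (fun b2 => h3 b1 b2)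
        (P m (Mj_l (Mj_r ρ))) (hc m _)) (P m (Mj_l ρ)) (hc m _)
      have e : c + (c + (c + 0)) = 3 * c := by ring
      rw [e] at h2
      exact h2
    · intro x y hF
      obtain ⟨m, hm⟩ := hyes x y hF
      refine ⟨m, ?_⟩
      simp only [Mj_bind_eval, Prot.eval]
      rw [Mj_prob] at hm
      rw [Mj_prob (r + (r + r)), Mj_three r (fun ρ => (P m ρ).eval x y)]
      have h1 : (Mj_E r fun ρ => Mj_i ((P m ρ).eval x y)) ≤ 1 :=
        Mj_E_le_one _ _ fun _ => Mj_i_le_one _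
      set q := Mj_E r fun ρ => Mj_i ((P m ρ).eval x y)
      have h2 : 0 ≤ 3 * (q + 33 / 50) - 2 * (q ^ 2 + q * (33 / 50) + (33 / 50) ^ 2) := by
        nlinarith
      nlinarith [mul_nonneg (sub_nonneg.2 hm) h2]
    · intro x y hF m
      have hm := hno x y hF m
      simp only [Mj_bind_eval, Prot.eval]
      rw [Mj_prob] at hm
      rw [Mj_prob (r + (r + r)), Mj_three r (fun ρ => (P m ρ).eval x y)]
      have h0 : 0 ≤ (Mj_E r fun ρ => Mj_i ((P m ρ).eval x y)) :=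
        Mj_E_nonneg _ _ fun _ => Mj_i_nonneg _
      set q := Mj_E r fun ρ => Mj_i ((P m ρ).eval x y)
      have h1 : 0 ≤ q ^ 3 := pow_nonneg h0 3
      nlinarith [mul_nonneg h0 (sub_nonneg.2 hm)]
  · intro X Y F u c r P hc hyes hno
    refine ⟨fun ρ => Mj_bind (fun b1 => Mj_bind (fun b2 => .leaf (b1 && b2)) (P (Mj_r ρ)))
      (P (Mj_l ρ)), ?_, ?_, ?_⟩
    · intro ρ
      have h2 := Mj_bind_cost (fun b1 => Mj_bind (fun b2 => Prot.leaf (b1 && b2)) (P (Mj_r ρ)))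
        (c + 0) (fun b1 => Mj_bind_cost (fun b2 => Prot.leaf (b1 && b2)) 0
          (fun _ => Mj_leaf_cost _ 0) _ (hc _)) (P (Mj_l ρ)) (hc _)
      have e : c + (c + 0) = 2 * c := by ring
      rw [e] at h2
      exact h2
    · intro x y hF
      have hm := hyes x y hF
      simp only [Mj_bind_eval, Prot.eval]
      rw [Mj_prob] at hm
      rw [Mj_prob (r + r)]
      simp only [Mj_and]
      rw [Mj_E_mul r r (fun ρ => Mj_i ((P ρ).eval x y)) (fun ρ => Mj_i ((P ρ).eval x y))]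
      set q := Mj_E r fun ρ => Mj_i ((P ρ).eval x y)
      have ht : (0 : ℝ) < (1 / 2) ^ u := by positivity
      have e : ((1 : ℝ) / 2) ^ (2 * u) = (1 / 2) ^ u * (1 / 2) ^ u := by
        rw [two_mul, pow_add]
      rw [e]
      set t : ℝ := (1 / 2) ^ u
      have h1 : 0 ≤ 99 / 100 * (2 * t) := by positivity
      have h2 := mul_le_mul hm hm h1 (h1.trans hm)
      nlinarith [mul_pos ht ht]
    · intro x y hF
      have hm := hno x y hF
      simp only [Mj_bind_eval, Prot.eval]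
      rw [Mj_prob] at hm
      rw [Mj_prob (r + r)]
      simp only [Mj_and]
      rw [Mj_E_mul r r (fun ρ => Mj_i ((P ρ).eval x y)) (fun ρ => Mj_i ((P ρ).eval x y))]
      have h0 : 0 ≤ (Mj_E r fun ρ => Mj_i ((P ρ).eval x y)) :=
        Mj_E_nonneg _ _ fun _ => Mj_i_nonneg _
      rw [two_mul, pow_add]
      exact mul_le_mul hm hm h0 (by positivity)

end Pool.Agent.Lib.MP_ff3ed7_lc.SQ
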