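import Pool.Agent.Lib.MP_ff3ed7_lc.SQ.Spec
import Pool.Agent.Lib.MP_ff3ed7_lc.PLT.Cls
import Pool.Agent.Lib.MP_ff3ed7_lc.B.CC

/-!
# PROJECT SQ: lower bounds for machines; uniform verifiers are nonuniform ones; growth
-/

set_option autoImplicit false

open Finset

namespace Pool.Agent.Lib.MP_ff3ed7_lc.SQ

open Pool.Agent.Lib.MP_ff3ed7_lc.PLT
open Pool.Agent.Lib.MP_ff3ed7_lc.B (HasSBPcc)

lemma num_len {N : ℕ} (h : 8 ≤ N) : N ≤ 16 * vl N ∧ N ≤ 8 * 2 ^ (Nat.log 2 N - 2) := by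
  have h3 : 3 ≤ Nat.log 2 N := by
    have h1 := Nat.log_mono_right (b := 2) h
    have h2 : Nat.log 2 8 = 3 := by
      rw [show (8 : ℕ) = 2 ^ 3 by norm_num]
      exact Nat.log_pow (by norm_num) 3
    omega
  obtain ⟨j, hj⟩ : ∃ j, Nat.log 2 N = j + 3 := ⟨Nat.log 2 N - 3, by omega⟩
  have h4 : N < 2 ^ (Nat.log 2 N + 1) := Nat.lt_pow_succ_log_self (by norm_num) N
  unfold vl
  rw [hj] at h4 ⊢
  have h5 : 2 ^ (j + 3) / 8 = 2 ^ j := by
    rw [pow_add]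
    norm_num
  have h6 : j + 3 - 2 = j + 1 := by omega
  have h7 : (2 : ℕ) ^ (j + 3 + 1) = 16 * 2 ^ j := by ring
  have h8 : (2 : ℕ) ^ (j + 1) = 2 * 2 ^ j := by ring
  rw [h5, h6]
  omega

lemma num_div {N t : ℕ} (h : 8 ≤ N) :
    100 * t / 2 ^ (Nat.log 2 N - 2) + 1 ≤ 801 * (t / N + 1) := by
  obtain ⟨-, h1⟩ := num_len h
  set w := 2 ^ (Nat.log 2 N - 2) with hw
  have hw0 : 0 < w := by positivity
  have h2 : t < N * (t / N + 1) := Nat.lt_mul_div_succ t (by omega)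
  have h3 : 100 * t ≤ 800 * (t / N + 1) * w := by
    have h4 : N * (t / N + 1) ≤ 8 * w * (t / N + 1) := Nat.mul_le_mul_right _ h1
    have h5 : 100 * t ≤ 100 * (8 * w * (t / N + 1)) := by omega
    calc 100 * t ≤ 100 * (8 * w * (t / N + 1)) := h5
      _ = 800 * (t / N + 1) * w := by ring
  have h4 : 100 * t / w ≤ 800 * (t / N + 1) := Nat.div_le_of_le_mul (h3.trans_eq (mul_comm _ _))
  generalize t / N = q at h4 ⊢
  omega

/-- **Lower bounds for `MA` machines.** -/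
theorem low_MA (hR : S_Red) (h1 : S_Prt) (h2 : S_Crs) (h3 : S_Avg) (h4 : S_Mj)
    {L : Set (List Bool)} {C : ℕ}
    (hC : ∀ m p c, HasMAcc (lift (slice L m)) p c → m ≤ C * ((p + 1) * (c + 1)) ^ 10) :
    ∃ C', ∀ N p s t, HasMAseq (slice (vlang L) N) p s t →
      N ≤ C' * ((p + 1) * (s + 1) * (t / N + 1)) ^ 10 := by
  refine ⟨16 * (C * 2404 ^ 10) + 8, fun N p s t h => ?_⟩
  set W := (p + 1) * (s + 1) * (t / N + 1) with hW
  have hW1 : 1 ≤ W := Nat.mul_pos (Nat.mul_pos p.succ_pos s.succ_pos) (Nat.succ_pos _)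
  have hW10 : 1 ≤ W ^ 10 := Nat.one_le_pow _ _ hW1
  rcases Nat.lt_or_ge N 8 with h8 | h8
  · calc N ≤ 8 * 1 := by omega
      _ ≤ (16 * (C * 2404 ^ 10) + 8) * W ^ 10 := Nat.mul_le_mul (Nat.le_add_left _ _) hW10
  · have h5 := hC _ _ _ ((hR h1 h2 h3 h4 L N s t h8).1 p h)
    have h6 := num_div (t := t) h8
    set v := 100 * t / 2 ^ (Nat.log 2 N - 2) + 1 with hv
    have h7 : 3 * (v * (s + 1)) + 1 ≤ 2404 * ((s + 1) * (t / N + 1)) := by
      have h9 : v * (s + 1) ≤ 801 * (t / N + 1) * (s + 1) := Nat.mul_le_mul_right _ h6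
      have h10 : 1 ≤ (s + 1) * (t / N + 1) := Nat.mul_pos s.succ_pos (Nat.succ_pos _)
      have h11 : 801 * (t / N + 1) * (s + 1) = 801 * ((s + 1) * (t / N + 1)) := by ring
      omega
    have h8' : (p + 1) * (3 * (v * (s + 1)) + 1) ≤ 2404 * W := by
      calc (p + 1) * (3 * (v * (s + 1)) + 1) ≤ (p + 1) * (2404 * ((s + 1) * (t / N + 1))) :=
            Nat.mul_le_mul_left _ h7
        _ = 2404 * W := by
          rw [hW]
          ring
    have h9 : vl N ≤ C * 2404 ^ 10 * W ^ 10 := by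
      calc vl N ≤ C * ((p + 1) * (3 * (v * (s + 1)) + 1)) ^ 10 := h5
        _ ≤ C * (2404 * W) ^ 10 := Nat.mul_le_mul_left _ (Nat.pow_le_pow_left h8' 10)
        _ = C * 2404 ^ 10 * W ^ 10 := by rw [mul_pow, ← mul_assoc]
    calc N ≤ 16 * vl N := (num_len h8).1
      _ ≤ 16 * (C * 2404 ^ 10 * W ^ 10) := Nat.mul_le_mul_left _ h9
      _ = 16 * (C * 2404 ^ 10) * W ^ 10 := (mul_assoc _ _ _).symm
      _ ≤ _ := Nat.mul_le_mul_right _ (Nat.le_add_right _ _)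

/-- **Lower bounds for `SBP` machines.** -/
theorem low_SBP (hR : S_Red) (h1 : S_Prt) (h2 : S_Crs) (h3 : S_Avg) (h4 : S_Mj)
    {L : Set (List Bool)} {C : ℕ}
    (hC : ∀ m p c, HasPPcc (lift (slice L m)) p c → m ≤ C * (p + c + 1) ^ 10) :
    ∃ C', ∀ N u s t, HasSBPseq (slice (vlang L) N) u s t →
      N ≤ C' * (u + (s + 1) * (t / N + 1)) ^ 10 := by
  refine ⟨16 * (C * 1604 ^ 10) + 8, fun N u s t h => ?_⟩
  set W := u + (s + 1) * (t / N + 1) with hW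
  have h10 : 1 ≤ (s + 1) * (t / N + 1) := Nat.mul_pos s.succ_pos (Nat.succ_pos _)
  have hW1 : 1 ≤ W := by omega
  have hW10 : 1 ≤ W ^ 10 := Nat.one_le_pow _ _ hW1
  rcases Nat.lt_or_ge N 8 with h8 | h8
  · calc N ≤ 8 * 1 := by omega
      _ ≤ (16 * (C * 1604 ^ 10) + 8) * W ^ 10 := Nat.mul_le_mul (Nat.le_add_left _ _) hW10
  · obtain ⟨r, h5'⟩ := (hR h1 h2 h3 h4 L N s t h8).2 u h
    have h5 := hC _ _ _ h5'.pp
    have h6 := num_div (t := t) h8
    set v := 100 * t / 2 ^ (Nat.log 2 N - 2) + 1 with hv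
    have h7 : 2 * u + 1 + 2 * (v * (s + 1)) + 1 ≤ 1604 * W := by
      have h9 : v * (s + 1) ≤ 801 * (t / N + 1) * (s + 1) := Nat.mul_le_mul_right _ h6
      have h11 : 801 * (t / N + 1) * (s + 1) = 801 * ((s + 1) * (t / N + 1)) := by ring
      omega
    have h9 : vl N ≤ C * 1604 ^ 10 * W ^ 10 := by
      calc vl N ≤ C * (2 * u + 1 + 2 * (v * (s + 1)) + 1) ^ 10 := h5
        _ ≤ C * (1604 * W) ^ 10 := Nat.mul_le_mul_left _ (Nat.pow_le_pow_left h7 10)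
        _ = C * 1604 ^ 10 * W ^ 10 := by rw [mul_pow, ← mul_assoc]
    calc N ≤ 16 * vl N := (num_len h8).1
      _ ≤ 16 * (C * 1604 ^ 10 * W ^ 10) := Nat.mul_le_mul_left _ h9
      _ = 16 * (C * 1604 ^ 10) * W ^ 10 := (mul_assoc _ _ _).symm
      _ ≤ _ := Nat.mul_le_mul_right _ (Nat.le_add_right _ _)

/-- **MA.** -/
theorem hasMAseq_of (hS : S_Sml) {L : Set (List Bool)} {k t S : ℕ → ℕ} (h : L ∈ MAs k t S) :
    ∃ K, ∀ n, HasMAseq (slice L n) (k n) (K * (S n + 1)) (t n) := by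
  obtain ⟨P, h1, h2⟩ := h
  obtain ⟨K, hK⟩ := hS P
  refine ⟨K, fun n => ?_⟩
  obtain ⟨Q, hQ, hcard, hM⟩ := hK (S n)
  have h3 : ∀ y ρ : Fin (k n) → Bool, ∃ M : SM Q Bool,
      (∀ (x : Fin n → Bool) T, (M.run (M.tp x) T).mot ≤ t n) ∧
      ∀ x : Fin n → Bool, M.Accτ (M.tp x) ↔ Acc P (word x) (cd (k n) y).1 (cd (k n) ρ).1 := by
    intro y ρ
    refine hM n _ _ _ fun x => ?_
    have h4 := h1 (word x) (cd (k n) y).1 (cd (k n) ρ).1
    rw [word_length] at h4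
    exact h4 (cd (k n) y).2 (cd (k n) ρ).2
  choose M hM1 hM2 using h3
  refine ⟨k n, Q, Bool, hQ, M, hcard, fun m ρ x T => hM1 m ρ x T, fun x hx => ?_, fun x hx y => ?_⟩
  · obtain ⟨y, hy, h4⟩ := (h2 (word x)).1 (slice_eq_true.mp hx)
    rw [word_length] at hy h4
    refine ⟨(cd (k n)).symm ⟨y, hy⟩, ?_⟩
    simp only [hM2, Equiv.apply_symm_apply]
    rw [prob_pr (k n) fun r => Acc P (word x) y r]
    exact h4
  · have h4 := (h2 (word x)).2 (slice_eq_false.mp hx) (cd (k n) y).1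
    rw [word_length] at h4
    simp only [hM2]
    rw [prob_pr (k n) fun r => Acc P (word x) (cd (k n) y).1 r]
    exact h4 (cd (k n) y).2

/-- **SBP.** -/
theorem hasSBPseq_of (hS : S_Sml) {L : Set (List Bool)} {k t S u : ℕ → ℕ}
    (h : L ∈ SBPs k t S u) :
    ∃ K, ∀ n, HasSBPseq (slice L n) (u n) (K * (S n + 1)) (t n) := by
  obtain ⟨P, h1, h2⟩ := h
  obtain ⟨K, hK⟩ := hS P
  refine ⟨K, fun n => ?_⟩
  obtain ⟨Q, hQ, hcard, hM⟩ := hK (S n)
  have h3 : ∀ ρ : Fin (k n) → Bool, ∃ M : SM Q Bool,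
      (∀ (x : Fin n → Bool) T, (M.run (M.tp x) T).mot ≤ t n) ∧
      ∀ x : Fin n → Bool, M.Accτ (M.tp x) ↔ Acc P (word x) 0 (cd (k n) ρ).1 := by
    intro ρ
    refine hM n _ _ _ fun x => ?_
    have h4 := h1 (word x) 0 (cd (k n) ρ).1
    rw [word_length] at h4
    exact h4 (by positivity) (cd (k n) ρ).2
  choose M hM1 hM2 using h3
  refine ⟨k n, Q, Bool, hQ, M, hcard, fun ρ x T => hM1 ρ x T, fun x hx => ?_, fun x hx => ?_⟩
  · have h4 := (h2 (word x)).1 (slice_eq_true.mp hx)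
    rw [word_length] at h4
    simp only [hM2]
    rw [prob_pr (k n) fun r => Acc P (word x) 0 r]
    exact h4
  · have h4 := (h2 (word x)).2 (slice_eq_false.mp hx)
    rw [word_length] at h4
    simp only [hM2]
    rw [prob_pr (k n) fun r => Acc P (word x) 0 r]
    exact h4

lemma ql_div (d n : ℕ) (hn : 1 ≤ n) : ql d n / n + 1 ≤ 3 * pl d n := by
  have h1 := one_le_pl d n
  have h2 : ql d n ≤ 2 * pl d n * n := by
    unfold ql
    nlinarith
  have h3 : ql d n / n ≤ 2 * pl d n := Nat.div_le_of_le_mul (by rw [mul_comm]; exact h2)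
  omega

lemma pl_add (a b N : ℕ) : pl a N * pl b N = pl (a + b) N := (pow_add _ _ _).symm

lemma ex_pl (K e N : ℕ) : K * (pl e N + 1) + 1 ≤ (2 * K + 1) * pl e N := by
  have h1 := one_le_pl e N
  nlinarith

/-- Not in `MA` with quasilinear time and polylogarithmic memory. -/
theorem not_MAql (hS : S_Sml) {L : Set (List Bool)} {C : ℕ} (h : ∀ N p s t,
    HasMAseq (slice L N) p s t → N ≤ C * ((p + 1) * (s + 1) * (t / N + 1)) ^ 10) :
    L ∉ MAql := by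
  rintro ⟨c, d, e, hL⟩
  obtain ⟨K, hK⟩ := hasMAseq_of hS hL
  obtain ⟨N, hN⟩ := growth (C * (2 * (2 * K + 1) * 3) ^ 10) ((c + e + d) * 10)
  have hN1 : 1 ≤ N := by omega
  have h1 := h N _ _ _ (hK N)
  have h2 : (pl c N + 1) * (K * (pl e N + 1) + 1) * (ql d N / N + 1) ≤
      2 * (2 * K + 1) * 3 * pl (c + e + d) N := by
    have a1 : pl c N + 1 ≤ 2 * pl c N := by
      have := one_le_pl c N
      omega
    calc (pl c N + 1) * (K * (pl e N + 1) + 1) * (ql d N / N + 1)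
        ≤ (2 * pl c N) * ((2 * K + 1) * pl e N) * (3 * pl d N) :=
          Nat.mul_le_mul (Nat.mul_le_mul a1 (ex_pl _ _ _)) (ql_div d N hN1)
      _ = 2 * (2 * K + 1) * 3 * (pl c N * pl e N * pl d N) := by ring
      _ = _ := by rw [pl_add, pl_add]
  have h3 : N ≤ C * (2 * (2 * K + 1) * 3) ^ 10 * pl ((c + e + d) * 10) N := by
    calc N ≤ C * ((pl c N + 1) * (K * (pl e N + 1) + 1) * (ql d N / N + 1)) ^ 10 := h1
      _ ≤ C * (2 * (2 * K + 1) * 3 * pl (c + e + d) N) ^ 10 :=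
        Nat.mul_le_mul_left _ (Nat.pow_le_pow_left h2 10)
      _ = C * (2 * (2 * K + 1) * 3) ^ 10 * pl ((c + e + d) * 10) N := by
        rw [mul_pow, pl_pow, ← mul_assoc]
  omega

/-- Not in `SBP` with quasilinear time and polylogarithmic memory. -/
theorem not_SBPql (hS : S_Sml) {L : Set (List Bool)} {C : ℕ} (h : ∀ N u s t,
    HasSBPseq (slice L N) u s t → N ≤ C * (u + (s + 1) * (t / N + 1)) ^ 10) :
    L ∉ SBPql := by
  rintro ⟨c, d, e, f, hL⟩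
  obtain ⟨K, hK⟩ := hasSBPseq_of hS hL
  obtain ⟨N, hN⟩ := growth (C * (1 + (2 * K + 1) * 3) ^ 10) ((f + (e + d)) * 10)
  have hN1 : 1 ≤ N := by omega
  have h1 := h N _ _ _ (hK N)
  have h2 : pl f N + (K * (pl e N + 1) + 1) * (ql d N / N + 1) ≤
      (1 + (2 * K + 1) * 3) * pl (f + (e + d)) N := by
    have a2 : (K * (pl e N + 1) + 1) * (ql d N / N + 1) ≤
        (2 * K + 1) * 3 * pl (e + d) N := by
      calc (K * (pl e N + 1) + 1) * (ql d N / N + 1)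
          ≤ ((2 * K + 1) * pl e N) * (3 * pl d N) :=
            Nat.mul_le_mul (ex_pl _ _ _) (ql_div d N hN1)
        _ = (2 * K + 1) * 3 * (pl e N * pl d N) := by ring
        _ = _ := by rw [pl_add]
    have a3 := pl_mono (Nat.le_add_right f (e + d)) N
    have a4 := pl_mono (Nat.le_add_left (e + d) f) N
    calc pl f N + (K * (pl e N + 1) + 1) * (ql d N / N + 1)
        ≤ pl (f + (e + d)) N + (2 * K + 1) * 3 * pl (f + (e + d)) N :=
          Nat.add_le_add a3 (a2.trans (Nat.mul_le_mul_left _ a4))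
      _ = _ := by ring
  have h3 : N ≤ C * (1 + (2 * K + 1) * 3) ^ 10 * pl ((f + (e + d)) * 10) N := by
    calc N ≤ C * (pl f N + (K * (pl e N + 1) + 1) * (ql d N / N + 1)) ^ 10 := h1
      _ ≤ C * ((1 + (2 * K + 1) * 3) * pl (f + (e + d)) N) ^ 10 :=
        Nat.mul_le_mul_left _ (Nat.pow_le_pow_left h2 10)
      _ = C * (1 + (2 * K + 1) * 3) ^ 10 * pl ((f + (e + d)) * 10) N := by
        rw [mul_pow, pl_pow, ← mul_assoc]
  omega

end Pool.Agent.Lib.MP_ff3ed7_lc.SQ
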