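import Pool.Agent.Lib.MP_ff3ed7_lc.SQ.Spec2
import Pool.Agent.Lib.MP_ff3ed7_lc.SQ.Num
import Pool.Agent.Lib.MP_ff3ed7_lc.SQ.LowG

/-!
# PROJECT SQ: `PP`: lower bounds, uniform verifiers are nonuniform ones, growth
-/

set_option autoImplicit false

open Finset

namespace Pool.Agent.Lib.MP_ff3ed7_lc.SQ

open Pool.Agent.Lib.MP_ff3ed7_lc.PLT

/-- **Lower bounds for `PP` machines.** -/
theorem low_PP (hR : S_RdP) (h1 : S_Prt) (h2 : S_Crs) (h3 : S_AvP)
    {L : Set (List Bool)} {C : ℕ}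
    (hC : ∀ m p c, HasPPcc (lift (slice L m)) p c → m ≤ C * (p + c + 1) ^ 10) :
    ∃ C', ∀ N p s t, HasPPseq (slice (vlang L) N) p s t →
      N ≤ C' * ((p + 1) * (s + 1) * (t / N + 1)) ^ 10 := by
  refine ⟨16 * (C * 803 ^ 10) + 8, fun N p s t h => ?_⟩
  set W := (p + 1) * (s + 1) * (t / N + 1) with hW
  have hW1 : 1 ≤ W := Nat.mul_pos (Nat.mul_pos p.succ_pos s.succ_pos) (Nat.succ_pos _)
  have hpW : p + 1 ≤ W := by
    rw [hW, mul_assoc]
    exact Nat.le_mul_of_pos_right _ (Nat.mul_pos s.succ_pos (Nat.succ_pos _))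
  have hW10 : 1 ≤ W ^ 10 := Nat.one_le_pow _ _ hW1
  rcases Nat.lt_or_ge N 8 with h8 | h8
  · calc N ≤ 8 * 1 := by omega
      _ ≤ (16 * (C * 803 ^ 10) + 8) * W ^ 10 := Nat.mul_le_mul (Nat.le_add_left _ _) hW10
  · have h5 := hC _ _ _ (hR h1 h2 h3 L N p s t h8 h)
    have h6 := num_div (t := t) h8
    set v := 100 * t / 2 ^ (Nat.log 2 N - 2) + 1 with hv
    have h7 : (p + 1) * (v * (s + 1)) ≤ 801 * W := by
      calc (p + 1) * (v * (s + 1)) ≤ (p + 1) * (801 * (t / N + 1) * (s + 1)) :=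
            Nat.mul_le_mul_left _ (Nat.mul_le_mul_right _ h6)
        _ = 801 * W := by
          rw [hW]
          ring
    have h8' : p + 1 + (p + 1) * (v * (s + 1)) + 1 ≤ 803 * W := by omega
    have h9 : vl N ≤ C * 803 ^ 10 * W ^ 10 := by
      calc vl N ≤ C * (p + 1 + (p + 1) * (v * (s + 1)) + 1) ^ 10 := h5
        _ ≤ C * (803 * W) ^ 10 := Nat.mul_le_mul_left _ (Nat.pow_le_pow_left h8' 10)
        _ = C * 803 ^ 10 * W ^ 10 := by rw [mul_pow, ← mul_assoc]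
    calc N ≤ 16 * vl N := (num_len h8).1
      _ ≤ 16 * (C * 803 ^ 10 * W ^ 10) := Nat.mul_le_mul_left _ h9
      _ = 16 * (C * 803 ^ 10) * W ^ 10 := (mul_assoc _ _ _).symm
      _ ≤ _ := Nat.mul_le_mul_right _ (Nat.le_add_right _ _)

/-- **PP.** -/
theorem hasPPseq_of (hS : S_Sml) {L : Set (List Bool)} {k t S : ℕ → ℕ} (h : L ∈ PPs k t S) :
    ∃ K, ∀ n, HasPPseq (slice L n) (k n + 1) (K * (S n + 1)) (t n) := by
  obtain ⟨P, h1, h2⟩ := h
  obtain ⟨K, hK⟩ := hS P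
  refine ⟨K, fun n => ?_⟩
  obtain ⟨Q, hQ, hcard, hM⟩ := hK (S n)
  have h3 : ∀ ρ : Fin (k n) → Bool, ∃ M : SM Q Bool,
      (∀ (x : Fin n → Bool) T, (M.run (M.tp x) T).mot ≤ t n) ∧
      ∀ x : Fin n → Bool, M.Accτ (M.tp x) ↔ Acc P (word x) 0 (cd (k n) ρ).1 := by
    intro ρ
    refine hM n _ _ _ fun x => ?_
    have h4 := h1 (word x) 0 (cd (k n) ρ).1
    rw [word_length] at h4
    exact h4 (by positivity) (cd (k n) ρ).2
  choose M hM1 hM2 using h3
  refine ⟨k n, Q, Bool, hQ, M, hcard, fun ρ x T => hM1 ρ x T, fun x hx => ?_, fun x hx => ?_⟩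
  · have h4 := (h2 (word x)).mp (slice_eq_true.mp hx)
    rw [word_length] at h4
    simp only [hM2]
    rw [prob_pr (k n) fun r => Acc P (word x) 0 r]
    unfold pr at h4 ⊢
    set c := Nat.card {r : Fin (2 ^ k n) // Acc P (word x) 0 r} with hc
    have h2k : (0 : ℝ) < 2 ^ k n := by positivity
    rw [lt_div_iff₀ h2k] at h4
    rw [le_div_iff₀ h2k]
    have h5 : (1 / 2 + (1 / 2) ^ (k n + 1) : ℝ) * 2 ^ k n = (2 ^ k n + 1) / 2 := by
      rw [add_mul, pow_succ]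
      have : ((1 : ℝ) / 2) ^ k n * 2 ^ k n = 1 := by
        rw [← mul_pow]
        norm_num
      have h6 : ((1 / 2) ^ k n * (1 / 2) * 2 ^ k n : ℝ) = ((1 / 2) ^ k n * 2 ^ k n) * (1 / 2) := by
        ring
      rw [h6, this]
      ring
    rw [h5]
    have h7 : (2 ^ k n : ℝ) < 2 * c := by linarith
    have h8 : 2 ^ k n < 2 * c := by exact_mod_cast h7
    have h9 : 2 ^ k n + 1 ≤ 2 * c := h8
    have h10 : (2 ^ k n + 1 : ℝ) ≤ 2 * c := by exact_mod_cast h9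
    linarith
  · have h4 : ¬ (1 / 2 < pr (k (word x).length) fun r => Acc P (word x) 0 r) :=
      fun h => slice_eq_false.mp hx ((h2 (word x)).mpr h)
    rw [word_length] at h4
    simp only [hM2]
    rw [prob_pr (k n) fun r => Acc P (word x) 0 r]
    exact not_lt.mp h4

/-- Not in `PP` with quasilinear time and polylogarithmic memory. -/
theorem not_PPql (hS : S_Sml) {L : Set (List Bool)} {C : ℕ} (h : ∀ N p s t,
    HasPPseq (slice L N) p s t → N ≤ C * ((p + 1) * (s + 1) * (t / N + 1)) ^ 10) :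
    L ∉ PPql := by
  rintro ⟨c, d, e, hL⟩
  obtain ⟨K, hK⟩ := hasPPseq_of hS hL
  obtain ⟨N, hN⟩ := growth (C * (3 * (2 * K + 1) * 3) ^ 10) ((c + e + d) * 10)
  have hN1 : 1 ≤ N := by omega
  have h1 := h N _ _ _ (hK N)
  have h2 : (pl c N + 1 + 1) * (K * (pl e N + 1) + 1) * (ql d N / N + 1) ≤
      3 * (2 * K + 1) * 3 * pl (c + e + d) N := by
    have a1 : pl c N + 1 + 1 ≤ 3 * pl c N := by
      have := one_le_pl c N
      omega
    calc (pl c N + 1 + 1) * (K * (pl e N + 1) + 1) * (ql d N / N + 1)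
        ≤ (3 * pl c N) * ((2 * K + 1) * pl e N) * (3 * pl d N) :=
          Nat.mul_le_mul (Nat.mul_le_mul a1 (ex_pl _ _ _)) (ql_div d N hN1)
      _ = 3 * (2 * K + 1) * 3 * (pl c N * pl e N * pl d N) := by ring
      _ = _ := by rw [pl_add, pl_add]
  have h3 : N ≤ C * (3 * (2 * K + 1) * 3) ^ 10 * pl ((c + e + d) * 10) N := by
    calc N ≤ C * ((pl c N + 1 + 1) * (K * (pl e N + 1) + 1) * (ql d N / N + 1)) ^ 10 := h1
      _ ≤ C * (3 * (2 * K + 1) * 3 * pl (c + e + d) N) ^ 10 :=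
        Nat.mul_le_mul_left _ (Nat.pow_le_pow_left h2 10)
      _ = C * (3 * (2 * K + 1) * 3) ^ 10 * pl ((c + e + d) * 10) N := by
        rw [mul_pow, pl_pow, ← mul_assoc]
  omega

/-- The lower bound for the language in `AM`. -/
theorem fin_lowGP (hR : S_RdP) (h1 : S_Prt) (h2 : S_Crs) (h3 : S_AvP) :
    ∃ C, ∀ n p s t, HasPPseq (slice (vlang LG) n) p s t →
      n ≤ C * ((p + 1) * (s + 1) * (t / n + 1)) ^ 10 := by
  obtain ⟨C, hC⟩ := ccG
  exact low_PP hR h1 h2 h3 fun m => (hC m).2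

end Pool.Agent.Lib.MP_ff3ed7_lc.SQ
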