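import Pool.Agent.Lib.MP_ff3ed7_lc.SQ.Spec

/-!
# PROJECT SQ: protocols from machines with few crossings
-/

set_option autoImplicit false

open Finset

namespace Pool.Agent.Lib.MP_ff3ed7_lc.SQ

namespace PrtAux

section proto

variable {X Y : Type}

/-- exchange of the players -/
def swp : Prot X Y → Prot Y X
  | .leaf b => .leaf b
  | .alice a n => .bob a (fun s => swp (n s))
  | .bob a n => .alice a (fun s => swp (n s))

lemma swp_eval (P : Prot X Y) (x : X) (y : Y) : (swp P).eval y x = P.eval x y := by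
  induction P with
  | leaf b => rfl
  | alice a n ih => exact ih (a x)
  | bob a n ih => exact ih (a y)

lemma swp_cost (P : Prot X Y) : ∀ c : ℕ, P.CostLE c → (swp P).CostLE c := by
  induction P with
  | leaf b => intro c _; trivial
  | alice a n ih => intro c h; exact ⟨h.1, fun s => ih s _ (h.2 s)⟩
  | bob a n ih => intro c h; exact ⟨h.1, fun s => ih s _ (h.2 s)⟩

/-- the first player sends `k` bits -/
def snd : (k : ℕ) → (X → (Fin k → Bool)) → ((Fin k → Bool) → Prot X Y) → Prot X Y
  | 0, _, n => n (fun i => i.elim0)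
  | k + 1, g, n => .alice (fun x => g x 0)
      (fun b => snd k (fun x i => g x i.succ) (fun v => n (Fin.cons b v)))

lemma snd_eval : ∀ (k : ℕ) (g : X → (Fin k → Bool)) (n : (Fin k → Bool) → Prot X Y) (x : X) (y : Y),
    (snd k g n).eval x y = (n (g x)).eval x y := by
  intro k
  induction k with
  | zero =>
    intro g n x y
    have : (fun i => i.elim0 : Fin 0 → Bool) = g x := Subsingleton.elim _ _
    show (n (fun i => i.elim0)).eval x y = _
    rw [this]
  | succ k ih =>
    intro g n x y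
    show (snd k (fun x i => g x i.succ) (fun v => n (Fin.cons (g x 0) v))).eval x y = _
    rw [ih]
    have : (Fin.cons (g x 0) (fun i => g x i.succ) : Fin (k + 1) → Bool) = g x :=
      Fin.cons_self_tail (g x)
    rw [this]

lemma snd_cost : ∀ (k : ℕ) (g : X → (Fin k → Bool)) (n : (Fin k → Bool) → Prot X Y) (c : ℕ),
    (∀ v, (n v).CostLE c) → (snd k g n).CostLE (k + c) := by
  intro k
  induction k with
  | zero =>
    intro g n c h
    show (n _).CostLE (0 + c)
    rw [Nat.zero_add]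
    exact h _
  | succ k ih =>
    intro g n c h
    refine ⟨by omega, fun s => ?_⟩
    have e : k + 1 + c - 1 = k + c := by omega
    show (snd k (fun x i => g x i.succ) (fun v => n (Fin.cons s v))).CostLE (k + 1 + c - 1)
    rw [e]
    exact ih _ _ c (fun v => h _)

lemma exists_send {T : Type} [Fintype T] (k : ℕ) (hT : Fintype.card T ≤ 2 ^ k) (f : X → T)
    (next : T → Prot X Y) (c : ℕ) (hc : ∀ t, (next t).CostLE c) :
    ∃ P : Prot X Y, P.CostLE (k + c) ∧ ∀ x y, P.eval x y = (next (f x)).eval x y := by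
  classical
  have hcard : Fintype.card T ≤ Fintype.card (Fin k → Bool) := by
    simpa using hT
  obtain ⟨e⟩ := Function.Embedding.nonempty_of_card_le hcard
  refine ⟨snd k (fun x => e (f x))
    (fun v => if h : ∃ t, e t = v then next h.choose else .leaf false), ?_, ?_⟩
  · apply snd_cost
    intro v
    by_cases h : ∃ t, e t = v
    · rw [dif_pos h]; exact hc _
    · rw [dif_neg h]; trivial
  · intro x y
    rw [snd_eval]
    have h : ∃ t, e t = e (f x) := ⟨f x, rfl⟩
    rw [dif_pos h]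
    have : h.choose = f x := e.injective h.choose_spec
    rw [this]

end proto

section mach

variable {Q Γ : Type} (M : SM Q Γ) (D : Set ℕ)

/-- acceptance from a configuration -/
def Ac (C : Cfg Q Γ) : Prop := ∃ T, M.act (M.step^[T] C).q = .stop true

/-- the first player has to stop here -/
def Evt (q : Q) : Prop := match M.act q with
  | .stop _ => True
  | .jump _ => False
  | .visit j _ => j ∉ D

lemma step_stop (C : Cfg Q Γ) (b : Bool) (h : M.act C.q = .stop b) : M.step C = C := by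
  unfold SM.step
  rw [h]

lemma step_jump (C : Cfg Q Γ) (q' : Q) (h : M.act C.q = .jump q') :
    M.step C = ⟨q', C.h, C.tape, C.mot⟩ := by
  unfold SM.step
  rw [h]

lemma step_visit (C : Cfg Q Γ) (j : ℕ) (f : Γ → Γ × Q) (h : M.act C.q = .visit j f) :
    M.step C = ⟨(f (C.tape j)).2, j, Function.update C.tape j (f (C.tape j)).1,
      C.mot + dst j C.h⟩ := by
  unfold SM.step
  rw [h]

lemma Ac_step (C : Cfg Q Γ) : Ac M C ↔ Ac M (M.step C) := by
  constructor
  · rintro ⟨T, hT⟩
    cases T with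
    | zero =>
      refine ⟨0, ?_⟩
      have h0 : M.act C.q = .stop true := hT
      show M.act (M.step C).q = _
      rw [step_stop M C true h0]
      exact h0
    | succ T =>
      refine ⟨T, ?_⟩
      rw [Function.iterate_succ_apply] at hT
      exact hT
  · rintro ⟨T, hT⟩
    refine ⟨T + 1, ?_⟩
    rw [Function.iterate_succ_apply]
    exact hT

lemma Ac_iter (n : ℕ) : ∀ C : Cfg Q Γ, Ac M C ↔ Ac M (M.step^[n] C) := by
  induction n with
  | zero => intro C; rfl
  | succ n ih =>
    intro C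
    rw [Function.iterate_succ_apply, ← ih (M.step C)]
    exact Ac_step M C

lemma Ac_stop (C : Cfg Q Γ) (b : Bool) (h : M.act C.q = .stop b) : Ac M C ↔ b = true := by
  have hit : ∀ T, M.step^[T] C = C := by
    intro T
    induction T with
    | zero => rfl
    | succ T ih => rw [Function.iterate_succ_apply, step_stop M C b h, ih]
  constructor
  · rintro ⟨T, hT⟩
    rw [hit, h] at hT
    exact Act.stop.inj hT
  · intro hb
    exact ⟨0, by rw [← hb]; exact h⟩

/-- equal up to the distance -/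
def Em (C C' : Cfg Q Γ) : Prop := C.q = C'.q ∧ C.h = C'.h ∧ C.tape = C'.tape

/-- equal state and tape -/
def Eq2 (C C' : Cfg Q Γ) : Prop := C.q = C'.q ∧ C.tape = C'.tape

lemma Eq2_step {C C' : Cfg Q Γ} (h : Eq2 C C') : Eq2 (M.step C) (M.step C') := by
  obtain ⟨h1, h2⟩ := h
  cases ha : M.act C.q with
  | stop b =>
    rw [step_stop M C b ha, step_stop M C' b (h1 ▸ ha)]
    exact ⟨h1, h2⟩
  | jump q' =>
    rw [step_jump M C q' ha, step_jump M C' q' (h1 ▸ ha)]
    exact ⟨rfl, h2⟩
  | visit j f =>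
    rw [step_visit M C j f ha, step_visit M C' j f (h1 ▸ ha), h2]
    exact ⟨rfl, rfl⟩

lemma Em_step {C C' : Cfg Q Γ} (h : Em C C') : Em (M.step C) (M.step C') := by
  obtain ⟨h1, h2, h3⟩ := h
  cases ha : M.act C.q with
  | stop b =>
    rw [step_stop M C b ha, step_stop M C' b (h1 ▸ ha)]
    exact ⟨h1, h2, h3⟩
  | jump q' =>
    rw [step_jump M C q' ha, step_jump M C' q' (h1 ▸ ha)]
    exact ⟨rfl, h2, h3⟩
  | visit j f =>
    rw [step_visit M C j f ha, step_visit M C' j f (h1 ▸ ha), h3]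
    exact ⟨rfl, rfl, rfl⟩

lemma Eq2_iter (n : ℕ) : ∀ {C C' : Cfg Q Γ}, Eq2 C C' → Eq2 (M.step^[n] C) (M.step^[n] C') := by
  induction n with
  | zero => intro C C' h; exact h
  | succ n ih =>
    intro C C' h
    rw [Function.iterate_succ_apply, Function.iterate_succ_apply]
    exact ih (Eq2_step M h)

lemma Ac_Eq2 {C C' : Cfg Q Γ} (h : Eq2 C C') : Ac M C ↔ Ac M C' := by
  constructor
  · rintro ⟨T, hT⟩
    exact ⟨T, by rw [← (Eq2_iter M T h).1]; exact hT⟩
  · rintro ⟨T, hT⟩
    exact ⟨T, by rw [(Eq2_iter M T h).1]; exact hT⟩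

open Classical in
/-- the crossing in the next step -/
noncomputable def cr1 (C : Cfg Q Γ) : ℕ := match M.act C.q with
      | .visit j _ => if (C.h ∈ D ↔ j ∈ D) then 0 else 1
      | _ => 0

lemma crs_succ (C : Cfg Q Γ) (T : ℕ) : crs M D C (T + 1) = cr1 M D C + crs M D (M.step C) T := rfl

lemma cr1_visit (C : Cfg Q Γ) (j : ℕ) (f : Γ → Γ × Q) (h : M.act C.q = .visit j f) :
    (( C.h ∈ D ↔ j ∈ D) → cr1 M D C = 0) ∧ (¬ (C.h ∈ D ↔ j ∈ D) → cr1 M D C = 1) := by
  unfold cr1
  rw [h]
  constructor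
  · intro hc
    exact if_pos hc
  · intro hc
    exact if_neg hc

lemma cr1_compl (C : Cfg Q Γ) : cr1 M Dᶜ C = cr1 M D C := by
  cases ha : M.act C.q with
  | stop b =>
    unfold cr1
    rw [ha]
  | jump q' =>
    unfold cr1
    rw [ha]
  | visit j f =>
    have this : (C.h ∈ Dᶜ ↔ j ∈ Dᶜ) ↔ (C.h ∈ D ↔ j ∈ D) := by
      rw [Set.mem_compl_iff, Set.mem_compl_iff]
      tauto
    by_cases hc : (C.h ∈ D ↔ j ∈ D)
    · rw [(cr1_visit M D C j f ha).1 hc, (cr1_visit M Dᶜ C j f ha).1 (this.2 hc)]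
    · rw [(cr1_visit M D C j f ha).2 hc, (cr1_visit M Dᶜ C j f ha).2 (fun h => hc (this.1 h))]

lemma crs_compl (T : ℕ) : ∀ C : Cfg Q Γ, crs M Dᶜ C T = crs M D C T := by
  induction T with
  | zero => intro C; rfl
  | succ T ih =>
    intro C
    rw [crs_succ, crs_succ, cr1_compl, ih]

lemma cr1_Em {C C' : Cfg Q Γ} (h : Em C C') : cr1 M D C = cr1 M D C' := by
  unfold cr1
  rw [h.1, h.2.1]

lemma crs_Em (T : ℕ) : ∀ {C C' : Cfg Q Γ}, Em C C' → crs M D C T = crs M D C' T := by
  induction T with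
  | zero => intro C C' _; rfl
  | succ T ih =>
    intro C C' h
    rw [crs_succ, crs_succ, cr1_Em M D h, ih (Em_step M h)]

lemma glue_compl (a b : ℕ → Γ) : glue Dᶜ b a = glue D a b := by
  funext j
  unfold glue
  by_cases h : j ∈ D
  · rw [if_pos h, if_neg (fun hc : j ∈ Dᶜ => hc h)]
  · rw [if_neg h, if_pos (show j ∈ Dᶜ from h)]

lemma glue_in (a b : ℕ → Γ) {j : ℕ} (h : j ∈ D) : glue D a b j = a j := by
  unfold glue
  rw [if_pos h]

lemma glue_update (a b : ℕ → Γ) {j : ℕ} (h : j ∈ D) (v : Γ) :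
    Function.update (glue D a b) j v = glue D (Function.update a j v) b := by
  funext i
  unfold glue
  by_cases hi : i = j
  · subst hi
    rw [Function.update_self, if_pos h, Function.update_self]
  · rw [Function.update_of_ne hi, Function.update_of_ne hi]

/-- simulation relation -/
def Rl (b' : ℕ → Γ) (C K : Cfg Q Γ) : Prop := C.q = K.q ∧ C.tape = glue D K.tape b' ∧ C.h ∈ D

lemma Rl_step (b' : ℕ → Γ) {C K : Cfg Q Γ} (h : Rl D b' C K) (he : ¬ Evt M D K.q) :
    Rl D b' (M.step C) (M.step K) ∧ cr1 M D C = 0 := by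
  obtain ⟨h1, h2, h3⟩ := h
  cases ha : M.act K.q with
  | stop b =>
    exfalso
    apply he
    unfold Evt
    rw [ha]
    trivial
  | jump q' =>
    have ha' : M.act C.q = .jump q' := h1 ▸ ha
    rw [step_jump M K q' ha, step_jump M C q' ha']
    refine ⟨⟨rfl, h2, h3⟩, ?_⟩
    unfold cr1
    rw [ha']
  | visit j f =>
    have ha' : M.act C.q = .visit j f := h1 ▸ ha
    have hj : j ∈ D := by
      by_contra hc
      apply he
      unfold Evt
      rw [ha]
      exact hc
    have ht : C.tape j = K.tape j := by rw [h2, glue_in D _ _ hj]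
    rw [step_visit M K j f ha, step_visit M C j f ha']
    refine ⟨⟨?_, ?_, hj⟩, (cr1_visit M D C j f ha').1 (by tauto)⟩
    · show (f (C.tape j)).2 = (f (K.tape j)).2
      rw [ht]
    · show Function.update C.tape j (f (C.tape j)).1 = glue D (Function.update K.tape j _) b'
      rw [ht, h2, glue_update D _ _ hj]

lemma Rl_iter (b' : ℕ → Γ) (n : ℕ) : ∀ {C K : Cfg Q Γ}, Rl D b' C K →
    (∀ i < n, ¬ Evt M D (M.step^[i] K).q) →
    Rl D b' (M.step^[n] C) (M.step^[n] K) ∧ ∀ T, crs M D C (n + T) = crs M D (M.step^[n] C) T := by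
  induction n with
  | zero =>
    intro C K h _
    refine ⟨h, fun T => ?_⟩
    rw [Nat.zero_add]
    rfl
  | succ n ih =>
    intro C K h hE
    obtain ⟨h1, h2⟩ := Rl_step M D b' h (hE 0 (Nat.succ_pos n))
    have hE' : ∀ i < n, ¬ Evt M D (M.step^[i] (M.step K)).q := by
      intro i hi
      have := hE (i + 1) (by omega)
      rw [Function.iterate_succ_apply] at this
      exact this
    obtain ⟨h3, h4⟩ := ih h1 hE'
    rw [Function.iterate_succ_apply, Function.iterate_succ_apply]
    refine ⟨h3, fun T => ?_⟩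
    have e : n + 1 + T = (n + T) + 1 := by omega
    rw [e, crs_succ, h2, Nat.zero_add, h4]

end mach

section core

open Classical

variable {X Y Q Γ : Type} (M : SM Q Γ) (D : Set ℕ) (A : X → ℕ → Γ) (Bt : Y → ℕ → Γ) (q : Q)

/-- the run of the first player -/
def Kx (x : X) (i : ℕ) : Cfg Q Γ := M.step^[i] ⟨q, 0, A x, 0⟩

/-- the tape of the first player at the first event -/
noncomputable def Ax (x : X) : ℕ → Γ :=
  if h : ∃ i, Evt M D (Kx M A q x i).q then (Kx M A q x (Nat.find h)).tape else A x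

/-- the message of the first player -/
noncomputable def msg (x : X) : Option Q :=
  if h : ∃ i, Evt M D (Kx M A q x i).q then some (Kx M A q x (Nat.find h)).q else none

/-- the configuration -/
noncomputable def cf (q : Q) (h : ℕ) (τ : ℕ → Γ) (μ : ℕ) : Cfg Q Γ := ⟨q, h, τ, μ⟩

lemma core [Fintype Q] (s b c : ℕ) (hs : Fintype.card Q ≤ 2 ^ s) (N : Q → Prot X Y)
    (hN : ∀ q', (N q').CostLE c)
    (h1 : ∀ q' j g, M.act q' = .visit j g → j ∉ D → ∀ x y h μ, h ∈ D →
      ((N q').eval x y = true → Ac M ⟨q', h, glue D (Ax M D A q x) (Bt y), μ⟩) ∧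
      (Ac M ⟨q', h, glue D (Ax M D A q x) (Bt y), μ⟩ →
        (∀ T, crs M D ⟨q', h, glue D (Ax M D A q x) (Bt y), μ⟩ T ≤ b) → (N q').eval x y = true)) :
    ∃ P : Prot X Y, P.CostLE (s + 1 + c) ∧ ∀ x y h μ, h ∈ D →
      (P.eval x y = true → Ac M ⟨q, h, glue D (A x) (Bt y), μ⟩) ∧
      (Ac M ⟨q, h, glue D (A x) (Bt y), μ⟩ →
        (∀ T, crs M D ⟨q, h, glue D (A x) (Bt y), μ⟩ T ≤ b) → P.eval x y = true) := by
  classical
  have hT : Fintype.card (Option Q) ≤ 2 ^ (s + 1) := by
    rw [Fintype.card_option, pow_succ]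
    have : 1 ≤ 2 ^ s := Nat.one_le_two_pow
    omega
  let next : Option Q → Prot X Y := fun t => match t with
    | none => .leaf false
    | some q' => match M.act q' with
      | .stop b => .leaf b
      | .jump _ => .leaf false
      | .visit _ _ => N q'
  have hnext : ∀ t, (next t).CostLE c := by
    intro t
    cases t with
    | none => trivial
    | some q' =>
      show (match M.act q' with
        | .stop b => (.leaf b : Prot X Y)
        | .jump _ => .leaf false
        | .visit _ _ => N q').CostLE c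
      cases M.act q' with
      | stop b => trivial
      | jump _ => trivial
      | visit _ _ => exact hN q'
  obtain ⟨P, hP, hev⟩ := exists_send (s + 1) hT (msg M D A q) next c hnext
  refine ⟨P, hP, fun x y h μ hh => ?_⟩
  rw [hev x y]
  have hrl : Rl D (Bt y) (⟨q, h, glue D (A x) (Bt y), μ⟩ : Cfg Q Γ) ⟨q, 0, A x, 0⟩ :=
    ⟨rfl, rfl, hh⟩
  by_cases hex : ∃ i, Evt M D (Kx M A q x i).q
  · have hmsg : msg M D A q x = some (Kx M A q x (Nat.find hex)).q := by
      unfold msg
      rw [dif_pos hex]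
    have hAx : Ax M D A q x = (Kx M A q x (Nat.find hex)).tape := by
      unfold Ax
      rw [dif_pos hex]
    obtain ⟨hr, hcr⟩ := Rl_iter M D (Bt y) (Nat.find hex) hrl
      (fun i hi => Nat.find_min hex hi)
    have hevt := Nat.find_spec hex
    set n := Nat.find hex with hn
    have hKe : M.step^[n] (⟨q, 0, A x, 0⟩ : Cfg Q Γ) = Kx M A q x n := rfl
    rw [hKe] at hr
    set R := M.step^[n] (⟨q, h, glue D (A x) (Bt y), μ⟩ : Cfg Q Γ) with hR
    obtain ⟨r1, r2, r3⟩ := hr
    rw [hmsg]
    rw [Ac_iter M n, ← hR]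
    show ((match M.act (Kx M A q x n).q with
      | .stop b => (.leaf b : Prot X Y)
      | .jump _ => .leaf false
      | .visit _ _ => N (Kx M A q x n).q).eval x y = true → _) ∧ (_ → _ →
      (match M.act (Kx M A q x n).q with
      | .stop b => (.leaf b : Prot X Y)
      | .jump _ => .leaf false
      | .visit _ _ => N (Kx M A q x n).q).eval x y = true)
    cases ha : M.act (Kx M A q x n).q with
    | stop b' =>
      have ha' : M.act R.q = .stop b' := by rw [r1]; exact ha
      rw [Ac_stop M R b' ha']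
      exact ⟨fun h => h, fun h _ => h⟩
    | jump q' =>
      exfalso
      unfold Evt at hevt
      rw [ha] at hevt
      exact hevt
    | visit j g =>
      have hj : j ∉ D := by
        unfold Evt at hevt
        rw [ha] at hevt
        exact hevt
      have h2 := h1 _ j g ha hj x y R.h R.mot r3
      have hRe : (⟨(Kx M A q x n).q, R.h, glue D (Ax M D A q x) (Bt y), R.mot⟩ : Cfg Q Γ) = R := by
        rw [hAx, ← r1, ← r2]
      rw [hRe] at h2
      refine ⟨h2.1, fun ha1 hc1 => h2.2 ha1 (fun T => ?_)⟩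
      rw [← hcr T]
      exact hc1 _
  · have hmsg : msg M D A q x = none := by
      unfold msg
      rw [dif_neg hex]
    rw [hmsg]
    have hno : ¬ Ac M (⟨q, h, glue D (A x) (Bt y), μ⟩ : Cfg Q Γ) := by
      rintro ⟨T, hT⟩
      obtain ⟨hr, _⟩ := Rl_iter M D (Bt y) T hrl (fun i _ hi => hex ⟨i, hi⟩)
      apply hex
      refine ⟨T, ?_⟩
      unfold Evt Kx
      rw [← hr.1, hT]
      trivial
    refine ⟨fun hf => ?_, fun ha _ => absurd ha hno⟩
    exact absurd hf (by simp [next, Prot.eval])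

end core

lemma claim {Q Γ : Type} [Fintype Q] (M : SM Q Γ) (s : ℕ) (hs : Fintype.card Q ≤ 2 ^ s) (b : ℕ) :
    ∀ (X Y : Type) (D : Set ℕ) (A : X → ℕ → Γ) (Bt : Y → ℕ → Γ) (q : Q),
    ∃ P : Prot X Y, P.CostLE ((b + 1) * (s + 1)) ∧ ∀ x y h μ, h ∈ D →
      (P.eval x y = true → Ac M ⟨q, h, glue D (A x) (Bt y), μ⟩) ∧
      (Ac M ⟨q, h, glue D (A x) (Bt y), μ⟩ →
        (∀ T, crs M D ⟨q, h, glue D (A x) (Bt y), μ⟩ T ≤ b) → P.eval x y = true) := by
  induction b with
  | zero =>
    intro X Y D A Bt q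
    obtain ⟨P, hP, h⟩ := core M D A Bt q s 0 0 hs (fun _ => .leaf false) (fun _ => trivial) (by
      intro q' j g ha hj x y h μ hh
      refine ⟨fun hf => absurd hf (by simp [Prot.eval]), fun _ hc => ?_⟩
      exfalso
      have h1 := hc 1
      rw [crs_succ] at h1
      have h2 := (cr1_visit M D (⟨q', h, glue D (Ax M D A q x) (Bt y), μ⟩ : Cfg Q Γ) j g ha).2
        (fun hi => hj (hi.1 hh))
      omega)
    refine ⟨P, ?_, h⟩
    have e : (0 + 1) * (s + 1) = s + 1 + 0 := by ring
    rw [e]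
    exact hP
  | succ b ih =>
    intro X Y D A Bt q
    choose N' hN' hN2 using fun q' => ih Y X Dᶜ Bt (Ax M D A q) q'
    obtain ⟨P, hP, h⟩ := core M D A Bt q s (b + 1) ((b + 1) * (s + 1)) hs
      (fun q' => swp (N' q')) (fun q' => swp_cost _ _ (hN' q')) (by
      intro q' j g ha hj x y h μ hh
      have h0 := hN2 q' y x j μ hj
      rw [glue_compl] at h0
      show ((swp (N' q')).eval x y = true → _) ∧ (_ → _ → (swp (N' q')).eval x y = true)
      rw [swp_eval]
      have e2 : Eq2 (⟨q', h, glue D (Ax M D A q x) (Bt y), μ⟩ : Cfg Q Γ)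
        ⟨q', j, glue D (Ax M D A q x) (Bt y), μ⟩ := ⟨rfl, rfl⟩
      rw [Ac_Eq2 M e2]
      refine ⟨h0.1, fun ha1 hc => h0.2 ha1 (fun T => ?_)⟩
      rw [crs_compl]
      cases T with
      | zero => exact Nat.zero_le _
      | succ T =>
        have h1 := hc (T + 1)
        rw [crs_succ] at h1 ⊢
        have h2 := (cr1_visit M D (⟨q', h, glue D (Ax M D A q x) (Bt y), μ⟩ : Cfg Q Γ) j g ha).2
          (fun hi => hj (hi.1 hh))
        have h3 := (cr1_visit M D (⟨q', j, glue D (Ax M D A q x) (Bt y), μ⟩ : Cfg Q Γ) j g ha).1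
          (Iff.rfl)
        have h4 : Em (M.step (⟨q', h, glue D (Ax M D A q x) (Bt y), μ⟩ : Cfg Q Γ))
            (M.step (⟨q', j, glue D (Ax M D A q x) (Bt y), μ⟩ : Cfg Q Γ)) := by
          rw [step_visit M _ j g ha, step_visit M _ j g ha]
          exact ⟨rfl, rfl, rfl⟩
        rw [crs_Em M D T h4] at h1
        omega)
    refine ⟨P, ?_, h⟩
    have e : (b + 1 + 1) * (s + 1) = s + 1 + (b + 1) * (s + 1) := by ring
    rw [e]
    exact hP

end PrtAux

open PrtAux in
theorem tPrt : S_Prt := by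
  intro X Y Q Γ _ s B D hs M A Bt
  by_cases h0 : (0 : ℕ) ∈ D
  · obtain ⟨P, hP, h⟩ := claim M s hs B X Y D A Bt M.start
    exact ⟨P, hP, fun x y => h x y 0 0 h0⟩
  · obtain ⟨P, hP, h⟩ := claim M s hs B Y X Dᶜ Bt A M.start
    refine ⟨swp P, swp_cost P _ hP, fun x y => ?_⟩
    have h1 := h y x 0 0 h0
    rw [glue_compl] at h1
    rw [swp_eval]
    refine ⟨h1.1, fun ha hc => h1.2 ha (fun T => ?_)⟩
    rw [crs_compl]
    exact hc T

end Pool.Agent.Lib.MP_ff3ed7_lc.SQ
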