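import Pool.Agent.Lib.MP_ff3ed7_lc.SQ.Spec

/-!
# PROJECT SQ: lower bounds for machines from lower bounds for protocols
-/

set_option autoImplicit false

open Finset

namespace Pool.Agent.Lib.MP_ff3ed7_lc.SQ

open Pool.Agent.Lib.MP_ff3ed7_lc.PLT
open Pool.Agent.Lib.MP_ff3ed7_lc.B (HasSBPcc)

/-- The pairs in the cells, read bit by bit. -/
def Red_pb {m : ℕ} (x : Fin m → Bool × Bool) (j : ℕ) : Bool :=
  if h : j / 2 < m then (if j % 2 = 0 then (x ⟨j / 2, h⟩).1 else (x ⟨j / 2, h⟩).2) else false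

/-- The input which belongs to `x` and `y`. -/
def Red_z {N m : ℕ} (o : ℕ) (x y : Fin m → Bool × Bool) (j : Fin N) : Bool :=
  if j.1 < o then Red_pb x j.1 else Red_pb y (j.1 - o)

lemma Red_pb_even {m : ℕ} (x : Fin m → Bool × Bool) (i : Fin m) :
    Red_pb x (2 * i.1) = (x i).1 := by
  unfold Red_pb
  have h1 : 2 * i.1 / 2 = i.1 := by omega
  have h2 : 2 * i.1 % 2 = 0 := by omega
  rw [dif_pos (by rw [h1]; exact i.2), if_pos h2]
  congr 2
  exact Fin.ext h1

lemma Red_pb_odd {m : ℕ} (x : Fin m → Bool × Bool) (i : Fin m) :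
    Red_pb x (2 * i.1 + 1) = (x i).2 := by
  unfold Red_pb
  have h1 : (2 * i.1 + 1) / 2 = i.1 := by omega
  have h2 : ¬ (2 * i.1 + 1) % 2 = 0 := by omega
  rw [dif_pos (by rw [h1]; exact i.2), if_neg h2]
  congr 2
  exact Fin.ext h1

lemma Red_pb_ge {m : ℕ} (x : Fin m → Bool × Bool) (j : ℕ) (h : 2 * m ≤ j) :
    Red_pb x j = false := by
  unfold Red_pb
  rw [dif_neg (by omega)]

lemma Red_pb_zero {m : ℕ} (j : ℕ) :
    Red_pb (fun _ : Fin m => (false, false)) j = false := by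
  unfold Red_pb
  split_ifs <;> rfl

lemma Red_getD {N : ℕ} (z : Fin N → Bool) (j : ℕ) (h : j < N) :
    (word z).getD j false = z ⟨j, h⟩ := by
  unfold word
  rw [List.getD_eq_getElem _ _ (by simpa using h), List.getElem_ofFn]

lemma Red_vwget (z : List Bool) (i : ℕ) (h : i < (vw z).length) : (vw z)[i] = vbit z i := by
  simp only [vw, List.getElem_ofFn]

lemma Red_wget {n : ℕ} (x : Fin n → Bool) (i : ℕ) (h : i < (word x).length) (h' : i < n) :
    (word x)[i] = x ⟨i, h'⟩ := by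
  simp only [word, List.getElem_ofFn]

/-- The virtual word. -/
lemma Red_vw {N l : ℕ} (hN : Nat.log 2 N = l + 3) (hN0 : N ≠ 0) (hv : vl N = 2 ^ l)
    (x y : Fin (vl N) → Bool × Bool) :
    vw (word (Red_z (N := N) (4 * 2 ^ l) x y)) = word (sel x y) := by
  have hlen : (word (Red_z (N := N) (4 * 2 ^ l) x y)).length = N := word_length _
  have hT : 2 ^ (l + 3) ≤ N := by
    rw [← hN]
    exact Nat.pow_log_le_self 2 hN0
  have hT2 : 2 ^ (l + 3) = 8 * 2 ^ l := by rw [pow_add]; ring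
  have ho : 2 ^ Nat.log 2 (word (Red_z (N := N) (4 * 2 ^ l) x y)).length / 2 = 4 * 2 ^ l := by
    rw [hlen, hN, hT2]
    omega
  apply List.ext_getElem
  · unfold vw word
    rw [List.length_ofFn, List.length_ofFn, List.length_ofFn]
  · intro i h1 h2
    have hi : i < vl N := by
      unfold word at h2
      rwa [List.length_ofFn] at h2
    have hi' : i < 2 ^ l := hv ▸ hi
    rw [Red_vwget]
    rw [Red_wget (sel x y) i h2 hi]
    unfold vbit
    rw [ho]
    simp only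
    rw [Red_getD _ (4 * 2 ^ l + 2 * i) (by omega), Red_getD _ (2 * i + 1) (by omega),
      Red_getD _ (2 * i) (by omega), Red_getD _ (4 * 2 ^ l + 2 * i + 1) (by omega)]
    have e1 : Red_z (N := N) (4 * 2 ^ l) x y ⟨4 * 2 ^ l + 2 * i, by omega⟩ = (y ⟨i, hi⟩).1 := by
      unfold Red_z
      rw [if_neg (by simp)]
      have : 4 * 2 ^ l + 2 * i - 4 * 2 ^ l = 2 * i := by omega
      simp only [this]
      exact Red_pb_even y ⟨i, hi⟩
    have e2 : Red_z (N := N) (4 * 2 ^ l) x y ⟨2 * i + 1, by omega⟩ = (x ⟨i, hi⟩).2 := by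
      unfold Red_z
      rw [if_pos (by simp only; omega)]
      exact Red_pb_odd x ⟨i, hi⟩
    have e3 : Red_z (N := N) (4 * 2 ^ l) x y ⟨2 * i, by omega⟩ = (x ⟨i, hi⟩).1 := by
      unfold Red_z
      rw [if_pos (by simp only; omega)]
      exact Red_pb_even x ⟨i, hi⟩
    have e4 : Red_z (N := N) (4 * 2 ^ l) x y ⟨4 * 2 ^ l + 2 * i + 1, by omega⟩ =
        (y ⟨i, hi⟩).2 := by
      unfold Red_z
      rw [if_neg (by simp only; omega)]
      have : 4 * 2 ^ l + 2 * i + 1 - 4 * 2 ^ l = 2 * i + 1 := by omega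
      simp only [this]
      exact Red_pb_odd y ⟨i, hi⟩
    rw [e1, e2, e3, e4]
    rfl

/-- The slices. -/
lemma Red_slice (L : Set (List Bool)) {N l : ℕ} (h8 : 8 ≤ N) (hN : Nat.log 2 N = l + 3)
    (hv : vl N = 2 ^ l) (x y : Fin (vl N) → Bool × Bool) :
    slice (vlang L) N (Red_z (N := N) (4 * 2 ^ l) x y) = lift (slice L (vl N)) x y := by
  have h1 : slice (vlang L) N (Red_z (N := N) (4 * 2 ^ l) x y) = true ↔
      lift (slice L (vl N)) x y = true := by
    unfold lift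
    rw [slice_eq_true, slice_eq_true]
    unfold vlang
    rw [Set.mem_ofPred_eq, Red_vw hN (by omega) hv, word_length]
    exact and_iff_right h8
  exact Bool.eq_iff_iff.2 h1

/-- The glued tapes. -/
lemma Red_glue {Q Γ : Type} (M : SM Q Γ) {N l m : ℕ} (hm : m = 2 ^ l)
    (x y : Fin m → Bool × Bool) (c : ℕ)
    (h1 : 2 ^ (l + 1) ≤ c) (h2 : c < 2 ^ (l + 1) + 2 ^ (l + 1)) :
    glue {j | j < c} (M.tp (Red_z (N := N) (4 * 2 ^ l) x fun _ => (false, false)))
      (M.tp (Red_z (N := N) (4 * 2 ^ l) (fun _ => (false, false)) y)) =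
      M.tp (Red_z (N := N) (4 * 2 ^ l) x y) := by
  have e1 : 2 ^ (l + 1) = 2 * 2 ^ l := by rw [pow_succ]; ring
  funext j
  unfold glue SM.tp
  simp only [Set.mem_ofPred_eq]
  by_cases hj : j < c
  · rw [if_pos hj]
    congr 1
    by_cases hjN : j < N
    · rw [dif_pos hjN, dif_pos hjN]
      congr 1
      unfold Red_z
      rw [if_pos (by simp only; omega), if_pos (by simp only; omega)]
    · rw [dif_neg hjN, dif_neg hjN]
  · rw [if_neg hj]
    congr 1
    by_cases hjN : j < N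
    · rw [dif_pos hjN, dif_pos hjN]
      congr 1
      unfold Red_z
      by_cases h3 : j < 4 * 2 ^ l
      · rw [if_pos h3, if_pos h3]
        simp only
        rw [Red_pb_zero, Red_pb_ge x j (by omega)]
      · rw [if_neg h3, if_neg h3]
    · rw [dif_neg hjN, dif_neg hjN]

/-- **Red.** -/
theorem tRed : S_Red := by
  intro hPrt hCrs hAvg hMj L N s t h8
  obtain ⟨l, hl⟩ : ∃ l, Nat.log 2 N = l + 3 := by
    have h1 : 3 ≤ Nat.log 2 N := by
      have := Nat.log_mono_right (b := 2) h8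
      have h2 : Nat.log 2 8 = 3 := by
        have h3 : Nat.log 2 (2 ^ 3) = 3 := Nat.log_pow (by norm_num) 3
        exact h3
      omega
    exact ⟨Nat.log 2 N - 3, by omega⟩
  have hv : vl N = 2 ^ l := by
    unfold vl
    rw [hl, pow_add]
    norm_num
  have hk : Nat.log 2 N - 2 = l + 1 := by omega
  rw [hk]
  refine ⟨?_, ?_⟩
  · rintro p ⟨r, Q, Γ, _, M, hQ, hmot, hyes, hno⟩
    have hP : ∀ m : Fin p → Bool, ∃ P : (Fin (r + (l + 1)) → Bool) →
        Prot (Fin (vl N) → Bool × Bool) (Fin (vl N) → Bool × Bool),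
        (∀ ρ, (P ρ).CostLE ((100 * t / 2 ^ (l + 1) + 1) * (s + 1))) ∧ ∀ x y,
          prob (r + (l + 1)) (fun ρ => (P ρ).eval x y = true) ≤
            prob r (fun ρ => (M m ρ).Accτ ((M m ρ).tp (Red_z (N := N) (4 * 2 ^ l) x y))) ∧
          99 / 100 * prob r (fun ρ => (M m ρ).Accτ ((M m ρ).tp
            (Red_z (N := N) (4 * 2 ^ l) x y))) ≤
            prob (r + (l + 1)) (fun ρ => (P ρ).eval x y = true) := by
      intro m
      exact hAvg hPrt hCrs _ _ Q Γ _ s t (2 ^ (l + 1)) (l + 1) r hQ (M m)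
        (fun ρ x => (M m ρ).tp (Red_z (N := N) (4 * 2 ^ l) x fun _ => (false, false)))
        (fun ρ y => (M m ρ).tp (Red_z (N := N) (4 * 2 ^ l) (fun _ => (false, false)) y))
        (fun ρ x y => (M m ρ).tp (Red_z (N := N) (4 * 2 ^ l) x y))
        (fun ρ x y c h1 h2 => Red_glue (M m ρ) hv x y c h1 h2)
        (fun ρ x y T => hmot m ρ _ T)
    choose P hP1 hP2 using hP
    refine hMj.1 _ _ _ p _ (r + (l + 1)) P hP1 ?_ ?_
    · intro x y hxy
      rw [← Red_slice L h8 hl hv] at hxy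
      obtain ⟨m, hm⟩ := hyes _ hxy
      refine ⟨m, ?_⟩
      have h3 := (hP2 m x y).2
      have h4 : (99 / 100 : ℝ) * (2 / 3) ≤ 99 / 100 * prob r (fun ρ => (M m ρ).Accτ
        ((M m ρ).tp (Red_z (N := N) (4 * 2 ^ l) x y))) :=
        mul_le_mul_of_nonneg_left hm (by norm_num)
      refine le_trans ?_ (h4.trans h3)
      norm_num
    · intro x y hxy m
      rw [← Red_slice L h8 hl hv] at hxy
      exact ((hP2 m x y).1).trans (hno _ hxy m)
  · rintro u ⟨r, Q, Γ, _, M, hQ, hmot, hyes, hno⟩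
    obtain ⟨P, hP1, hP2⟩ := hAvg hPrt hCrs (Fin (vl N) → Bool × Bool) (Fin (vl N) → Bool × Bool)
      Q Γ _ s t (2 ^ (l + 1)) (l + 1) r hQ M
      (fun ρ x => (M ρ).tp (Red_z (N := N) (4 * 2 ^ l) x fun _ => (false, false)))
      (fun ρ y => (M ρ).tp (Red_z (N := N) (4 * 2 ^ l) (fun _ => (false, false)) y))
      (fun ρ x y => (M ρ).tp (Red_z (N := N) (4 * 2 ^ l) x y))
      (fun ρ x y c h1 h2 => Red_glue (M ρ) hv x y c h1 h2)
      (fun ρ x y T => hmot ρ _ T)
    refine ⟨_, hMj.2 _ _ _ u _ (r + (l + 1)) P hP1 ?_ ?_⟩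
    · intro x y hxy
      rw [← Red_slice L h8 hl hv] at hxy
      exact le_trans (mul_le_mul_of_nonneg_left (hyes _ hxy) (by norm_num)) (hP2 x y).2
    · intro x y hxy
      rw [← Red_slice L h8 hl hv] at hxy
      exact ((hP2 x y).1).trans (hno _ hxy)

end Pool.Agent.Lib.MP_ff3ed7_lc.SQ
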