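import Pool.Agent.Lib.MP_ff3ed7_lc.SQ.Spec2
import Pool.Agent.Lib.MP_ff3ed7_lc.SQ.Red

/-!
# PROJECT SQ: lower bounds for `PP` machines from lower bounds for protocols
-/

set_option autoImplicit false

open Finset

namespace Pool.Agent.Lib.MP_ff3ed7_lc.SQ

open Pool.Agent.Lib.MP_ff3ed7_lc.PLT

private lemma RdP_prob_le_one (r : ℕ) (E : (Fin r → Bool) → Prop) : prob r E ≤ 1 := by
  unfold prob
  rw [div_le_one (by positivity)]
  have h1 : Nat.card {ρ // E ρ} ≤ Nat.card (Fin r → Bool) :=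
    Nat.card_le_card_of_injective (fun z : {ρ // E ρ} => z.1) Subtype.val_injective
  have h2 : Nat.card (Fin r → Bool) = 2 ^ r := by simp
  rw [h2] at h1
  exact_mod_cast h1

private lemma RdP_num (p : ℕ) (q : ℝ) (hq : 1 / 2 + (1 / 2) ^ p ≤ q) (hq1 : q ≤ 1) :
    1 / 2 + (1 / 2) ^ (p + 1) ≤ (1 - (1 / 100) ^ (p + 1)) * q := by
  have h1 : ((1 : ℝ) / 100) ^ (p + 1) ≤ (1 / 2) ^ (p + 1) :=
    pow_le_pow_left₀ (by norm_num) (by norm_num) _
  have h2 : ((1 : ℝ) / 2) ^ p = 2 * (1 / 2) ^ (p + 1) := by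
    rw [pow_succ]
    ring
  have h0 : (0 : ℝ) ≤ (1 / 100) ^ (p + 1) := by positivity
  have h3 : ((1 : ℝ) / 100) ^ (p + 1) * q ≤ (1 / 100) ^ (p + 1) * 1 :=
    mul_le_mul_of_nonneg_left hq1 h0
  have h4 : (1 - ((1 : ℝ) / 100) ^ (p + 1)) * q = q - (1 / 100) ^ (p + 1) * q := by ring
  rw [h4]
  linarith

/-- **RdP.** -/
theorem tRdP : S_RdP := by
  intro hPrt hCrs hAvP L N p s t h8
  obtain ⟨l, hl⟩ : ∃ l, Nat.log 2 N = l + 3 := by
    have h1 : 3 ≤ Nat.log 2 N := by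
      have := Nat.log_mono_right (b := 2) h8
      have h2 : Nat.log 2 8 = 3 := by
        have h3 : Nat.log 2 (2 ^ 3) = 3 := Nat.log_pow (by norm_num) 3
        exact h3
      omega
    exact ⟨Nat.log 2 N - 3, by omega⟩
  have hv : vl N = 2 ^ l := by
    unfold vl
    rw [hl, pow_add]
    norm_num
  have hk : Nat.log 2 N - 2 = l + 1 := by omega
  rw [hk]
  rintro ⟨r, Q, Γ, _, M, hQ, hmot, hyes, hno⟩
  obtain ⟨r', P, hP1, hP2⟩ := hAvP hPrt hCrs (Fin (vl N) → Bool × Bool)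
    (Fin (vl N) → Bool × Bool) Q Γ _ s t (2 ^ (l + 1)) (l + 1) r (p + 1) hQ M
    (fun ρ x => (M ρ).tp (Red_z (N := N) (4 * 2 ^ l) x fun _ => (false, false)))
    (fun ρ y => (M ρ).tp (Red_z (N := N) (4 * 2 ^ l) (fun _ => (false, false)) y))
    (fun ρ x y => (M ρ).tp (Red_z (N := N) (4 * 2 ^ l) x y))
    (fun ρ x y c h1 h2 => Red_glue (M ρ) hv x y c h1 h2)
    (fun ρ x y T => hmot ρ _ T)
  refine ⟨r', P, hP1, ?_, ?_⟩
  · intro x y hxy
    rw [← Red_slice L h8 hl hv] at hxy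
    exact (RdP_num p _ (hyes _ hxy) (RdP_prob_le_one _ _)).trans (hP2 x y).2
  · intro x y hxy
    rw [← Red_slice L h8 hl hv] at hxy
    exact ((hP2 x y).1).trans (hno _ hxy)

end Pool.Agent.Lib.MP_ff3ed7_lc.SQ
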