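import Pool.Agent.Lib.MP_ff3ed7_lc.SQ.SGen2

/-!
# PROJECT SQ: the inclusions `MA ⊆ AM`, `MA ⊆ SBP` and `SBP ⊆ AM` with a sequential input head
-/

set_option autoImplicit false

open Finset

namespace Pool.Agent.Lib.MP_ff3ed7_lc.SQ

open Pool.Agent.Lib.MP_ff3ed7_lc.PLT

/-! ## Bounds -/

private lemma two_le_L (n : ℕ) : 2 ≤ Nat.log 2 n + 2 := by omega

private lemma one_le_pl (c n : ℕ) : 1 ≤ pl c n := Nat.one_le_pow _ _ (by omega)

private lemma pl_mono {c d : ℕ} (h : c ≤ d) (n : ℕ) : pl c n ≤ pl d n :=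
  Nat.pow_le_pow_right (by omega) h

private lemma pl_mul (c d n : ℕ) : pl c n * pl d n = pl (c + d) n := (pow_add _ _ _).symm

private lemma const_mul_pl (C c n : ℕ) : C * pl c n ≤ pl (C + c) n := by
  rw [← pl_mul]
  refine Nat.mul_le_mul_right _ ?_
  calc C ≤ 2 ^ C := Nat.lt_two_pow_self.le
    _ ≤ (Nat.log 2 n + 2) ^ C := Nat.pow_le_pow_left (two_le_L n) C

private lemma pow_mul_pl (j c n : ℕ) : 2 ^ j * pl c n ≤ pl (j + c) n := by
  rw [← pl_mul]
  exact Nat.mul_le_mul_right _ (Nat.pow_le_pow_left (two_le_L n) j)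

private lemma len_lt (b n : ℕ) (hb : 1 ≤ b) : n < 2 ^ pl b n := by
  refine (Nat.lt_pow_succ_log_self (by norm_num) n).trans_le (Nat.pow_le_pow_right (by norm_num) ?_)
  have h : pl 1 n ≤ pl b n := pl_mono hb n
  have h1 : pl 1 n = Nat.log 2 n + 2 := pow_one _
  omega

private lemma SStops_mono {P : Prog} {x : List Bool} {y r t t' S S' : ℕ}
    (h : SStops P x y r t S) (ht : t ≤ t') (hS : S ≤ S') : SStops P x y r t' S' := by
  obtain ⟨w1, w2, w3, w, w', cw, hw, hcw⟩ := h
  have hp : 2 ^ S ≤ 2 ^ S' := Nat.pow_le_pow_right (by norm_num) hS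
  exact ⟨w1.trans_le hp, w2.trans_le hp, w3.trans_le hp, w, w', cw, hw.mem_mono hS, hcw.trans ht⟩

private lemma pr_congr (k : ℕ) {A B : ℕ → Prop} (h : ∀ r < 2 ^ k, (A r ↔ B r)) : pr k A = pr k B := by
  unfold pr
  congr 2
  exact Nat.card_congr (Equiv.subtypeEquivRight fun r => h r.1 r.2)

private lemma blk_lt (k r i : ℕ) : blk k r i < 2 ^ k := Nat.mod_lt _ (by positivity)

/-- The time of the new program. -/
private lemma time_bound (C b d m M n : ℕ) (hM : M + 1 ≤ pl m n) :
    C * ((pl b n * pl b n + (ql d n + n)) * (M + 1)) ≤ ql (C + (2 + (b + b + d) + m)) n := by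
  have h1 : pl b n * pl b n ≤ pl (b + b + d) n := by
    rw [pl_mul]; exact pl_mono (by omega) n
  have h2 : pl d n ≤ pl (b + b + d) n := pl_mono (by omega) n
  have h3 := one_le_pl (b + b + d) n
  have h4 := pow_mul_pl 2 (b + b + d) n
  obtain ⟨Z, hZ⟩ : ∃ Z, Z = pl (b + b + d) n := ⟨_, rfl⟩
  rw [← hZ] at h1 h2 h3 h4
  have h5 : pl b n * pl b n + (ql d n + n) ≤ (n + 1) * pl (2 + (b + b + d)) n := by
    refine le_trans ?_ (Nat.mul_le_mul_left _ h4)
    unfold ql
    have h6 : (n + 1) * pl d n ≤ (n + 1) * Z := Nat.mul_le_mul_left _ h2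
    have h7 : Z ≤ (n + 1) * Z := Nat.le_mul_of_pos_left _ (Nat.succ_pos n)
    have h8 : n ≤ (n + 1) * Z := le_trans (Nat.le_succ n) (Nat.le_mul_of_pos_right _ h3)
    have h9 : (n + 1) * (2 ^ 2 * Z) = (n + 1) * Z + (n + 1) * Z + (n + 1) * Z + (n + 1) * Z := by ring
    omega
  unfold ql at h5 ⊢
  calc C * ((pl b n * pl b n + ((n + 1) * pl d n + n)) * (M + 1))
      ≤ C * (((n + 1) * pl (2 + (b + b + d)) n) * pl m n) :=
        Nat.mul_le_mul_left _ (Nat.mul_le_mul h5 hM)
    _ = (n + 1) * (C * (pl (2 + (b + b + d)) n * pl m n)) := by ring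
    _ = (n + 1) * (C * pl (2 + (b + b + d) + m) n) := by rw [pl_mul]
    _ ≤ _ := Nat.mul_le_mul_left _ (const_mul_pl _ _ _)

/-- The memory of the new program. -/
private lemma mem_bound (C b n : ℕ) : C * (pl b n * pl b n) ≤ pl (C + (b + b)) n := by
  rw [pl_mul]; exact const_mul_pl _ _ _

/-- The number of repetitions. -/
private lemma reps (c n : ℕ) : 50 * (pl c n + 2) + 1 ≤ pl (8 + c) n ∧
    50 * (pl c n + 2) * pl c n ≤ pl (8 + (c + c)) n := by
  have h1 := one_le_pl c n
  have h2 := pow_mul_pl 8 c n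
  have h3 := pow_mul_pl 8 (c + c) n
  have h4 := pl_mul c c n
  constructor
  · nlinarith
  · nlinarith

/-! ## The inclusions -/

/-- **MA in AM.** -/
theorem MAql_subset_AMql (hPrB : S_PrB) (hAmp : S_Amp) (hMaAm : S_MaAm) : MAql ⊆ AMql := by
  rintro L ⟨c, d, e₀, P, hV, hL⟩
  obtain ⟨R, hR, hP⟩ := P.exists_lt
  obtain ⟨P', C, hC, hgen⟩ := sgen P R hR hP c c (.mod (.reg (R + 6)) (.reg (R + 9)))
    (.reg (R + 7)) (.mul (.num 50) (.add (.reg (R + 8)) (.num 2)))
    (.sub (.num 1) (.sub (.add (.mul (.num 50) (.add (.reg (R + 8)) (.num 2))) (.num 1))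
      (.mul (.num 2) (.reg (R + 5)))))
    (fun y _ _ K _ => y % K) (fun _ r _ _ _ => r) (fun _ _ k _ _ => 50 * (k + 2))
    (fun _ _ k _ _ w => 1 - (50 * (k + 2) + 1 - 2 * w))
    (fun _ => rfl) (fun _ => rfl) (fun _ => rfl) (fun _ => rfl)
  set c' := 8 + (c + c) with hc'
  set b := e₀ + c' + c + 1 with hb
  set d' := C + (2 + (b + b + d) + (8 + c)) with hd'
  set e' := C + (b + b) with he'
  have main : ∀ (x : List Bool) (y r : ℕ), y < 2 ^ pl c' x.length → r < 2 ^ pl c' x.length →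
      SStops P' x y r (ql d' x.length) (pl e' x.length) ∧
      (Acc P' x y r ↔ Maj (pl c x.length) (50 * (pl c x.length + 2))
        (Acc P x (y % 2 ^ pl c x.length)) r) := by
    intro x y r hy hr
    set n := x.length with hn
    have hle : pl c' n ≤ pl b n := pl_mono (by omega) n
    have h1 := hgen x y r (ql d n) (pl b n) (pl c n) (pl c n) (y % 2 ^ pl c n) r
      (50 * (pl c n + 2)) rfl rfl rfl rfl rfl (one_le_pl _ _) (by
        have h2 : pl (c + 1) n ≤ pl b n := pl_mono (by omega) n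
        have h3 := pow_mul_pl 1 c n
        have h4 := one_le_pl c n
        rw [Nat.add_comm 1 c] at h3
        omega) (by
        have h2 : pl (c + 1) n ≤ pl b n := pl_mono (by omega) n
        have h3 := pow_mul_pl 1 c n
        have h4 := one_le_pl c n
        rw [Nat.add_comm 1 c] at h3
        omega) (len_lt b n (by omega))
      (hy.trans_le (Nat.pow_le_pow_right (by norm_num) hle))
      (hr.trans_le (Nat.pow_le_pow_right (by norm_num) hle))
      (fun i _ => SStops_mono (hV x _ _ (Nat.mod_lt _ (by positivity)) (blk_lt _ _ _)) le_rfl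
        (pl_mono (by omega) n))
    refine ⟨SStops_mono h1.1 (time_bound C b d (8 + c) _ n (reps c n).1) (mem_bound C b n),
      h1.2.trans ?_⟩
    unfold Maj
    omega
  refine ⟨c', d', e', P', fun x y r hy hr => (main x y r hy hr).1, fun x => ?_⟩
  set n := x.length with hn
  have hM := (reps c n).2
  have hk : pl c n ≤ pl c' n := pl_mono (by omega) n
  obtain ⟨g1, g2⟩ := hMaAm hPrB hAmp (pl c n) (50 * (pl c n + 2)) (pl c' n) (Acc P x) rfl hM hk
  have hcongr : (pr (pl c' n) fun r => ∃ y < 2 ^ pl c' n, Acc P' x y r) =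
      pr (pl c' n) fun r => ∃ y < 2 ^ pl c' n, Maj (pl c n) (50 * (pl c n + 2))
        (Acc P x (y % 2 ^ pl c n)) r := by
    apply pr_congr
    intro r hr
    constructor
    · rintro ⟨y, hy, h⟩
      exact ⟨y, hy, (main x y r hy hr).2.mp h⟩
    · rintro ⟨y, hy, h⟩
      exact ⟨y, hy, (main x y r hy hr).2.mpr h⟩
  rw [hcongr]
  exact ⟨fun hx => g1 ((hL x).1 hx), fun hx => g2 ((hL x).2 hx)⟩

/-- **MA in SBP.** -/
theorem MAql_subset_SBPql (hPrB : S_PrB) (hAmp : S_Amp) (hMaSbp : S_MaSbp) : MAql ⊆ SBPql := by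
  rintro L ⟨c, d, e₀, P, hV, hL⟩
  obtain ⟨R, hR, hP⟩ := P.exists_lt
  obtain ⟨P', C, hC, hgen⟩ := sgen P R hR hP c (c + 2) (.mod (.reg (R + 7)) (.reg (R + 9)))
    (.div (.reg (R + 7)) (.div (.reg (R + 10)) (.num 4)))
    (.mul (.num 50) (.add (.reg (R + 8)) (.num 2)))
    (.mul (.sub (.num 1) (.mod (.div (.reg (R + 7)) (.reg (R + 9)))
      (.div (.div (.reg (R + 10)) (.num 4)) (.reg (R + 9)))))
      (.sub (.num 1) (.sub (.add (.mul (.num 50) (.add (.reg (R + 8)) (.num 2))) (.num 1))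
      (.mul (.num 2) (.reg (R + 5))))))
    (fun _ r _ K _ => r % K) (fun _ r _ _ U => r / (U / 4)) (fun _ _ k _ _ => 50 * (k + 2))
    (fun _ r k K U w => (1 - r / K % (U / 4 / K)) * (1 - (50 * (k + 2) + 1 - 2 * w)))
    (fun _ => rfl) (fun _ => rfl) (fun _ => rfl) (fun _ => rfl)
  set c' := 9 + (c + c) with hc'
  set b := e₀ + c' + c + 3 with hb
  set d' := C + (2 + (b + b + d) + (8 + c)) with hd'
  set e' := C + (b + b) with he'
  have hu : ∀ n, pl c n + 2 ≤ pl (c + 2) n := by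
    intro n
    have h1 := one_le_pl c n
    have h2 := pow_mul_pl 2 c n
    rw [Nat.add_comm 2 c] at h2
    omega
  have main : ∀ (x : List Bool) (y r : ℕ), y < 2 ^ pl c' x.length → r < 2 ^ pl c' x.length →
      SStops P' x y r (ql d' x.length) (pl e' x.length) ∧
      (Acc P' x y r ↔ r / 2 ^ pl c x.length %
          2 ^ (pl (c + 2) x.length - (pl c x.length + 2)) = 0 ∧
        Maj (pl c x.length) (50 * (pl c x.length + 2)) (Acc P x (r % 2 ^ pl c x.length))
          (r / 2 ^ (pl c x.length + (pl (c + 2) x.length - (pl c x.length + 2))))) := by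
    intro x y r hy hr
    set n := x.length with hn
    have hle : pl c' n ≤ pl b n := pl_mono (by omega) n
    have hun := hu n
    have e1 : 2 ^ pl (c + 2) n / 4 =
        2 ^ (pl c n + (pl (c + 2) n - (pl c n + 2))) := by
      have : pl (c + 2) n = (pl c n + (pl (c + 2) n - (pl c n + 2))) + 2 := by omega
      conv_lhs => rw [this, pow_add]
      norm_num
    have e2 : 2 ^ pl (c + 2) n / 4 / 2 ^ pl c n = 2 ^ (pl (c + 2) n - (pl c n + 2)) := by
      rw [e1, pow_add]
      exact Nat.mul_div_cancel_left _ (by positivity)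
    have h1 := hgen x y r (ql d n) (pl b n) (pl c n) (pl (c + 2) n) (r % 2 ^ pl c n)
      (r / 2 ^ (pl c n + (pl (c + 2) n - (pl c n + 2))))
      (50 * (pl c n + 2)) rfl rfl rfl (by rw [← e1]) rfl (one_le_pl _ _) (by
        have h2 : pl (c + 2) n ≤ pl b n := pl_mono (by omega) n
        omega) (by
        have h2 : pl (c + 3) n ≤ pl b n := pl_mono (by omega) n
        have h3 := pow_mul_pl 1 (c + 2) n
        have h4 := one_le_pl (c + 2) n
        rw [show 1 + (c + 2) = c + 3 by ring] at h3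
        omega) (len_lt b n (by omega))
      (hy.trans_le (Nat.pow_le_pow_right (by norm_num) hle))
      (hr.trans_le (Nat.pow_le_pow_right (by norm_num) hle))
      (fun i _ => SStops_mono (hV x _ _ (Nat.mod_lt _ (by positivity)) (blk_lt _ _ _)) le_rfl
        (pl_mono (by omega) n))
    refine ⟨SStops_mono h1.1 (time_bound C b d (8 + c) _ n (reps c n).1) (mem_bound C b n),
      h1.2.trans ?_⟩
    unfold Maj
    simp only [e2]
    rw [_root_.mul_eq_one]
    constructor
    · rintro ⟨h2, h3⟩; constructor <;> omega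
    · rintro ⟨h2, h3⟩; constructor <;> omega
  refine ⟨c', d', e', c + 2, P', fun x y r hy hr => (main x y r hy hr).1, fun x => ?_⟩
  set n := x.length with hn
  have hun := hu n
  have hM : pl c n + (pl (c + 2) n - (pl c n + 2)) + 50 * (pl c n + 2) * pl c n ≤ pl c' n := by
    have h1 := (reps c n).2
    have h2 : pl (c + 2) n ≤ pl (8 + (c + c)) n := pl_mono (by omega) n
    have h3 := pow_mul_pl 1 (8 + (c + c)) n
    rw [show 1 + (8 + (c + c)) = c' by omega] at h3
    omega
  obtain ⟨g1, g2⟩ := hMaSbp hPrB hAmp (pl c n) (50 * (pl c n + 2))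
    (pl (c + 2) n - (pl c n + 2)) (pl c' n) (Acc P x) rfl hM
  rw [show pl c n + 2 + (pl (c + 2) n - (pl c n + 2)) = pl (c + 2) n by omega] at g1 g2
  have hcongr : (pr (pl c' n) fun r => Acc P' x 0 r) =
      pr (pl c' n) fun r => r / 2 ^ pl c n % 2 ^ (pl (c + 2) n - (pl c n + 2)) = 0 ∧
        Maj (pl c n) (50 * (pl c n + 2)) (Acc P x (r % 2 ^ pl c n))
          (r / 2 ^ (pl c n + (pl (c + 2) n - (pl c n + 2)))) :=
    pr_congr _ fun r hr => (main x 0 r (by positivity) hr).2
  rw [hcongr]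
  exact ⟨fun hx => g1 ((hL x).1 hx), fun hx => g2 ((hL x).2 hx)⟩

private lemma card_fin_one (A : ℕ → Prop) : Nat.card {i : Fin 1 // A i.1} = 1 ↔ A 0 := by
  classical
  rw [Nat.card_eq_fintype_card, Fintype.card_subtype]
  constructor
  · intro h
    by_contra hA
    have : (univ.filter fun i : Fin 1 => A i.1) = ∅ := by
      ext i
      simp only [mem_filter, mem_univ, true_and, notMem_empty, iff_false]
      have : i.1 = 0 := by omega
      rw [this]; exact hA
    rw [this] at h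
    simp at h
  · intro h
    have : (univ.filter fun i : Fin 1 => A i.1) = univ := by
      ext i
      simp only [mem_filter, mem_univ, true_and, iff_true]
      have : i.1 = 0 := by omega
      rw [this]; exact h
    rw [this]
    simp

private lemma card_fin_all (m : ℕ) (A : ℕ → Prop) : m ≤ Nat.card {i : Fin m // A i.1} ↔ ∀ i < m, A i := by
  classical
  rw [Nat.card_eq_fintype_card, Fintype.card_subtype]
  constructor
  · intro h i hi
    have h1 : (univ.filter fun i : Fin m => A i.1) = univ := by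
      apply eq_univ_of_card
      rw [Fintype.card_fin]
      refine le_antisymm ?_ h
      simpa using card_filter_le (univ : Finset (Fin m)) fun i => A i.1
    have h2 : (⟨i, hi⟩ : Fin m) ∈ univ.filter fun i : Fin m => A i.1 := by rw [h1]; simp
    simpa using h2
  · intro h
    have h1 : (univ.filter fun i : Fin m => A i.1) = univ := by
      ext i; simp [h i.1 i.2]
    rw [h1]; simp

/-- More coins. -/
private theorem SBPs_enlarge (hPrB : S_PrB) {L : Set (List Bool)} {c d e₀ : ℕ} {u : ℕ → ℕ}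
    (h : L ∈ SBPs (pl c) (ql d) (pl e₀) u) (c₁ : ℕ) (hc : c ≤ c₁) :
    ∃ d₁ e₁, L ∈ SBPs (pl c₁) (ql d₁) (pl e₁) u := by
  obtain ⟨P, hV, hL⟩ := h
  obtain ⟨R, hR, hP⟩ := P.exists_lt
  obtain ⟨P', C, hC, hgen⟩ := sgen P R hR hP c c (.num 0) (.reg (R + 7)) (.num 1) (.reg (R + 5))
    (fun _ _ _ _ _ => 0) (fun _ r _ _ _ => r) (fun _ _ _ _ _ => 1) (fun _ _ _ _ _ w => w)
    (fun _ => rfl) (fun _ => rfl) (fun _ => rfl) (fun _ => rfl)
  set b := e₀ + c₁ + c + 1 with hb
  set d' := C + (2 + (b + b + d) + 1) with hd'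
  set e' := C + (b + b) with he'
  have main : ∀ (x : List Bool) (y r : ℕ), y < 2 ^ pl c₁ x.length → r < 2 ^ pl c₁ x.length →
      SStops P' x y r (ql d' x.length) (pl e' x.length) ∧
      (Acc P' x y r ↔ Acc P x 0 (r / 2 ^ 0 % 2 ^ pl c x.length)) := by
    intro x y r hy hr
    set n := x.length with hn
    have hle : pl c₁ n ≤ pl b n := pl_mono (by omega) n
    have h1 := hgen x y r (ql d n) (pl b n) (pl c n) (pl c n) 0 r 1 rfl rfl rfl rfl rfl
      (one_le_pl _ _) (by
        have h2 : pl (c + 1) n ≤ pl b n := pl_mono (by omega) n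
        have h3 := pow_mul_pl 1 c n
        have h4 := one_le_pl c n
        rw [Nat.add_comm 1 c] at h3
        omega) (by
        have h2 : pl (c + 1) n ≤ pl b n := pl_mono (by omega) n
        have h3 := pow_mul_pl 1 c n
        have h4 := one_le_pl c n
        rw [Nat.add_comm 1 c] at h3
        omega) (len_lt b n (by omega))
      (hy.trans_le (Nat.pow_le_pow_right (by norm_num) hle))
      (hr.trans_le (Nat.pow_le_pow_right (by norm_num) hle))
      (fun i _ => SStops_mono (hV x _ _ (by positivity) (blk_lt _ _ _)) le_rfl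
        (pl_mono (by omega) n))
    refine ⟨SStops_mono h1.1 (time_bound C b d 1 _ n (by
      have : pl 1 n = Nat.log 2 n + 2 := pow_one _
      omega)) (mem_bound C b n), h1.2.trans ?_⟩
    rw [card_fin_one fun i => Acc P x 0 (blk (pl c n) r i)]
    simp [blk]
  refine ⟨d', e', P', fun x y r hy hr => (main x y r hy hr).1, fun x => ?_⟩
  set n := x.length with hn
  have hcongr : (pr (pl c₁ n) fun r => Acc P' x 0 r) = pr (pl c n) fun r => Acc P x 0 r := by
    rw [← hPrB.2.2.2.1 (pl c₁ n) 0 (pl c n) (fun r => Acc P x 0 r) (by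
      rw [Nat.zero_add]; exact pl_mono hc n)]
    exact pr_congr _ fun r hr => (main x 0 r (by positivity) hr).2
  rw [hcongr]
  exact hL x

/-- **SBP in AM.** -/
theorem SBPql_subset_AMql (hPrB : S_PrB) (hHash : S_Hash) (hSet : S_Set) (hSbpAm : S_SbpAm) :
    SBPql ⊆ AMql := by
  rintro L ⟨c₀, d₀, e₁, e, h₀⟩
  obtain ⟨d, e₀, P, hV, hL⟩ := SBPs_enlarge hPrB h₀ (max c₀ e) (le_max_left _ _)
  set c := max c₀ e with hc
  have hec : e ≤ c := le_max_right _ _
  obtain ⟨R, hR, hP⟩ := P.exists_lt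
  let K : Expr := .reg (R + 9)
  let K4 : Expr := powE K 4
  let K8 : Expr := powE K 8
  let U : Expr := .reg (R + 10)
  let H : Expr := .div (.mod (.add (.mul (.mod (.reg (R + 7)) K8) (.mod (.reg (R + 6)) K4))
    (.mod (.div (.reg (R + 7)) K8) K8)) K8) (.div (.mul K4 (powE U 4)) (.num 4))
  obtain ⟨P', C, hC, hgen⟩ := sgen P R hR hP c e (.num 0) (.reg (R + 6)) (.num 4)
    (.mul (.sub (.num 1) (.sub (.num 4) (.reg (R + 5)))) (.sub (.num 1) H))
    (fun _ _ _ _ _ => 0) (fun y _ _ _ _ => y) (fun _ _ _ _ _ => 4)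
    (fun y r _ K U w => (1 - (4 - w)) *
      (1 - (r % K ^ 8 * (y % K ^ 4) + r / K ^ 8 % K ^ 8) % K ^ 8 / (K ^ 4 * U ^ 4 / 4)))
    (fun _ => rfl) (fun _ => rfl) (fun _ => rfl)
    (fun s => by simp only [Expr.val, H, K8, K4, K, U, powE_val])
  set c' := 4 + c with hc'
  set b := e₀ + c' + c + 1 with hb
  set d' := C + (2 + (b + b + d) + 3) with hd'
  set e' := C + (b + b) with he'
  have main : ∀ (x : List Bool) (y r : ℕ), y < 2 ^ pl c' x.length → r < 2 ^ pl c' x.length →
      SStops P' x y r (ql d' x.length) (pl e' x.length) ∧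
      (Acc P' x y r ↔ (∀ i < 4, Acc P x 0 (blk (pl c x.length) y i)) ∧
        hsh (4 * pl c x.length) (4 * (pl c x.length - pl e x.length) + 2)
          (r % 2 ^ (8 * pl c x.length)) (r / 2 ^ (8 * pl c x.length) % 2 ^ (8 * pl c x.length))
          (y % 2 ^ (4 * pl c x.length)) = 0) := by
    intro x y r hy hr
    set n := x.length with hn
    have hle : pl c' n ≤ pl b n := pl_mono (by omega) n
    have hue : pl e n ≤ pl c n := pl_mono hec n
    have hu1 := one_le_pl e n
    have h1 := hgen x y r (ql d n) (pl b n) (pl c n) (pl e n) 0 y 4 rfl rfl rfl rfl rfl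
      (one_le_pl _ _) (by
        have h2 : pl (c + 1) n ≤ pl b n := pl_mono (by omega) n
        have h3 := pow_mul_pl 1 c n
        have h4 := one_le_pl c n
        rw [Nat.add_comm 1 c] at h3
        omega) (by
        have h2 : pl (c + 1) n ≤ pl b n := pl_mono (by omega) n
        have h3 := pow_mul_pl 1 c n
        have h4 := one_le_pl c n
        rw [Nat.add_comm 1 c] at h3
        omega) (len_lt b n (by omega))
      (hy.trans_le (Nat.pow_le_pow_right (by norm_num) hle))
      (hr.trans_le (Nat.pow_le_pow_right (by norm_num) hle))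
      (fun i _ => SStops_mono (hV x _ _ (by positivity) (blk_lt _ _ _)) le_rfl
        (pl_mono (by omega) n))
    refine ⟨SStops_mono h1.1 (time_bound C b d 3 _ n (by
      have h5 : 2 ^ 3 ≤ pl 3 n := Nat.pow_le_pow_left (two_le_L n) 3
      omega)) (mem_bound C b n), h1.2.trans ?_⟩
    have e1 : (2 ^ pl c n) ^ 8 = 2 ^ (8 * pl c n) := by rw [← pow_mul, Nat.mul_comm]
    have e2 : (2 ^ pl c n) ^ 4 = 2 ^ (4 * pl c n) := by rw [← pow_mul, Nat.mul_comm]
    have e3 : (2 ^ pl c n) ^ 4 * (2 ^ pl e n) ^ 4 / 4 =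
        2 ^ (2 * (4 * pl c n) - (4 * (pl c n - pl e n) + 2)) := by
      have h6 : (2 ^ pl c n) ^ 4 * (2 ^ pl e n) ^ 4 =
          2 ^ (2 * (4 * pl c n) - (4 * (pl c n - pl e n) + 2)) * 4 := by
        rw [show (4 : ℕ) = 2 ^ 2 by norm_num, ← pow_mul, ← pow_mul, ← pow_add, ← pow_add]
        congr 1
        omega
      rw [h6]
      exact Nat.mul_div_cancel _ (by norm_num)
    rw [e3, e1, e2, _root_.mul_eq_one, ← card_fin_all 4 fun i => Acc P x 0 (blk (pl c n) y i)]
    unfold hsh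
    rw [show 2 * (4 * pl c n) = 8 * pl c n by ring]
    constructor
    · rintro ⟨h2, h3⟩; constructor <;> omega
    · rintro ⟨h2, h3⟩; constructor <;> omega
  refine ⟨c', d', e', P', fun x y r hy hr => (main x y r hy hr).1, fun x => ?_⟩
  set n := x.length with hn
  have hK : 16 * pl c n ≤ pl c' n := pow_mul_pl 4 c n
  obtain ⟨g1, g2⟩ := hSbpAm hPrB hHash hSet (pl c n) (pl e n) (pl c' n) (Acc P x 0)
    (one_le_pl e n) (pl_mono hec n) hK
  have hcongr : (pr (pl c' n) fun r => ∃ y < 2 ^ pl c' n, Acc P' x y r) =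
      pr (pl c' n) fun r => ∃ y < 2 ^ pl c' n, (∀ i < 4, Acc P x 0 (blk (pl c n) y i)) ∧
        hsh (4 * pl c n) (4 * (pl c n - pl e n) + 2) (r % 2 ^ (8 * pl c n))
          (r / 2 ^ (8 * pl c n) % 2 ^ (8 * pl c n)) (y % 2 ^ (4 * pl c n)) = 0 := by
    apply pr_congr
    intro r hr
    constructor
    · rintro ⟨y, hy, h⟩
      exact ⟨y, hy, (main x y r hy hr).2.mp h⟩
    · rintro ⟨y, hy, h⟩
      exact ⟨y, hy, (main x y r hy hr).2.mpr h⟩
  rw [hcongr]
  exact ⟨fun hx => g1 ((hL x).1 hx), fun hx => g2 ((hL x).2 hx)⟩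

end Pool.Agent.Lib.MP_ff3ed7_lc.SQ
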