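import Pool.Agent.Lib.MP_ff3ed7_lc.SQ.Spec

/-!
# PROJECT SQ: programs are sequential machines (`tSml`)
-/

set_option autoImplicit false

open Finset

namespace Pool.Agent.Lib.MP_ff3ed7_lc.SQ

open Pool.Agent.Lib.MP_ff3ed7_lc.PLT

/-- The lists which occur while `p` is executed and `l` remains to be done. -/
def Sml_cs : Prog → List Prog → Set (List Prog)
  | .set i e, l => {.set i e :: l}
  | .read i e, l => {.read i e :: l}
  | .seq p q, l => {.seq p q :: l} ∪ Sml_cs p (q :: l) ∪ Sml_cs q l
  | .ite e p q, l => {.ite e p q :: l} ∪ Sml_cs p l ∪ Sml_cs q l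
  | .loop e p, l => {.loop e p :: l} ∪ Sml_cs p (.loop e p :: l)

private theorem cs_fin (p : Prog) : ∀ l, (Sml_cs p l).Finite := by
  induction p with
  | set i e => intro l; exact Set.finite_singleton _
  | read i e => intro l; exact Set.finite_singleton _
  | seq p q ihp ihq =>
    intro l; exact ((Set.finite_singleton _).union (ihp _)).union (ihq _)
  | ite e p q ihp ihq =>
    intro l; exact ((Set.finite_singleton _).union (ihp _)).union (ihq _)
  | loop e p ih => intro l; exact (Set.finite_singleton _).union (ih _)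

private theorem cs_self (p : Prog) (l : List Prog) : p :: l ∈ Sml_cs p l := by
  cases p <;> simp [Sml_cs]

section machine

variable (C : Finset (List Prog)) (hC : [] ∈ C) (R S : ℕ)

/-- Memory states: what remains to be done, and the registers. -/
abbrev Sml_Q : Type := {l // l ∈ C} × (Fin R → Fin (2 ^ S))

open Classical in
/-- Coding. -/
noncomputable def Sml_enc (l : List Prog) (s : ℕ → ℕ) : Sml_Q C R S :=
  (if h : l ∈ C then ⟨l, h⟩ else ⟨[], hC⟩,
    fun i => ⟨s i % 2 ^ S, Nat.mod_lt _ (Nat.two_pow_pos S)⟩)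

/-- Decoding of the registers. -/
def Sml_reg (ρ : Fin R → Fin (2 ^ S)) (i : ℕ) : ℕ := if h : i < R then (ρ ⟨i, h⟩).1 else 0

/-- The action for the list `l` and the registers `s`. -/
noncomputable def Sml_ac (N : ℕ) : List Prog → (ℕ → ℕ) → Act (Sml_Q C R S) Bool
  | [], s => .stop (decide (s 0 = 1))
  | .set i e :: l, s => .jump (Sml_enc C hC R S l (Function.update s i (e.val s)))
  | .read i e :: l, s => .visit (min (e.val s) N) fun b =>
      (b, Sml_enc C hC R S l (Function.update s i (if b then 1 else 0)))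
  | .seq p q :: l, s => .jump (Sml_enc C hC R S (p :: q :: l) s)
  | .ite e p q :: l, s => .jump (if e.val s ≠ 0 then Sml_enc C hC R S (p :: l) s
      else Sml_enc C hC R S (q :: l) s)
  | .loop e p :: l, s => .jump (if e.val s ≠ 0 then Sml_enc C hC R S (p :: .loop e p :: l) s
      else Sml_enc C hC R S l s)

/-- The machine. -/
noncomputable def Sml_M (P : Prog) (N y r : ℕ) : SM (Sml_Q C R S) Bool where
  start := Sml_enc C hC R S [P] (ini N y r)
  act q := Sml_ac C hC R S N q.1.1 (Sml_reg R S q.2)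
  sym o := o.getD false

variable {C hC R S}

/-- The registers which occur. -/
def Sml_Gd (R S : ℕ) (s : ℕ → ℕ) : Prop := (∀ i, s i < 2 ^ S) ∧ ∀ i, R ≤ i → s i = 0

private theorem reg_enc (l : List Prog) {s : ℕ → ℕ} (hs : Sml_Gd R S s) :
    Sml_reg R S (Sml_enc C hC R S l s).2 = s := by
  funext i
  unfold Sml_reg
  by_cases h : i < R
  · rw [dif_pos h]
    exact Nat.mod_eq_of_lt (hs.1 i)
  · rw [dif_neg h]
    exact (hs.2 i (not_lt.1 h)).symm

private theorem lst_enc {l : List Prog} (hl : l ∈ C) (s : ℕ → ℕ) :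
    (Sml_enc C hC R S l s).1.1 = l := by
  unfold Sml_enc
  simp only [dif_pos hl]

private theorem act_enc (P : Prog) (N y r : ℕ) {l : List Prog} (hl : l ∈ C) {s : ℕ → ℕ}
    (hs : Sml_Gd R S s) :
    (Sml_M C hC R S P N y r).act (Sml_enc C hC R S l s) = Sml_ac C hC R S N l s := by
  unfold Sml_M
  simp only [lst_enc hl, reg_enc l hs]

private theorem Gd_update {s : ℕ → ℕ} (hs : Sml_Gd R S s) {i v : ℕ} (hi : i < R) (hv : v < 2 ^ S) :
    Sml_Gd R S (Function.update s i v) := by
  refine ⟨fun j => ?_, fun j hj => ?_⟩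
  · by_cases h : j = i
    · subst h; simpa using hv
    · rw [Function.update_of_ne h]; exact hs.1 j
  · rw [Function.update_of_ne (by omega)]; exact hs.2 j hj

/-- Reachability. -/
private def Rch {Q Γ : Type} (M : SM Q Γ) (a b : Cfg Q Γ) : Prop := ∃ T, M.step^[T] a = b

private theorem Rch.trans {Q Γ : Type} {M : SM Q Γ} {a b c : Cfg Q Γ} (h : Rch M a b)
    (h' : Rch M b c) : Rch M a c := by
  obtain ⟨T, rfl⟩ := h
  obtain ⟨T', rfl⟩ := h'
  exact ⟨T' + T, Function.iterate_add_apply _ _ _ _⟩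

private theorem Rch.one {Q Γ : Type} {M : SM Q Γ} {a b : Cfg Q Γ} (h : M.step a = b) :
    Rch M a b := ⟨1, h⟩

private theorem tp_bit (P : Prog) (N y r : ℕ) (x : Fin N → Bool) (v : ℕ) :
    (if (Sml_M C hC R S P N y r).tp x (min v N) then 1 else 0) = bit (word x) v := by
  unfold SM.tp Sml_M
  simp only
  by_cases h : v < N
  · rw [min_eq_left h.le, dif_pos h, bit_word x v h]
    simp only [Option.getD_some]
    cases x ⟨v, h⟩ <;> rfl
  · rw [min_eq_right (by omega), dif_neg (lt_irrefl N), bit_word_ge x v h]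
    rfl

private theorem sim (P : Prog) (N y r : ℕ) (x : Fin N → Bool) {p : Prog} {s s' : ℕ → ℕ}
    {h h' c : ℕ} (a : SRun (word x) S p s h s' h' c) :
    p.Lt R → Sml_Gd R S s → ∀ l, Sml_cs p l ⊆ (C : Set (List Prog)) → l ∈ C → ∀ m : ℕ, ∃ m',
      Rch (Sml_M C hC R S P N y r)
        ⟨Sml_enc C hC R S (p :: l) s, h, (Sml_M C hC R S P N y r).tp x, m⟩
        ⟨Sml_enc C hC R S l s', h', (Sml_M C hC R S P N y r).tp x, m'⟩ ∧ m' ≤ m + c ∧
      Sml_Gd R S s' := by
  induction a with
  | set i e s h hS =>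
    intro hp hs l hcs hl m
    have h1 : Prog.set i e :: l ∈ C := hcs (cs_self _ _)
    refine ⟨m, Rch.one ?_, by omega, Gd_update hs hp.1 hS⟩
    unfold SM.step
    simp only [act_enc P N y r h1 hs, Sml_ac]
  | read i e s h hS =>
    intro hp hs l hcs hl m
    have h1 : Prog.read i e :: l ∈ C := hcs (cs_self _ _)
    refine ⟨m + dst (min (e.val s) N) h, Rch.one ?_, ?_, Gd_update hs hp.1 hS⟩
    · unfold SM.step
      simp only [act_enc P N y r h1 hs, Sml_ac, tp_bit, Function.update_eq_self, word_length]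
    · rw [word_length]; omega
  | seq a b iha ihb =>
    rename_i p q _ _ _ _ _ _ _ _
    intro hp hs l hcs hl m
    have h1 : Prog.seq p q :: l ∈ C := hcs (cs_self _ _)
    have hcp : Sml_cs p (q :: l) ⊆ (C : Set (List Prog)) := fun z hz =>
      hcs (Or.inl (Or.inr hz))
    have hcq : Sml_cs q l ⊆ (C : Set (List Prog)) := fun z hz => hcs (Or.inr hz)
    obtain ⟨m1, r1, e1, g1⟩ := iha hp.1 hs (q :: l) hcp (hcq (cs_self _ _)) m
    obtain ⟨m2, r2, e2, g2⟩ := ihb hp.2 g1 l hcq hl m1
    refine ⟨m2, (Rch.one ?_).trans (r1.trans r2), by omega, g2⟩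
    unfold SM.step
    simp only [act_enc P N y r h1 hs, Sml_ac]
  | iteT he a ih =>
    rename_i e p q _ _ _ _ _
    intro hp hs l hcs hl m
    have h1 : Prog.ite e p q :: l ∈ C := hcs (cs_self _ _)
    obtain ⟨m1, r1, e1, g1⟩ := ih hp.2.1 hs l (fun z hz => hcs (Or.inl (Or.inr hz))) hl m
    refine ⟨m1, (Rch.one ?_).trans r1, by omega, g1⟩
    unfold SM.step
    simp only [act_enc P N y r h1 hs, Sml_ac, if_pos he]
  | iteF he a ih =>
    rename_i e p q _ _ _ _ _
    intro hp hs l hcs hl m
    have h1 : Prog.ite e p q :: l ∈ C := hcs (cs_self _ _)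
    obtain ⟨m1, r1, e1, g1⟩ := ih hp.2.2 hs l (fun z hz => hcs (Or.inr hz)) hl m
    refine ⟨m1, (Rch.one ?_).trans r1, by omega, g1⟩
    unfold SM.step
    simp only [act_enc P N y r h1 hs, Sml_ac, if_neg (not_not.2 he)]
  | loopT he a b iha ihb =>
    rename_i e p _ _ _ _ _ _ _ _
    intro hp hs l hcs hl m
    have h1 : Prog.loop e p :: l ∈ C := hcs (cs_self _ _)
    obtain ⟨m1, r1, e1, g1⟩ := iha hp.2 hs (Prog.loop e p :: l) (fun z hz => hcs (Or.inr hz)) h1 m
    obtain ⟨m2, r2, e2, g2⟩ := ihb hp g1 l hcs hl m1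
    refine ⟨m2, (Rch.one ?_).trans (r1.trans r2), by omega, g2⟩
    unfold SM.step
    simp only [act_enc P N y r h1 hs, Sml_ac, if_pos he]
  | loopF he =>
    rename_i e p s h
    intro hp hs l hcs hl m
    have h1 : Prog.loop e p :: l ∈ C := hcs (cs_self _ _)
    refine ⟨m, Rch.one ?_, by omega, hs⟩
    unfold SM.step
    simp only [act_enc P N y r h1 hs, Sml_ac, if_neg (not_not.2 he)]

end machine

/-- A sequential run is a run. -/
private theorem toRun {x : List Bool} {S : ℕ} {p : Prog} {s s' : ℕ → ℕ} {h h' c : ℕ}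
    (a : SRun x S p s h s' h' c) : ∃ c', Run x p s s' c' := by
  induction a with
  | set i e s h hS => exact ⟨_, Run.set i e s⟩
  | read i e s h hS => exact ⟨_, Run.read i e s⟩
  | seq a b iha ihb =>
    obtain ⟨c1, r1⟩ := iha
    obtain ⟨c2, r2⟩ := ihb
    exact ⟨_, r1.seq r2⟩
  | iteT he a ih =>
    obtain ⟨c1, r1⟩ := ih
    exact ⟨_, Run.iteT he r1⟩
  | iteF he a ih =>
    obtain ⟨c1, r1⟩ := ih
    exact ⟨_, Run.iteF he r1⟩
  | loopT he a b iha ihb =>
    obtain ⟨c1, r1⟩ := iha
    obtain ⟨c2, r2⟩ := ihb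
    exact ⟨_, Run.loopT he r1 r2⟩
  | loopF he => exact ⟨_, Run.loopF he⟩

private theorem mot_le {Q Γ : Type} (M : SM Q Γ) (a : Cfg Q Γ) : a.mot ≤ (M.step a).mot := by
  unfold SM.step
  split
  · exact le_rfl
  · exact le_rfl
  · simp

private theorem mot_mono {Q Γ : Type} (M : SM Q Γ) (a : Cfg Q Γ) (T T' : ℕ) (h : T ≤ T') :
    (M.step^[T] a).mot ≤ (M.step^[T'] a).mot := by
  induction T', h using Nat.le_induction with
  | base => exact le_rfl
  | succ n hn ih =>
    rw [Function.iterate_succ_apply']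
    exact ih.trans (mot_le M _)

private theorem stop_iter {Q Γ : Type} (M : SM Q Γ) (a : Cfg Q Γ) (b : Bool)
    (h : M.act a.q = .stop b) (T : ℕ) : M.step^[T] a = a := by
  have h1 : M.step a = a := by
    unfold SM.step
    rw [h]
  exact Function.iterate_fixed h1 T

private theorem stop_after {Q Γ : Type} (M : SM Q Γ) (a : Cfg Q Γ) (b : Bool) (T T' : ℕ)
    (h : T ≤ T') (hs : M.act (M.step^[T] a).q = .stop b) : M.step^[T'] a = M.step^[T] a := by
  obtain ⟨d, rfl⟩ := Nat.exists_eq_add_of_le h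
  rw [Nat.add_comm, Function.iterate_add_apply]
  exact stop_iter M _ b hs d

theorem tSml : S_Sml := by
  classical
  intro P
  obtain ⟨R, hR3, hPR⟩ := P.exists_lt
  have hfin : (Sml_cs P [] ∪ {[]}).Finite := (cs_fin P []).union (Set.finite_singleton _)
  obtain ⟨C, hCeq⟩ : ∃ C : Finset (List Prog), (C : Set (List Prog)) = Sml_cs P [] ∪ {[]} :=
    ⟨hfin.toFinset, hfin.coe_toFinset⟩
  have hC : [] ∈ C := by
    rw [← Finset.mem_coe, hCeq]; exact Or.inr rfl
  have hcs : Sml_cs P [] ⊆ (C : Set (List Prog)) := by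
    rw [hCeq]; exact Set.subset_union_left
  refine ⟨C.card + R, fun S => ⟨Sml_Q C R S, inferInstance, ?_, ?_⟩⟩
  · rw [Fintype.card_prod, Fintype.card_coe, Fintype.card_fun, Fintype.card_fin, Fintype.card_fin]
    calc C.card * (2 ^ S) ^ R ≤ 2 ^ C.card * (2 ^ S) ^ R :=
          Nat.mul_le_mul_right _ Nat.lt_two_pow_self.le
      _ = 2 ^ (C.card + S * R) := by rw [← pow_mul, ← pow_add]
      _ ≤ 2 ^ ((C.card + R) * (S + 1)) := by
          apply Nat.pow_le_pow_right (by norm_num)
          nlinarith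
  · intro N y r t hst
    have key : ∀ x : Fin N → Bool, ∃ s' h' c T m', SRun (word x) S P (ini N y r) 0 s' h' c ∧
        c ≤ t ∧ m' ≤ c ∧ (Sml_M C hC R S P N y r).run ((Sml_M C hC R S P N y r).tp x) T =
          ⟨Sml_enc C hC R S [] s', h', (Sml_M C hC R S P N y r).tp x, m'⟩ ∧ Sml_Gd R S s' := by
      intro x
      obtain ⟨hN, hy, hr, s', h', c, hrun, hct⟩ := hst x
      rw [word_length] at hN hrun
      have hini : Sml_Gd R S (ini N y r) := by
        refine ⟨fun i => ?_, fun i hi => ?_⟩
        · unfold ini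
          split_ifs
          · exact hN
          · exact hy
          · exact hr
          · exact Nat.two_pow_pos S
        · unfold ini
          rw [if_neg (by omega), if_neg (by omega), if_neg (by omega)]
      obtain ⟨m', ⟨T, hT⟩, hm, hg⟩ := sim (C := C) (hC := hC) P N y r x hrun hPR hini [] hcs hC 0
      exact ⟨s', h', c, T, m', hrun, hct, by omega, hT, hg⟩
    have hstop : ∀ s' : ℕ → ℕ, Sml_Gd R S s' → (Sml_M C hC R S P N y r).act
        (Sml_enc C hC R S [] s') = .stop (decide (s' 0 = 1)) := by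
      intro s' hg
      rw [act_enc P N y r hC hg]
      rfl
    have hact : ∀ (x : Fin N → Bool) (s' : ℕ → ℕ) (h' T m' : ℕ),
        (Sml_M C hC R S P N y r).run ((Sml_M C hC R S P N y r).tp x) T =
          ⟨Sml_enc C hC R S [] s', h', (Sml_M C hC R S P N y r).tp x, m'⟩ → Sml_Gd R S s' →
        (Sml_M C hC R S P N y r).act ((Sml_M C hC R S P N y r).run
          ((Sml_M C hC R S P N y r).tp x) T).q = .stop (decide (s' 0 = 1)) := by
      intro x s' h' T m' hT hg
      rw [hT]
      exact hstop s' hg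
    refine ⟨Sml_M C hC R S P N y r, fun x T' => ?_, fun x => ?_⟩
    · obtain ⟨s', h', c, T, m', hrun, hct, hm, hT, hg⟩ := key x
      rcases le_total T' T with h | h
      · have h1 := mot_mono (Sml_M C hC R S P N y r)
          ⟨(Sml_M C hC R S P N y r).start, 0, (Sml_M C hC R S P N y r).tp x, 0⟩ T' T h
        have h2 : ((Sml_M C hC R S P N y r).run ((Sml_M C hC R S P N y r).tp x) T).mot = m' := by
          rw [hT]
        unfold SM.run at h2 ⊢
        omega
      · have h1 := stop_after (Sml_M C hC R S P N y r)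
          ⟨(Sml_M C hC R S P N y r).start, 0, (Sml_M C hC R S P N y r).tp x, 0⟩
          (decide (s' 0 = 1)) T T' h (hact x s' h' T m' hT hg)
        have h2 : ((Sml_M C hC R S P N y r).run ((Sml_M C hC R S P N y r).tp x) T').mot = m' := by
          unfold SM.run at hT ⊢
          rw [h1, hT]
        omega
    · obtain ⟨s', h', c, T, m', hrun, hct, hm, hT, hg⟩ := key x
      obtain ⟨c0, hrun0⟩ := toRun hrun
      have hacc : Acc P (word x) y r ↔ s' 0 = 1 := by
        constructor
        · rintro ⟨s1, c1, h1, h2⟩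
          rw [word_length] at h1
          obtain ⟨rfl, -⟩ := Run.det hrun0 h1
          exact h2
        · intro h
          refine ⟨s', c0, ?_, h⟩
          rw [word_length]
          exact hrun0
      rw [hacc]
      constructor
      · rintro ⟨T', hT'⟩
        have e1 : (Sml_M C hC R S P N y r).run ((Sml_M C hC R S P N y r).tp x) (max T T') =
            (Sml_M C hC R S P N y r).run ((Sml_M C hC R S P N y r).tp x) T' :=
          stop_after _ _ _ T' (max T T') (le_max_right _ _) hT'
        have e2 : (Sml_M C hC R S P N y r).run ((Sml_M C hC R S P N y r).tp x) (max T T') =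
            (Sml_M C hC R S P N y r).run ((Sml_M C hC R S P N y r).tp x) T := by
          refine stop_after _ _ (decide (s' 0 = 1)) T (max T T') (le_max_left _ _) ?_
          exact hact x s' h' T m' hT hg
        rw [← e1, e2, hT, hstop s' hg] at hT'
        have h3 : decide (s' 0 = 1) = true := by
          injection hT'
        exact of_decide_eq_true h3
      · intro h
        refine ⟨T, ?_⟩
        rw [hT, hstop s' hg, h]
        rfl

end Pool.Agent.Lib.MP_ff3ed7_lc.SQ
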