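import Pool.Agent.Lib.MP_ff3ed7_lc.SQ.Spec

/-!
# PROJECT SQ: upper bounds for the virtual language
-/

set_option autoImplicit false

open Finset

namespace Pool.Agent.Lib.MP_ff3ed7_lc.SQ

open Pool.Agent.Lib.MP_ff3ed7_lc.PLT

/-- A sequential run is a run. -/
private lemma Up_run {x : List Bool} {S : ℕ} {p : Prog} {s s' : ℕ → ℕ} {h h' c : ℕ}
    (hr : SRun x S p s h s' h' c) : ∃ c', Run x p s s' c' := by
  induction hr with
  | set i e s h hS => exact ⟨_, Run.set i e s⟩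
  | read i e s h hS => exact ⟨_, Run.read i e s⟩
  | seq a b iha ihb =>
    obtain ⟨c₁, h₁⟩ := iha
    obtain ⟨c₂, h₂⟩ := ihb
    exact ⟨_, Run.seq h₁ h₂⟩
  | iteT he a iha =>
    obtain ⟨c₁, h₁⟩ := iha
    exact ⟨_, Run.iteT he h₁⟩
  | iteF he a iha =>
    obtain ⟨c₁, h₁⟩ := iha
    exact ⟨_, Run.iteF he h₁⟩
  | loopT he a b iha ihb =>
    obtain ⟨c₁, h₁⟩ := iha
    obtain ⟨c₂, h₂⟩ := ihb
    exact ⟨_, Run.loopT he h₁ h₂⟩
  | loopF he => exact ⟨_, Run.loopF he⟩

/-- Probabilities depend only on the numbers smaller than `2 ^ k`. -/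
private lemma Up_pr (k : ℕ) (A B : ℕ → Prop) (h : ∀ r < 2 ^ k, (A r ↔ B r)) : pr k A = pr k B := by
  unfold pr
  congr 2
  exact Nat.card_congr (Equiv.subtypeEquivRight fun r => h r.1 r.2)

private lemma Up_pr_zero (k : ℕ) (A : ℕ → Prop) (h : ∀ r < 2 ^ k, ¬ A r) : pr k A = 0 := by
  unfold pr
  have : IsEmpty {r : Fin (2 ^ k) // A r.1} := ⟨fun r => h r.1.1 r.1.2 r.2⟩
  rw [Nat.card_of_isEmpty]
  simp

/-- The test of the loop. -/
private def Up_e (R : ℕ) : Expr :=
  .sub (.add (.reg 0) (.num 1)) (.mul (.num 2) (.reg (R + 4)))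

/-- The new value in the loop. -/
private def Up_d (R : ℕ) : Expr := .mul (.num 2) (.reg (R + 4))

/-- The program. -/
private def Up_P (R : ℕ) (P : Prog) : Prog :=
  .ite (.sub (.num 8) (.reg 0)) (.set 0 (.num 0))
    (.seq (.set (R + 4) (.num 1))
      (.seq (.loop (Up_e R) (.set (R + 4) (Up_d R)))
        (.seq (.set (R + 5) (.div (.reg (R + 4)) (.num 2)))
          (.seq (.set (R + 4) (.div (.reg (R + 4)) (.num 8)))
            (.seq (.set 0 (.reg (R + 4))) (vir R P))))))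

private lemma Up_size {a b : ℕ} (h : a < 2 ^ b) : Nat.size a ≤ b := Nat.size_le.2 h

private lemma Up_s1 : Nat.size 1 = 1 := by norm_num [Nat.size]
private lemma Up_s2 : Nat.size 2 ≤ 2 := Up_size (by norm_num)
private lemma Up_s8 : Nat.size 8 ≤ 4 := Up_size (by norm_num)

/-- The loop. -/
private lemma Up_loop (x : List Bool) (S R N ℓ h : ℕ) (hN : N ≠ 0) (hℓ : Nat.log 2 N = ℓ)
    (hS : ℓ + 4 ≤ S) : ∀ (d j : ℕ), j + d = ℓ → ∀ u : ℕ → ℕ, u 0 = N → u (R + 4) = 2 ^ j →
    ∃ c, SRun x S (.loop (Up_e R) (.set (R + 4) (Up_d R))) u h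
      (Function.update u (R + 4) (2 ^ ℓ)) h c ∧ c ≤ 26 * (ℓ + 1) * (d + 1) := by
  have hlt : N < 2 ^ (ℓ + 1) := by
    rw [← hℓ]
    exact Nat.lt_pow_succ_log_self (by norm_num) N
  have hle : 2 ^ ℓ ≤ N := by
    rw [← hℓ]
    exact Nat.pow_log_le_self 2 hN
  have e1 : 2 ^ (ℓ + 1) = 2 * 2 ^ ℓ := by ring
  have e2 : 2 ^ (ℓ + 2) = 4 * 2 ^ ℓ := by ring
  have hp : 1 ≤ 2 ^ ℓ := Nat.one_le_two_pow
  have s1 := Up_s1
  have s2 := Up_s2
  intro d
  induction d with
  | zero =>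
    intro j hj u hu hu4
    have hj' : j = ℓ := by omega
    subst hj'
    have hval : (Up_e R).val u = 0 := by
      simp only [Up_e, Expr.val, hu, hu4]
      omega
    have hrun := SRun.loopF (x := x) (S := S) (e := Up_e R) (p := .set (R + 4) (Up_d R)) (s := u)
      (h := h) hval
    have hupd : Function.update u (R + 4) (2 ^ j) = u := by
      rw [← hu4]
      exact Function.update_eq_self _ _
    rw [hupd]
    refine ⟨_, hrun, ?_⟩
    simp only [Up_e, Expr.cost, Expr.val, hu, hu4]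
    have a1 : Nat.size N ≤ j + 1 := Up_size hlt
    have a2 : Nat.size (N + 1) ≤ j + 2 := Up_size (by omega)
    have a3 : Nat.size (2 ^ j) ≤ j + 1 := Up_size (by omega)
    have a4 : Nat.size (2 * 2 ^ j) ≤ j + 2 := Up_size (by omega)
    have a5 : Nat.size (N + 1 - 2 * 2 ^ j) ≤ j + 2 := Up_size (by omega)
    omega
  | succ d ih =>
    intro j hj u hu hu4
    have hjle : 2 ^ (j + 1) ≤ 2 ^ ℓ := Nat.pow_le_pow_right (by norm_num) (by omega)
    have e3 : 2 ^ (j + 1) = 2 * 2 ^ j := by ring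
    have hval : (Up_e R).val u ≠ 0 := by
      simp only [Up_e, Expr.val, hu, hu4]
      omega
    have hdval : (Up_d R).val u = 2 ^ (j + 1) := by
      simp only [Up_d, Expr.val, hu4]
      omega
    have hb : (Up_d R).val u < 2 ^ S := by
      rw [hdval]
      exact Nat.pow_lt_pow_right (by norm_num) (by omega)
    have hset := SRun.set (x := x) (S := S) (R + 4) (Up_d R) u h hb
    obtain ⟨c, hc, hcle⟩ := ih (j + 1) (by omega) (Function.update u (R + 4) ((Up_d R).val u))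
      (by rw [Function.update_of_ne (by omega), hu]) (by rw [Function.update_self, hdval])
    rw [Function.update_idem] at hc
    refine ⟨_, SRun.loopT hval hset hc, ?_⟩
    have a1 : Nat.size N ≤ ℓ + 1 := Up_size hlt
    have a2 : Nat.size (N + 1) ≤ ℓ + 2 := Up_size (by omega)
    have a3 : Nat.size (2 ^ j) ≤ ℓ + 1 := Up_size (by omega)
    have a4 : Nat.size (2 * 2 ^ j) ≤ ℓ + 2 := Up_size (by omega)
    have a5 : Nat.size (N + 1 - 2 * 2 ^ j) ≤ ℓ + 2 := Up_size (by omega)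
    have hc1 : (Up_e R).cost u ≤ 5 * ℓ + 18 := by
      simp only [Up_e, Expr.cost, Expr.val, hu, hu4]
      omega
    have hc2 : (Up_d R).cost u ≤ 2 * ℓ + 8 := by
      simp only [Up_d, Expr.cost, Expr.val, hu4]
      omega
    have e4 : 26 * (ℓ + 1) * (d + 1 + 1) = 26 * (ℓ + 1) * (d + 1) + 26 * (ℓ + 1) := by ring
    omega

private lemma Up_sq (ℓ : ℕ) : (ℓ + 1) ^ 2 ≤ 4 * 2 ^ ℓ := by
  induction ℓ with
  | zero => norm_num
  | succ ℓ ih =>
    rcases Nat.lt_or_ge ℓ 2 with h | h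
    · interval_cases ℓ
      · norm_num
      · norm_num
    · have e : 2 ^ (ℓ + 1) = 2 * 2 ^ ℓ := by ring
      rw [e]
      nlinarith

/-- Short inputs. -/
private lemma Up_small (R : ℕ) (P : Prog) (z : List Bool) (hz : z.length < 8) (y r S : ℕ) :
    ∃ u' h' c', SRun z S (Up_P R P) (ini z.length y r) 0 u' h' c' ∧ c' ≤ 216 ∧ u' 0 = 0 := by
  have h0 : ini z.length y r 0 = z.length := rfl
  have hval : (Expr.sub (.num 8) (.reg 0)).val (ini z.length y r) ≠ 0 := by
    simp only [Expr.val, h0]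
    omega
  have hset := SRun.set (x := z) (S := S) 0 (.num 0) (ini z.length y r) 0
    (by simp only [Expr.val]; positivity)
  refine ⟨_, _, _, SRun.iteT hval hset, ?_, ?_⟩
  · have s8 := Up_s8
    have a1 : Nat.size z.length ≤ 3 := Up_size (by omega)
    have a2 : Nat.size (8 - z.length) ≤ 4 := Up_size (by omega)
    simp only [Expr.cost, Expr.val, h0, Nat.size_zero]
    omega
  · rw [Function.update_self]
    rfl

/-- Long inputs. -/
private lemma Up_long {K : ℕ}
    (hV : ∀ (R : ℕ) (P : Prog) (z : List Bool) (s s' : ℕ → ℕ) (c : ℕ),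
      P.Lt R → 8 ≤ z.length → Run (vw z) P s s' c → ∀ (S : ℕ) (u : ℕ → ℕ) (h : ℕ),
      (∀ i < R, s i = u i) → u (R + 4) = vl z.length → u (R + 5) = 2 ^ Nat.log 2 z.length / 2 →
      PLT.Bd u S → c + Nat.log 2 z.length + 4 ≤ S → h ≤ z.length →
      ∃ u' h' c', SRun z S (vir R P) u h u' h' c' ∧ c' ≤ K * (z.length + 1) * c ∧
        (∀ i < R, s' i = u' i) ∧ u' (R + 4) = u (R + 4) ∧ u' (R + 5) = u (R + 5) ∧ PLT.Bd u' S ∧
        h' ≤ z.length)
    (R : ℕ) (P : Prog) (hR : 3 ≤ R) (hP : P.Lt R) (z : List Bool) (hz : 8 ≤ z.length)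
    (y r S c : ℕ) (s' : ℕ → ℕ) (hrun : Run (vw z) P (ini (vl z.length) y r) s' c)
    (hy : y < 2 ^ S) (hr : r < 2 ^ S) (hcS : c + Nat.log 2 z.length + 4 ≤ S) :
    ∃ u' h' c', SRun z S (Up_P R P) (ini z.length y r) 0 u' h' c' ∧
      c' ≤ (216 + K) * (z.length + 1) * (c + 1) ∧ u' 0 = s' 0 := by
  obtain ⟨N, hN⟩ : ∃ N, z.length = N := ⟨_, rfl⟩
  obtain ⟨ℓ, hℓ⟩ : ∃ ℓ, Nat.log 2 N = ℓ := ⟨_, rfl⟩
  rw [hN] at hz hrun hcS ⊢
  rw [hℓ] at hcS
  have hN0 : N ≠ 0 := by omega
  have hlt : N < 2 ^ (ℓ + 1) := by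
    rw [← hℓ]
    exact Nat.lt_pow_succ_log_self (by norm_num) N
  have hle : 2 ^ ℓ ≤ N := by
    rw [← hℓ]
    exact Nat.pow_log_le_self 2 hN0
  have e1 : 2 ^ (ℓ + 1) = 2 * 2 ^ ℓ := by ring
  have hNS : N < 2 ^ S := hlt.trans_le (Nat.pow_le_pow_right (by norm_num) (by omega))
  have hvl : vl N = 2 ^ ℓ / 8 := by
    unfold vl
    rw [hℓ]
  have s1 := Up_s1
  have s2 := Up_s2
  have s8 := Up_s8
  set u0 := ini N y r with hu0
  have h0 : u0 0 = N := rfl
  -- the steps
  have hval : (Expr.sub (.num 8) (.reg 0)).val u0 = 0 := by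
    simp only [Expr.val, h0]
    omega
  have r1 := SRun.set (x := z) (S := S) (R + 4) (.num 1) u0 0
    (by simp only [Expr.val]; exact Nat.one_lt_two_pow (by omega))
  simp only [Expr.val] at r1
  obtain ⟨c2, r2, hc2⟩ := Up_loop z S R N ℓ 0 hN0 hℓ (by omega) ℓ 0 (by omega)
    (Function.update u0 (R + 4) 1) (by rw [Function.update_of_ne (by omega), h0])
    (by rw [Function.update_self]; rfl)
  rw [Function.update_idem] at r2
  set u2 := Function.update u0 (R + 4) (2 ^ ℓ) with hu2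
  have h24 : u2 (R + 4) = 2 ^ ℓ := by rw [hu2, Function.update_self]
  have r3 := SRun.set (x := z) (S := S) (R + 5) (.div (.reg (R + 4)) (.num 2)) u2 0
    (by simp only [Expr.val, h24]; omega)
  simp only [Expr.val, h24] at r3
  set u3 := Function.update u2 (R + 5) (2 ^ ℓ / 2) with hu3
  have h34 : u3 (R + 4) = 2 ^ ℓ := by rw [hu3, Function.update_of_ne (by omega), h24]
  have r4 := SRun.set (x := z) (S := S) (R + 4) (.div (.reg (R + 4)) (.num 8)) u3 0
    (by simp only [Expr.val, h34]; omega)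
  simp only [Expr.val, h34] at r4
  set u4 := Function.update u3 (R + 4) (2 ^ ℓ / 8) with hu4
  have h44 : u4 (R + 4) = 2 ^ ℓ / 8 := by rw [hu4, Function.update_self]
  have r5 := SRun.set (x := z) (S := S) 0 (.reg (R + 4)) u4 0
    (by simp only [Expr.val, h44]; omega)
  simp only [Expr.val, h44] at r5
  set u5 := Function.update u4 0 (2 ^ ℓ / 8) with hu5
  -- the contents of the registers
  have h50 : u5 0 = 2 ^ ℓ / 8 := by rw [hu5, Function.update_self]
  have h54 : u5 (R + 4) = 2 ^ ℓ / 8 := by rw [hu5, Function.update_of_ne (by omega), h44]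
  have h55 : u5 (R + 5) = 2 ^ ℓ / 2 := by
    rw [hu5, Function.update_of_ne (by omega), hu4, Function.update_of_ne (by omega), hu3,
      Function.update_self]
  have h5i : ∀ i, i ≠ 0 → i ≠ R + 4 → i ≠ R + 5 → u5 i = u0 i := by
    intro i a b d
    rw [hu5, Function.update_of_ne a, hu4, Function.update_of_ne b, hu3, Function.update_of_ne d,
      hu2, Function.update_of_ne b]
  have hag : ∀ i < R, ini (vl N) y r i = u5 i := by
    intro i hi
    by_cases hi0 : i = 0
    · subst hi0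
      rw [h50, hvl]
      rfl
    · rw [h5i i hi0 (by omega) (by omega), hu0]
      simp only [ini, if_neg hi0]
  have hBd : PLT.Bd u5 S := by
    intro i
    by_cases hi0 : i = 0
    · subst hi0
      rw [h50]
      omega
    by_cases hi4 : i = R + 4
    · subst hi4
      rw [h54]
      omega
    by_cases hi5 : i = R + 5
    · subst hi5
      rw [h55]
      omega
    rw [h5i i hi0 hi4 hi5, hu0]
    simp only [ini, if_neg hi0]
    split_ifs
    · exact hy
    · exact hr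
    · positivity
  obtain ⟨u', h', c', r6, hc6, hag', -, -, -, -⟩ := hV R P z (ini (vl N) y r) s' c hP
    (by rw [hN]; exact hz) hrun S u5 0 hag (by rw [h54, hN, hvl]) (by rw [h55, hN, hℓ]) hBd
    (by rw [hN, hℓ]; exact hcS) (Nat.zero_le _)
  rw [hN] at hc6
  refine ⟨u', h', _, SRun.iteF hval (SRun.seq r1 (SRun.seq r2 (SRun.seq r3 (SRun.seq r4
    (SRun.seq r5 r6))))), ?_, (hag' 0 (by omega)).symm⟩
  -- the cost
  have a1 : Nat.size N ≤ ℓ + 1 := Up_size hlt
  have a3 : Nat.size (2 ^ ℓ) ≤ ℓ + 1 := Up_size (by omega)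
  have a4 : Nat.size (2 ^ ℓ / 2) ≤ ℓ + 1 := Up_size (by omega)
  have a5 : Nat.size (2 ^ ℓ / 8) ≤ ℓ + 1 := Up_size (by omega)
  have a6 : 8 - N = 0 := by omega
  have t0 : (Expr.sub (.num 8) (.reg 0)).cost u0 ≤ ℓ + 8 := by
    simp only [Expr.cost, Expr.val, h0, a6, Nat.size_zero]
    omega
  have t1 : (Expr.num 1).cost u0 ≤ 2 := by
    simp only [Expr.cost]
    omega
  have t3 : (Expr.div (.reg (R + 4)) (.num 2)).cost u2 ≤ 2 * ℓ + 7 := by
    simp only [Expr.cost, Expr.val, h24]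
    omega
  have t4 : (Expr.div (.reg (R + 4)) (.num 8)).cost u3 ≤ 2 * ℓ + 9 := by
    simp only [Expr.cost, Expr.val, h34]
    omega
  have t5 : (Expr.reg (R + 4)).cost u4 ≤ ℓ + 2 := by
    simp only [Expr.cost, h44]
    omega
  have hsq := Up_sq ℓ
  have e5 : 26 * (ℓ + 1) * (ℓ + 1) = 26 * (ℓ + 1) ^ 2 := by ring
  have e6 : ℓ + 1 ≤ (ℓ + 1) ^ 2 := by nlinarith
  have e7 : (216 + K) * (N + 1) * (c + 1) =
      216 * (N + 1) * (c + 1) + K * (N + 1) * c + K * (N + 1) := by ring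
  have e8 : 216 * (N + 1) ≤ 216 * (N + 1) * (c + 1) := Nat.le_mul_of_pos_right _ (by omega)
  rw [e7]
  have e9 : 0 ≤ K * (N + 1) := Nat.zero_le _
  rw [e5] at hc2
  omega

private lemma Up_vw (z : List Bool) : (vw z).length = vl z.length := by
  unfold vw
  exact List.length_ofFn

private lemma Up_log {N : ℕ} (hN : 8 ≤ N) : Nat.log 2 (vl N) + 3 = Nat.log 2 N := by
  have h3 : 3 ≤ Nat.log 2 N := by
    have : Nat.log 2 8 = 3 := by norm_num
    rw [← this]
    exact Nat.log_mono_right hN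
  obtain ⟨j, hj⟩ : ∃ j, Nat.log 2 N = j + 3 := ⟨Nat.log 2 N - 3, by omega⟩
  have h1 : vl N = 2 ^ j := by
    unfold vl
    rw [hj]
    have : 2 ^ (j + 3) = 2 ^ j * 8 := by ring
    rw [this]
    omega
  rw [h1, hj, Nat.log_pow (by norm_num)]

/-- The verifier for the virtual language. -/
private lemma Up_core {K : ℕ}
    (hV : ∀ (R : ℕ) (P : Prog) (z : List Bool) (s s' : ℕ → ℕ) (c : ℕ),
      P.Lt R → 8 ≤ z.length → Run (vw z) P s s' c → ∀ (S : ℕ) (u : ℕ → ℕ) (h : ℕ),
      (∀ i < R, s i = u i) → u (R + 4) = vl z.length → u (R + 5) = 2 ^ Nat.log 2 z.length / 2 →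
      PLT.Bd u S → c + Nat.log 2 z.length + 4 ≤ S → h ≤ z.length →
      ∃ u' h' c', SRun z S (vir R P) u h u' h' c' ∧ c' ≤ K * (z.length + 1) * c ∧
        (∀ i < R, s' i = u' i) ∧ u' (R + 4) = u (R + 4) ∧ u' (R + 5) = u (R + 5) ∧ PLT.Bd u' S ∧
        h' ≤ z.length)
    (κ t : ℕ → ℕ) (ht : Monotone t) (P : Prog)
    (hP : IsVer P (fun m => κ (Nat.log 2 m + 3)) t) : ∃ P' : Prog,
      IsSVer P' (fun n => κ (Nat.log 2 n)) (fun n => (216 + K) * (n + 1) * (t n + 1))
        (fun n => t n + κ (Nat.log 2 n) + Nat.log 2 n + 4) ∧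
      (∀ (z : List Bool) (y r : ℕ), z.length < 8 → ¬ Acc P' z y r) ∧
      ∀ (z : List Bool) (y r : ℕ), 8 ≤ z.length → y < 2 ^ κ (Nat.log 2 z.length) →
        r < 2 ^ κ (Nat.log 2 z.length) → (Acc P' z y r ↔ Acc P (vw z) y r) := by
  obtain ⟨R, hR, hPR⟩ := P.exists_lt
  have key : ∀ (z : List Bool) (y r : ℕ), 8 ≤ z.length → y < 2 ^ κ (Nat.log 2 z.length) →
      r < 2 ^ κ (Nat.log 2 z.length) → ∃ s' c u' h' c', Run (vw z) P (ini (vw z).length y r) s' c ∧
        SRun z (t z.length + κ (Nat.log 2 z.length) + Nat.log 2 z.length + 4) (Up_P R P)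
          (ini z.length y r) 0 u' h' c' ∧
        c' ≤ (216 + K) * (z.length + 1) * (t z.length + 1) ∧ u' 0 = s' 0 := by
    intro z y r hz hy hr
    have hlog := Up_log hz
    obtain ⟨s', c, hrun, hc⟩ := hP (vw z) y r
      (by simp only [Up_vw, hlog]; exact hy) (by simp only [Up_vw, hlog]; exact hr)
    have hvle : vl z.length ≤ z.length := by
      unfold vl
      have := Nat.pow_log_le_self 2 (x := z.length) (by omega)
      omega
    rw [Up_vw] at hc
    have hc' : c ≤ t z.length := hc.trans (ht hvle)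
    have hrun' := hrun
    rw [Up_vw] at hrun'
    have hmono : 2 ^ κ (Nat.log 2 z.length) ≤
        2 ^ (t z.length + κ (Nat.log 2 z.length) + Nat.log 2 z.length + 4) :=
      Nat.pow_le_pow_right (by norm_num) (by omega)
    obtain ⟨u', h', c', h1, h2, h3⟩ := Up_long hV R P hR hPR z hz y r
      (t z.length + κ (Nat.log 2 z.length) + Nat.log 2 z.length + 4) c s' hrun'
      (hy.trans_le hmono) (hr.trans_le hmono) (by omega)
    exact ⟨s', c, u', h', c', hrun, h1, h2.trans (Nat.mul_le_mul_left _ (by omega)), h3⟩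
  refine ⟨Up_P R P, ?_, ?_, ?_⟩
  · intro z y r hy hr
    have hmono : 2 ^ κ (Nat.log 2 z.length) ≤
        2 ^ (t z.length + κ (Nat.log 2 z.length) + Nat.log 2 z.length + 4) :=
      Nat.pow_le_pow_right (by norm_num) (by omega)
    have hzl : z.length <
        2 ^ (t z.length + κ (Nat.log 2 z.length) + Nat.log 2 z.length + 4) :=
      (Nat.lt_pow_succ_log_self (by norm_num) z.length).trans_le
        (Nat.pow_le_pow_right (by norm_num) (by omega))
    refine ⟨hzl, hy.trans_le hmono, hr.trans_le hmono, ?_⟩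
    rcases Nat.lt_or_ge z.length 8 with hz | hz
    · obtain ⟨u', h', c', h1, h2, -⟩ := Up_small R P z hz y r
        (t z.length + κ (Nat.log 2 z.length) + Nat.log 2 z.length + 4)
      refine ⟨u', h', c', h1, h2.trans ?_⟩
      have h3 : (216 + K) * (z.length + 1) * (t z.length + 1) = 216 + K +
          (216 + K) * z.length + (216 + K) * (z.length + 1) * t z.length := by ring
      have h4 : 216 ≤ (216 + K) * (z.length + 1) * (t z.length + 1) := by
        rw [h3]
        omega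
      exact h4
    · obtain ⟨s', c, u', h', c', -, h1, h2, -⟩ := key z y r hz hy hr
      exact ⟨u', h', c', h1, h2⟩
  · rintro z y r hz ⟨s, c, h1, h2⟩
    obtain ⟨u', h', c', h3, -, h4⟩ := Up_small R P z hz y r 0
    obtain ⟨c'', h5⟩ := Up_run h3
    obtain ⟨rfl, -⟩ := h1.det h5
    omega
  · intro z y r hz hy hr
    obtain ⟨s', c, u', h', c', h0, h1, -, h3⟩ := key z y r hz hy hr
    obtain ⟨c'', h5⟩ := Up_run h1
    constructor
    · rintro ⟨s, d, h6, h7⟩
      obtain ⟨rfl, -⟩ := h6.det h5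
      exact ⟨s', c, h0, by omega⟩
    · rintro ⟨s, d, h6, h7⟩
      obtain ⟨rfl, -⟩ := h6.det h0
      exact ⟨u', c'', h5, by omega⟩

theorem tUp : S_Up := by
  rintro ⟨K, -, hV⟩ L κ υ t ht
  refine ⟨216 + K, ?_, ?_⟩
  · rintro ⟨P, hP, hL⟩
    obtain ⟨P', h1, h2, h3⟩ := Up_core hV κ t ht P hP
    refine ⟨P', h1, fun z => ⟨?_, ?_⟩⟩
    · rintro ⟨hz, hzL⟩
      have h4 := (hL (vw z)).1 hzL
      have hlog := Up_log hz
      simp only [Up_vw, hlog] at h4
      refine h4.trans_eq (Up_pr _ _ _ fun r hr => ?_)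
      constructor
      · rintro ⟨y, hy, hA⟩
        exact ⟨y, hy, (h3 z y r hz hy hr).2 hA⟩
      · rintro ⟨y, hy, hA⟩
        exact ⟨y, hy, (h3 z y r hz hy hr).1 hA⟩
    · intro hz
      rcases Nat.lt_or_ge z.length 8 with hlt | hge
      · rw [Up_pr_zero _ _ fun r _ => by
          rintro ⟨y, -, hA⟩
          exact h2 z y r hlt hA]
        norm_num
      · have hzL : vw z ∉ L := fun h => hz ⟨hge, h⟩
        have h4 := (hL (vw z)).2 hzL
        have hlog := Up_log hge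
        simp only [Up_vw, hlog] at h4
        refine (Up_pr _ _ _ fun r hr => ?_).trans_le h4
        constructor
        · rintro ⟨y, hy, hA⟩
          exact ⟨y, hy, (h3 z y r hge hy hr).1 hA⟩
        · rintro ⟨y, hy, hA⟩
          exact ⟨y, hy, (h3 z y r hge hy hr).2 hA⟩
  · rintro ⟨P, hP, hL⟩
    obtain ⟨P', h1, h2, h3⟩ := Up_core hV κ t ht P hP
    refine ⟨P', h1, fun z => ⟨?_, ?_⟩⟩
    · rintro ⟨hz, hzL⟩
      have h4 := (hL (vw z)).1 hzL
      have hlog := Up_log hz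
      simp only [Up_vw, hlog] at h4
      exact h4.trans_eq (Up_pr _ _ _ fun r hr => (h3 z 0 r hz (by positivity) hr).symm)
    · intro hz
      rcases Nat.lt_or_ge z.length 8 with hlt | hge
      · rw [Up_pr_zero _ _ fun r _ hA => h2 z 0 r hlt hA]
        positivity
      · have hzL : vw z ∉ L := fun h => hz ⟨hge, h⟩
        have h4 := (hL (vw z)).2 hzL
        have hlog := Up_log hge
        simp only [Up_vw, hlog] at h4
        exact (Up_pr _ _ _ fun r hr => h3 z 0 r hge (by positivity) hr).trans_le h4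

end Pool.Agent.Lib.MP_ff3ed7_lc.SQ
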