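import Pool.Agent.Lib.MP_ff3ed7_lc.SQ.Spec

/-!
# PROJECT SQ: simulation of programs on virtual words
-/

set_option autoImplicit false

open Finset

namespace Pool.Agent.Lib.MP_ff3ed7_lc.SQ

open Pool.Agent.Lib.MP_ff3ed7_lc.PLT

private lemma Vir_size_le (k : ℕ) : Nat.size k ≤ k := Nat.size_le.2 Nat.lt_two_pow_self

private lemma Vir_bd {u : ℕ → ℕ} {S i v : ℕ} (h : PLT.Bd u S) (hv : v < 2 ^ S) :
    PLT.Bd (Function.update u i v) S := by
  intro j
  by_cases hj : j = i
  · subst hj; rwa [Function.update_self]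
  · rw [Function.update_of_ne hj]; exact h j

private lemma Vir_getD {z : List Bool} {j : ℕ} (hj : j < vl z.length) :
    (vw z).getD j false = vbit z j := by
  unfold vw
  rw [List.getD_eq_getElem _ _ (by simpa using hj)]
  simp

private lemma Vir_getD_ge {z : List Bool} {j : ℕ} (hj : vl z.length ≤ j) :
    (vw z).getD j false = false := by
  unfold vw
  rw [List.getD_eq_default _ _ (by simpa using hj)]

private lemma Vir_bit {z : List Bool} {j : ℕ} (hj : j < vl z.length) :
    (bit z (2 ^ Nat.log 2 z.length / 2 + 2 * j + 1) +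
      bit z (2 * j + bit z (2 ^ Nat.log 2 z.length / 2 + 2 * j))) % 2 = bit (vw z) j := by
  have h0 : bit (vw z) j = if vbit z j then 1 else 0 := by
    unfold bit; rw [Vir_getD hj]
  rw [h0]
  have hv : vbit z j =
      xor (if z.getD (2 ^ Nat.log 2 z.length / 2 + 2 * j) false then z.getD (2 * j + 1) false
        else z.getD (2 * j) false) (z.getD (2 ^ Nat.log 2 z.length / 2 + 2 * j + 1) false) := rfl
  rw [hv]
  unfold bit
  rcases Bool.eq_false_or_eq_true
    (z.getD (2 ^ Nat.log 2 z.length / 2 + 2 * j) false) with h1 | h1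
  · rw [h1]
    simp only [if_true]
    rcases Bool.eq_false_or_eq_true
      (z.getD (2 ^ Nat.log 2 z.length / 2 + 2 * j + 1) false) with h2 | h2 <;>
      rcases Bool.eq_false_or_eq_true (z.getD (2 * j + 1) false) with h3 | h3 <;>
      rw [h2, h3] <;> rfl
  · rw [h1]
    simp only [Bool.false_eq_true, if_false, Nat.add_zero]
    rcases Bool.eq_false_or_eq_true
      (z.getD (2 ^ Nat.log 2 z.length / 2 + 2 * j + 1) false) with h2 | h2 <;>
      rcases Bool.eq_false_or_eq_true (z.getD (2 * j) false) with h3 | h3 <;>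
      rw [h2, h3] <;> rfl

private lemma Vir_log {N : ℕ} (hN : 8 ≤ N) : ∃ q, 1 ≤ q ∧ 8 * q ≤ N ∧ vl N = q ∧
    2 ^ Nat.log 2 N / 2 = 4 * q := by
  have h3 : 3 ≤ Nat.log 2 N := by
    have := Nat.log_mono_right (b := 2) hN
    have h8 : Nat.log 2 8 = 3 := by
      have : Nat.log 2 (2 ^ 3) = 3 := Nat.log_pow (by norm_num) 3
      simpa using this
    omega
  obtain ⟨k, hk⟩ := Nat.exists_eq_add_of_le h3
  have h1 : 2 ^ Nat.log 2 N = 8 * 2 ^ k := by rw [hk, pow_add]; norm_num
  have h2 : 2 ^ Nat.log 2 N ≤ N := Nat.pow_log_le_self 2 (by omega)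
  refine ⟨2 ^ k, Nat.one_le_two_pow, by omega, ?_, by omega⟩
  unfold vl
  omega

private lemma Vir_dst {a b N : ℕ} (h : b ≤ N) : dst (min a N) b ≤ N := by
  unfold dst
  omega

private lemma Vir_vread (R i : ℕ) (e : Expr) (z : List Bool) (S : ℕ) (u : ℕ → ℕ) (h : ℕ)
    (hi : i < R) (hz : 8 ≤ z.length) (h4 : u (R + 4) = vl z.length)
    (h5 : u (R + 5) = 2 ^ Nat.log 2 z.length / 2) (hB : PLT.Bd u S)
    (hS : e.cost u + Nat.log 2 z.length + 4 ≤ S) (hh : h ≤ z.length) :
    ∃ u' h' c', SRun z S (vread R i e) u h u' h' c' ∧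
      c' ≤ 60 * (z.length + 1) * e.cost u ∧ (∀ k < R, k ≠ i → u' k = u k) ∧
      u' i = bit (vw z) (e.val u) ∧ u' (R + 4) = u (R + 4) ∧ u' (R + 5) = u (R + 5) ∧
      PLT.Bd u' S ∧ h' ≤ z.length := by
  obtain ⟨q, hq1, hqN, hvl, ho⟩ := Vir_log hz
  have hce : 1 ≤ e.cost u := e.one_le_cost u
  have hsz : Nat.size (e.val u) ≤ e.cost u := e.size_le_cost u
  have hj : e.val u < 2 ^ S := Nat.size_le.1 (hsz.trans (by omega))
  have h2S : 2 ≤ 2 ^ S := by
    calc 2 = 2 ^ 1 := rfl
      _ ≤ 2 ^ S := Nat.pow_le_pow_right (by norm_num) (by omega)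
  have hbit : ∀ k, bit z k < 2 ^ S := fun k => (bit_lt z k).trans_le h2S
  have hfin : ∀ c' : ℕ, c' ≤ 2 * e.cost u + 58 * (z.length + 1) →
      c' ≤ 60 * (z.length + 1) * e.cost u := by
    intro c' hc'
    nlinarith
  have e1 : Function.update u R (e.val u) (R + 4) = u (R + 4) :=
    Function.update_of_ne (by omega) _ _
  have e1' : Function.update u R (e.val u) (R + 5) = u (R + 5) :=
    Function.update_of_ne (by omega) _ _
  by_cases hjv : e.val u < vl z.length
  · obtain ⟨j, hjd⟩ : ∃ j, j = e.val u := ⟨_, rfl⟩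
    rw [← hjd] at hjv hj hsz e1 e1' ⊢
    have hjq : j < q := by omega
    obtain ⟨b1, hb1⟩ : ∃ b, b = bit z (2 ^ Nat.log 2 z.length / 2 + 2 * j) := ⟨_, rfl⟩
    obtain ⟨b2, hb2⟩ : ∃ b, b = bit z (2 ^ Nat.log 2 z.length / 2 + 2 * j + 1) := ⟨_, rfl⟩
    obtain ⟨b3, hb3⟩ : ∃ b, b = bit z (2 * j + b1) := ⟨_, rfl⟩
    have hb1' : b1 < 2 := hb1 ▸ bit_lt _ _
    have hb2' : b2 < 2 := hb2 ▸ bit_lt _ _
    have hb3' : b3 < 2 := hb3 ▸ bit_lt _ _
    set u1 := Function.update u R j with hu1
    set u2 := Function.update u1 (R + 1) b1 with hu2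
    set u3 := Function.update u2 (R + 2) b2 with hu3
    set u4 := Function.update u3 (R + 3) b3 with hu4
    have u1R : u1 R = j := by rw [hu1, Function.update_self]
    have u2R : u2 R = j := by rw [hu2, Function.update_of_ne (by omega)]; exact u1R
    have u3R : u3 R = j := by rw [hu3, Function.update_of_ne (by omega)]; exact u2R
    have u1R5 : u1 (R + 5) = 4 * q := by rw [hu1, Function.update_of_ne (by omega), h5, ho]
    have u2R5 : u2 (R + 5) = 4 * q := by rw [hu2, Function.update_of_ne (by omega)]; exact u1R5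
    have u3R1 : u3 (R + 1) = b1 := by
      rw [hu3, Function.update_of_ne (by omega), hu2, Function.update_self]
    have u4R2 : u4 (R + 2) = b2 := by
      rw [hu4, Function.update_of_ne (by omega), hu3, Function.update_self]
    have u4R3 : u4 (R + 3) = b3 := by rw [hu4, Function.update_self]
    have B1 : PLT.Bd u1 S := Vir_bd hB hj
    have B2 : PLT.Bd u2 S := Vir_bd B1 (hb1'.trans_le h2S)
    have B3 : PLT.Bd u3 S := Vir_bd B2 (hb2'.trans_le h2S)
    have B4 : PLT.Bd u4 S := Vir_bd B3 (hb3'.trans_le h2S)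
    have r0 : SRun z S (.set R e) u h u1 h (e.cost u) := by
      have := SRun.set (x := z) (S := S) R e u h (by rw [← hjd]; exact hj)
      rwa [← hjd] at this
    have v1 : (Expr.add (.reg (R + 5)) (.mul (.num 2) (.reg R))).val u1 =
        2 ^ Nat.log 2 z.length / 2 + 2 * j := by
      simp only [Expr.val]; rw [u1R5, u1R, ho]
    have v2 : (Expr.add (.add (.reg (R + 5)) (.mul (.num 2) (.reg R))) (.num 1)).val u2 =
        2 ^ Nat.log 2 z.length / 2 + 2 * j + 1 := by
      simp only [Expr.val]; rw [u2R5, u2R, ho]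
    have v3 : (Expr.add (.mul (.num 2) (.reg R)) (.reg (R + 1))).val u3 = 2 * j + b1 := by
      simp only [Expr.val]; rw [u3R, u3R1]
    have v4 : (Expr.mod (.add (.reg (R + 2)) (.reg (R + 3))) (.num 2)).val u4 =
        (b2 + b3) % 2 := by
      simp only [Expr.val]; rw [u4R2, u4R3]
    have r1 := SRun.read (x := z) (S := S) (R + 1)
      (Expr.add (.reg (R + 5)) (.mul (.num 2) (.reg R))) u1 h (hbit _)
    rw [v1, ← hb1, ← hu2] at r1
    have hm1 : min (2 ^ Nat.log 2 z.length / 2 + 2 * j) z.length ≤ z.length := min_le_right _ _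
    have r2 := SRun.read (x := z) (S := S) (R + 2)
      (Expr.add (.add (.reg (R + 5)) (.mul (.num 2) (.reg R))) (.num 1)) u2
      (min (2 ^ Nat.log 2 z.length / 2 + 2 * j) z.length) (hbit _)
    rw [v2, ← hb2, ← hu3] at r2
    have hm2 : min (2 ^ Nat.log 2 z.length / 2 + 2 * j + 1) z.length ≤ z.length :=
      min_le_right _ _
    have r3 := SRun.read (x := z) (S := S) (R + 3)
      (Expr.add (.mul (.num 2) (.reg R)) (.reg (R + 1))) u3
      (min (2 ^ Nat.log 2 z.length / 2 + 2 * j + 1) z.length) (hbit _)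
    rw [v3, ← hb3, ← hu4] at r3
    have hm3 : min (2 * j + b1) z.length ≤ z.length := min_le_right _ _
    have hres : (b2 + b3) % 2 < 2 ^ S := (Nat.mod_lt _ (by norm_num)).trans_le h2S
    have r4 := SRun.set (x := z) (S := S) i
      (Expr.mod (.add (.reg (R + 2)) (.reg (R + 3))) (.num 2)) u4
      (min (2 * j + b1) z.length) (by rw [v4]; exact hres)
    rw [v4] at r4
    have rI := SRun.iteT (x := z) (S := S) (e := .sub (.reg (R + 4)) (.reg R))
      (q := .set i (.num 0)) (s := u1)
      (by simp only [Expr.val]; rw [u1R, e1, h4]; omega)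
      (SRun.seq r1 (SRun.seq r2 (SRun.seq r3 r4)))
    refine ⟨_, _, _, SRun.seq r0 rI, ?_, ?_, ?_, ?_, ?_, ?_, hm3⟩
    · apply hfin
      have d1 := Vir_dst (a := 2 ^ Nat.log 2 z.length / 2 + 2 * j) hh
      have d2 := Vir_dst (a := 2 ^ Nat.log 2 z.length / 2 + 2 * j + 1) hm1
      have d3 := Vir_dst (a := 2 * j + b1) hm2
      simp only [Expr.cost, Expr.val, u1R, u2R, u3R, u1R5, u2R5, u3R1, u4R2, u4R3, e1, h4, hvl]
      have s1 := Vir_size_le q
      have s2 := Vir_size_le j
      have s3 := Vir_size_le (q - j)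
      have s4 := Vir_size_le (4 * q)
      have s5 := Vir_size_le 2
      have s6 := Vir_size_le (2 * j)
      have s7 := Vir_size_le (4 * q + 2 * j)
      have s8 := Vir_size_le 1
      have s9 := Vir_size_le (4 * q + 2 * j + 1)
      have s10 := Vir_size_le b1
      have s11 := Vir_size_le (2 * j + b1)
      have s12 := Vir_size_le b2
      have s13 := Vir_size_le b3
      have s14 := Vir_size_le (b2 + b3)
      have s15 := Vir_size_le ((b2 + b3) % 2)
      omega
    · intro k hk hki
      rw [Function.update_of_ne hki, hu4, Function.update_of_ne (by omega), hu3,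
        Function.update_of_ne (by omega), hu2, Function.update_of_ne (by omega), hu1,
        Function.update_of_ne (by omega)]
    · rw [Function.update_self, hb3, hb1, hb2]
      exact Vir_bit hjv
    · rw [Function.update_of_ne (by omega), hu4, Function.update_of_ne (by omega), hu3,
        Function.update_of_ne (by omega), hu2, Function.update_of_ne (by omega), hu1,
        Function.update_of_ne (by omega)]
    · rw [Function.update_of_ne (by omega), hu4, Function.update_of_ne (by omega), hu3,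
        Function.update_of_ne (by omega), hu2, Function.update_of_ne (by omega), hu1,
        Function.update_of_ne (by omega)]
    · exact Vir_bd B4 hres
  · have r0 := SRun.set (x := z) (S := S) R e u h hj
    have hj2 : vl z.length ≤ e.val u := not_lt.1 hjv
    set u1 := Function.update u R (e.val u) with hu1
    have u1R : u1 R = e.val u := by rw [hu1, Function.update_self]
    have r4 := SRun.set (x := z) (S := S) i (Expr.num 0) u1 h (by simp only [Expr.val]; omega)
    have rI := SRun.iteF (x := z) (S := S) (e := .sub (.reg (R + 4)) (.reg R))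
      (p := .seq (.read (R + 1) (.add (.reg (R + 5)) (.mul (.num 2) (.reg R))))
      (.seq (.read (R + 2) (.add (.add (.reg (R + 5)) (.mul (.num 2) (.reg R))) (.num 1)))
        (.seq (.read (R + 3) (.add (.mul (.num 2) (.reg R)) (.reg (R + 1))))
          (.set i (.mod (.add (.reg (R + 2)) (.reg (R + 3))) (.num 2)))))) (s := u1)
      (by simp only [Expr.val]; rw [u1R, e1, h4]; omega) r4
    refine ⟨_, _, _, SRun.seq r0 rI, ?_, ?_, ?_, ?_, ?_, ?_, hh⟩
    · apply hfin
      simp only [Expr.cost, Expr.val, u1R, e1, h4, hvl]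
      have s1 := Vir_size_le q
      have s3 : Nat.size (q - e.val u) = 0 := by
        rw [Nat.sub_eq_zero_of_le (by omega)]; exact Nat.size_zero
      have s4 := Vir_size_le 0
      omega
    · intro k hk hki
      rw [Function.update_of_ne hki, hu1, Function.update_of_ne (by omega)]
    · rw [Function.update_self]
      unfold bit
      rw [Vir_getD_ge hj2]
      rfl
    · rw [Function.update_of_ne (by omega), hu1, Function.update_of_ne (by omega)]
    · rw [Function.update_of_ne (by omega), hu1, Function.update_of_ne (by omega)]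
    · exact Vir_bd (Vir_bd hB hj) (by simp only [Expr.val]; omega)

theorem tVir : S_Vir := by
  refine ⟨60, by norm_num, ?_⟩
  intro R P z s s' c hP hz hrun
  have hN : 8 ≤ z.length := hz
  induction hrun with
  | set i e s =>
    intro S u h hu h4 h5 hB hS hh
    obtain ⟨a1, a2⟩ := hP.2.congr hu
    rw [a2] at hS
    have hv : e.val u < 2 ^ S := Nat.size_le.1 ((e.size_le_cost u).trans (by omega))
    have hi : i < R := hP.1
    refine ⟨_, _, _, SRun.set i e u h hv, ?_, ?_, ?_, ?_, Vir_bd hB hv, hh⟩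
    · rw [a2]
      calc e.cost u = 1 * e.cost u := (one_mul _).symm
        _ ≤ 60 * (z.length + 1) * e.cost u := Nat.mul_le_mul_right _ (by omega)
    · intro k hk
      by_cases hki : k = i
      · subst hki; rw [Function.update_self, Function.update_self, a1]
      · rw [Function.update_of_ne hki, Function.update_of_ne hki, hu k hk]
    · rw [Function.update_of_ne (by omega)]
    · rw [Function.update_of_ne (by omega)]
  | read i e s =>
    intro S u h hu h4 h5 hB hS hh
    obtain ⟨a1, a2⟩ := hP.2.congr hu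
    rw [a2] at hS
    have hi : i < R := hP.1
    obtain ⟨u', h', c', b1, b2, b3, b4, b5, b6, b7, b8⟩ :=
      Vir_vread R i e z S u h hi hN h4 h5 hB hS hh
    refine ⟨u', h', c', b1, by rw [a2]; exact b2, ?_, b5, b6, b7, b8⟩
    intro k hk
    by_cases hki : k = i
    · subst hki; rw [Function.update_self, b4, a1]
    · rw [Function.update_of_ne hki, b3 k hk hki, hu k hk]
  | seq hr hr' ih ih' =>
    intro S u h hu h4 h5 hB hS hh
    obtain ⟨u', h', c', b1, b2, b3, b4, b5, b6, b7⟩ :=
      ih hP.1 S u h hu h4 h5 hB (by omega) hh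
    obtain ⟨u'', h'', c'', d1, d2, d3, d4, d5, d6, d7⟩ :=
      ih' hP.2 S u' h' b3 (b4.trans h4) (b5.trans h5) b6 (by omega) b7
    refine ⟨u'', h'', _, SRun.seq b1 d1, ?_, d3, d4.trans b4, d5.trans b5, d6, d7⟩
    rw [Nat.mul_add]
    omega
  | @iteT e p q s s' c he hr ih =>
    intro S u h hu h4 h5 hB hS hh
    obtain ⟨a1, a2⟩ := hP.1.congr hu
    obtain ⟨u', h', c', b1, b2, b3, b4, b5, b6, b7⟩ :=
      ih hP.2.1 S u h hu h4 h5 hB (by omega) hh
    rw [a1] at he
    refine ⟨u', h', _, SRun.iteT he b1, ?_, b3, b4, b5, b6, b7⟩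
    rw [a2, Nat.mul_add]
    have := Nat.le_mul_of_pos_left (Expr.cost u e) (show 0 < 60 * (z.length + 1) by omega)
    exact Nat.add_le_add this b2
  | @iteF e p q s s' c he hr ih =>
    intro S u h hu h4 h5 hB hS hh
    obtain ⟨a1, a2⟩ := hP.1.congr hu
    obtain ⟨u', h', c', b1, b2, b3, b4, b5, b6, b7⟩ :=
      ih hP.2.2 S u h hu h4 h5 hB (by omega) hh
    rw [a1] at he
    refine ⟨u', h', _, SRun.iteF he b1, ?_, b3, b4, b5, b6, b7⟩
    rw [a2, Nat.mul_add]
    have := Nat.le_mul_of_pos_left (Expr.cost u e) (show 0 < 60 * (z.length + 1) by omega)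
    exact Nat.add_le_add this b2
  | @loopT e p s s' s'' c c' he hr hr' ih ih' =>
    intro S u h hu h4 h5 hB hS hh
    obtain ⟨a1, a2⟩ := hP.1.congr hu
    obtain ⟨u', h', c', b1, b2, b3, b4, b5, b6, b7⟩ :=
      ih hP.2 S u h hu h4 h5 hB (by omega) hh
    obtain ⟨u'', h'', c'', d1, d2, d3, d4, d5, d6, d7⟩ :=
      ih' hP S u' h' b3 (b4.trans h4) (b5.trans h5) b6 (by omega) b7
    rw [a1] at he
    refine ⟨u'', h'', _, SRun.loopT he b1 d1, ?_, d3, d4.trans b4, d5.trans b5, d6, d7⟩
    rw [a2, Nat.mul_add, Nat.mul_add]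
    have := Nat.le_mul_of_pos_left (Expr.cost u e) (show 0 < 60 * (z.length + 1) by omega)
    exact Nat.add_le_add (Nat.add_le_add this b2) d2
  | loopF he =>
    intro S u h hu h4 h5 hB hS hh
    obtain ⟨a1, a2⟩ := hP.1.congr hu
    rw [a1] at he
    refine ⟨u, h, _, SRun.loopF he, ?_, hu, rfl, rfl, hB, hh⟩
    rw [a2]
    exact Nat.le_mul_of_pos_left _ (by omega)

end Pool.Agent.Lib.MP_ff3ed7_lc.SQ
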