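import Pool.Agent.Lib.MP_ff3ed7_lc.SQ.Main0
import Pool.Agent.Lib.MP_ff3ed7_lc.SQ.NumP
import Pool.Agent.Lib.MP_ff3ed7_lc.SQ.Vir
import Pool.Agent.Lib.MP_ff3ed7_lc.SQ.Up
import Pool.Agent.Lib.MP_ff3ed7_lc.SQ.Sml
import Pool.Agent.Lib.MP_ff3ed7_lc.SQ.Prt
import Pool.Agent.Lib.MP_ff3ed7_lc.SQ.Crs
import Pool.Agent.Lib.MP_ff3ed7_lc.SQ.Avg
import Pool.Agent.Lib.MP_ff3ed7_lc.SQ.Mj
import Pool.Agent.Lib.MP_ff3ed7_lc.SQ.Red
import Pool.Agent.Lib.MP_ff3ed7_lc.SQ.AvP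
import Pool.Agent.Lib.MP_ff3ed7_lc.SQ.RdP
import Pool.Agent.Lib.MP_ff3ed7_lc.SQ.SInc

/-!
# PROJECT SQ: the theorems
-/

set_option autoImplicit false

open Finset

namespace Pool.Agent.Lib.MP_ff3ed7_lc.SQ

open Pool.Agent.Lib.MP_ff3ed7_lc.PLT

/-- The language in `SBP`. -/
theorem main_sbp : ∃ (L : Set (List Bool)) (C : ℕ),
    L ∈ SBPs (fun n => 2 * (Nat.log 2 n + 2)) (fun n => C * (n + 1) * (Nat.log 2 n + 2) ^ 2)
      (fun n => C * (Nat.log 2 n + 2) ^ 2) (fun n => Nat.log 2 n + 2) ∧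
    ∀ n p s t, HasMAseq (slice L n) p s t → n ≤ C * ((p + 1) * (s + 1) * (t / n + 1)) ^ 10 :=
  main_sbp' tVir tUp tRed tPrt tCrs tAvg tMj

/-- The language in `AM`. -/
theorem main_am : ∃ (L : Set (List Bool)) (C : ℕ),
    L ∈ AMs (fun n => Nat.log 2 n + 2) (fun n => C * (n + 1) * (Nat.log 2 n + 2) ^ 2)
      (fun n => C * (Nat.log 2 n + 2) ^ 2) ∧
    ∀ n, (∀ p s t, HasMAseq (slice L n) p s t →
        n ≤ C * ((p + 1) * (s + 1) * (t / n + 1)) ^ 10) ∧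
      (∀ u s t, HasSBPseq (slice L n) u s t → n ≤ C * (u + (s + 1) * (t / n + 1)) ^ 10) ∧
      ∀ p s t, HasPPseq (slice L n) p s t →
        n ≤ C * ((p + 1) * (s + 1) * (t / n + 1)) ^ 10 := by
  obtain ⟨C1, hC1⟩ := fin_AM tVir tUp
  obtain ⟨C2, hC2⟩ := fin_lowG tRed tPrt tCrs tAvg tMj
  obtain ⟨C3, hC3⟩ := fin_lowGP tRdP tPrt tCrs tAvP
  have e2 : C2 ≤ C1 + C2 + C3 := by omega
  refine ⟨vlang LG, C1 + C2 + C3, AMs_mono (fun n => ?_) (fun n => ?_) hC1, fun n =>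
    ⟨fun p s t h => ((hC2 n).1 p s t h).trans (Nat.mul_le_mul_right _ e2),
      fun u s t h => ((hC2 n).2 u s t h).trans (Nat.mul_le_mul_right _ e2),
      fun p s t h => (hC3 n p s t h).trans (Nat.mul_le_mul_right _ (Nat.le_add_left _ _))⟩⟩
  · exact Nat.mul_le_mul_right _ (Nat.mul_le_mul_right _ (by omega))
  · exact Nat.mul_le_mul_right _ (by omega)

/-- The chain of the classes. -/
theorem main_chain : MAql ⊂ SBPql ∧ SBPql ⊂ AMql ∧ ¬ AMql ⊆ PPql := by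
  have h1 := main_chain' (MAql_subset_SBPql tPrB (tAmp tPrB) tMaSbp)
    (SBPql_subset_AMql tPrB tHash tSet tSbpAm) tSml tVir tUp tRed tPrt tCrs tAvg tMj
  obtain ⟨C, hC⟩ := fin_lowGP tRdP tPrt tCrs tAvP
  exact ⟨h1.1, h1.2, fun h => not_PPql tSml hC (h (mem_AMql tVir tUp))⟩

end Pool.Agent.Lib.MP_ff3ed7_lc.SQ
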