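import Pool.Agent.Lib.MP_ff3ed7_lc.SQ.Fin

/-!
# PROJECT SQ: the theorems, from the statements of the single modules
-/

set_option autoImplicit false

open Finset

namespace Pool.Agent.Lib.MP_ff3ed7_lc.SQ

open Pool.Agent.Lib.MP_ff3ed7_lc.PLT

/-- The language in `SBP`. -/
theorem main_sbp' (hV : S_Vir) (hU : S_Up) (hR : S_Red) (h1 : S_Prt) (h2 : S_Crs) (h3 : S_Avg)
    (h4 : S_Mj) : ∃ (L : Set (List Bool)) (C : ℕ),
    L ∈ SBPs (fun n => 2 * (Nat.log 2 n + 2)) (fun n => C * (n + 1) * (Nat.log 2 n + 2) ^ 2)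
      (fun n => C * (Nat.log 2 n + 2) ^ 2) (fun n => Nat.log 2 n + 2) ∧
    ∀ n p s t, HasMAseq (slice L n) p s t → n ≤ C * ((p + 1) * (s + 1) * (t / n + 1)) ^ 10 := by
  obtain ⟨C1, hC1⟩ := fin_SBP hV hU
  obtain ⟨C2, hC2⟩ := fin_lowB hR h1 h2 h3 h4
  refine ⟨vlang LB, C1 + C2, SBPs_mono (fun n => ?_) (fun n => ?_) hC1, fun n p s t h =>
    (hC2 n p s t h).trans (Nat.mul_le_mul_right _ (Nat.le_add_left _ _))⟩
  · exact Nat.mul_le_mul_right _ (Nat.mul_le_mul_right _ (Nat.le_add_right _ _))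
  · exact Nat.mul_le_mul_right _ (Nat.le_add_right _ _)

/-- The language in `AM`. -/
theorem main_am' (hV : S_Vir) (hU : S_Up) (hR : S_Red) (h1 : S_Prt) (h2 : S_Crs) (h3 : S_Avg)
    (h4 : S_Mj) : ∃ (L : Set (List Bool)) (C : ℕ),
    L ∈ AMs (fun n => Nat.log 2 n + 2) (fun n => C * (n + 1) * (Nat.log 2 n + 2) ^ 2)
      (fun n => C * (Nat.log 2 n + 2) ^ 2) ∧
    ∀ n, (∀ p s t, HasMAseq (slice L n) p s t →
        n ≤ C * ((p + 1) * (s + 1) * (t / n + 1)) ^ 10) ∧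
      ∀ u s t, HasSBPseq (slice L n) u s t → n ≤ C * (u + (s + 1) * (t / n + 1)) ^ 10 := by
  obtain ⟨C1, hC1⟩ := fin_AM hV hU
  obtain ⟨C2, hC2⟩ := fin_lowG hR h1 h2 h3 h4
  refine ⟨vlang LG, C1 + C2, AMs_mono (fun n => ?_) (fun n => ?_) hC1, fun n =>
    ⟨fun p s t h => ((hC2 n).1 p s t h).trans (Nat.mul_le_mul_right _ (Nat.le_add_left _ _)),
      fun u s t h => ((hC2 n).2 u s t h).trans (Nat.mul_le_mul_right _ (Nat.le_add_left _ _))⟩⟩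
  · exact Nat.mul_le_mul_right _ (Nat.mul_le_mul_right _ (Nat.le_add_right _ _))
  · exact Nat.mul_le_mul_right _ (Nat.le_add_right _ _)

/-- The chain of the classes. -/
theorem main_chain' (i1 : MAql ⊆ SBPql) (i2 : SBPql ⊆ AMql) (hS : S_Sml) (hV : S_Vir) (hU : S_Up)
    (hR : S_Red) (h1 : S_Prt) (h2 : S_Crs) (h3 : S_Avg) (h4 : S_Mj) :
    MAql ⊂ SBPql ∧ SBPql ⊂ AMql := by
  obtain ⟨C1, hC1⟩ := fin_lowB hR h1 h2 h3 h4
  obtain ⟨C2, hC2⟩ := fin_lowG hR h1 h2 h3 h4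
  exact ⟨⟨i1, fun h => not_MAql hS hC1 (h (mem_SBPql hV hU))⟩,
    ⟨i2, fun h => not_SBPql hS (fun N => (hC2 N).2) (h (mem_AMql hV hU))⟩⟩

end Pool.Agent.Lib.MP_ff3ed7_lc.SQ
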