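import Pool.Agent.Lib.MP_ff3ed7_lc.B.TotalCC

/-!
Total two-party functions which separate the communication complexity classes `MA`, `SBP` and
`AM`: some have cheap `SBP` protocols and no cheap Merlin-Arthur protocols; others have cheap
Arthur-Merlin protocols and large sign-rank, and no cheap `SBP` protocols.
-/

namespace Pool.Agent.Lib.MP_ff3ed7_lc.OldTotalChainCC

open Pool.Agent.Lib.MP_ff3ed7_lc Pool.Agent.Lib.MP_ff3ed7_lc.B

/-- For every `ℓ`:
(1) there is a total function `F` of two strings of `N` bits, `2 ^ (9 ℓ + 20) ≤ N ≤ 2 ^ (9 ℓ + 23)`,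
which has an `SBP` communication protocol with `10 ℓ + 24` public random bits and `30` bits of
communication which accepts with probability at least `2 * 2 ^ (-(9 ℓ + 24))` if `F x y = 1` and at
most `2 ^ (-(9 ℓ + 24))` if `F x y = 0`, while `2 ^ ℓ ≤ 21 (p + 1) (c + 1)` if `F` has a
Merlin-Arthur protocol with a message of `p` bits and `c` bits of communication;
(2) there is a total function `F` of two strings of `N ≤ 2 ^ (8 ℓ + 32)` bits which has an
Arthur-Merlin communication protocol with `5 ℓ + 23` random bits and a message of `24 ℓ + 145`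
bits, while `2 ^ ℓ < 18 (s + c + 3)` if `F` has an `SBP` protocol with threshold `2 ^ (-s)` and `c`
bits of communication, `2 ^ ℓ ≤ 31 (k + 4)` if the sign-rank of `F` is at most `2 ^ k`,
`2 ^ ℓ ≤ 31 (c + 5)` if `F` has an unbounded error protocol of cost `c`,
`2 ^ ℓ < 18 (p + c + 2)` if `F` has a `PP` protocol with gap `2 ^ (-p)` and `c` bits of
communication, and `2 ^ ℓ < 18 (p + 2) (c + 2)` if `F` has a Merlin-Arthur protocol with a message
of `p` bits and `c` bits of communication. -/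
theorem result (ℓ : ℕ) :
    (∃ (N : ℕ) (F : (Fin N → Bool) → (Fin N → Bool) → Bool),
      2 ^ (9 * ℓ + 20) ≤ N ∧ N ≤ 2 ^ (9 * ℓ + 23) ∧
      HasSBPcc F (10 * ℓ + 24) (9 * ℓ + 24) 30 ∧
      ∀ p c, HasMAcc F p c → 2 ^ ℓ ≤ 21 * (p + 1) * (c + 1)) ∧
    ∃ (N : ℕ) (F : (Fin N → Bool) → (Fin N → Bool) → Bool),
      N ≤ 2 ^ (8 * ℓ + 32) ∧
      HasAMcc F (5 * ℓ + 23) (24 * ℓ + 145) ∧
      (∀ r s c, HasSBPcc F r s c → 2 ^ ℓ < 18 * (s + c + 3)) ∧
      (∀ k, SignRankLE F (2 ^ k) → 2 ^ ℓ ≤ 31 * (k + 4)) ∧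
      (∀ c, HasUPPcc F c → 2 ^ ℓ ≤ 31 * (c + 5)) ∧
      (∀ p c, HasPPcc F p c → 2 ^ ℓ < 18 * (p + c + 2)) ∧
      ∀ p c, HasMAcc F p c → 2 ^ ℓ < 18 * (p + 2) * (c + 2) :=
  ⟨total_sbpcc ℓ, total_amcc ℓ⟩

end Pool.Agent.Lib.MP_ff3ed7_lc.OldTotalChainCC
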