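import Pool.Agent.Lib.MP_ff3ed7_lc.SQ.Def
import Pool.Agent.Lib.MP_ff3ed7_lc.PLT.Gen2

/-!
# PROJECT SQ: the engine with a sequential input head
-/

set_option autoImplicit false

open Finset

namespace Pool.Agent.Lib.MP_ff3ed7_lc.SQ

open Pool.Agent.Lib.MP_ff3ed7_lc.PLT

/-- The head is forgotten. -/
theorem SRun.run {x : List Bool} {S : ℕ} {p : Prog} {s s' : ℕ → ℕ} {h h' c : ℕ}
    (a : SRun x S p s h s' h' c) : ∃ c', Run x p s s' c' ∧ c' ≤ c := by
  induction a with
  | set i e s h hS => exact ⟨_, Run.set i e s, le_rfl⟩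
  | read i e s h hS => exact ⟨_, Run.read i e s, Nat.le_add_right _ _⟩
  | seq a b iha ihb =>
    obtain ⟨c1, r1, l1⟩ := iha
    obtain ⟨c2, r2, l2⟩ := ihb
    exact ⟨_, Run.seq r1 r2, by omega⟩
  | iteT he a ih =>
    obtain ⟨c1, r1, l1⟩ := ih
    exact ⟨_, Run.iteT he r1, by omega⟩
  | iteF he a ih =>
    obtain ⟨c1, r1, l1⟩ := ih
    exact ⟨_, Run.iteF he r1, by omega⟩
  | loopT he a b iha ihb =>
    obtain ⟨c1, r1, l1⟩ := iha
    obtain ⟨c2, r2, l2⟩ := ihb
    exact ⟨_, Run.loopT he r1 r2, by omega⟩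
  | loopF he => exact ⟨_, Run.loopF he, le_rfl⟩

/-- More memory. -/
theorem SRun.mem_mono {x : List Bool} {S : ℕ} {p : Prog} {s s' : ℕ → ℕ} {h h' c : ℕ}
    (a : SRun x S p s h s' h' c) {S' : ℕ} (hS' : S ≤ S') : SRun x S' p s h s' h' c := by
  have hp : 2 ^ S ≤ 2 ^ S' := Nat.pow_le_pow_right (by norm_num) hS'
  induction a with
  | set i e s h hS => exact SRun.set i e s h (hS.trans_le hp)
  | read i e s h hS => exact SRun.read i e s h (hS.trans_le hp)
  | seq a b iha ihb => exact SRun.seq iha ihb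
  | iteT he a ih => exact SRun.iteT he ih
  | iteF he a ih => exact SRun.iteF he ih
  | loopT he a b iha ihb => exact SRun.loopT he iha ihb
  | loopF he => exact SRun.loopF he

/-- The program does not read the input. -/
def NR : Prog → Prop
  | .set _ _ => True
  | .read _ _ => False
  | .seq p q => NR p ∧ NR q
  | .ite _ p q => NR p ∧ NR q
  | .loop _ p => NR p

/-- A run of a program that does not read the input. -/
theorem lift {x : List Bool} {p : Prog} {s s' : ℕ → ℕ} {c : ℕ} (a : Run x p s s' c) :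
    NR p → ∀ S, c ≤ S → ∀ h, SRun x S p s h s' h c := by
  induction a with
  | set i e s =>
    intro _ S hS h
    exact SRun.set i e s h (Nat.size_le.mp ((e.size_le_cost s).trans hS))
  | read i e s => intro hn; exact hn.elim
  | seq a b iha ihb =>
    intro hn S hS h
    exact SRun.seq (iha hn.1 S (by omega) h) (ihb hn.2 S (by omega) h)
  | iteT he a ih => intro hn S hS h; exact SRun.iteT he (ih hn.1 S (by omega) h)
  | iteF he a ih => intro hn S hS h; exact SRun.iteF he (ih hn.2 S (by omega) h)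
  | loopT he a b iha ihb =>
    intro hn S hS h
    exact SRun.loopT he (iha hn S (by omega) h) (ihb hn S (by omega) h)
  | loopF he => intro hn S hS h; exact SRun.loopF he

/-- Another initial position of the head. -/
theorem SRun.move {x : List Bool} {S : ℕ} {p : Prog} {s s' : ℕ → ℕ} {h h' c : ℕ}
    (a : SRun x S p s h s' h' c) :
    ∀ g, ∃ g' c', SRun x S p s g s' g' c' ∧ c' + dst g' h' ≤ c + dst g h := by
  induction a with
  | set i e s h hS => intro g; exact ⟨g, _, SRun.set i e s g hS, le_rfl⟩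
  | read i e s h hS =>
    intro g
    refine ⟨_, _, SRun.read i e s g hS, ?_⟩
    unfold dst
    omega
  | seq a b iha ihb =>
    intro g
    obtain ⟨g1, c1, r1, l1⟩ := iha g
    obtain ⟨g2, c2, r2, l2⟩ := ihb g1
    exact ⟨_, _, SRun.seq r1 r2, by omega⟩
  | iteT he a ih =>
    intro g
    obtain ⟨g1, c1, r1, l1⟩ := ih g
    exact ⟨_, _, SRun.iteT he r1, by omega⟩
  | iteF he a ih =>
    intro g
    obtain ⟨g1, c1, r1, l1⟩ := ih g
    exact ⟨_, _, SRun.iteF he r1, by omega⟩
  | loopT he a b iha ihb =>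
    intro g
    obtain ⟨g1, c1, r1, l1⟩ := iha g
    obtain ⟨g2, c2, r2, l2⟩ := ihb g1
    exact ⟨_, _, SRun.loopT he r1 r2, by omega⟩
  | loopF he => intro g; exact ⟨_, _, SRun.loopF he, le_rfl⟩

/-- The head stays on the input. -/
theorem SRun.head_le {x : List Bool} {S : ℕ} {p : Prog} {s s' : ℕ → ℕ} {h h' c : ℕ}
    (a : SRun x S p s h s' h' c) : h ≤ x.length → h' ≤ x.length := by
  induction a with
  | set i e s h hS => exact id
  | read i e s h hS => intro _; exact min_le_right _ _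
  | seq a b iha ihb => exact fun h => ihb (iha h)
  | iteT he a ih => exact ih
  | iteF he a ih => exact ih
  | loopT he a b iha ihb => exact fun h => ihb (iha h)
  | loopF he => exact id

/-- The registers after a run. -/
theorem SRun.bd {x : List Bool} {S : ℕ} {p : Prog} {s s' : ℕ → ℕ} {h h' c : ℕ}
    (a : SRun x S p s h s' h' c) {B : ℕ} (hSB : S ≤ B) : Bd s B → Bd s' B := by
  have hp : 2 ^ S ≤ 2 ^ B := Nat.pow_le_pow_right (by norm_num) hSB
  have key : ∀ {s : ℕ → ℕ} {i v : ℕ}, v < 2 ^ S → Bd s B → Bd (Function.update s i v) B := by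
    intro s i v hv hs j
    by_cases hji : j = i
    · subst hji; rw [Function.update_self]; exact hv.trans_le hp
    · rw [Function.update_of_ne hji]; exact hs j
  induction a with
  | set i e s h hS => exact key hS
  | read i e s h hS => exact key hS
  | seq a b iha ihb => exact fun h => ihb (iha h)
  | iteT he a ih => exact ih
  | iteF he a ih => exact ih
  | loopT he a b iha ihb => exact fun h => ihb (iha h)
  | loopF he => exact id

/-- **Frame lemma.** -/
theorem SRun.frame {x : List Bool} {S R : ℕ} {p : Prog} {s s' : ℕ → ℕ} {h h' c : ℕ}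
    (a : SRun x S p s h s' h' c) :
    p.Lt R → ∀ u : ℕ → ℕ, (∀ i < R, s i = u i) → ∃ u', SRun x S p u h u' h' c ∧
      (∀ i < R, s' i = u' i) ∧ ∀ i, R ≤ i → u' i = u i := by
  induction a with
  | set i e s h hS =>
    intro hp u hu
    obtain ⟨h1, h2⟩ := hp.2.congr hu
    rw [h1] at hS
    rw [h1, h2]
    refine ⟨_, SRun.set i e u h hS, fun j hj => ?_, fun j hj => ?_⟩
    · by_cases hji : j = i
      · subst hji; simp
      · simp [Function.update_of_ne hji, hu j hj]
    · have : j ≠ i := by have := hp.1; omega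
      simp [Function.update_of_ne this]
  | read i e s h hS =>
    intro hp u hu
    obtain ⟨h1, h2⟩ := hp.2.congr hu
    rw [h1] at hS
    rw [h1, h2]
    refine ⟨_, SRun.read i e u h hS, fun j hj => ?_, fun j hj => ?_⟩
    · by_cases hji : j = i
      · subst hji; simp
      · simp [Function.update_of_ne hji, hu j hj]
    · have : j ≠ i := by have := hp.1; omega
      simp [Function.update_of_ne this]
  | seq a b iha ihb =>
    intro hp u hu
    obtain ⟨u', a1, a2, a3⟩ := iha hp.1 u hu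
    obtain ⟨u'', b1, b2, b3⟩ := ihb hp.2 u' a2
    exact ⟨u'', SRun.seq a1 b1, b2, fun i hi => (b3 i hi).trans (a3 i hi)⟩
  | iteT he a ih =>
    intro hp u hu
    obtain ⟨h1, h2⟩ := hp.1.congr hu
    obtain ⟨u', a1, a2, a3⟩ := ih hp.2.1 u hu
    rw [h2]
    exact ⟨u', SRun.iteT (by rwa [← h1]) a1, a2, a3⟩
  | iteF he a ih =>
    intro hp u hu
    obtain ⟨h1, h2⟩ := hp.1.congr hu
    obtain ⟨u', a1, a2, a3⟩ := ih hp.2.2 u hu
    rw [h2]
    exact ⟨u', SRun.iteF (by rwa [← h1]) a1, a2, a3⟩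
  | loopT he a b iha ihb =>
    intro hp u hu
    obtain ⟨h1, h2⟩ := hp.1.congr hu
    obtain ⟨u', a1, a2, a3⟩ := iha hp.2 u hu
    obtain ⟨u'', b1, b2, b3⟩ := ihb hp u' a2
    rw [h2]
    exact ⟨u'', SRun.loopT (by rwa [← h1]) a1 b1, b2, fun i hi => (b3 i hi).trans (a3 i hi)⟩
  | loopF he =>
    intro hp u hu
    obtain ⟨h1, h2⟩ := hp.1.congr hu
    rw [h2]
    exact ⟨u, SRun.loopF (by rwa [← h1]), hu, fun i _ => rfl⟩

/-- A loop. -/
theorem sloop_of {x : List Bool} {S : ℕ} {e : Expr} {p : Prog} {I : ℕ → (ℕ → ℕ) → ℕ → Prop} {C : ℕ}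
    (hend : ∀ s h, I 0 s h → e.val s = 0 ∧ e.cost s ≤ C)
    (hstep : ∀ k s h, I (k + 1) s h →
      e.val s ≠ 0 ∧ ∃ s' h' c, SRun x S p s h s' h' c ∧ e.cost s + c ≤ C ∧ I k s' h') :
    ∀ k s h, I k s h → ∃ s' h' c, SRun x S (.loop e p) s h s' h' c ∧ c ≤ C * (k + 1) ∧ I 0 s' h' := by
  intro k
  induction k with
  | zero =>
    intro s h hs
    obtain ⟨h1, h2⟩ := hend s h hs
    exact ⟨s, h, _, SRun.loopF h1, by omega, hs⟩
  | succ k ih =>
    intro s h hs
    obtain ⟨h1, s', h', c, h2, h3, h4⟩ := hstep k s h hs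
    obtain ⟨s'', h'', c', h5, h6, h7⟩ := ih s' h' h4
    refine ⟨s'', h'', _, SRun.loopT h1 h2 h5, ?_, h7⟩
    have : C * (k + 1 + 1) = C * (k + 1) + C := by ring
    omega

lemma NR_clr (k : ℕ) : NR (clr k) := by
  induction k with
  | zero => trivial
  | succ k ih => exact ⟨ih, trivial⟩

lemma NR_pre (R : ℕ) : NR (pre R) := ⟨trivial, trivial, trivial, NR_clr _⟩

lemma NR_post (R : ℕ) : NR (post R) := ⟨trivial, trivial, trivial⟩

/-- **The engine.** -/
theorem seng_run (P : Prog) (R : ℕ) (hR : 3 ≤ R) (hP : P.Lt R) :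
    ∃ K, 1 ≤ K ∧ ∀ (x : List Bool) (Y RR k M t B S g : ℕ) (s : ℕ → ℕ),
      s R = x.length → s (R + 1) = Y → s (R + 2) = RR → s (R + 3) = 2 ^ k → s (R + 4) = M →
      s (R + 5) = 0 → (∀ i < M, SStops P x Y (blk k RR i) t B) → 1 ≤ B → K * B ≤ S →
      g ≤ x.length → Bd s B →
      ∃ s' g' c, SRun x S (eng P R) s g s' g' c ∧ c ≤ (K * B + (t + x.length)) * (M + 1) ∧
        s' (R + 5) = Nat.card {i : Fin M // Acc P x Y (blk k RR i)} ∧
        s' R = s R ∧ s' (R + 1) = s (R + 1) ∧ s' (R + 3) = s (R + 3) ∧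
        (∀ i, R + 6 ≤ i → s' i = s i) ∧ Bd s' B ∧ g' ≤ x.length := by
  classical
  obtain ⟨K₁, hK₁, hc₁⟩ := Prog.cost_exec (pre R) (pre_LF R)
  obtain ⟨K₂, hK₂, hc₂⟩ := Prog.cost_exec (post R) (post_LF R)
  refine ⟨K₁ + K₂ + 3, by omega, ?_⟩
  intro x Y RR k M t B S g s e0 e1 e2 e3 e4 e5 hst hB hBS hg hs
  have hMB : M < 2 ^ B := e4 ▸ hs (R + 4)
  have hBS' : B ≤ S := le_trans (Nat.le_mul_of_pos_left B (by omega)) hBS
  let A : ℕ → Prop := fun i => Acc P x Y (blk k RR i)
  let I : ℕ → (ℕ → ℕ) → ℕ → Prop := fun j u g => j ≤ M ∧ u R = x.length ∧ u (R + 1) = Y ∧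
    u (R + 2) = RR / 2 ^ (k * (M - j)) ∧ u (R + 3) = 2 ^ k ∧ u (R + 4) = j ∧
    u (R + 5) = ((range (M - j)).filter A).card ∧ (∀ i, R + 6 ≤ i → u i = s i) ∧ Bd u B ∧
    g ≤ x.length
  have hreg : ∀ u : ℕ → ℕ, Bd u B → (Expr.reg (R + 4)).cost u ≤ 2 * B := by
    intro u hu
    simp only [Expr.cost]
    have := Nat.size_le.mpr (hu (R + 4))
    omega
  have key := sloop_of (x := x) (S := S) (e := .reg (R + 4)) (p := .seq (pre R) (.seq P (post R)))
    (I := I) (C := (K₁ + K₂ + 3) * B + (t + x.length)) ?_ ?_ M s g ?_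
  · obtain ⟨s', g', c, h1, h2, h3⟩ := key
    obtain ⟨-, f0, f1, f2, f3, f4, f5, f6, f7, f8⟩ := h3
    refine ⟨s', g', c, h1, h2, ?_, f0.trans e0.symm, f1.trans e1.symm, f3.trans e3.symm, f6, f7, f8⟩
    rw [f5, Nat.sub_zero, Nat.card_eq_fintype_card, Fintype.card_subtype]
    rw [Finset.card_filter, Finset.card_filter, Finset.sum_range]
  · rintro u g ⟨-, f0, f1, f2, f3, f4, f5, f6, f7, f8⟩
    refine ⟨f4, (hreg u f7).trans ?_⟩
    nlinarith
  · rintro j u g ⟨hj, f0, f1, f2, f3, f4, f5, f6, f7, f8⟩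
    refine ⟨by simp only [Expr.val, f4]; omega, ?_⟩
    have hb : u (R + 2) % u (R + 3) = blk k RR (M - (j + 1)) := by
      rw [f2, f3]; rfl
    obtain ⟨a1, a2⟩ := pre_exec x hR u
    obtain ⟨c1, -⟩ := hc₁ x u B hB f7
    have hr₁ := lift (Prog.LF.run (x := x) (pre_LF R) u) (NR_pre R) S
      (c1.trans (le_trans (by nlinarith) hBS)) g
    set v := (pre R).exec x u with hv
    obtain ⟨-, -, -, w, hw', cw, hw, hcw⟩ := hst (M - (j + 1)) (by omega)
    obtain ⟨v', b1, b2, b3⟩ := hw.frame hP v (fun i hi => by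
      rw [a1 i hi, f0, f1, hb])
    obtain ⟨g', c', b1', b4⟩ := b1.move g
    have hc' : c' ≤ t + x.length := by
      unfold dst at b4
      omega
    have hg' : g' ≤ x.length := b1'.head_le f8
    have hvB : Bd v B := by
      intro i
      rcases Nat.lt_or_ge i R with hi | hi
      · rw [a1 i hi]
        unfold ini
        split
        · exact f7 R
        · split
          · exact f7 (R + 1)
          · split
            · exact (Nat.mod_le _ _).trans_lt (f7 (R + 2))
            · positivity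
      · rw [a2 i hi]; exact f7 i
    have hv'B : Bd v' B := b1'.bd le_rfl hvB
    obtain ⟨c2, -⟩ := hc₂ x v' B hB hv'B
    have hr₂ := lift (Prog.LF.run (x := x) (post_LF R) v') (NR_post R) S
      (c2.trans (le_trans (by nlinarith) hBS)) g'
    obtain ⟨p1, p2, p3, p4⟩ := post_exec x R v'
    refine ⟨_, _, _, SRun.seq hr₁ (SRun.seq (b1'.mem_mono hBS') hr₂), ?_, ?_⟩
    · have := hreg u f7
      nlinarith
    · have hacc : v' 0 = 1 ↔ A (M - (j + 1)) := by
        rw [← b2 0 (by omega)]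
        obtain ⟨cw₀, hw₀, -⟩ := hw.run
        constructor
        · intro h
          exact ⟨w, cw₀, hw₀, h⟩
        · rintro ⟨w', cw', hw', h⟩
          obtain ⟨rfl, -⟩ := hw₀.det hw'
          exact h
      have hmj : M - j = (M - (j + 1)) + 1 := by omega
      refine ⟨by omega, ?_, ?_, ?_, ?_, ?_, ?_, ?_, ?_, hg'⟩
      · rw [p4 R (by omega) (by omega) (by omega), b3 R le_rfl, a2 R le_rfl, f0]
      · rw [p4 (R + 1) (by omega) (by omega) (by omega), b3 (R + 1) (by omega),
          a2 (R + 1) (by omega), f1]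
      · rw [p2, b3 (R + 2) (by omega), b3 (R + 3) (by omega), a2 (R + 2) (by omega),
          a2 (R + 3) (by omega), f2, f3, Nat.div_div_eq_div_mul, ← pow_add, hmj]
        ring_nf
      · rw [p4 (R + 3) (by omega) (by omega) (by omega), b3 (R + 3) (by omega),
          a2 (R + 3) (by omega), f3]
      · rw [p3, b3 (R + 4) (by omega), a2 (R + 4) (by omega), f4]
        omega
      · rw [p1, b3 (R + 5) (by omega), a2 (R + 5) (by omega), f5, hmj, range_add_one,
          filter_insert]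
        by_cases hA : A (M - (j + 1))
        · rw [if_pos (hacc.mpr hA), if_pos hA, card_insert_of_notMem (by simp)]
        · rw [if_neg (fun h => hA (hacc.mp h)), if_neg hA, Nat.add_zero]
      · intro i hi
        rw [p4 i (by omega) (by omega) (by omega), b3 i (by omega), a2 i (by omega), f6 i hi]
      · intro i
        by_cases h5 : i = R + 5
        · subst h5
          rw [p1, b3 (R + 5) (by omega), a2 (R + 5) (by omega), f5]
          refine lt_of_le_of_lt ?_ hMB
          have h7 : ((range (M - (j + 1))).filter A).card ≤ M - (j + 1) := by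
            simpa using card_filter_le (range (M - (j + 1))) A
          split <;> omega
        · by_cases h2 : i = R + 2
          · subst h2
            rw [p2]
            exact (Nat.div_le_self _ _).trans_lt (hv'B _)
          · by_cases h4 : i = R + 4
            · subst h4
              rw [p3]
              exact (Nat.sub_le _ _).trans_lt (hv'B _)
            · rw [p4 i h5 h2 h4]; exact hv'B i
  · refine ⟨le_rfl, e0, e1, ?_, e3, e4, ?_, fun i _ => rfl, hs, hg⟩
    · rw [e2, Nat.sub_self, Nat.mul_zero, pow_zero, Nat.div_one]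
    · rw [e5, Nat.sub_self]; simp

end Pool.Agent.Lib.MP_ff3ed7_lc.SQ
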