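import Pool.Agent.Lib.MP_ff3ed7_lc.SQ.SEng

/-!
# PROJECT SQ: the general program transformation with a sequential input head
-/

set_option autoImplicit false

open Finset

namespace Pool.Agent.Lib.MP_ff3ed7_lc.SQ

open Pool.Agent.Lib.MP_ff3ed7_lc.PLT

lemma NR_dbl (a b : ℕ) : NR (dbl a b) := ⟨trivial, trivial, trivial⟩

lemma NR_lgp (a b : ℕ) : NR (lgp a b) := ⟨trivial, trivial, trivial⟩

/-- The preparation of the engine. -/
theorem sprep (R : ℕ) (hR : 3 ≤ R) (c e : ℕ) (EY ER EM : Expr)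
    (fY fR fM : ℕ → ℕ → ℕ → ℕ → ℕ → ℕ)
    (hY : ∀ s, EY.val s = fY (s (R + 6)) (s (R + 7)) (s (R + 8)) (s (R + 9)) (s (R + 10)))
    (hRR : ∀ s, ER.val s = fR (s (R + 6)) (s (R + 7)) (s (R + 8)) (s (R + 9)) (s (R + 10)))
    (hM : ∀ s, EM.val s = fM (s (R + 6)) (s (R + 7)) (s (R + 8)) (s (R + 9)) (s (R + 10))) :
    ∃ (Q : Prog) (C : ℕ), NR Q ∧ 1 ≤ C ∧ ∀ (x : List Bool) (y r B k u Y RR M : ℕ),
      k = pl c x.length → u = pl e x.length → Y = fY y r k (2 ^ k) (2 ^ u) →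
      RR = fR y r k (2 ^ k) (2 ^ u) → M = fM y r k (2 ^ k) (2 ^ u) →
      1 ≤ B → k + 1 ≤ B → u + 1 ≤ B → x.length < 2 ^ B → y < 2 ^ B → r < 2 ^ B →
      ∃ (s : ℕ → ℕ) (d : ℕ), Run x Q (ini x.length y r) s d ∧ d ≤ C * (B * B) ∧ Bd s (C * B) ∧
        s R = x.length ∧ s (R + 1) = Y ∧ s (R + 2) = RR ∧ s (R + 3) = 2 ^ k ∧ s (R + 4) = M ∧
        s (R + 5) = 0 ∧ s (R + 6) = y ∧ s (R + 7) = r ∧ s (R + 8) = k ∧ s (R + 9) = 2 ^ k ∧
        s (R + 10) = 2 ^ u := by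
  let A1 : Prog := .seq (.set R (.reg 0)) (.seq (.set (R + 6) (.reg 1)) (.seq
    (.set (R + 7) (.reg 2)) (.set (R + 12) (.reg 0))))
  let A3 : Prog := .seq (.set (R + 8) (powE (.add (.reg (R + 13)) (.num 2)) c))
    (.set (R + 12) (.reg (R + 8)))
  let A5 : Prog := .set (R + 12) (powE (.add (.reg (R + 13)) (.num 2)) e)
  let A7 : Prog := .seq (.set (R + 1) EY) (.seq (.set (R + 2) ER) (.seq
    (.set (R + 3) (.reg (R + 9))) (.seq (.set (R + 4) EM) (.set (R + 5) (.num 0)))))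
  obtain ⟨K1, hK1, h1⟩ := Prog.cost_exec A1 ⟨trivial, trivial, trivial, trivial⟩
  obtain ⟨K2, hK2, h2⟩ := lgp_run (R + 12) (R + 13) (by omega)
  obtain ⟨K3, hK3, h3⟩ := Prog.cost_exec A3 ⟨trivial, trivial⟩
  obtain ⟨K4, hK4, h4⟩ := dbl_run (R + 12) (R + 9) (by omega)
  obtain ⟨K5, hK5, h5⟩ := Prog.cost_exec A5 trivial
  obtain ⟨K6, hK6, h6⟩ := dbl_run (R + 12) (R + 10) (by omega)
  obtain ⟨K7, hK7, h7⟩ := Prog.cost_exec A7 ⟨trivial, trivial, trivial, trivial, trivial⟩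
  obtain ⟨C3, hC3e⟩ : ∃ C3, C3 = K3 * K1 := ⟨_, rfl⟩
  obtain ⟨C5, hC5e⟩ : ∃ C5, C5 = K5 * C3 := ⟨_, rfl⟩
  obtain ⟨C7, hC7e⟩ : ∃ C7, C7 = K7 * C5 := ⟨_, rfl⟩
  have hC3 : 1 ≤ C3 := hC3e ▸ Nat.mul_pos hK3 hK1
  have hC5 : 1 ≤ C5 := hC5e ▸ Nat.mul_pos hK5 hC3
  have hC7 : 1 ≤ C7 := hC7e ▸ Nat.mul_pos hK7 hC5
  refine ⟨.seq A1 (.seq (lgp (R + 12) (R + 13)) (.seq A3 (.seq (dbl (R + 12) (R + 9))
    (.seq A5 (.seq (dbl (R + 12) (R + 10)) A7))))),
    K1 + K2 * K1 * K1 + K3 * K1 + K4 * C3 + K5 * C3 + K6 * C5 + K7 * C5 + C7,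
    ⟨⟨trivial, trivial, trivial, trivial⟩, NR_lgp _ _, ⟨trivial, trivial⟩, NR_dbl _ _, trivial,
      NR_dbl _ _, ⟨trivial, trivial, trivial, trivial, trivial⟩⟩, by omega, ?_⟩
  intro x y r B k u Y RR M hk hu hYv hRv hMv hB hkB huB hxB hyB hrB
  have mB : ∀ {a : ℕ}, 1 ≤ a → B ≤ a * B := fun ha => Nat.le_mul_of_pos_left B ha
  -- stage 1
  set s0 := ini x.length y r with hs0
  have b0 : Bd s0 B := by
    intro i
    rw [hs0]
    unfold ini
    split
    · exact hxB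
    · split
      · exact hyB
      · split
        · exact hrB
        · positivity
  obtain ⟨c1, b1⟩ := h1 x s0 B hB b0
  have r1 := Prog.LF.run (x := x) (p := A1) ⟨trivial, trivial, trivial, trivial⟩ s0
  have v1a : A1.exec x s0 R = x.length := by
    simp [A1, Prog.exec, Expr.val, Function.update_apply, hs0, ini]
  have v1b : A1.exec x s0 (R + 6) = y := by
    have : (1 : ℕ) ≠ R := by omega
    simp [A1, Prog.exec, Expr.val, Function.update_apply, hs0, ini, this]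
  have v1c : A1.exec x s0 (R + 7) = r := by
    have : (2 : ℕ) ≠ R := by omega
    have h : (2 : ℕ) ≠ R + 6 := by omega
    simp [A1, Prog.exec, Expr.val, Function.update_apply, hs0, ini, this]
  have v1d : A1.exec x s0 (R + 12) = x.length := by
    have : (0 : ℕ) ≠ R := by omega
    simp [A1, Prog.exec, Expr.val, Function.update_apply, hs0, ini, this]
  obtain ⟨s1, hs1⟩ : ∃ s1, s1 = A1.exec x s0 := ⟨_, rfl⟩
  rw [← hs1] at r1 v1a v1b v1c v1d b1
  -- stage 2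
  obtain ⟨s2, d2, r2, c2, v2, f2, b2⟩ := h2 x (K1 * B) s1 (by nlinarith) b1
  rw [v1d] at v2
  -- stage 3
  obtain ⟨c3, b3⟩ := h3 x s2 (K1 * B) (by nlinarith) b2
  have r3 := Prog.LF.run (x := x) (p := A3) ⟨trivial, trivial⟩ s2
  obtain ⟨s3, hs3⟩ : ∃ s3, s3 = A3.exec x s2 := ⟨_, rfl⟩
  rw [← hs3] at r3 b3
  have v3 : s3 (R + 8) = k := by
    rw [hk, pl]
    simp [hs3, A3, Prog.exec, powE_val, Expr.val, v2]
  have v3' : s3 (R + 12) = k := by
    rw [hk, pl]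
    simp [hs3, A3, Prog.exec, powE_val, Expr.val, v2]
  have f3 : ∀ i, i ≠ R + 8 → i ≠ R + 12 → s3 i = s2 i := by
    intro i g1 g2
    simp [hs3, A3, Prog.exec, g1, g2]
  -- stage 4
  have e3 : K3 * (K1 * B) = C3 * B := by rw [hC3e]; ring
  rw [e3] at b3
  obtain ⟨s4, d4, r4, c4, v4, -, f4, b4⟩ := h4 x k (C3 * B) s3 v3' (hkB.trans (mB hC3)) b3
  -- stage 5
  obtain ⟨c5, b5⟩ := h5 x s4 (C3 * B) (by nlinarith) b4
  have r5 := Prog.LF.run (x := x) (p := A5) trivial s4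
  obtain ⟨s5, hs5⟩ : ∃ s5, s5 = A5.exec x s4 := ⟨_, rfl⟩
  rw [← hs5] at r5 b5
  have v4' : s4 (R + 13) = Nat.log 2 x.length := by
    rw [f4 _ (by omega) (by omega), f3 _ (by omega) (by omega), v2]
  have v5 : s5 (R + 12) = u := by
    rw [hu, pl]
    simp [hs5, A5, Prog.exec, powE_val, Expr.val, v4']
  have f5 : ∀ i, i ≠ R + 12 → s5 i = s4 i := by
    intro i g1
    simp [hs5, A5, Prog.exec, g1]
  -- stage 6
  have e5 : K5 * (C3 * B) = C5 * B := by rw [hC5e]; ring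
  rw [e5] at b5
  obtain ⟨s6, d6, r6, c6, v6, -, f6, b6⟩ := h6 x u (C5 * B) s5 v5 (huB.trans (mB hC5)) b5
  -- the values
  have w6 : s6 (R + 6) = y := by
    rw [f6 _ (by omega) (by omega), f5 _ (by omega), f4 _ (by omega) (by omega),
      f3 _ (by omega) (by omega), f2 _ (by omega) (by omega), v1b]
  have w7 : s6 (R + 7) = r := by
    rw [f6 _ (by omega) (by omega), f5 _ (by omega), f4 _ (by omega) (by omega),
      f3 _ (by omega) (by omega), f2 _ (by omega) (by omega), v1c]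
  have w0 : s6 R = x.length := by
    rw [f6 _ (by omega) (by omega), f5 _ (by omega), f4 _ (by omega) (by omega),
      f3 _ (by omega) (by omega), f2 _ (by omega) (by omega), v1a]
  have w8 : s6 (R + 8) = k := by
    rw [f6 _ (by omega) (by omega), f5 _ (by omega), f4 _ (by omega) (by omega), v3]
  have w9 : s6 (R + 9) = 2 ^ k := by
    rw [f6 _ (by omega) (by omega), f5 _ (by omega), v4]
  -- stage 7
  obtain ⟨c7, b7⟩ := h7 x s6 (C5 * B) (by nlinarith) b6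
  have r7 := Prog.LF.run (x := x) (p := A7) ⟨trivial, trivial, trivial, trivial, trivial⟩ s6
  obtain ⟨s7, hs7⟩ : ∃ s7, s7 = A7.exec x s6 := ⟨_, rfl⟩
  rw [← hs7] at r7 b7
  have e7 : K7 * (C5 * B) = C7 * B := by rw [hC7e]; ring
  rw [e7] at b7
  have f7 : ∀ i, i ≠ R + 1 → i ≠ R + 2 → i ≠ R + 3 → i ≠ R + 4 → i ≠ R + 5 → s7 i = s6 i := by
    intro i g1 g2 g3 g4 g5
    simp [hs7, A7, Prog.exec, g1, g2, g3, g4, g5]
  have z1 : s7 (R + 1) = Y := by
    simp [hs7, A7, Prog.exec, hY, w6, w7, w8, w9, v6, hYv]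
  have z2 : s7 (R + 2) = RR := by
    simp [hs7, A7, Prog.exec, hRR, w6, w7, w8, w9, v6, hRv]
  have z3 : s7 (R + 3) = 2 ^ k := by
    simp [hs7, A7, Prog.exec, Expr.val, w9]
  have z4 : s7 (R + 4) = M := by
    simp [hs7, A7, Prog.exec, hM, w6, w7, w8, w9, v6, hMv]
  have z5 : s7 (R + 5) = 0 := by
    simp [hs7, A7, Prog.exec, Expr.val]
  have z0 : s7 R = x.length := by
    rw [f7 _ (by omega) (by omega) (by omega) (by omega) (by omega), w0]
  have z6 : s7 (R + 6) = y := by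
    rw [f7 _ (by omega) (by omega) (by omega) (by omega) (by omega), w6]
  have z7 : s7 (R + 7) = r := by
    rw [f7 _ (by omega) (by omega) (by omega) (by omega) (by omega), w7]
  have z8 : s7 (R + 8) = k := by
    rw [f7 _ (by omega) (by omega) (by omega) (by omega) (by omega), w8]
  have z9 : s7 (R + 9) = 2 ^ k := by
    rw [f7 _ (by omega) (by omega) (by omega) (by omega) (by omega), w9]
  have z10 : s7 (R + 10) = 2 ^ u := by
    rw [f7 _ (by omega) (by omega) (by omega) (by omega) (by omega), v6]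
  refine ⟨s7, _, Run.seq r1 (Run.seq r2 (Run.seq r3 (Run.seq r4 (Run.seq r5 (Run.seq r6 r7))))),
    ?_, ?_, z0, z1, z2, z3, z4, z5, z6, z7, z8, z9, z10⟩
  · obtain ⟨X, hX⟩ : ∃ X, X = B * B := ⟨_, rfl⟩
    have x1 : B ≤ X := hX ▸ Nat.le_mul_of_pos_left B hB
    rw [← hX]
    have t1 : A1.tim x s0 ≤ K1 * X := c1.trans (Nat.mul_le_mul_left _ x1)
    have t2 : d2 ≤ K2 * K1 * K1 * X := by
      refine c2.trans (le_of_eq ?_)
      rw [hX]; ring
    have t3 : A3.tim x s2 ≤ K3 * K1 * X := by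
      refine c3.trans ?_
      calc K3 * (K1 * B) = K3 * K1 * B := by ring
        _ ≤ _ := Nat.mul_le_mul_left _ x1
    have t4 : d4 ≤ K4 * C3 * X := by
      refine c4.trans ?_
      calc K4 * (C3 * B) * (k + 1) ≤ K4 * (C3 * B) * B := Nat.mul_le_mul_left _ hkB
        _ = K4 * C3 * X := by rw [hX]; ring
    have t5 : A5.tim x s4 ≤ K5 * C3 * X := by
      refine c5.trans ?_
      calc K5 * (C3 * B) = K5 * C3 * B := by ring
        _ ≤ _ := Nat.mul_le_mul_left _ x1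
    have t6 : d6 ≤ K6 * C5 * X := by
      refine c6.trans ?_
      calc K6 * (C5 * B) * (u + 1) ≤ K6 * (C5 * B) * B := Nat.mul_le_mul_left _ huB
        _ = K6 * C5 * X := by rw [hX]; ring
    have t7 : A7.tim x s6 ≤ K7 * C5 * X := by
      refine c7.trans ?_
      calc K7 * (C5 * B) = K7 * C5 * B := by ring
        _ ≤ _ := Nat.mul_le_mul_left _ x1
    calc A1.tim x s0 + (d2 + (A3.tim x s2 + (d4 + (A5.tim x s4 + (d6 + A7.tim x s6)))))
        ≤ K1 * X + (K2 * K1 * K1 * X + (K3 * K1 * X + (K4 * C3 * X + (K5 * C3 * X +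
          (K6 * C5 * X + K7 * C5 * X))))) := by gcongr
      _ ≤ K1 * X + (K2 * K1 * K1 * X + (K3 * K1 * X + (K4 * C3 * X + (K5 * C3 * X +
          (K6 * C5 * X + K7 * C5 * X))))) + C7 * X := Nat.le_add_right _ _
      _ = _ := by ring
  · intro i
    refine (b7 i).trans_le (Nat.pow_le_pow_right (by norm_num) (Nat.mul_le_mul_right _ ?_))
    exact Nat.le_add_left _ _

end Pool.Agent.Lib.MP_ff3ed7_lc.SQ
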