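import Pool.Agent.Lib.MP_ff3ed7_lc.SQ.Def
import Pool.Agent.Lib.MP_ff3ed7_lc.PLT.Frame
import Pool.Agent.Lib.MP_ff3ed7_lc.DefsCC
import Pool.Agent.Lib.MP_ff3ed7_lc.B.CCDefs

/-!
# PROJECT SQ: statements

Every `S_X` is to be proved as `theorem tX : S_X` in its own module
`Pool/Agent/Lib/MP_ff3ed7_lc/SQ/X.lean` (namespace `Pool.Agent.Lib.MP_ff3ed7_lc.SQ`), importing this
file.  Statements which are used are hypotheses, so all modules are independent.
-/

set_option autoImplicit false

open Finset

namespace Pool.Agent.Lib.MP_ff3ed7_lc.SQ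

open Pool.Agent.Lib.MP_ff3ed7_lc.PLT
open Pool.Agent.Lib.MP_ff3ed7_lc.B (HasSBPcc)

/-! ### Upper bounds: simulation of programs on virtual words -/

/-- Register `i` gets bit number `e` of the virtual word.  Registers `R, ..., R + 3` are used for
intermediate results, register `R + 4` contains the length of the virtual word and register `R + 5`
the number `2 ^ log_2 n / 2`. -/
def vread (R i : ℕ) (e : Expr) : Prog :=
  .seq (.set R e) (.ite (.sub (.reg (R + 4)) (.reg R))
    (.seq (.read (R + 1) (.add (.reg (R + 5)) (.mul (.num 2) (.reg R))))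
      (.seq (.read (R + 2) (.add (.add (.reg (R + 5)) (.mul (.num 2) (.reg R))) (.num 1)))
        (.seq (.read (R + 3) (.add (.mul (.num 2) (.reg R)) (.reg (R + 1))))
          (.set i (.mod (.add (.reg (R + 2)) (.reg (R + 3))) (.num 2))))))
    (.set i (.num 0)))

/-- The program which works on the virtual word. -/
def vir (R : ℕ) : Prog → Prog
  | .set i e => .set i e
  | .read i e => vread R i e
  | .seq p q => .seq (vir R p) (vir R q)
  | .ite e p q => .ite e (vir R p) (vir R q)
  | .loop e p => .loop e (vir R p)

/-- **Vir** (simulation).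

Induction on the run.  `set`, tests: the expressions have the same values and costs in `s` and in `u`
(`Expr.Lt.congr` of `PLT.Frame`), values are bounded by `2 ^ S` because the number of bits of a value is
at most its cost (`Expr.size_le_cost`) and `c ≤ S`.  `read i e`: let `j = e.val s`, `N = z.length`,
`m = vl N = 2 ^ log N / 8`, `o = 2 ^ log N / 2`.  If `j < m` the program reads the cells
`o + 2 j`, `o + 2 j + 1`, `2 j + (bit z (o + 2 j))`, all smaller than `N` (`2 m ≤ o`,
`o + 2 m ≤ 2 ^ log N ≤ N`), and computes the sum modulo `2`, which is `bit (vw z) j`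
(`List.getD_ofFn` or `List.getD_eq_getElem`, case distinction over the bits).  If `m ≤ j` the
result is `0 = bit (vw z) j`.  The cost: every number which occurs in the expressions is `j` (at most
`e.cost s` bits) or smaller than `2 ^ (log N + 3)`, every movement of the head covers at most `N`
cells: at most `K * (N + 1) * e.cost s` for a generous absolute constant `K`
(`log N ≤ N`, `1 ≤ e.cost s`). -/
def S_Vir : Prop := ∃ K : ℕ, 1 ≤ K ∧ ∀ (R : ℕ) (P : Prog) (z : List Bool) (s s' : ℕ → ℕ) (c : ℕ),
  P.Lt R → 8 ≤ z.length → Run (vw z) P s s' c → ∀ (S : ℕ) (u : ℕ → ℕ) (h : ℕ),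
    (∀ i < R, s i = u i) → u (R + 4) = vl z.length → u (R + 5) = 2 ^ Nat.log 2 z.length / 2 →
    PLT.Bd u S → c + Nat.log 2 z.length + 4 ≤ S → h ≤ z.length →
    ∃ u' h' c', SRun z S (vir R P) u h u' h' c' ∧ c' ≤ K * (z.length + 1) * c ∧
      (∀ i < R, s' i = u' i) ∧ u' (R + 4) = u (R + 4) ∧ u' (R + 5) = u (R + 5) ∧ PLT.Bd u' S ∧
      h' ≤ z.length

/-- **Up** (upper bounds for the virtual language).

Let `P` be the program for `L`, `P.Lt R`, `3 ≤ R` (`Prog.exists_lt`).  The new program: if the length
`N` is smaller than `8` it puts `0` into register `0`; otherwise it computes `T = 2 ^ log N` in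
register `R + 4` (`T := 1`; while `N + 1 - 2 T ≠ 0` do `T := 2 T`; at most `log N` rounds, each of cost
`O(log N)`, so `O((log N + 1) ^ 2) = O(N + 1)` in total), then register `R + 5` gets `T / 2`, register
`R + 4` gets `T / 8`, register `0` gets the content of register `R + 4`, and `vir R P` is executed
(`S_Vir`; the state agrees with `ini m y r` below `R`, `m = vl N = (vw z).length`, and
`log m + 3 = log N`, so `κ (log N)` is the `k` of the input `vw z`).  Register `0` has the same
content at the end, so `Acc P' z y r ↔ Acc P (vw z) y r` (a sequential run is a run; runs are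
deterministic, `Run.det` of `PLT.Lang2`).  For `N < 8` nothing is accepted, `pr _ _ = 0`. -/
def S_Up : Prop := S_Vir → ∀ (L : Set (List Bool)) (κ υ t : ℕ → ℕ), Monotone t → ∃ C : ℕ,
  (L ∈ AMt (fun m => κ (Nat.log 2 m + 3)) t →
    vlang L ∈ AMs (fun n => κ (Nat.log 2 n)) (fun n => C * (n + 1) * (t n + 1))
      (fun n => t n + κ (Nat.log 2 n) + Nat.log 2 n + 4)) ∧
  (L ∈ SBPt (fun m => κ (Nat.log 2 m + 3)) t (fun m => υ (Nat.log 2 m + 3)) →
    vlang L ∈ SBPs (fun n => κ (Nat.log 2 n)) (fun n => C * (n + 1) * (t n + 1))
      (fun n => t n + κ (Nat.log 2 n) + Nat.log 2 n + 4) (fun n => υ (Nat.log 2 n)))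

/-! ### From programs to machines -/

/-- **Sml** (programs are sequential machines).

Small steps: a configuration is a list `l` of programs (what remains to be done) and the registers;
`[]`: stop, the answer is `true` iff register `0` contains `1`; `set i e :: l`: jump to `l` with the
changed register; `read i e :: l`: visit the cell `min (e.val s) N`, the symbol (`Bool`, blank =
`false`) is not changed, register `i` gets `0` or `1`, continue with `l`; `seq p q :: l`: jump to
`p :: q :: l`; `ite e p q :: l`: jump to `p :: l` or `q :: l`; `loop e p :: l`: jump to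
`p :: loop e p :: l` or `l`.  The lists which occur are in a finite set of lists which depends only on
`P` (define it by recursion: `conts (set i e) = {[set i e]}`,
`conts (seq p q) = {[seq p q]} ∪ {l ++ [q] | l ∈ conts p} ∪ conts q ∪ {[]}` and so on; or: all
lists of length at most `depth P + 1` of subprograms of `P`), the registers are
`R` numbers smaller than `2 ^ S` (`P.Lt R`), so `Q = {l // l ∈ conts} × (Fin R → Fin (2 ^ S))` has
at most `2 ^ (K * (S + 1))` elements.  A number which does not fit: stop with `false` (does not occur on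
the runs).  Lemma (induction on `SRun`): if `SRun (word x) S p s h s' h' c` then, with the remaining
list `p :: l`, after finitely many steps the machine has the remaining list `l`, the registers
`s'`, the head on `h'`, and the distance covered is at most `c`.  At the end the machine stops, so the
distance never exceeds `c ≤ t` (it is monotone in time), and the machine accepts iff
`s' 0 = 1` iff `Acc P (word x) y r` (`Run.det`). -/
def S_Sml : Prop := ∀ P : Prog, ∃ K : ℕ, ∀ S : ℕ, ∃ (Q : Type) (_ : Fintype Q),
  Fintype.card Q ≤ 2 ^ (K * (S + 1)) ∧ ∀ N y r t : ℕ,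
    (∀ x : Fin N → Bool, SStops P (word x) y r t S) →
    ∃ M : SM Q Bool, (∀ (x : Fin N → Bool) T, (M.run (M.tp x) T).mot ≤ t) ∧
      ∀ x : Fin N → Bool, M.Accτ (M.tp x) ↔ Acc P (word x) y r

/-! ### Crossings -/

variable {Q Γ : Type}

open Classical in
/-- The tape which agrees with `a` on the cells in `D` and with `b` on the other cells. -/
noncomputable def glue (D : Set ℕ) (a b : ℕ → Γ) (j : ℕ) : Γ := if j ∈ D then a j else b j

open Classical in
/-- The number of moves between `D` and its complement in the first `T` steps. -/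
noncomputable def crs (M : SM Q Γ) (D : Set ℕ) : Cfg Q Γ → ℕ → ℕ
  | _, 0 => 0
  | C, T + 1 => (match M.act C.q with
      | .visit j _ => if (C.h ∈ D ↔ j ∈ D) then 0 else 1
      | _ => 0) + crs M D (M.step C) T

/-- **Prt** (protocols from machines).

Claim: for all `b`, all `X, Y, D`, every state `q` and all `A`, `Bt` there is a protocol `P` of cost
`(b + 1) * (s + 1)` such that for all `x`, `y` and all `h ∈ D`, with
`C = ⟨q, h, glue D (A x) (Bt y), 0⟩`: `P.eval x y = true` implies that the machine started in `C`
accepts; and if it accepts and `crs M D C T ≤ b` for all `T` then `P.eval x y = true`.  Induction on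
`b`.  The first player runs the machine on the tape `A x` from the state `q` until the first time `T₁`
at which the action is `stop` or `visit j _` with `j ∉ D` (until then the real machine does the same:
the tapes are glued, the second part is not touched); he sends the state `q' : Q` at this time, or
`none` if there is no such time (`Option Q` has at most `2 ^ (s + 1)` elements: `s + 1` bits).
`none`: answer `false` (the real machine does not stop either).  Action `stop b`: answer `b`.  Action
`visit j _`, `j ∉ D`: if `b = 0` answer `false` (there is a crossing); otherwise use the induction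
hypothesis with the players exchanged, `Dᶜ`, the state `q'` and the new tape of the first player
(a function of `x`), with the head at `j ∈ Dᶜ` instead of its real position `h' ∈ D`: this changes the
distance (which is irrelevant; `crs` and acceptance do not depend on `mot`) and reduces the number of
crossings by one.  (Exchange of the players of a `Prot`: a simple recursion; sending a number
smaller than `2 ^ k` bit by bit: recursion on `k`.)  The theorem: `b = B` if `0 ∈ D`.  If
`0 ∉ D` use the claim with the players exchanged and `Dᶜ`. -/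
def S_Prt : Prop := ∀ (X Y Q Γ : Type) (_ : Fintype Q) (s B : ℕ) (D : Set ℕ),
  Fintype.card Q ≤ 2 ^ s → ∀ (M : SM Q Γ) (A : X → ℕ → Γ) (Bt : Y → ℕ → Γ),
    ∃ P : Prot X Y, P.CostLE ((B + 1) * (s + 1)) ∧ ∀ x y,
      (P.eval x y = true → M.Accτ (glue D (A x) (Bt y))) ∧
      (M.Accτ (glue D (A x) (Bt y)) →
        (∀ T, crs M D ⟨M.start, 0, glue D (A x) (Bt y), 0⟩ T ≤ B) → P.eval x y = true)

/-- **Crs** (counting the crossings).

Let `D c = {j | j < c}`.  For one step: if the head moves from `h` to `j` it crosses exactly the cuts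
`c` with `min h j < c ≤ max h j`, so the sum over the cuts `a ≤ c < a + n` of the crossings is at most
`|j - h|`.  Induction on `T` (for all configurations): the sum over the cuts of
`crs M (D c) C T` is at most `(M.step^[T] C).mot - C.mot`.  If `c` is a bad cut, that is
`B < crs M (D c) C T` for some `T`, the same holds for all larger `T` (`crs` is monotone in `T`);
take `T` large enough for all bad cuts in the interval: (number of bad cuts) * `(B + 1) ≤ t`. -/
def S_Crs : Prop := ∀ (Q Γ : Type) (M : SM Q Γ) (τ : ℕ → Γ) (t a n B : ℕ),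
  (∀ T, (M.run τ T).mot ≤ t) →
  Nat.card {c : Fin n // ∃ T, B < crs M {j | j < a + c.1} ⟨M.start, 0, τ, 0⟩ T} * (B + 1) ≤ t

/-- **Avg** (the random cut).

The coins are `ρ : Fin r → Bool` and a cut `c = a + v`, `v < 2 ^ k` given by `k` further coins
(`cd k` of `PLT.Lang3`).  The protocol is `S_Prt` for the machine `M ρ`, `D = {j | j < c}` and
`B = 100 * t / 2 ^ k`.  If it accepts, the machine accepts: so the probability is at most the
probability for the machine.  If the machine accepts with the coins `ρ`, the protocol accepts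
for all cuts which are not bad, and by `S_Crs` at most `t / (B + 1) ≤ 2 ^ k / 100` cuts are bad (for
every `ρ`, `x`, `y`).  `prob` of a pair of coin strings: the average over the first of the `prob` over
the second (`Fin.appendEquiv`, or `Fin.append`; see also `prob_mix` in `B/CC.lean`). -/
def S_Avg : Prop := S_Prt → S_Crs → ∀ (X Y Q Γ : Type) (_ : Fintype Q) (s t a k r : ℕ),
  Fintype.card Q ≤ 2 ^ s → ∀ (M : (Fin r → Bool) → SM Q Γ) (A : (Fin r → Bool) → X → ℕ → Γ)
    (Bt : (Fin r → Bool) → Y → ℕ → Γ) (τ : (Fin r → Bool) → X → Y → ℕ → Γ),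
    (∀ ρ x y c, a ≤ c → c < a + 2 ^ k → glue {j | j < c} (A ρ x) (Bt ρ y) = τ ρ x y) →
    (∀ ρ x y T, ((M ρ).run (τ ρ x y) T).mot ≤ t) →
    ∃ P : (Fin (r + k) → Bool) → Prot X Y,
      (∀ ρ, (P ρ).CostLE ((100 * t / 2 ^ k + 1) * (s + 1))) ∧ ∀ x y,
        prob (r + k) (fun ρ => (P ρ).eval x y = true) ≤ prob r (fun ρ => (M ρ).Accτ (τ ρ x y)) ∧
        99 / 100 * prob r (fun ρ => (M ρ).Accτ (τ ρ x y)) ≤
          prob (r + k) (fun ρ => (P ρ).eval x y = true)

/-- **Mj** (amplification of protocols).

(1) Run the protocol three times with independent coins and take the majority: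
`0.66 ^ 2 * (3 - 2 * 0.66) ≥ 2 / 3`, `(1 / 3) ^ 2 * (3 - 2 / 3) ≤ 1 / 3` (and `q ^ 2 * (3 - 2 q)` is
increasing on `[0, 1]`).  (2) Run it twice and accept if both runs accept:
`(0.99 * 2) ^ 2 ≥ 2`.  Sequential composition of two protocols `P`, `k : Bool → Prot X Y`
(replace every leaf `b` of `P` by `k b`): the cost is at most the sum.  Independence: `prob` on
`Fin (r + r) → Bool` of a product event is the product. -/
def S_Mj : Prop := (∀ (X Y : Type) (F : X → Y → Bool) (p c r : ℕ)
    (P : (Fin p → Bool) → (Fin r → Bool) → Prot X Y), (∀ m ρ, (P m ρ).CostLE c) →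
    (∀ x y, F x y = true → ∃ m, 33 / 50 ≤ prob r fun ρ => (P m ρ).eval x y = true) →
    (∀ x y, F x y = false → ∀ m, prob r (fun ρ => (P m ρ).eval x y = true) ≤ 1 / 3) →
    HasMAcc F p (3 * c)) ∧
  ∀ (X Y : Type) (F : X → Y → Bool) (u c r : ℕ) (P : (Fin r → Bool) → Prot X Y),
    (∀ ρ, (P ρ).CostLE c) →
    (∀ x y, F x y = true → 99 / 100 * (2 * (1 / 2) ^ u) ≤
      prob r fun ρ => (P ρ).eval x y = true) →
    (∀ x y, F x y = false → prob r (fun ρ => (P ρ).eval x y = true) ≤ (1 / 2) ^ u) →
    HasSBPcc F (r + r) (2 * u) (2 * c)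

/-- **Red** (lower bounds for machines from lower bounds for protocols).

Let `T = 2 ^ log N`, `m = vl N = T / 8`, `o = T / 2`.  To `x, y : Fin m → Bool × Bool` belongs the
input `z` of length `N` with `z (2 i) = (x i).1`, `z (2 i + 1) = (x i).2`, `z (o + 2 i) = (y i).1`,
`z (o + 2 i + 1) = (y i).2` and `false` everywhere else; its virtual word is `sel x y`, so
`slice (vlang L) N z = lift (slice L m) x y`.  The cells from `T / 4 = 2 m` to `T / 2 = o` are the
padding: `S_Avg` with `a = 2 ^ (log N - 2)`, `k = log N - 2` (for every message of Merlin), where `A`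
is the tape of the input which belongs to `x` and `y = false` and `Bt` the tape of the input which
belongs to `x = false` and `y`: the glued tape is the tape of `z` for all cuts `2 m ≤ c ≤ o`.
Then `S_Mj`: `99 / 100 * (2 / 3) = 33 / 50`. -/
def S_Red : Prop := S_Prt → S_Crs → S_Avg → S_Mj → ∀ (L : Set (List Bool)) (N s t : ℕ), 8 ≤ N →
  (∀ p, HasMAseq (slice (vlang L) N) p s t → HasMAcc (lift (slice L (vl N))) p
    (3 * ((100 * t / 2 ^ (Nat.log 2 N - 2) + 1) * (s + 1)))) ∧
  ∀ u, HasSBPseq (slice (vlang L) N) u s t → ∃ r, HasSBPcc (lift (slice L (vl N))) r (2 * u)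
    (2 * ((100 * t / 2 ^ (Nat.log 2 N - 2) + 1) * (s + 1)))

end Pool.Agent.Lib.MP_ff3ed7_lc.SQ
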