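import Pool.Agent.Lib.MP_ff3ed7_lc.SQ.Spec

/-!
# PROJECT SQ: statements for `PP`
-/

set_option autoImplicit false

open Finset

namespace Pool.Agent.Lib.MP_ff3ed7_lc.SQ

open Pool.Agent.Lib.MP_ff3ed7_lc.PLT

/-- Probabilistic time with unbounded error. -/
def PPs (k t S : ℕ → ℕ) : Set (Set (List Bool)) :=
  {L | ∃ P, IsSVer P k t S ∧ ∀ x : List Bool,
    (x ∈ L ↔ 1 / 2 < pr (k x.length) fun r => Acc P x 0 r)}

/-- `PP` with quasilinear time and polylogarithmic memory (and number of coins). -/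
def PPql : Set (Set (List Bool)) := {L | ∃ c d e, L ∈ PPs (pl c) (ql d) (pl e)}

/-- `f` has a `PP` protocol with the gap `2 ^ (-p)` and sequential machines with `2 ^ s` memory
states whose head covers a distance of at most `t`. -/
def HasPPseq {N : ℕ} (f : (Fin N → Bool) → Bool) (p s t : ℕ) : Prop :=
  ∃ (r : ℕ) (Q Γ : Type) (_ : Fintype Q) (M : (Fin r → Bool) → SM Q Γ),
    Fintype.card Q ≤ 2 ^ s ∧ (∀ ρ (x : Fin N → Bool) T, ((M ρ).run ((M ρ).tp x) T).mot ≤ t) ∧
    (∀ x, f x = true → 1 / 2 + (1 / 2) ^ p ≤ prob r fun ρ => (M ρ).Accτ ((M ρ).tp x)) ∧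
    (∀ x, f x = false → prob r (fun ρ => (M ρ).Accτ ((M ρ).tp x)) ≤ 1 / 2)

/-- **AvP** (several random cuts).

As `S_Avg` (proof in `SQ/Avg.lean`), but with `n` independent random cuts (`k` coins for each of them)
for the same coins `ρ` of the machine: run the `n` protocols one after the other and accept if at least
one of them accepts.  If the machine does not accept no protocol accepts.  If it accepts, the
protocol for a cut which is not bad accepts, and at most `2 ^ k / 100` cuts are bad: for every `ρ` with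
an accepting machine the fraction of the `n`-tuples of cuts which are all bad is at most
`(1 / 100) ^ n`.  (Induction on `n`: `prob` on `Fin (r + (n + 1) * k) → Bool`, or first the statement
for fixed `ρ` with the coins `Fin (n * k) → Bool`, and then the average over `ρ`.) -/
def S_AvP : Prop := S_Prt → S_Crs → ∀ (X Y Q Γ : Type) (_ : Fintype Q) (s t a k r n : ℕ),
  Fintype.card Q ≤ 2 ^ s → ∀ (M : (Fin r → Bool) → SM Q Γ) (A : (Fin r → Bool) → X → ℕ → Γ)
    (Bt : (Fin r → Bool) → Y → ℕ → Γ) (τ : (Fin r → Bool) → X → Y → ℕ → Γ),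
    (∀ ρ x y c, a ≤ c → c < a + 2 ^ k → glue {j | j < c} (A ρ x) (Bt ρ y) = τ ρ x y) →
    (∀ ρ x y T, ((M ρ).run (τ ρ x y) T).mot ≤ t) →
    ∃ (r' : ℕ) (P : (Fin r' → Bool) → Prot X Y),
      (∀ ρ, (P ρ).CostLE (n * ((100 * t / 2 ^ k + 1) * (s + 1)))) ∧ ∀ x y,
        prob r' (fun ρ => (P ρ).eval x y = true) ≤ prob r (fun ρ => (M ρ).Accτ (τ ρ x y)) ∧
        (1 - (1 / 100) ^ n) * prob r (fun ρ => (M ρ).Accτ (τ ρ x y)) ≤
          prob r' (fun ρ => (P ρ).eval x y = true)

/-- **RdP** (lower bounds for `PP` machines from lower bounds for protocols).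

As `S_Red` (proof in `SQ/Red.lean`), with `S_AvP`, `n = p + 1`: the acceptance probability is at most
`1`, so it decreases by at most `(1 / 100) ^ (p + 1) ≤ (1 / 2) ^ (p + 1)`, and
`1 / 2 + (1 / 2) ^ p - (1 / 2) ^ (p + 1) = 1 / 2 + (1 / 2) ^ (p + 1)`. -/
def S_RdP : Prop := S_Prt → S_Crs → S_AvP → ∀ (L : Set (List Bool)) (N p s t : ℕ), 8 ≤ N →
  HasPPseq (slice (vlang L) N) p s t → HasPPcc (lift (slice L (vl N))) (p + 1)
    ((p + 1) * ((100 * t / 2 ^ (Nat.log 2 N - 2) + 1) * (s + 1)))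

end Pool.Agent.Lib.MP_ff3ed7_lc.SQ
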