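import Pool.Agent.Lib.MP_ff3ed7_lc.SQ.TDef
import Pool.Agent.Lib.MP_ff3ed7_lc.SQ.SGen2

/-!
# PROJECT SQ2: runs of one-tape programs, basic facts
-/

set_option autoImplicit false

open Finset

namespace Pool.Agent.Lib.MP_ff3ed7_lc.SQ

open Pool.Agent.Lib.MP_ff3ed7_lc.PLT

/-- All registers of the program are smaller than `R`. -/
def TProg.Lt (R : ℕ) : TProg → Prop
  | .set i e => i < R ∧ e.Lt R
  | .read i e => i < R ∧ e.Lt R
  | .write e f => e.Lt R ∧ f.Lt R
  | .seq p q => p.Lt R ∧ q.Lt R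
  | .ite e p q => e.Lt R ∧ p.Lt R ∧ q.Lt R
  | .loop e p => e.Lt R ∧ p.Lt R

lemma TProg.Lt.mono {R R' : ℕ} (h : R ≤ R') {p : TProg} (hp : p.Lt R) : p.Lt R' := by
  induction p with
  | set i e => exact ⟨by have := hp.1; omega, hp.2.mono h⟩
  | read i e => exact ⟨by have := hp.1; omega, hp.2.mono h⟩
  | write e f => exact ⟨hp.1.mono h, hp.2.mono h⟩
  | seq p q ihp ihq => exact ⟨ihp hp.1, ihq hp.2⟩
  | ite e p q ihp ihq => exact ⟨hp.1.mono h, ihp hp.2.1, ihq hp.2.2⟩
  | loop e p ih => exact ⟨hp.1.mono h, ih hp.2⟩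

lemma TProg.exists_lt (p : TProg) : ∃ R, 3 ≤ R ∧ p.Lt R := by
  suffices h : ∃ R, p.Lt R by
    obtain ⟨R, hR⟩ := h
    exact ⟨max 3 R, le_max_left _ _, hR.mono (le_max_right _ _)⟩
  induction p with
  | set i e =>
    obtain ⟨R, hR⟩ := e.exists_lt
    exact ⟨max (i + 1) R, by omega, hR.mono (le_max_right _ _)⟩
  | read i e =>
    obtain ⟨R, hR⟩ := e.exists_lt
    exact ⟨max (i + 1) R, by omega, hR.mono (le_max_right _ _)⟩
  | write e f =>
    obtain ⟨R, hR⟩ := e.exists_lt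
    obtain ⟨R', hR'⟩ := f.exists_lt
    exact ⟨max R R', hR.mono (le_max_left _ _), hR'.mono (le_max_right _ _)⟩
  | seq p q ihp ihq =>
    obtain ⟨R, hR⟩ := ihp
    obtain ⟨R', hR'⟩ := ihq
    exact ⟨max R R', hR.mono (le_max_left _ _), hR'.mono (le_max_right _ _)⟩
  | ite e p q ihp ihq =>
    obtain ⟨R, hR⟩ := ihp
    obtain ⟨R', hR'⟩ := ihq
    obtain ⟨R'', hR''⟩ := e.exists_lt
    exact ⟨max R'' (max R R'), hR''.mono (le_max_left _ _), hR.mono (by omega), hR'.mono (by omega)⟩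
  | loop e p ih =>
    obtain ⟨R, hR⟩ := ih
    obtain ⟨R'', hR''⟩ := e.exists_lt
    exact ⟨max R'' R, hR''.mono (le_max_left _ _), hR.mono (le_max_right _ _)⟩

/-- More memory. -/
theorem TRun.mem_mono {S : ℕ} {p : TProg} {s s' τ τ' : ℕ → ℕ} {h h' c : ℕ}
    (a : TRun S p s τ h s' τ' h' c) {S' : ℕ} (hS' : S ≤ S') : TRun S' p s τ h s' τ' h' c := by
  have hp : 2 ^ S ≤ 2 ^ S' := Nat.pow_le_pow_right (by norm_num) hS'
  induction a with
  | set i e s τ h hS => exact TRun.set i e s τ h (hS.trans_le hp)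
  | read i e s τ h he hS => exact TRun.read i e s τ h (he.trans_le hp) (hS.trans_le hp)
  | write e f s τ h he hS => exact TRun.write e f s τ h (he.trans_le hp) (hS.trans_le hp)
  | seq a b iha ihb => exact TRun.seq iha ihb
  | iteT he a ih => exact TRun.iteT he ih
  | iteF he a ih => exact TRun.iteF he ih
  | loopT he a b iha ihb => exact TRun.loopT he iha ihb
  | loopF he => exact TRun.loopF he

/-- The result of a run is unique. -/
theorem TRun.det {S S' : ℕ} {p : TProg} {s τ s₁ τ₁ s₂ τ₂ : ℕ → ℕ} {h h₁ c₁ h₂ c₂ : ℕ}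
    (a₁ : TRun S p s τ h s₁ τ₁ h₁ c₁) (a₂ : TRun S' p s τ h s₂ τ₂ h₂ c₂) :
    s₁ = s₂ ∧ τ₁ = τ₂ ∧ h₁ = h₂ ∧ c₁ = c₂ := by
  induction a₁ generalizing s₂ τ₂ h₂ c₂ with
  | set i e s τ h hS => cases a₂; exact ⟨rfl, rfl, rfl, rfl⟩
  | read i e s τ h he hS => cases a₂; exact ⟨rfl, rfl, rfl, rfl⟩
  | write e f s τ h he hS => cases a₂; exact ⟨rfl, rfl, rfl, rfl⟩
  | seq a b iha ihb =>
    cases a₂ with
    | seq a' b' =>
      obtain ⟨rfl, rfl, rfl, rfl⟩ := iha a'
      obtain ⟨rfl, rfl, rfl, rfl⟩ := ihb b'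
      exact ⟨rfl, rfl, rfl, rfl⟩
  | iteT he a ih =>
    cases a₂ with
    | iteT he' a' =>
      obtain ⟨rfl, rfl, rfl, rfl⟩ := ih a'
      exact ⟨rfl, rfl, rfl, rfl⟩
    | iteF he' a' => exact absurd he' he
  | iteF he a ih =>
    cases a₂ with
    | iteT he' a' => exact absurd he he'
    | iteF he' a' =>
      obtain ⟨rfl, rfl, rfl, rfl⟩ := ih a'
      exact ⟨rfl, rfl, rfl, rfl⟩
  | loopT he a b iha ihb =>
    cases a₂ with
    | loopT he' a' b' =>
      obtain ⟨rfl, rfl, rfl, rfl⟩ := iha a'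
      obtain ⟨rfl, rfl, rfl, rfl⟩ := ihb b'
      exact ⟨rfl, rfl, rfl, rfl⟩
    | loopF he' => exact absurd he' he
  | loopF he =>
    cases a₂ with
    | loopT he' a' b' => exact absurd he he'
    | loopF he' => exact ⟨rfl, rfl, rfl, rfl⟩

/-- The registers after a run. -/
theorem TRun.bd {S : ℕ} {p : TProg} {s s' τ τ' : ℕ → ℕ} {h h' c : ℕ}
    (a : TRun S p s τ h s' τ' h' c) {B : ℕ} (hSB : S ≤ B) : PLT.Bd s B → PLT.Bd s' B := by
  have hp : 2 ^ S ≤ 2 ^ B := Nat.pow_le_pow_right (by norm_num) hSB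
  have key : ∀ {s : ℕ → ℕ} {i v : ℕ}, v < 2 ^ S → PLT.Bd s B →
      PLT.Bd (Function.update s i v) B := by
    intro s i v hv hs j
    by_cases hji : j = i
    · subst hji; rw [Function.update_self]; exact hv.trans_le hp
    · rw [Function.update_of_ne hji]; exact hs j
  induction a with
  | set i e s τ h hS => exact key hS
  | read i e s τ h he hS => exact key hS
  | write e f s τ h he hS => exact id
  | seq a b iha ihb => exact fun h => ihb (iha h)
  | iteT he a ih => exact ih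
  | iteF he a ih => exact ih
  | loopT he a b iha ihb => exact fun h => ihb (iha h)
  | loopF he => exact id

/-- **Frame lemma.** -/
theorem TRun.frame {S R : ℕ} {p : TProg} {s s' τ τ' : ℕ → ℕ} {h h' c : ℕ}
    (a : TRun S p s τ h s' τ' h' c) :
    p.Lt R → ∀ u : ℕ → ℕ, (∀ i < R, s i = u i) → ∃ u', TRun S p u τ h u' τ' h' c ∧
      (∀ i < R, s' i = u' i) ∧ ∀ i, R ≤ i → u' i = u i := by
  induction a with
  | set i e s τ h hS =>
    intro hp u hu
    obtain ⟨h1, h2⟩ := hp.2.congr hu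
    rw [h1] at hS
    rw [h1, h2]
    refine ⟨_, TRun.set i e u τ h hS, fun j hj => ?_, fun j hj => ?_⟩
    · by_cases hji : j = i
      · subst hji; simp
      · simp [Function.update_of_ne hji, hu j hj]
    · have : j ≠ i := by have := hp.1; omega
      simp [Function.update_of_ne this]
  | read i e s τ h he hS =>
    intro hp u hu
    obtain ⟨h1, h2⟩ := hp.2.congr hu
    rw [h1] at he hS
    rw [h1, h2]
    refine ⟨_, TRun.read i e u τ h he hS, fun j hj => ?_, fun j hj => ?_⟩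
    · by_cases hji : j = i
      · subst hji; simp
      · simp [Function.update_of_ne hji, hu j hj]
    · have : j ≠ i := by have := hp.1; omega
      simp [Function.update_of_ne this]
  | write e f s τ h he hS =>
    intro hp u hu
    obtain ⟨h1, h2⟩ := hp.1.congr hu
    obtain ⟨h3, h4⟩ := hp.2.congr hu
    rw [h1] at he
    rw [h3] at hS
    rw [h1, h2, h3, h4]
    exact ⟨_, TRun.write e f u τ h he hS, hu, fun _ _ => rfl⟩
  | seq a b iha ihb =>
    intro hp u hu
    obtain ⟨u', a1, a2, a3⟩ := iha hp.1 u hu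
    obtain ⟨u'', b1, b2, b3⟩ := ihb hp.2 u' a2
    exact ⟨u'', TRun.seq a1 b1, b2, fun i hi => (b3 i hi).trans (a3 i hi)⟩
  | iteT he a ih =>
    intro hp u hu
    obtain ⟨h1, h2⟩ := hp.1.congr hu
    obtain ⟨u', a1, a2, a3⟩ := ih hp.2.1 u hu
    rw [h2]
    exact ⟨u', TRun.iteT (by rwa [← h1]) a1, a2, a3⟩
  | iteF he a ih =>
    intro hp u hu
    obtain ⟨h1, h2⟩ := hp.1.congr hu
    obtain ⟨u', a1, a2, a3⟩ := ih hp.2.2 u hu
    rw [h2]
    exact ⟨u', TRun.iteF (by rwa [← h1]) a1, a2, a3⟩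
  | loopT he a b iha ihb =>
    intro hp u hu
    obtain ⟨h1, h2⟩ := hp.1.congr hu
    obtain ⟨u', a1, a2, a3⟩ := iha hp.2 u hu
    obtain ⟨u'', b1, b2, b3⟩ := ihb hp u' a2
    rw [h2]
    exact ⟨u'', TRun.loopT (by rwa [← h1]) a1 b1, b2, fun i hi => (b3 i hi).trans (a3 i hi)⟩
  | loopF he =>
    intro hp u hu
    obtain ⟨h1, h2⟩ := hp.1.congr hu
    rw [h2]
    exact ⟨u, TRun.loopF (by rwa [← h1]), hu, fun i _ => rfl⟩

/-- The program, for the other kind of programs (for programs that do not read the input). -/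
def up : Prog → TProg
  | .set i e => .set i e
  | .read i e => .read i e
  | .seq p q => .seq (up p) (up q)
  | .ite e p q => .ite e (up p) (up q)
  | .loop e p => .loop e (up p)

/-- A run of a program that does not use the tape. -/
theorem tlift {x : List Bool} {p : Prog} {s s' : ℕ → ℕ} {c : ℕ} (a : Run x p s s' c) :
    NR p → ∀ S, c ≤ S → ∀ (τ : ℕ → ℕ) h, TRun S (up p) s τ h s' τ h c := by
  induction a with
  | set i e s =>
    intro _ S hS τ h
    exact TRun.set i e s τ h (Nat.size_le.mp ((e.size_le_cost s).trans hS))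
  | read i e s => intro hn; exact hn.elim
  | seq a b iha ihb =>
    intro hn S hS τ h
    exact TRun.seq (iha hn.1 S (by omega) τ h) (ihb hn.2 S (by omega) τ h)
  | iteT he a ih => intro hn S hS τ h; exact TRun.iteT he (ih hn.1 S (by omega) τ h)
  | iteF he a ih => intro hn S hS τ h; exact TRun.iteF he (ih hn.2 S (by omega) τ h)
  | loopT he a b iha ihb =>
    intro hn S hS τ h
    exact TRun.loopT he (iha hn S (by omega) τ h) (ihb hn S (by omega) τ h)
  | loopF he => intro hn S hS τ h; exact TRun.loopF he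

/-- A loop. -/
theorem tloop_of {S : ℕ} {e : Expr} {p : TProg} {I : ℕ → (ℕ → ℕ) → (ℕ → ℕ) → ℕ → Prop} {C : ℕ}
    (hend : ∀ s τ h, I 0 s τ h → e.val s = 0 ∧ e.cost s ≤ C)
    (hstep : ∀ k s τ h, I (k + 1) s τ h →
      e.val s ≠ 0 ∧ ∃ s' τ' h' c, TRun S p s τ h s' τ' h' c ∧ e.cost s + c ≤ C ∧ I k s' τ' h') :
    ∀ k s τ h, I k s τ h →
      ∃ s' τ' h' c, TRun S (.loop e p) s τ h s' τ' h' c ∧ c ≤ C * (k + 1) ∧ I 0 s' τ' h' := by
  intro k
  induction k with
  | zero =>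
    intro s τ h hs
    obtain ⟨h1, h2⟩ := hend s τ h hs
    exact ⟨s, τ, h, _, TRun.loopF h1, by omega, hs⟩
  | succ k ih =>
    intro s τ h hs
    obtain ⟨h1, s', τ', h', c, h2, h3, h4⟩ := hstep k s τ h hs
    obtain ⟨s'', τ'', h'', c', h5, h6, h7⟩ := ih s' τ' h' h4
    refine ⟨s'', τ'', h'', _, TRun.loopT h1 h2 h5, ?_, h7⟩
    have : C * (k + 1 + 1) = C * (k + 1) + C := by ring
    omega

lemma TProg.Al.mono {K K' : ℕ} (h : K ≤ K') {p : TProg} (hp : p.Al K) : p.Al K' := by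
  induction p with
  | set i e => trivial
  | read i e => trivial
  | write e f => exact fun s => (hp s).trans_le h
  | seq p q ihp ihq => exact ⟨ihp hp.1, ihq hp.2⟩
  | ite e p q ihp ihq => exact ⟨ihp hp.1, ihq hp.2⟩
  | loop e p ih => exact ih hp

lemma up_al (K : ℕ) (p : Prog) : (up p).Al K := by
  induction p with
  | set i e => trivial
  | read i e => trivial
  | seq p q ihp ihq => exact ⟨ihp, ihq⟩
  | ite e p q ihp ihq => exact ⟨ihp, ihq⟩
  | loop e p ih => exact ih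

/-- More time and memory. -/
lemma TStops.mono {P : TProg} {x : List Bool} {y r t t' S S' : ℕ}
    (h : TStops P x y r t S) (ht : t ≤ t') (hS : S ≤ S') : TStops P x y r t' S' := by
  obtain ⟨w1, w2, w3, s, τ, j, c, hw, hcw⟩ := h
  have hp : 2 ^ S ≤ 2 ^ S' := Nat.pow_le_pow_right (by norm_num) hS
  exact ⟨w1.trans_le hp, w2.trans_le hp, w3.trans_le hp, s, τ, j, c, hw.mem_mono hS, hcw.trans ht⟩

/-- Acceptance and a given run. -/
lemma TRun.acc {P : TProg} {x : List Bool} {y r S : ℕ} {s τ : ℕ → ℕ} {h c : ℕ}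
    (a : TRun S P (ini x.length y r) (bit x) 0 s τ h c) : TAcc P x y r ↔ s 0 = 1 := by
  constructor
  · rintro ⟨S', s', τ', h', c', b, hb⟩
    obtain ⟨rfl, -⟩ := a.det b
    exact hb
  · intro hs
    exact ⟨S, s, τ, h, c, a, hs⟩

end Pool.Agent.Lib.MP_ff3ed7_lc.SQ
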