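import Pool.Agent.Lib.MP_ff3ed7_lc.SQ.TSpec

/-!
# PROJECT SQ2: the program which keeps its input, and the preparation of the tape
-/

set_option autoImplicit false

open Finset

namespace Pool.Agent.Lib.MP_ff3ed7_lc.SQ

open Pool.Agent.Lib.MP_ff3ed7_lc.PLT

private lemma Cln_bit_le (x : List Bool) (j : ℕ) : bit x j ≤ 1 := by
  have := bit_lt x j
  omega

private lemma Cln_bit_ge (x : List Bool) (j : ℕ) (h : x.length ≤ j) : bit x j = 0 := by
  unfold bit
  rw [List.getD_eq_default _ _ h]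
  rfl

private lemma Cln_arith1 {A B S t c m h c' c'' : ℕ} (hc : c ≤ t) (hm : m ≤ t) (hh : h ≤ t)
    (h1 : c' ≤ A * (S + 1 + 1) * c) (h2 : c'' ≤ B * (S + 1 + 1) * (m + h + 1)) :
    1 + (c' + c'') ≤ (1 + 2 * A + 4 * B) * (S + 1) * (t + 1) := by
  have e1 : A * (S + 1 + 1) * c ≤ A * (2 * (S + 1)) * (t + 1) :=
    Nat.mul_le_mul (Nat.mul_le_mul le_rfl (by omega)) (by omega)
  have e2 : B * (S + 1 + 1) * (m + h + 1) ≤ B * (2 * (S + 1)) * (2 * (t + 1)) :=
    Nat.mul_le_mul (Nat.mul_le_mul le_rfl (by omega)) (by omega)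
  have e3 : 1 ≤ (S + 1) * (t + 1) := Nat.one_le_iff_ne_zero.mpr (by positivity)
  have e4 : (1 + 2 * A + 4 * B) * (S + 1) * (t + 1) =
      (S + 1) * (t + 1) + A * (2 * (S + 1)) * (t + 1) + B * (2 * (S + 1)) * (2 * (t + 1)) := by
    ring
  omega

private lemma Cln_arith2 {B S n c z : ℕ} (hz : z ≤ S) (h2 : c ≤ B * (S + 1) * (n + 0 + 1)) :
    (1 + z) + (c + 1) ≤ (2 + B) * (S + 1) * (n + 1) := by
  have e1 : B * (S + 1) * (n + 0 + 1) = B * (S + 1) * (n + 1) := by ring
  have e2 : S + 1 ≤ (S + 1) * (n + 1) := Nat.le_mul_of_pos_right _ (by omega)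
  have e4 : (2 + B) * (S + 1) * (n + 1) =
      2 * ((S + 1) * (n + 1)) + B * (S + 1) * (n + 1) := by
    ring
  omega

/-- The program which leaves the tape as it was. -/
theorem wCln : T_Cln := by
  rintro ⟨A, hA⟩ ⟨B, hB⟩ P R hR hP
  refine ⟨1 + 2 * A + 4 * B, ?_⟩
  rintro x y r t S ⟨-, -, -, s', τ', h', c, hrun, hct⟩ u hu
  have hp1 : (1 : ℕ) < 2 ^ (S + 1) := Nat.one_lt_two_pow (by omega)
  have hp3 : 0 < 2 ^ (S + 3) := by positivity
  have hrun1 : TRun (S + 1) P (ini x.length y r) (bit x) 0 s' τ' h' c :=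
    hrun.mem_mono (Nat.le_succ S)
  obtain ⟨u1, c1, a1, a2, a3, a4, a5, a6, a7, a8, a9, a10⟩ :=
    hA P R hP (S + 1) _ _ _ _ _ _ _ hrun1 (bit x) (Function.update u (R + 1) 0)
      (Cln_bit_le x) (fun j => (Cln_bit_le x j).trans_lt hp1)
      (fun i hi => by rw [Function.update_of_ne (by omega)]; exact hu i hi)
      (by rw [Function.update_self]; positivity)
  rw [Function.update_self] at a6
  obtain ⟨u2, c2, b1, b2, b3, b4⟩ :=
    hB R (S + 1) (u1 (R + 1)) h' τ' (bit x) u1 (Cln_bit_le x) a9 rfl a5 a8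
  have hm : u1 (R + 1) ≤ t := by
    refine a6.trans ?_
    rw [max_le_iff]
    omega
  have hh : h' ≤ t := by omega
  have htape : (fun j => 2 * bit x j + bit x j) = fun j => 3 * bit x j := by
    funext j
    ring
  rw [htape] at a1
  have r0 : TRun (S + 3) (.set (R + 1) (.num 0)) u (fun j => 3 * bit x j) 0
      (Function.update u (R + 1) 0) (fun j => 3 * bit x j) 0 1 :=
    TRun.set (R + 1) (.num 0) u (fun j => 3 * bit x j) 0 hp3
  refine ⟨u2, 1 + (c1 + c2), TRun.seq r0 (TRun.seq (a1.mem_mono (by omega)) b1),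
    Cln_arith1 hct hm hh a10 b4, ?_, ?_⟩
  · rw [b2 0 (by omega) (by omega), a2 0 (by omega)]
    exact hrun.acc.symm
  · intro i hi
    rw [b2 i (by omega) (by omega), a3 i hi, Function.update_of_ne (by omega)]

/-- The preparation of the tape. -/
theorem wPrp : T_Prp := by
  rintro ⟨B, hB⟩
  refine ⟨2 + B, ?_⟩
  intro R hR x y r S hx
  have hp2 : (2 : ℕ) ^ S ≤ 2 ^ (S + 2) := Nat.pow_le_pow_right (by norm_num) (by omega)
  obtain ⟨u, c, b1, b2, b3, b4⟩ :=
    hB R S x.length 0 (fun _ => 0) (bit x) (Function.update (ini x.length y r) (R + 1) x.length)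
      (Cln_bit_le x) (fun _ => by positivity) (Function.update_self _ _ _) hx
      (fun j hj => (Cln_bit_ge x j hj.le).symm)
  have htape : (fun j => 2 * (fun _ : ℕ => 0) j + bit x j) = bit x := by
    funext j
    simp
  rw [htape] at b1
  have r0 : TRun (S + 2) (.set (R + 1) (.reg 0)) (ini x.length y r) (bit x) 0
      (Function.update (ini x.length y r) (R + 1) x.length) (bit x) 0
      (1 + Nat.size x.length) :=
    TRun.set (R + 1) (.reg 0) (ini x.length y r) (bit x) 0 (hx.trans_le hp2)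
  have r2 : TRun (S + 2) (.set R (.num 0)) u (fun j => 3 * bit x j) 0
      (Function.update u R 0) (fun j => 3 * bit x j) 0 1 :=
    TRun.set R (.num 0) u (fun j => 3 * bit x j) 0 (by positivity)
  have hfin : Function.update u R 0 = ini x.length y r := by
    funext i
    by_cases hi : i = R
    · subst hi
      rw [Function.update_self]
      unfold ini
      rw [if_neg (by omega), if_neg (by omega), if_neg (by omega)]
    · rw [Function.update_of_ne hi]
      by_cases hi' : i = R + 1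
      · subst hi'
        rw [b3]
        unfold ini
        rw [if_neg (by omega), if_neg (by omega), if_neg (by omega)]
      · rw [b2 i hi hi', Function.update_of_ne hi']
  rw [hfin] at r2
  exact ⟨(1 + Nat.size x.length) + (c + 1), TRun.seq r0 (TRun.seq b1 r2),
    Cln_arith2 (Nat.size_le.mpr hx) b4⟩

end Pool.Agent.Lib.MP_ff3ed7_lc.SQ
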