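import Pool.Agent.Lib.MP_ff3ed7_lc.SQ.Spec2

/-!
# PROJECT SQ2: one-tape machines with a writable tape

Programs with registers and one tape.  In the beginning cell `j` of the tape contains bit number `j` of
the input (`0` if the input is not so long).  The programs read and write the cells; they write only
numbers smaller than a constant (finite tape alphabet); moving the head from cell `h` to cell `j` costs
`|j - h|`.  All numbers in registers and all addresses have at most `S` bits.
-/

set_option autoImplicit false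

open Finset

namespace Pool.Agent.Lib.MP_ff3ed7_lc.SQ

open Pool.Agent.Lib.MP_ff3ed7_lc.PLT

/-- Programs with registers and one tape. -/
inductive TProg : Type
  /-- register `i` gets the value of `e` -/
  | set (i : ℕ) (e : Expr) : TProg
  /-- the head moves to cell `e`, and register `i` gets the content of this cell -/
  | read (i : ℕ) (e : Expr) : TProg
  /-- the head moves to cell `e`, and this cell gets the value of `f` -/
  | write (e f : Expr) : TProg
  /-- first `p`, then `q` -/
  | seq (p q : TProg) : TProg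
  /-- if `e ≠ 0` then `p` else `q` -/
  | ite (e : Expr) (p q : TProg) : TProg
  /-- while `e ≠ 0` do `p` -/
  | loop (e : Expr) (p : TProg) : TProg

/-- The instructions `write e f` of the program write only numbers smaller than `K`: the tape alphabet is
finite. -/
def TProg.Al (K : ℕ) : TProg → Prop
  | .set _ _ => True
  | .read _ _ => True
  | .write _ f => ∀ s : ℕ → ℕ, f.val s < K
  | .seq p q => p.Al K ∧ q.Al K
  | .ite _ p q => p.Al K ∧ q.Al K
  | .loop _ p => p.Al K

/-- `TRun S p s τ h s' τ' h' c`: the program `p`, started with the registers `s`, the tape `τ` and the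
head on cell `h`, stops with the registers `s'`, the tape `τ'` and the head on cell `h'` after time
`c`, and all numbers which are put into registers and cells and all addresses have at most `S`
bits. -/
inductive TRun (S : ℕ) :
    TProg → (ℕ → ℕ) → (ℕ → ℕ) → ℕ → (ℕ → ℕ) → (ℕ → ℕ) → ℕ → ℕ → Prop
  | set (i : ℕ) (e : Expr) (s τ : ℕ → ℕ) (h : ℕ) (hS : e.val s < 2 ^ S) :
      TRun S (.set i e) s τ h (Function.update s i (e.val s)) τ h (e.cost s)
  | read (i : ℕ) (e : Expr) (s τ : ℕ → ℕ) (h : ℕ) (he : e.val s < 2 ^ S)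
      (hS : τ (e.val s) < 2 ^ S) :
      TRun S (.read i e) s τ h (Function.update s i (τ (e.val s))) τ (e.val s)
        (e.cost s + Nat.size (τ (e.val s)) + dst (e.val s) h)
  | write (e f : Expr) (s τ : ℕ → ℕ) (h : ℕ) (he : e.val s < 2 ^ S) (hS : f.val s < 2 ^ S) :
      TRun S (.write e f) s τ h s (Function.update τ (e.val s) (f.val s)) (e.val s)
        (e.cost s + f.cost s + dst (e.val s) h)
  | seq {p q : TProg} {s s' s'' τ τ' τ'' : ℕ → ℕ} {h h' h'' c c' : ℕ}
      (a : TRun S p s τ h s' τ' h' c) (b : TRun S q s' τ' h' s'' τ'' h'' c') :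
      TRun S (.seq p q) s τ h s'' τ'' h'' (c + c')
  | iteT {e : Expr} {p q : TProg} {s s' τ τ' : ℕ → ℕ} {h h' c : ℕ} (he : e.val s ≠ 0)
      (a : TRun S p s τ h s' τ' h' c) : TRun S (.ite e p q) s τ h s' τ' h' (e.cost s + c)
  | iteF {e : Expr} {p q : TProg} {s s' τ τ' : ℕ → ℕ} {h h' c : ℕ} (he : e.val s = 0)
      (a : TRun S q s τ h s' τ' h' c) : TRun S (.ite e p q) s τ h s' τ' h' (e.cost s + c)
  | loopT {e : Expr} {p : TProg} {s s' s'' τ τ' τ'' : ℕ → ℕ} {h h' h'' c c' : ℕ}
      (he : e.val s ≠ 0) (a : TRun S p s τ h s' τ' h' c)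
      (b : TRun S (.loop e p) s' τ' h' s'' τ'' h'' c') :
      TRun S (.loop e p) s τ h s'' τ'' h'' (e.cost s + c + c')
  | loopF {e : Expr} {p : TProg} {s τ : ℕ → ℕ} {h : ℕ} (he : e.val s = 0) :
      TRun S (.loop e p) s τ h s τ h (e.cost s)

/-- The program `P` stops within time `t` on the input `x` (tape `bit x`, head on cell `0`), the
message `y` and the coins `r`, and all numbers have at most `S` bits. -/
def TStops (P : TProg) (x : List Bool) (y r t S : ℕ) : Prop :=
  x.length < 2 ^ S ∧ y < 2 ^ S ∧ r < 2 ^ S ∧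
    ∃ s τ h c, TRun S P (ini x.length y r) (bit x) 0 s τ h c ∧ c ≤ t

/-- `V(x, y, r) = 1`: the program `P` accepts (it stops and register `0` contains `1`). -/
def TAcc (P : TProg) (x : List Bool) (y r : ℕ) : Prop :=
  ∃ S s τ h c, TRun S P (ini x.length y r) (bit x) 0 s τ h c ∧ s 0 = 1

/-- One-tape verifiers with a finite tape alphabet, `k n` bits of message and `k n` coins, running time
`t n` and registers of `S n` bits on the inputs of length `n`. -/
def IsTVer (P : TProg) (k t S : ℕ → ℕ) : Prop :=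
  (∃ K, P.Al K) ∧ ∀ (x : List Bool) (y r : ℕ), y < 2 ^ k x.length → r < 2 ^ k x.length →
    TStops P x y r (t x.length) (S x.length)

/-- Merlin-Arthur. -/
def MAw (k t S : ℕ → ℕ) : Set (Set (List Bool)) :=
  {L | ∃ P, IsTVer P k t S ∧ ∀ x : List Bool,
    (x ∈ L → ∃ y < 2 ^ k x.length, 2 / 3 ≤ pr (k x.length) fun r => TAcc P x y r) ∧
    (x ∉ L → ∀ y < 2 ^ k x.length, pr (k x.length) (fun r => TAcc P x y r) ≤ 1 / 3)}

/-- Arthur-Merlin. -/
def AMw (k t S : ℕ → ℕ) : Set (Set (List Bool)) :=
  {L | ∃ P, IsTVer P k t S ∧ ∀ x : List Bool,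
    (x ∈ L → 2 / 3 ≤ pr (k x.length) fun r => ∃ y < 2 ^ k x.length, TAcc P x y r) ∧
    (x ∉ L → pr (k x.length) (fun r => ∃ y < 2 ^ k x.length, TAcc P x y r) ≤ 1 / 3)}

/-- Small bounded error probability: the threshold is `2 ^ (-u)`. -/
def SBPw (k t S u : ℕ → ℕ) : Set (Set (List Bool)) :=
  {L | ∃ P, IsTVer P k t S ∧ ∀ x : List Bool,
    (x ∈ L → 2 * (1 / 2) ^ u x.length ≤ pr (k x.length) fun r => TAcc P x 0 r) ∧
    (x ∉ L → pr (k x.length) (fun r => TAcc P x 0 r) ≤ (1 / 2) ^ u x.length)}

/-- Probabilistic time with unbounded error. -/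
def PPw (k t S : ℕ → ℕ) : Set (Set (List Bool)) :=
  {L | ∃ P, IsTVer P k t S ∧ ∀ x : List Bool,
    (x ∈ L ↔ 1 / 2 < pr (k x.length) fun r => TAcc P x 0 r)}

/-- `MA` for one-tape machines in quasilinear time. -/
def MAot : Set (Set (List Bool)) := {L | ∃ c d e, L ∈ MAw (pl c) (ql d) (pl e)}

/-- `AM` for one-tape machines in quasilinear time. -/
def AMot : Set (Set (List Bool)) := {L | ∃ c d e, L ∈ AMw (pl c) (ql d) (pl e)}

/-- `SBP` for one-tape machines in quasilinear time. -/
def SBPot : Set (Set (List Bool)) := {L | ∃ c d e f, L ∈ SBPw (pl c) (ql d) (pl e) (pl f)}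

/-- `PP` for one-tape machines in quasilinear time. -/
def PPot : Set (Set (List Bool)) := {L | ∃ c d e, L ∈ PPw (pl c) (ql d) (pl e)}

end Pool.Agent.Lib.MP_ff3ed7_lc.SQ
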