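import Pool.Agent.Lib.MP_ff3ed7_lc.SQ.TSpec

/-!
# PROJECT SQ2: programs with a read-only input are one-tape programs
-/

set_option autoImplicit false

open Finset

namespace Pool.Agent.Lib.MP_ff3ed7_lc.SQ

open Pool.Agent.Lib.MP_ff3ed7_lc.PLT

private lemma Emb_bit_ge (x : List Bool) (k : ℕ) (h : x.length ≤ k) : bit x k = 0 := by
  unfold bit
  rw [List.getD_eq_default _ _ h]
  rfl

private lemma Emb_bit_le (x : List Bool) (k : ℕ) : bit x k ≤ 1 := by
  unfold bit
  split_ifs <;> omega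

private lemma Emb_bit_clamp (x : List Bool) (k : ℕ) : bit x (k - (k - x.length)) = bit x k := by
  by_cases h : k ≤ x.length
  · rw [show k - (k - x.length) = k by omega]
  · rw [Emb_bit_ge x _ (by omega), Emb_bit_ge x _ (by omega)]

private lemma Emb_clamp (k n : ℕ) : k - (k - n) = min k n := by omega

/-- The cost of one operation. -/
private lemma Emb_arith (S a d b : ℕ) (ha : 1 ≤ a) (hb : b ≤ 4 * S + 4 + 3 * a) :
    b + d ≤ 10 * (S + 1) * (a + d) := by
  nlinarith [Nat.zero_le (S * d), Nat.zero_le (S * a), Nat.mul_le_mul_left S ha]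

private lemma Emb_one {S a b : ℕ} (h : b ≤ 10 * (S + 1) * a) (c : ℕ) :
    c + b ≤ 10 * (S + 1) * (c + a) := by
  nlinarith [Nat.zero_le (S * c)]

/-- The simulation. -/
private lemma Emb_run {x : List Bool} {S R : ℕ} {p : Prog} {s s' : ℕ → ℕ} {h h' c : ℕ}
    (a : SRun x S p s h s' h' c) (hn : x.length < 2 ^ S) : p.Lt R → ∀ u : ℕ → ℕ,
    (∀ i < R, s i = u i) → u R = x.length →
    ∃ (u' : ℕ → ℕ) (c' : ℕ), TRun S (emb R p) u (bit x) h u' (bit x) h' c' ∧
      (∀ i < R, s' i = u' i) ∧ u' R = x.length ∧ c' ≤ 10 * (S + 1) * c := by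
  have hsz : Nat.size x.length ≤ S := Nat.size_le.mpr hn
  induction a with
  | set i e s h hS =>
    intro hp u hu hR
    obtain ⟨h1, h2⟩ := hp.2.congr hu
    rw [h1] at hS
    rw [h1, h2]
    refine ⟨_, _, TRun.set i e u (bit x) h hS, fun j hj => ?_, ?_, ?_⟩
    · by_cases hji : j = i
      · subst hji; simp
      · simp [Function.update_of_ne hji, hu j hj]
    · have : R ≠ i := by have := hp.1; omega
      rw [Function.update_of_ne this, hR]
    · nlinarith [Nat.zero_le (S * e.cost u)]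
  | read i e s h hS =>
    intro hp u hu hR
    obtain ⟨h1, h2⟩ := hp.2.congr hu
    rw [h1] at hS
    rw [h1, h2]
    have hv : (Expr.sub e (.sub e (.reg R))).val u = e.val u - (e.val u - x.length) := by
      simp only [Expr.val, hR]
    have hb := Emb_bit_clamp x (e.val u)
    have hr := TRun.read (S := S) i (.sub e (.sub e (.reg R))) u (bit x) h
      (by rw [hv]; omega) (by rw [hv, hb]; exact hS)
    rw [hv, hb, Emb_clamp] at hr
    refine ⟨_, _, hr, fun j hj => ?_, ?_, ?_⟩
    · by_cases hji : j = i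
      · subst hji; simp
      · simp [Function.update_of_ne hji, hu j hj]
    · have : R ≠ i := by have := hp.1; omega
      rw [Function.update_of_ne this, hR]
    · refine Emb_arith S (e.cost u) _ _ (Expr.one_le_cost u e) ?_
      have hc := e.size_le_cost u
      have s1 : Nat.size (e.val u - x.length) ≤ Nat.size (e.val u) :=
        Nat.size_le_size (Nat.sub_le _ _)
      have s2 : Nat.size (e.val u - (e.val u - x.length)) ≤ Nat.size x.length :=
        Nat.size_le_size (by omega)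
      have s3 : Nat.size (bit x (e.val u)) ≤ 1 := by
        calc Nat.size (bit x (e.val u)) ≤ Nat.size 1 := Nat.size_le_size (Emb_bit_le x _)
          _ = 1 := Nat.size_one
      simp only [Expr.cost, Expr.val, hR]
      omega
  | seq a b iha ihb =>
    intro hp u hu hR
    obtain ⟨u', c', a1, a2, a3, a4⟩ := iha hp.1 u hu hR
    obtain ⟨u'', c'', b1, b2, b3, b4⟩ := ihb hp.2 u' a2 a3
    exact ⟨u'', _, TRun.seq a1 b1, b2, b3, by rw [Nat.mul_add]; omega⟩
  | iteT he a ih =>
    intro hp u hu hR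
    obtain ⟨h1, h2⟩ := hp.1.congr hu
    obtain ⟨u', c', a1, a2, a3, a4⟩ := ih hp.2.1 u hu hR
    rw [h2]
    exact ⟨u', _, TRun.iteT (by rwa [← h1]) a1, a2, a3, Emb_one a4 _⟩
  | iteF he a ih =>
    intro hp u hu hR
    obtain ⟨h1, h2⟩ := hp.1.congr hu
    obtain ⟨u', c', a1, a2, a3, a4⟩ := ih hp.2.2 u hu hR
    rw [h2]
    exact ⟨u', _, TRun.iteF (by rwa [← h1]) a1, a2, a3, Emb_one a4 _⟩
  | loopT he a b iha ihb =>
    intro hp u hu hR
    obtain ⟨h1, h2⟩ := hp.1.congr hu
    obtain ⟨u', c', a1, a2, a3, a4⟩ := iha hp.2 u hu hR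
    obtain ⟨u'', c'', b1, b2, b3, b4⟩ := ihb hp u' a2 a3
    rw [h2]
    refine ⟨u'', _, TRun.loopT (by rwa [← h1]) a1 b1, b2, b3, ?_⟩
    have h3 := Emb_one a4 (Expr.cost u ‹Expr›)
    rw [Nat.mul_add (10 * (S + 1))]
    omega
  | loopF he =>
    intro hp u hu hR
    obtain ⟨h1, h2⟩ := hp.1.congr hu
    rw [h2]
    refine ⟨u, _, TRun.loopF (by rwa [← h1]), hu, hR, ?_⟩
    have h3 := Emb_one (S := S) (a := 0) (b := 0) le_rfl (Expr.cost u ‹Expr›)
    simpa using h3

lemma emb_al (R K : ℕ) (p : Prog) : (emb R p).Al K := by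
  induction p with
  | set i e => trivial
  | read i e => trivial
  | seq p q ihp ihq => exact ⟨ihp, ihq⟩
  | ite e p q ihp ihq => exact ⟨ihp, ihq⟩
  | loop e p ih => exact ih

/-- **TEmb.** -/
theorem wEmb : T_Emb := by
  intro P
  obtain ⟨R, hR3, hP⟩ := P.exists_lt
  refine ⟨.seq (.set R (.reg 0)) (emb R P), 10, ⟨trivial, emb_al R 0 P⟩, fun x y r t S hst => ?_⟩
  obtain ⟨w1, w2, w3, s, h, c, hw, hcw⟩ := hst
  have hsz : Nat.size x.length ≤ S := Nat.size_le.mpr w1
  have hi0 : ini x.length y r 0 = x.length := by simp [ini]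
  obtain ⟨u', c', a1, a2, a3, a4⟩ := Emb_run hw w1 hP
    (Function.update (ini x.length y r) R x.length)
    (fun i hi => by rw [Function.update_of_ne (by omega)]) (by simp)
  have h0 : TRun S (.set R (.reg 0)) (ini x.length y r) (bit x) 0
      (Function.update (ini x.length y r) R x.length) (bit x) 0 (1 + Nat.size x.length) := by
    have h1 := TRun.set (S := S) R (.reg 0) (ini x.length y r) (bit x) 0
      (by simp only [Expr.val, hi0]; exact w1)
    simpa only [Expr.val, Expr.cost, hi0] using h1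
  have hrun := TRun.seq h0 a1
  have hmem : S ≤ 10 * (S + 1) := by omega
  have hpow : 2 ^ S ≤ 2 ^ (10 * (S + 1)) := Nat.pow_le_pow_right (by norm_num) hmem
  refine ⟨⟨w1.trans_le hpow, w2.trans_le hpow, w3.trans_le hpow, u', bit x, h, _,
    hrun.mem_mono hmem, ?_⟩, ?_⟩
  · have h1 : 10 * (S + 1) * c ≤ 10 * (S + 1) * t := Nat.mul_le_mul_left _ hcw
    have h2 : 10 * (S + 1) * (t + 1) = 10 * (S + 1) * t + 10 * (S + 1) := by ring
    omega
  · rw [hrun.acc, ← a2 0 (by omega)]
    obtain ⟨d, hd, -⟩ := hw.run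
    constructor
    · intro hs
      exact ⟨s, d, hd, hs⟩
    · rintro ⟨s₁, c₁, b1, b2⟩
      obtain ⟨rfl, -⟩ := hd.det b1
      exact b2

end Pool.Agent.Lib.MP_ff3ed7_lc.SQ
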