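import Pool.Agent.Lib.MP_ff3ed7_lc.SQ.TSpec

/-!
# PROJECT SQ2: the engine for one-tape programs
-/

set_option autoImplicit false

open Finset

namespace Pool.Agent.Lib.MP_ff3ed7_lc.SQ

open Pool.Agent.Lib.MP_ff3ed7_lc.PLT

/-- **The engine** for a program that leaves the tape and the head as they were. -/
theorem wEng : T_Eng := by
  classical
  intro R hR
  obtain ⟨K₁, hK₁, hc₁⟩ := Prog.cost_exec (pre R) (pre_LF R)
  obtain ⟨K₂, hK₂, hc₂⟩ := Prog.cost_exec (post R) (post_LF R)
  refine ⟨K₁ + K₂ + 3, by omega, ?_⟩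
  intro Q τ A n Y RR k M t B S s e0 e1 e2 e3 e4 e5 hst hB hBS hs
  have hMB : M < 2 ^ B := e4 ▸ hs (R + 4)
  have hBS' : B ≤ S := le_trans (Nat.le_mul_of_pos_left B (by omega)) hBS
  have h8 : (K₁ + K₂ + 3) * B = K₁ * B + K₂ * B + 3 * B := by ring
  let I : ℕ → (ℕ → ℕ) → (ℕ → ℕ) → ℕ → Prop := fun j u σ g => j ≤ M ∧ u R = n ∧ u (R + 1) = Y ∧
    u (R + 2) = RR / 2 ^ (k * (M - j)) ∧ u (R + 3) = 2 ^ k ∧ u (R + 4) = j ∧
    u (R + 5) = ((range (M - j)).filter A).card ∧ (∀ i, R + 6 ≤ i → u i = s i) ∧ PLT.Bd u B ∧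
    σ = τ ∧ g = 0
  have hreg : ∀ u : ℕ → ℕ, PLT.Bd u B → (Expr.reg (R + 4)).cost u ≤ 2 * B := by
    intro u hu
    simp only [Expr.cost]
    have := Nat.size_le.mpr (hu (R + 4))
    omega
  have key := tloop_of (S := S) (e := .reg (R + 4))
    (p := .seq (up (pre R)) (.seq Q (up (post R))))
    (I := I) (C := (K₁ + K₂ + 3) * B + t) ?_ ?_ M s τ 0 ?_
  · obtain ⟨s', σ, g', c, h1, h2, h3⟩ := key
    obtain ⟨-, f0, f1, f2, f3, f4, f5, f6, f7, rfl, rfl⟩ := h3
    refine ⟨s', c, h1, h2, ?_, f0.trans e0.symm, f1.trans e1.symm, f3.trans e3.symm, f6, f7⟩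
    rw [f5, Nat.sub_zero, Nat.card_eq_fintype_card, Fintype.card_subtype]
    rw [Finset.card_filter, Finset.card_filter, Finset.sum_range]
  · rintro u σ g ⟨-, f0, f1, f2, f3, f4, f5, f6, f7, -, -⟩
    refine ⟨f4, (hreg u f7).trans ?_⟩
    omega
  · rintro j u σ g ⟨hj, f0, f1, f2, f3, f4, f5, f6, f7, rfl, rfl⟩
    refine ⟨by simp only [Expr.val, f4]; omega, ?_⟩
    have hb : u (R + 2) % u (R + 3) = blk k RR (M - (j + 1)) := by
      rw [f2, f3]; rfl
    obtain ⟨a1, a2⟩ := pre_exec [] hR u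
    obtain ⟨c1, -⟩ := hc₁ [] u B hB f7
    have hr₁ := tlift (Prog.LF.run (x := []) (pre_LF R) u) (NR_pre R) S
      (c1.trans (le_trans (by omega) hBS)) σ 0
    set v := (pre R).exec [] u with hv
    obtain ⟨v', c', b1', hc', hacc, b3⟩ := hst (M - (j + 1)) (by omega) v (fun i hi => by
      rw [a1 i hi, f0, f1, hb])
    have hvB : PLT.Bd v B := by
      intro i
      rcases Nat.lt_or_ge i R with hi | hi
      · rw [a1 i hi]
        unfold ini
        split
        · exact f7 R
        · split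
          · exact f7 (R + 1)
          · split
            · exact (Nat.mod_le _ _).trans_lt (f7 (R + 2))
            · positivity
      · rw [a2 i hi]; exact f7 i
    have hv'B : PLT.Bd v' B := b1'.bd le_rfl hvB
    obtain ⟨c2, -⟩ := hc₂ [] v' B hB hv'B
    have hr₂ := tlift (Prog.LF.run (x := []) (post_LF R) v') (NR_post R) S
      (c2.trans (le_trans (by omega) hBS)) σ 0
    obtain ⟨p1, p2, p3, p4⟩ := post_exec [] R v'
    refine ⟨_, _, _, _, TRun.seq hr₁ (TRun.seq (b1'.mem_mono hBS') hr₂), ?_, ?_⟩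
    · have h9 := hreg u f7
      omega
    · have hmj : M - j = (M - (j + 1)) + 1 := by omega
      refine ⟨by omega, ?_, ?_, ?_, ?_, ?_, ?_, ?_, ?_, rfl, rfl⟩
      · rw [p4 R (by omega) (by omega) (by omega), b3 R le_rfl, a2 R le_rfl, f0]
      · rw [p4 (R + 1) (by omega) (by omega) (by omega), b3 (R + 1) (by omega),
          a2 (R + 1) (by omega), f1]
      · rw [p2, b3 (R + 2) (by omega), b3 (R + 3) (by omega), a2 (R + 2) (by omega),
          a2 (R + 3) (by omega), f2, f3, Nat.div_div_eq_div_mul, ← pow_add, hmj]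
        ring_nf
      · rw [p4 (R + 3) (by omega) (by omega) (by omega), b3 (R + 3) (by omega),
          a2 (R + 3) (by omega), f3]
      · rw [p3, b3 (R + 4) (by omega), a2 (R + 4) (by omega), f4]
        omega
      · rw [p1, b3 (R + 5) (by omega), a2 (R + 5) (by omega), f5, hmj, range_add_one,
          filter_insert]
        by_cases hA : A (M - (j + 1))
        · rw [if_pos (hacc.mpr hA), if_pos hA, card_insert_of_notMem (by simp)]
        · rw [if_neg (fun h => hA (hacc.mp h)), if_neg hA, Nat.add_zero]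
      · intro i hi
        rw [p4 i (by omega) (by omega) (by omega), b3 i (by omega), a2 i (by omega), f6 i hi]
      · intro i
        by_cases h5 : i = R + 5
        · subst h5
          rw [p1, b3 (R + 5) (by omega), a2 (R + 5) (by omega), f5]
          refine lt_of_le_of_lt ?_ hMB
          have h7 : ((range (M - (j + 1))).filter A).card ≤ M - (j + 1) := by
            simpa using card_filter_le (range (M - (j + 1))) A
          split <;> omega
        · by_cases h2 : i = R + 2
          · subst h2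
            rw [p2]
            exact (Nat.div_le_self _ _).trans_lt (hv'B _)
          · by_cases h4 : i = R + 4
            · subst h4
              rw [p3]
              exact (Nat.sub_le _ _).trans_lt (hv'B _)
            · rw [p4 i h5 h2 h4]; exact hv'B i
  · refine ⟨le_rfl, e0, e1, ?_, e3, e4, ?_, fun i _ => rfl, hs, rfl, rfl⟩
    · rw [e2, Nat.sub_self, Nat.mul_zero, pow_zero, Nat.div_one]
    · rw [e5, Nat.sub_self]; simp

end Pool.Agent.Lib.MP_ff3ed7_lc.SQ
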