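import Pool.Agent.Lib.MP_ff3ed7_lc.SQ.TSpec
import Pool.Agent.Lib.MP_ff3ed7_lc.SQ.SGen

/-!
# PROJECT SQ2: the general program transformation for one-tape programs
-/

set_option autoImplicit false

open Finset

namespace Pool.Agent.Lib.MP_ff3ed7_lc.SQ

open Pool.Agent.Lib.MP_ff3ed7_lc.PLT

lemma tw_al {K : ℕ} (R : ℕ) {p : TProg} (hp : p.Al K) : (tw R p).Al (2 * K + 4) := by
  induction p with
  | set i e => trivial
  | read i e => exact ⟨trivial, trivial, trivial⟩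
  | write e f =>
    refine ⟨trivial, trivial, fun s => ?_⟩
    have h1 := hp s
    have h2 : s R % 2 < 2 := Nat.mod_lt _ (by norm_num)
    simp only [Expr.val]
    omega
  | seq p q ihp ihq => exact ⟨ihp hp.1, ihq hp.2⟩
  | ite e p q ihp ihq => exact ⟨ihp hp.1, ihq hp.2⟩
  | loop e p ih => exact ih hp

lemma rst_al (R K : ℕ) : (rst R).Al (2 * K + 4) := by
  refine ⟨trivial, trivial, trivial, fun s => ?_⟩
  have h2 : s R % 2 < 2 := Nat.mod_lt _ (by norm_num)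
  simp only [Expr.val]
  omega

/-- **The general program transformation.** -/
theorem wGen : T_Gen := by
  intro hCln hTwn hRst hPrp hEng P R₀ R hR₀ hP hRR₀ c e EY ER EM ET fY fR fM fT hY hRR hM hT
  have hR : 3 ≤ R := by omega
  obtain ⟨Q, K1, hQ, hK1, h1⟩ := sprep R hR c e EY ER EM fY fR fM hY hRR hM
  obtain ⟨K2, hK2, h2⟩ := hEng R hR
  let A9 : Prog := .set 0 ET
  obtain ⟨K3, hK3, h3⟩ := Prog.cost_exec A9 trivial
  obtain ⟨Cc, hcl⟩ := hCln hTwn hRst P R₀ hR₀ hP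
  obtain ⟨Cp, hpr⟩ := hPrp hRst
  refine ⟨.seq (prp R₀) (.seq (up Q) (.seq (teng (cln R₀ P) R) (up A9))),
    K1 + K2 * (K1 + 3) + K3 * (K1 + 3) + Cp + Cc + 3, by omega,
    fun K hK => ⟨⟨trivial, rst_al R₀ K, trivial⟩, up_al _ _, ⟨up_al _ _, ⟨trivial, tw_al R₀ hK,
      rst_al R₀ K⟩, up_al _ _⟩, up_al _ _⟩, ?_⟩
  intro x y r t B k u Y RR M hk hu hYv hRv hMv hB hkB huB hxB hyB hrB hst
  obtain ⟨s7, d, r7, hd, b7, z0, z1, z2, z3, z4, z5, z6, z7, z8, z9, z10⟩ :=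
    h1 x y r B k u Y RR M hk hu hYv hRv hMv hB hkB huB hxB hyB hrB
  obtain ⟨cp, rp, hcp⟩ := hpr R₀ hR₀ x y r B hxB
  obtain ⟨X, hX⟩ : ∃ X, X = B * B := ⟨_, rfl⟩
  have x1 : B ≤ X := hX ▸ Nat.le_mul_of_pos_left B hB
  have hX1 : 1 ≤ X := hB.trans x1
  rw [← hX] at hd ⊢
  obtain ⟨S, hS⟩ : ∃ S, S = (K1 + K2 * (K1 + 3) + K3 * (K1 + 3) + Cp + Cc + 3) * X := ⟨_, rfl⟩
  rw [← hS]
  have hB1 : B ≤ K1 * B := Nat.le_mul_of_pos_left B hK1
  have e0 : K1 * B + 3 ≤ (K1 + 3) * X := by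
    have : K1 * B ≤ K1 * X := Nat.mul_le_mul_left _ x1
    nlinarith
  have e1 : K2 * (K1 * B + 3) ≤ K2 * (K1 + 3) * X := by
    rw [Nat.mul_assoc]; exact Nat.mul_le_mul_left _ e0
  have e2 : K3 * (K1 * B + 3) ≤ K3 * (K1 + 3) * X := by
    rw [Nat.mul_assoc]; exact Nat.mul_le_mul_left _ e0
  have eS : S = K1 * X + K2 * (K1 + 3) * X + K3 * (K1 + 3) * X + Cp * X + Cc * X + 3 * X := by
    rw [hS]; ring
  have l1 : d ≤ S := by omega
  have l2 : K2 * (K1 * B + 3) ≤ S := by omega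
  have l3 : K3 * (K1 * B + 3) ≤ S := by omega
  have l4 : B ≤ S := by omega
  have l5 : B + 2 ≤ S := by omega
  have hBd : PLT.Bd s7 (K1 * B + 3) := fun i =>
    (b7 i).trans_le (Nat.pow_le_pow_right (by norm_num) (Nat.le_add_right _ _))
  obtain ⟨s8, c8, r8, hc8, v8, -, -, -, f8, b8⟩ := h2 (cln R₀ P) (fun j => 3 * bit x j)
    (fun i => TAcc P x Y (blk k RR i)) x.length Y RR k M (Cc * (B + 1) * (t + 1)) (K1 * B + 3) S s7
    z0 z1 z2 z3 z4 z5 (fun i hi w hw => by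
      obtain ⟨w', cw, hw1, hw2, hw3, hw4⟩ := hcl x Y (blk k RR i) t B (hst i hi) w
        (fun j hj => hw j (by omega))
      exact ⟨w', cw, hw1.mem_mono (by omega), hw2, hw3, fun j hj => hw4 j (by omega)⟩)
    (by omega) l2 hBd
  obtain ⟨c9, -⟩ := h3 x s8 (K1 * B + 3) (by omega) b8
  have r9 := Prog.LF.run (x := x) (p := A9) trivial s8
  have hrun : TRun S (.seq (prp R₀) (.seq (up Q) (.seq (teng (cln R₀ P) R) (up A9))))
      (ini x.length y r) (bit x) 0 (A9.exec x s8) (fun j => 3 * bit x j) 0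
      (cp + (d + (c8 + A9.tim x s8))) :=
    TRun.seq (rp.mem_mono l5) (TRun.seq (tlift r7 hQ S l1 _ 0)
      (TRun.seq r8 (tlift r9 trivial S (c9.trans l3) _ 0)))
  have fin : A9.exec x s8 0 =
      fT y r k (2 ^ k) (2 ^ u) (Nat.card {i : Fin M // TAcc P x Y (blk k RR i)}) := by
    simp only [A9, Prog.exec, Function.update_self, hT]
    rw [f8 (R + 6) (by omega), f8 (R + 7) (by omega), f8 (R + 8) (by omega), f8 (R + 9) (by omega),
      f8 (R + 10) (by omega), z6, z7, z8, z9, z10, v8]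
  have hpS : 2 ^ B ≤ 2 ^ S := Nat.pow_le_pow_right (by norm_num) l4
  constructor
  · refine ⟨hxB.trans_le hpS, hyB.trans_le hpS, hrB.trans_le hpS, _, _, _, _, hrun, ?_⟩
    obtain ⟨T, hT'⟩ : ∃ T, T = (B + 1) * (t + x.length + 1) := ⟨_, rfl⟩
    have t1 : Cp * (B + 1) * (x.length + 1) ≤ Cp * T := by
      rw [hT', Nat.mul_assoc]
      exact Nat.mul_le_mul_left _ (Nat.mul_le_mul_left _ (by omega))
    have t2 : Cc * (B + 1) * (t + 1) ≤ Cc * T := by
      rw [hT', Nat.mul_assoc]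
      exact Nat.mul_le_mul_left _ (Nat.mul_le_mul_left _ (by omega))
    rw [← hT']
    have m1 : 1 ≤ M + 1 := Nat.succ_pos M
    calc cp + (d + (c8 + A9.tim x s8))
        ≤ Cp * T * (M + 1) + (K1 * X * (M + 1) + ((K2 * (K1 + 3) * X + Cc * T) * (M + 1) +
            K3 * (K1 + 3) * X * (M + 1))) := by
          refine Nat.add_le_add ((hcp.trans t1).trans (Nat.le_mul_of_pos_right _ m1))
            (Nat.add_le_add (hd.trans (Nat.le_mul_of_pos_right _ m1)) (Nat.add_le_add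
            (hc8.trans (Nat.mul_le_mul_right _ (Nat.add_le_add e1 t2)))
            ((c9.trans e2).trans (Nat.le_mul_of_pos_right _ m1))))
      _ ≤ Cp * T * (M + 1) + (K1 * X * (M + 1) + ((K2 * (K1 + 3) * X + Cc * T) * (M + 1) +
            K3 * (K1 + 3) * X * (M + 1))) +
          ((K1 + K2 * (K1 + 3) + K3 * (K1 + 3) + 3) * (T * (M + 1)) +
            (Cp + Cc + 3) * (X * (M + 1))) := Nat.le_add_right _ _
      _ = _ := by ring
  · rw [hrun.acc, fin]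

end Pool.Agent.Lib.MP_ff3ed7_lc.SQ
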