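import Pool.Agent.Lib.MP_ff3ed7_lc.SQ.TSpec

/-!
# PROJECT SQ2: the inclusion `MA ⊆ SBP` for one-tape machines in quasilinear time
-/

set_option autoImplicit false

open Finset

namespace Pool.Agent.Lib.MP_ff3ed7_lc.SQ

open Pool.Agent.Lib.MP_ff3ed7_lc.PLT

/-! ## Bounds -/

private lemma InM_two_le_L (n : ℕ) : 2 ≤ Nat.log 2 n + 2 := by omega

private lemma InM_one_le_pl (c n : ℕ) : 1 ≤ pl c n := Nat.one_le_pow _ _ (by omega)

private lemma InM_pl_mono {c d : ℕ} (h : c ≤ d) (n : ℕ) : pl c n ≤ pl d n :=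
  Nat.pow_le_pow_right (by omega) h

private lemma InM_pl_mul (c d n : ℕ) : pl c n * pl d n = pl (c + d) n := (pow_add _ _ _).symm

private lemma InM_const_mul_pl (C c n : ℕ) : C * pl c n ≤ pl (C + c) n := by
  rw [← InM_pl_mul]
  refine Nat.mul_le_mul_right _ ?_
  calc C ≤ 2 ^ C := Nat.lt_two_pow_self.le
    _ ≤ (Nat.log 2 n + 2) ^ C := Nat.pow_le_pow_left (InM_two_le_L n) C

private lemma InM_pow_mul_pl (j c n : ℕ) : 2 ^ j * pl c n ≤ pl (j + c) n := by
  rw [← InM_pl_mul]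
  exact Nat.mul_le_mul_right _ (Nat.pow_le_pow_left (InM_two_le_L n) j)

private lemma InM_len_lt (b n : ℕ) (hb : 1 ≤ b) : n < 2 ^ pl b n := by
  refine (Nat.lt_pow_succ_log_self (by norm_num) n).trans_le (Nat.pow_le_pow_right (by norm_num) ?_)
  have h : pl 1 n ≤ pl b n := InM_pl_mono hb n
  have h1 : pl 1 n = Nat.log 2 n + 2 := pow_one _
  omega

private lemma InM_pr_congr (k : ℕ) {A B : ℕ → Prop} (h : ∀ r < 2 ^ k, (A r ↔ B r)) :
    pr k A = pr k B := by
  unfold pr
  congr 2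
  exact Nat.card_congr (Equiv.subtypeEquivRight fun r => h r.1 r.2)

private lemma InM_blk_lt (k r i : ℕ) : blk k r i < 2 ^ k := Nat.mod_lt _ (by positivity)

/-- The time of the new program. -/
private lemma InM_time_bound (C b d m M n : ℕ) (hM : M + 1 ≤ pl m n) :
    C * ((pl b n * pl b n + (pl b n + 1) * (ql d n + n + 1)) * (M + 1)) ≤
      ql (C + (3 + (b + b + d) + m)) n := by
  have h1 : pl b n * pl b n ≤ pl (b + b + d) n := by
    rw [InM_pl_mul]; exact InM_pl_mono (by omega) n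
  have h2 : pl b n * pl d n ≤ pl (b + b + d) n := by
    rw [InM_pl_mul]; exact InM_pl_mono (by omega) n
  have h3 := InM_one_le_pl (b + b + d) n
  have h4 := InM_pow_mul_pl 3 (b + b + d) n
  have hb1 := InM_one_le_pl b n
  have hd1 := InM_one_le_pl d n
  obtain ⟨Z, hZ⟩ : ∃ Z, Z = pl (b + b + d) n := ⟨_, rfl⟩
  rw [← hZ] at h1 h2 h3 h4
  have h5 : pl b n * pl b n + (pl b n + 1) * (ql d n + n + 1) ≤
      (n + 1) * pl (3 + (b + b + d)) n := by
    refine le_trans ?_ (Nat.mul_le_mul_left _ h4)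
    unfold ql
    have h6 : (pl b n + 1) * ((n + 1) * pl d n + n + 1) ≤ (n + 1) * (4 * Z) := by
      have h7 : (n + 1) * pl d n + n + 1 = (n + 1) * (pl d n + 1) := by ring
      have h8 : (pl b n + 1) * (pl d n + 1) ≤ 4 * Z := by
        have h9 : pl b n + 1 ≤ 2 * pl b n := by omega
        have h10 : pl d n + 1 ≤ 2 * pl d n := by omega
        calc (pl b n + 1) * (pl d n + 1) ≤ (2 * pl b n) * (2 * pl d n) :=
              Nat.mul_le_mul h9 h10
          _ = 4 * (pl b n * pl d n) := by ring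
          _ ≤ 4 * Z := Nat.mul_le_mul_left _ h2
      rw [h7]
      calc (pl b n + 1) * ((n + 1) * (pl d n + 1)) = (n + 1) * ((pl b n + 1) * (pl d n + 1)) := by
            ring
        _ ≤ (n + 1) * (4 * Z) := Nat.mul_le_mul_left _ h8
    have h11 : Z ≤ (n + 1) * Z := Nat.le_mul_of_pos_left _ (Nat.succ_pos n)
    have h12 : (n + 1) * (2 ^ 3 * Z) = (n + 1) * (4 * Z) + 4 * ((n + 1) * Z) := by ring
    omega
  unfold ql at h5 ⊢
  calc C * ((pl b n * pl b n + (pl b n + 1) * ((n + 1) * pl d n + n + 1)) * (M + 1))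
      ≤ C * (((n + 1) * pl (3 + (b + b + d)) n) * pl m n) :=
        Nat.mul_le_mul_left _ (Nat.mul_le_mul h5 hM)
    _ = (n + 1) * (C * (pl (3 + (b + b + d)) n * pl m n)) := by ring
    _ = (n + 1) * (C * pl (3 + (b + b + d) + m) n) := by rw [InM_pl_mul]
    _ ≤ _ := Nat.mul_le_mul_left _ (InM_const_mul_pl _ _ _)

/-- The memory of the new program. -/
private lemma InM_mem_bound (C b n : ℕ) : C * (pl b n * pl b n) ≤ pl (C + (b + b)) n := by
  rw [InM_pl_mul]; exact InM_const_mul_pl _ _ _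

/-- The number of repetitions. -/
private lemma InM_reps (c n : ℕ) : 50 * (pl c n + 2) + 1 ≤ pl (8 + c) n ∧
    50 * (pl c n + 2) * pl c n ≤ pl (8 + (c + c)) n := by
  have h1 := InM_one_le_pl c n
  have h2 := InM_pow_mul_pl 8 c n
  have h3 := InM_pow_mul_pl 8 (c + c) n
  have h4 := InM_pl_mul c c n
  constructor
  · nlinarith
  · nlinarith

/-! ## The inclusion -/

/-- **MA in SBP.** -/
theorem wInM : T_InM := by
  intro hTgen hPrB hAmp hMaSbp
  rintro L ⟨c, d, e₀, P, ⟨⟨K₀, hK₀⟩, hV⟩, hL⟩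
  obtain ⟨R₀, hR₀, hP⟩ := P.exists_lt
  obtain ⟨R, hRdef⟩ : ∃ R, R = R₀ + 2 := ⟨_, rfl⟩
  obtain ⟨P', C, hC, hAl, hgen⟩ := hTgen P R₀ R hR₀ hP hRdef c (c + 2) (.mod (.reg (R + 7)) (.reg (R + 9)))
    (.div (.reg (R + 7)) (.div (.reg (R + 10)) (.num 4)))
    (.mul (.num 50) (.add (.reg (R + 8)) (.num 2)))
    (.mul (.sub (.num 1) (.mod (.div (.reg (R + 7)) (.reg (R + 9)))
      (.div (.div (.reg (R + 10)) (.num 4)) (.reg (R + 9)))))
      (.sub (.num 1) (.sub (.add (.mul (.num 50) (.add (.reg (R + 8)) (.num 2))) (.num 1))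
      (.mul (.num 2) (.reg (R + 5))))))
    (fun _ r _ K _ => r % K) (fun _ r _ _ U => r / (U / 4)) (fun _ _ k _ _ => 50 * (k + 2))
    (fun _ r k K U w => (1 - r / K % (U / 4 / K)) * (1 - (50 * (k + 2) + 1 - 2 * w)))
    (fun _ => rfl) (fun _ => rfl) (fun _ => rfl) (fun _ => rfl)
  set c' := 9 + (c + c) with hc'
  set b := e₀ + c' + c + 3 with hb
  set d' := C + (3 + (b + b + d) + (8 + c)) with hd'
  set e' := C + (b + b) with he'
  have hu : ∀ n, pl c n + 2 ≤ pl (c + 2) n := by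
    intro n
    have h1 := InM_one_le_pl c n
    have h2 := InM_pow_mul_pl 2 c n
    rw [Nat.add_comm 2 c] at h2
    omega
  have main : ∀ (x : List Bool) (y r : ℕ), y < 2 ^ pl c' x.length → r < 2 ^ pl c' x.length →
      TStops P' x y r (ql d' x.length) (pl e' x.length) ∧
      (TAcc P' x y r ↔ r / 2 ^ pl c x.length %
          2 ^ (pl (c + 2) x.length - (pl c x.length + 2)) = 0 ∧
        Maj (pl c x.length) (50 * (pl c x.length + 2)) (TAcc P x (r % 2 ^ pl c x.length))
          (r / 2 ^ (pl c x.length + (pl (c + 2) x.length - (pl c x.length + 2))))) := by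
    intro x y r hy hr
    set n := x.length with hn
    have hle : pl c' n ≤ pl b n := InM_pl_mono (by omega) n
    have hun := hu n
    have e1 : 2 ^ pl (c + 2) n / 4 =
        2 ^ (pl c n + (pl (c + 2) n - (pl c n + 2))) := by
      have : pl (c + 2) n = (pl c n + (pl (c + 2) n - (pl c n + 2))) + 2 := by omega
      conv_lhs => rw [this, pow_add]
      norm_num
    have e2 : 2 ^ pl (c + 2) n / 4 / 2 ^ pl c n = 2 ^ (pl (c + 2) n - (pl c n + 2)) := by
      rw [e1, pow_add]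
      exact Nat.mul_div_cancel_left _ (by positivity)
    have h1 := hgen x y r (ql d n) (pl b n) (pl c n) (pl (c + 2) n) (r % 2 ^ pl c n)
      (r / 2 ^ (pl c n + (pl (c + 2) n - (pl c n + 2))))
      (50 * (pl c n + 2)) rfl rfl rfl (by rw [← e1]) rfl (InM_one_le_pl _ _) (by
        have h2 : pl (c + 2) n ≤ pl b n := InM_pl_mono (by omega) n
        omega) (by
        have h2 : pl (c + 3) n ≤ pl b n := InM_pl_mono (by omega) n
        have h3 := InM_pow_mul_pl 1 (c + 2) n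
        have h4 := InM_one_le_pl (c + 2) n
        rw [show 1 + (c + 2) = c + 3 by ring] at h3
        omega) (InM_len_lt b n (by omega))
      (hy.trans_le (Nat.pow_le_pow_right (by norm_num) hle))
      (hr.trans_le (Nat.pow_le_pow_right (by norm_num) hle))
      (fun i _ => TStops.mono (hV x _ _ (Nat.mod_lt _ (by positivity)) (InM_blk_lt _ _ _)) le_rfl
        (InM_pl_mono (by omega) n))
    refine ⟨TStops.mono h1.1 (InM_time_bound C b d (8 + c) _ n (InM_reps c n).1) (InM_mem_bound C b n),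
      h1.2.trans ?_⟩
    unfold Maj
    simp only [e2]
    rw [_root_.mul_eq_one]
    constructor
    · rintro ⟨h2, h3⟩; constructor <;> omega
    · rintro ⟨h2, h3⟩; constructor <;> omega
  refine ⟨c', d', e', c + 2, P',
    ⟨⟨_, hAl K₀ hK₀⟩, fun x y r hy hr => (main x y r hy hr).1⟩, fun x => ?_⟩
  set n := x.length with hn
  have hun := hu n
  have hM : pl c n + (pl (c + 2) n - (pl c n + 2)) + 50 * (pl c n + 2) * pl c n ≤ pl c' n := by
    have h1 := (InM_reps c n).2
    have h2 : pl (c + 2) n ≤ pl (8 + (c + c)) n := InM_pl_mono (by omega) n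
    have h3 := InM_pow_mul_pl 1 (8 + (c + c)) n
    rw [show 1 + (8 + (c + c)) = c' by omega] at h3
    omega
  obtain ⟨g1, g2⟩ := hMaSbp hPrB hAmp (pl c n) (50 * (pl c n + 2))
    (pl (c + 2) n - (pl c n + 2)) (pl c' n) (TAcc P x) rfl hM
  rw [show pl c n + 2 + (pl (c + 2) n - (pl c n + 2)) = pl (c + 2) n by omega] at g1 g2
  have hcongr : (pr (pl c' n) fun r => TAcc P' x 0 r) =
      pr (pl c' n) fun r => r / 2 ^ pl c n % 2 ^ (pl (c + 2) n - (pl c n + 2)) = 0 ∧
        Maj (pl c n) (50 * (pl c n + 2)) (TAcc P x (r % 2 ^ pl c n))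
          (r / 2 ^ (pl c n + (pl (c + 2) n - (pl c n + 2)))) :=
    InM_pr_congr _ fun r hr => (main x 0 r (by positivity) hr).2
  rw [hcongr]
  exact ⟨fun hx => g1 ((hL x).1 hx), fun hx => g2 ((hL x).2 hx)⟩

end Pool.Agent.Lib.MP_ff3ed7_lc.SQ
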