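import Pool.Agent.Lib.MP_ff3ed7_lc.SQ.TSpec
import Pool.Agent.Lib.MP_ff3ed7_lc.SQ.Fin
import Pool.Agent.Lib.MP_ff3ed7_lc.SQ.NumP

/-!
# PROJECT SQ2: the chain of the classes, from the statements of the single modules
-/

set_option autoImplicit false

open Finset

namespace Pool.Agent.Lib.MP_ff3ed7_lc.SQ

open Pool.Agent.Lib.MP_ff3ed7_lc.PLT

/-- The general program transformation. -/
theorem genC (h1 : T_Gen) (h2 : T_Cln) (h3 : T_Twn) (h4 : T_Rst) (h5 : T_Prp) (h6 : T_Eng) :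
    T_GenC := h1 h2 h3 h4 h5 h6

/-- The chain of the classes of one-tape machines. -/
theorem tmain_chain' (i1 : MAot ⊆ SBPot) (i2 : SBPot ⊆ AMot) (hE : T_Emb) (hM : T_Mem)
    (hS : T_Sml) (n1 : T_NmM) (n2 : T_NmS) (n3 : T_NmP) (hV : S_Vir) (hU : S_Up) (hR : S_Red)
    (hRP : S_RdP) (h1 : S_Prt) (h2 : S_Crs) (h3 : S_Avg) (h3' : S_AvP) (h4 : S_Mj) :
    MAot ⊂ SBPot ∧ SBPot ⊂ AMot ∧ ¬ AMot ⊆ PPot := by
  obtain ⟨C1, hC1⟩ := fin_lowB hR h1 h2 h3 h4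
  obtain ⟨C2, hC2⟩ := fin_lowG hR h1 h2 h3 h4
  obtain ⟨C3, hC3⟩ := fin_lowGP hRP h1 h2 h3'
  obtain ⟨m1, m2⟩ := hM hE
  exact ⟨⟨i1, fun h => n1 hS _ C1 hC1 (h (m2 (mem_SBPql hV hU)))⟩,
    ⟨i2, fun h => n2 hS _ C2 (fun N => (hC2 N).2) (h (m1 (mem_AMql hV hU)))⟩,
    fun h => n3 hS _ C3 hC3 (h (m1 (mem_AMql hV hU)))⟩

end Pool.Agent.Lib.MP_ff3ed7_lc.SQ
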