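import Pool.Agent.Lib.MP_ff3ed7_lc.SQ.TSpec
import Pool.Agent.Lib.MP_ff3ed7_lc.SQ.Num

/-!
# PROJECT SQ2: lower bounds for Merlin-Arthur one-tape machines
-/

set_option autoImplicit false

open Finset

namespace Pool.Agent.Lib.MP_ff3ed7_lc.SQ

open Pool.Agent.Lib.MP_ff3ed7_lc.PLT

/-- Uniform verifiers are nonuniform ones. -/
theorem NmM_seq_of (hS : T_Sml) {L : Set (List Bool)} {k t S : ℕ → ℕ} (h : L ∈ MAw k t S) :
    ∃ K, ∀ n, HasMAseq (slice L n) (k n) (K * (S n + 1)) (t n) := by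
  obtain ⟨P, ⟨-, h1⟩, h2⟩ := h
  obtain ⟨K, hK⟩ := hS P
  refine ⟨K, fun n => ?_⟩
  obtain ⟨Q, hQ, hcard, hM⟩ := hK (S n)
  have h3 : ∀ y ρ : Fin (k n) → Bool, ∃ M : SM Q ℕ,
      (∀ (x : Fin n → Bool) T, (M.run (M.tp x) T).mot ≤ t n) ∧
      ∀ x : Fin n → Bool, M.Accτ (M.tp x) ↔ TAcc P (word x) (cd (k n) y).1 (cd (k n) ρ).1 := by
    intro y ρ
    refine hM n _ _ _ fun x => ?_
    have h4 := h1 (word x) (cd (k n) y).1 (cd (k n) ρ).1
    rw [word_length] at h4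
    exact h4 (cd (k n) y).2 (cd (k n) ρ).2
  choose M hM1 hM2 using h3
  refine ⟨k n, Q, ℕ, hQ, M, hcard, fun m ρ x T => hM1 m ρ x T, fun x hx => ?_, fun x hx y => ?_⟩
  · obtain ⟨y, hy, h4⟩ := (h2 (word x)).1 (slice_eq_true.mp hx)
    rw [word_length] at hy h4
    refine ⟨(cd (k n)).symm ⟨y, hy⟩, ?_⟩
    simp only [hM2, Equiv.apply_symm_apply]
    rw [prob_pr (k n) fun r => TAcc P (word x) y r]
    exact h4
  · have h4 := (h2 (word x)).2 (slice_eq_false.mp hx) (cd (k n) y).1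
    rw [word_length] at h4
    simp only [hM2]
    rw [prob_pr (k n) fun r => TAcc P (word x) (cd (k n) y).1 r]
    exact h4 (cd (k n) y).2

/-- Not in `MA` for one-tape machines in quasilinear time. -/
theorem wNmM : T_NmM := by
  intro hS L C h
  rintro ⟨c, d, e, hL⟩
  obtain ⟨K, hK⟩ := NmM_seq_of hS hL
  obtain ⟨N, hN⟩ := growth (C * (2 * (2 * K + 1) * 3) ^ 10) ((c + e + d) * 10)
  have hN1 : 1 ≤ N := by omega
  have h1 := h N _ _ _ (hK N)
  have h2 : (pl c N + 1) * (K * (pl e N + 1) + 1) * (ql d N / N + 1) ≤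
      2 * (2 * K + 1) * 3 * pl (c + e + d) N := by
    have a1 : pl c N + 1 ≤ 2 * pl c N := by
      have := one_le_pl c N
      omega
    calc (pl c N + 1) * (K * (pl e N + 1) + 1) * (ql d N / N + 1)
        ≤ (2 * pl c N) * ((2 * K + 1) * pl e N) * (3 * pl d N) :=
          Nat.mul_le_mul (Nat.mul_le_mul a1 (ex_pl _ _ _)) (ql_div d N hN1)
      _ = 2 * (2 * K + 1) * 3 * (pl c N * pl e N * pl d N) := by ring
      _ = _ := by rw [pl_add, pl_add]
  have h3 : N ≤ C * (2 * (2 * K + 1) * 3) ^ 10 * pl ((c + e + d) * 10) N := by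
    calc N ≤ C * ((pl c N + 1) * (K * (pl e N + 1) + 1) * (ql d N / N + 1)) ^ 10 := h1
      _ ≤ C * (2 * (2 * K + 1) * 3 * pl (c + e + d) N) ^ 10 :=
        Nat.mul_le_mul_left _ (Nat.pow_le_pow_left h2 10)
      _ = C * (2 * (2 * K + 1) * 3) ^ 10 * pl ((c + e + d) * 10) N := by
        rw [mul_pow, pl_pow, ← mul_assoc]
  omega

end Pool.Agent.Lib.MP_ff3ed7_lc.SQ
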