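import Pool.Agent.Lib.MP_ff3ed7_lc.SQ.TSpec
import Pool.Agent.Lib.MP_ff3ed7_lc.SQ.Num

/-!
# PROJECT SQ2: lower bounds for `PP` one-tape machines
-/

set_option autoImplicit false

open Finset

namespace Pool.Agent.Lib.MP_ff3ed7_lc.SQ

open Pool.Agent.Lib.MP_ff3ed7_lc.PLT

/-- Uniform verifiers are nonuniform ones. -/
theorem NmP_seq_of (hS : T_Sml) {L : Set (List Bool)} {k t S : ℕ → ℕ} (h : L ∈ PPw k t S) :
    ∃ K, ∀ n, HasPPseq (slice L n) (k n + 1) (K * (S n + 1)) (t n) := by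
  obtain ⟨P, ⟨-, h1⟩, h2⟩ := h
  obtain ⟨K, hK⟩ := hS P
  refine ⟨K, fun n => ?_⟩
  obtain ⟨Q, hQ, hcard, hM⟩ := hK (S n)
  have h3 : ∀ ρ : Fin (k n) → Bool, ∃ M : SM Q ℕ,
      (∀ (x : Fin n → Bool) T, (M.run (M.tp x) T).mot ≤ t n) ∧
      ∀ x : Fin n → Bool, M.Accτ (M.tp x) ↔ TAcc P (word x) 0 (cd (k n) ρ).1 := by
    intro ρ
    refine hM n _ _ _ fun x => ?_
    have h4 := h1 (word x) 0 (cd (k n) ρ).1
    rw [word_length] at h4
    exact h4 (by positivity) (cd (k n) ρ).2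
  choose M hM1 hM2 using h3
  refine ⟨k n, Q, ℕ, hQ, M, hcard, fun ρ x T => hM1 ρ x T, fun x hx => ?_, fun x hx => ?_⟩
  · have h4 := (h2 (word x)).mp (slice_eq_true.mp hx)
    rw [word_length] at h4
    simp only [hM2]
    rw [prob_pr (k n) fun r => TAcc P (word x) 0 r]
    unfold pr at h4 ⊢
    set c := Nat.card {r : Fin (2 ^ k n) // TAcc P (word x) 0 r} with hc
    have h2k : (0 : ℝ) < 2 ^ k n := by positivity
    rw [lt_div_iff₀ h2k] at h4
    rw [le_div_iff₀ h2k]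
    have h5 : (1 / 2 + (1 / 2) ^ (k n + 1) : ℝ) * 2 ^ k n = (2 ^ k n + 1) / 2 := by
      rw [add_mul, pow_succ]
      have : ((1 : ℝ) / 2) ^ k n * 2 ^ k n = 1 := by
        rw [← mul_pow]
        norm_num
      have h6 : ((1 / 2) ^ k n * (1 / 2) * 2 ^ k n : ℝ) = ((1 / 2) ^ k n * 2 ^ k n) * (1 / 2) := by
        ring
      rw [h6, this]
      ring
    rw [h5]
    have h7 : (2 ^ k n : ℝ) < 2 * c := by linarith
    have h8 : 2 ^ k n < 2 * c := by exact_mod_cast h7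
    have h9 : 2 ^ k n + 1 ≤ 2 * c := h8
    have h10 : (2 ^ k n + 1 : ℝ) ≤ 2 * c := by exact_mod_cast h9
    linarith
  · have h4 : ¬ (1 / 2 < pr (k (word x).length) fun r => TAcc P (word x) 0 r) :=
      fun h => slice_eq_false.mp hx ((h2 (word x)).mpr h)
    rw [word_length] at h4
    simp only [hM2]
    rw [prob_pr (k n) fun r => TAcc P (word x) 0 r]
    exact not_lt.mp h4

/-- Not in `PP` for one-tape machines in quasilinear time. -/
theorem wNmP : T_NmP := by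
  intro hS L C h
  rintro ⟨c, d, e, hL⟩
  obtain ⟨K, hK⟩ := NmP_seq_of hS hL
  obtain ⟨N, hN⟩ := growth (C * (3 * (2 * K + 1) * 3) ^ 10) ((c + e + d) * 10)
  have hN1 : 1 ≤ N := by omega
  have h1 := h N _ _ _ (hK N)
  have h2 : (pl c N + 1 + 1) * (K * (pl e N + 1) + 1) * (ql d N / N + 1) ≤
      3 * (2 * K + 1) * 3 * pl (c + e + d) N := by
    have a1 : pl c N + 1 + 1 ≤ 3 * pl c N := by
      have := one_le_pl c N
      omega
    calc (pl c N + 1 + 1) * (K * (pl e N + 1) + 1) * (ql d N / N + 1)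
        ≤ (3 * pl c N) * ((2 * K + 1) * pl e N) * (3 * pl d N) :=
          Nat.mul_le_mul (Nat.mul_le_mul a1 (ex_pl _ _ _)) (ql_div d N hN1)
      _ = 3 * (2 * K + 1) * 3 * (pl c N * pl e N * pl d N) := by ring
      _ = _ := by rw [pl_add, pl_add]
  have h3 : N ≤ C * (3 * (2 * K + 1) * 3) ^ 10 * pl ((c + e + d) * 10) N := by
    calc N ≤ C * ((pl c N + 1 + 1) * (K * (pl e N + 1) + 1) * (ql d N / N + 1)) ^ 10 := h1
      _ ≤ C * (3 * (2 * K + 1) * 3 * pl (c + e + d) N) ^ 10 :=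
        Nat.mul_le_mul_left _ (Nat.pow_le_pow_left h2 10)
      _ = C * (3 * (2 * K + 1) * 3) ^ 10 * pl ((c + e + d) * 10) N := by
        rw [mul_pow, pl_pow, ← mul_assoc]
  omega

end Pool.Agent.Lib.MP_ff3ed7_lc.SQ
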