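import Pool.Agent.Lib.MP_ff3ed7_lc.SQ.TSpec
import Pool.Agent.Lib.MP_ff3ed7_lc.SQ.Num

/-!
# PROJECT SQ2: `SBP`: uniform verifiers are nonuniform ones, growth
-/

set_option autoImplicit false

open Finset

namespace Pool.Agent.Lib.MP_ff3ed7_lc.SQ

open Pool.Agent.Lib.MP_ff3ed7_lc.PLT

private theorem NmS_of (hS : T_Sml) {L : Set (List Bool)} {k t S u : ℕ → ℕ}
    (h : L ∈ SBPw k t S u) :
    ∃ K, ∀ n, HasSBPseq (slice L n) (u n) (K * (S n + 1)) (t n) := by
  obtain ⟨P, ⟨-, h1⟩, h2⟩ := h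
  obtain ⟨K, hK⟩ := hS P
  refine ⟨K, fun n => ?_⟩
  obtain ⟨Q, hQ, hcard, hM⟩ := hK (S n)
  have h3 : ∀ ρ : Fin (k n) → Bool, ∃ M : SM Q ℕ,
      (∀ (x : Fin n → Bool) T, (M.run (M.tp x) T).mot ≤ t n) ∧
      ∀ x : Fin n → Bool, M.Accτ (M.tp x) ↔ TAcc P (word x) 0 (cd (k n) ρ).1 := by
    intro ρ
    refine hM n _ _ _ fun x => ?_
    have h4 := h1 (word x) 0 (cd (k n) ρ).1
    rw [word_length] at h4
    exact h4 (by positivity) (cd (k n) ρ).2
  choose M hM1 hM2 using h3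
  refine ⟨k n, Q, ℕ, hQ, M, hcard, fun ρ x T => hM1 ρ x T, fun x hx => ?_, fun x hx => ?_⟩
  · have h4 := (h2 (word x)).1 (slice_eq_true.mp hx)
    rw [word_length] at h4
    simp only [hM2]
    rw [prob_pr (k n) fun r => TAcc P (word x) 0 r]
    exact h4
  · have h4 := (h2 (word x)).2 (slice_eq_false.mp hx)
    rw [word_length] at h4
    simp only [hM2]
    rw [prob_pr (k n) fun r => TAcc P (word x) 0 r]
    exact h4

/-- Not in `SBP` with one-tape machines in quasilinear time. -/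
theorem wNmS : T_NmS := by
  intro hS L C h
  rintro ⟨c, d, e, f, hL⟩
  obtain ⟨K, hK⟩ := NmS_of hS hL
  obtain ⟨N, hN⟩ := growth (C * (1 + (2 * K + 1) * 3) ^ 10) ((f + (e + d)) * 10)
  have hN1 : 1 ≤ N := by omega
  have h1 := h N _ _ _ (hK N)
  have h2 : pl f N + (K * (pl e N + 1) + 1) * (ql d N / N + 1) ≤
      (1 + (2 * K + 1) * 3) * pl (f + (e + d)) N := by
    have a2 : (K * (pl e N + 1) + 1) * (ql d N / N + 1) ≤
        (2 * K + 1) * 3 * pl (e + d) N := by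
      calc (K * (pl e N + 1) + 1) * (ql d N / N + 1)
          ≤ ((2 * K + 1) * pl e N) * (3 * pl d N) :=
            Nat.mul_le_mul (ex_pl _ _ _) (ql_div d N hN1)
        _ = (2 * K + 1) * 3 * (pl e N * pl d N) := by ring
        _ = _ := by rw [pl_add]
    have a3 := pl_mono (Nat.le_add_right f (e + d)) N
    have a4 := pl_mono (Nat.le_add_left (e + d) f) N
    calc pl f N + (K * (pl e N + 1) + 1) * (ql d N / N + 1)
        ≤ pl (f + (e + d)) N + (2 * K + 1) * 3 * pl (f + (e + d)) N :=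
          Nat.add_le_add a3 (a2.trans (Nat.mul_le_mul_left _ a4))
      _ = _ := by ring
  have h3 : N ≤ C * (1 + (2 * K + 1) * 3) ^ 10 * pl ((f + (e + d)) * 10) N := by
    calc N ≤ C * (pl f N + (K * (pl e N + 1) + 1) * (ql d N / N + 1)) ^ 10 := h1
      _ ≤ C * ((1 + (2 * K + 1) * 3) * pl (f + (e + d)) N) ^ 10 :=
        Nat.mul_le_mul_left _ (Nat.pow_le_pow_left h2 10)
      _ = C * (1 + (2 * K + 1) * 3) ^ 10 * pl ((f + (e + d)) * 10) N := by
        rw [mul_pow, pl_pow, ← mul_assoc]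
  omega

end Pool.Agent.Lib.MP_ff3ed7_lc.SQ
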