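import Pool.Agent.Lib.MP_ff3ed7_lc.SQ.TSpec

/-!
# PROJECT SQ2: the reset of the tape
-/

set_option autoImplicit false

open Finset

namespace Pool.Agent.Lib.MP_ff3ed7_lc.SQ

open Pool.Agent.Lib.MP_ff3ed7_lc.PLT

/-- The tape, when the cells from `j` on are done. -/
private def Rst_tp (v b : ℕ → ℕ) (j : ℕ) : ℕ → ℕ := fun i => if i < j then 2 * v i + b i else 3 * b i

/-- The loop. -/
private def Rst_body (R : ℕ) : TProg := .seq (.set (R + 1) (.sub (.reg (R + 1)) (.num 1)))
    (.seq (.read R (.reg (R + 1)))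
      (.write (.reg (R + 1)) (.mul (.num 3) (.mod (.reg R) (.num 2)))))

private lemma Rst_size {a S : ℕ} (h : a < 2 ^ S) : Nat.size a ≤ S := Nat.size_le.2 h

/-- One round. -/
private lemma Rst_round (R S j h : ℕ) (v b s : ℕ → ℕ) (hb : ∀ j, b j ≤ 1) (hv : ∀ j, v j < 2 ^ S)
    (hs : s (R + 1) = j + 1) (hj : j < 2 ^ S) : ∃ (s' : ℕ → ℕ) (c : ℕ),
    TRun (S + 2) (Rst_body R) s (Rst_tp v b (j + 1)) h s' (Rst_tp v b j) j c ∧
    (∀ i, i ≠ R → i ≠ R + 1 → s' i = s i) ∧ s' (R + 1) = j ∧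
    (1 + Nat.size (j + 1)) + c ≤ 24 * (S + 1) + dst j h := by
  have hp1 : 2 ^ (S + 1) = 2 * 2 ^ S := by rw [pow_succ]; ring
  have hp2 : 2 ^ (S + 2) = 4 * 2 ^ S := by rw [pow_add]; ring
  have hp0 : 1 ≤ 2 ^ S := Nat.one_le_two_pow
  set s1 : ℕ → ℕ := Function.update s (R + 1) j with hs1
  have e1 : (Expr.sub (.reg (R + 1)) (.num 1)).val s = j := by
    simp only [Expr.val, hs]
    omega
  have r1 : TRun (S + 2) (.set (R + 1) (.sub (.reg (R + 1)) (.num 1))) s (Rst_tp v b (j + 1)) h s1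
      (Rst_tp v b (j + 1)) h ((Expr.sub (.reg (R + 1)) (.num 1)).cost s) := by
    have := TRun.set (S := S + 2) (R + 1) (.sub (.reg (R + 1)) (.num 1)) s (Rst_tp v b (j + 1)) h
      (by rw [e1]; omega)
    rw [e1] at this
    exact this
  have e2 : (Expr.reg (R + 1)).val s1 = j := by simp [Expr.val, hs1]
  have t2 : Rst_tp v b (j + 1) j = 2 * v j + b j := by simp [Rst_tp]
  have hvj := hv j
  have hbj := hb j
  set s2 : ℕ → ℕ := Function.update s1 R (2 * v j + b j) with hs2
  have r2 : TRun (S + 2) (.read R (.reg (R + 1))) s1 (Rst_tp v b (j + 1)) h s2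
      (Rst_tp v b (j + 1)) j ((Expr.reg (R + 1)).cost s1 + Nat.size (2 * v j + b j) + dst j h) := by
    have := TRun.read (S := S + 2) R (.reg (R + 1)) s1 (Rst_tp v b (j + 1)) h
      (by rw [e2]; omega) (by rw [e2, t2]; omega)
    rw [e2, t2] at this
    exact this
  have hRR : R + 1 ≠ R := by omega
  have e3 : (Expr.reg (R + 1)).val s2 = j := by
    simp only [Expr.val, hs2]
    rw [Function.update_of_ne hRR, hs1, Function.update_self]
  have e4 : (Expr.mul (.num 3) (.mod (.reg R) (.num 2))).val s2 = 3 * b j := by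
    simp only [Expr.val, hs2]
    rw [Function.update_self]
    omega
  have t3 : Function.update (Rst_tp v b (j + 1)) j (3 * b j) = Rst_tp v b j := by
    funext i
    by_cases hi : i = j
    · subst hi
      rw [Function.update_self]
      simp [Rst_tp]
    · rw [Function.update_of_ne hi]
      unfold Rst_tp
      by_cases hij : i < j
      · rw [if_pos (by omega), if_pos hij]
      · rw [if_neg (by omega), if_neg hij]
  have r3 : TRun (S + 2) (.write (.reg (R + 1)) (.mul (.num 3) (.mod (.reg R) (.num 2)))) s2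
      (Rst_tp v b (j + 1)) j s2 (Rst_tp v b j) j
      ((Expr.reg (R + 1)).cost s2 + (Expr.mul (.num 3) (.mod (.reg R) (.num 2))).cost s2 +
        dst j j) := by
    have := TRun.write (S := S + 2) (.reg (R + 1)) (.mul (.num 3) (.mod (.reg R) (.num 2))) s2
      (Rst_tp v b (j + 1)) j (by rw [e3]; omega) (by rw [e4]; omega)
    rw [e3, e4, t3] at this
    exact this
  refine ⟨s2, _, TRun.seq r1 (TRun.seq r2 r3), ?_, ?_, ?_⟩
  · intro i hi hi'
    rw [hs2, Function.update_of_ne hi, hs1, Function.update_of_ne hi']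
  · exact e3
  · have z1 : Nat.size (j + 1) ≤ S + 1 := Rst_size (by omega)
    have z2 : Nat.size j ≤ S := Rst_size hj
    have z3 : Nat.size (2 * v j + b j) ≤ S + 1 := Rst_size (by omega)
    have z4 : Nat.size (3 * b j) ≤ 2 := Rst_size (by omega)
    have z5 : Nat.size ((2 * v j + b j) % 2) ≤ 1 := Rst_size (by omega)
    have z6 : Nat.size 1 ≤ 1 := Rst_size (by norm_num)
    have z7 : Nat.size 2 ≤ 2 := Rst_size (by norm_num)
    have z8 : Nat.size 3 ≤ 2 := Rst_size (by norm_num)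
    have c1 : (Expr.sub (.reg (R + 1)) (.num 1)).cost s =
        (1 + Nat.size (j + 1)) + (1 + Nat.size 1) + 1 + Nat.size j := by
      simp only [Expr.cost, Expr.val, hs]
      rfl
    have c2 : (Expr.reg (R + 1)).cost s1 = 1 + Nat.size j := by
      simp [Expr.cost, hs1]
    have c3 : (Expr.reg (R + 1)).cost s2 = 1 + Nat.size j := by
      have := e3
      simp only [Expr.val] at this
      simp only [Expr.cost]
      rw [this]
    have c4 : (Expr.mul (.num 3) (.mod (.reg R) (.num 2))).cost s2 =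
        (1 + Nat.size 3) + ((1 + Nat.size (2 * v j + b j)) + (1 + Nat.size 2) + 1 +
          Nat.size ((2 * v j + b j) % 2)) + 1 + Nat.size (3 * b j) := by
      have h5 : s2 R = 2 * v j + b j := by rw [hs2, Function.update_self]
      have h6 : 3 * ((2 * v j + b j) % 2) = 3 * b j := by omega
      simp only [Expr.cost, Expr.val, h5, h6]
    have c5 : dst j j = 0 := by simp [dst]
    rw [c1, c2, c3, c4, c5]
    omega

private lemma Rst_loop (R S m : ℕ) (v b : ℕ → ℕ) (hb : ∀ j, b j ≤ 1) (hv : ∀ j, v j < 2 ^ S)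
    (hm : m < 2 ^ S) : ∀ j ≤ m + 1, ∀ (h : ℕ) (s : ℕ → ℕ), s (R + 1) = j → (j = 0 → h = 0) →
    ∃ (s' : ℕ → ℕ) (c : ℕ),
    TRun (S + 2) (.loop (.reg (R + 1)) (Rst_body R)) s (Rst_tp v b j) h s' (Rst_tp v b 0) 0 c ∧
    (∀ i, i ≠ R → i ≠ R + 1 → s' i = s i) ∧ s' (R + 1) = 0 ∧
    c ≤ 26 * ((S + 1) * (j + 1)) + dst j h := by
  intro j
  induction j with
  | zero =>
    intro _ h s hs hh
    have hh0 := hh rfl
    subst hh0
    refine ⟨s, _, TRun.loopF (by simpa [Expr.val] using hs), fun _ _ _ => rfl, hs, ?_⟩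
    simp only [Expr.cost, hs, Nat.size_zero]
    nlinarith [Nat.zero_le S, Nat.zero_le (dst 0 0)]
  | succ j ih =>
    intro hj h s hs _
    obtain ⟨s1, c1, r1, f1, g1, b1⟩ := Rst_round R S j h v b s hb hv hs (by omega)
    obtain ⟨s2, c2, r2, f2, g2, b2⟩ := ih (by omega) j s1 g1 (fun h0 => h0)
    refine ⟨s2, _, TRun.loopT (by simp [Expr.val, hs]) r1 r2, ?_, g2, ?_⟩
    · intro i hi hi'
      rw [f2 i hi hi', f1 i hi hi']
    · have c3 : (Expr.reg (R + 1)).cost s = 1 + Nat.size (j + 1) := by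
        simp only [Expr.cost, hs]
      have c4 : dst j j = 0 := by simp [dst]
      have c5 : dst j h ≤ dst (j + 1) h + 1 := by unfold dst; omega
      rw [c3]
      rw [c4] at b2
      have c6 : (S + 1) * (j + 1 + 1) = (S + 1) * (j + 1) + (S + 1) := by ring
      rw [c6]
      omega

theorem wRst : T_Rst := by
  refine ⟨100, ?_⟩
  intro R S m h v b s hb hv hs hm hvb
  have hp2 : 2 ^ (S + 2) = 4 * 2 ^ S := by rw [pow_add]; ring
  set s1 : ℕ → ℕ := Function.update s (R + 1) (m + 1) with hs1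
  have e1 : (Expr.add (.reg (R + 1)) (.num 1)).val s = m + 1 := by
    simp only [Expr.val, hs]
  have t0 : (fun j => 2 * v j + b j) = Rst_tp v b (m + 1) := by
    funext i
    unfold Rst_tp
    by_cases hi : i < m + 1
    · rw [if_pos hi]
    · rw [if_neg hi, hvb i (by omega)]
      ring
  have t1 : (fun j => 3 * b j) = Rst_tp v b 0 := by
    funext i
    unfold Rst_tp
    rw [if_neg (Nat.not_lt_zero i)]
  have r1 : TRun (S + 2) (.set (R + 1) (.add (.reg (R + 1)) (.num 1))) s (Rst_tp v b (m + 1)) h s1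
      (Rst_tp v b (m + 1)) h ((Expr.add (.reg (R + 1)) (.num 1)).cost s) := by
    have := TRun.set (S := S + 2) (R + 1) (.add (.reg (R + 1)) (.num 1)) s (Rst_tp v b (m + 1)) h
      (by rw [e1]; omega)
    rw [e1] at this
    exact this
  obtain ⟨s2, c2, r2, f2, g2, b2⟩ := Rst_loop R S m v b hb hv hm (m + 1) le_rfl h s1
    (by rw [hs1, Function.update_self]) (fun h0 => absurd h0 (Nat.succ_ne_zero m))
  rw [t0, t1]
  refine ⟨s2, _, TRun.seq r1 r2, ?_, g2, ?_⟩
  · intro i hi hi'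
    rw [f2 i hi hi', hs1, Function.update_of_ne hi']
  · have z1 : Nat.size m ≤ S := Rst_size hm
    have z2 : Nat.size (m + 1) ≤ S + 2 := Rst_size (by omega)
    have z3 : Nat.size 1 ≤ 1 := Rst_size (by norm_num)
    have c1 : (Expr.add (.reg (R + 1)) (.num 1)).cost s =
        (1 + Nat.size m) + (1 + Nat.size 1) + 1 + Nat.size (m + 1) := by
      simp only [Expr.cost, Expr.val, hs]
    have c5 : dst (m + 1) h ≤ m + 1 + h := by unfold dst; omega
    have c6 : (S + 1) * (m + 1 + 1) = (S + 1) * (m + 1) + (S + 1) := by ring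
    have c7 : 100 * (S + 1) * (m + h + 1) = 100 * ((S + 1) * (m + 1)) + 100 * ((S + 1) * h) := by
      ring
    have c8 : (S + 1) ≤ (S + 1) * (m + 1) := Nat.le_mul_of_pos_right _ (Nat.succ_pos m)
    have c9 : m + 1 ≤ (S + 1) * (m + 1) := Nat.le_mul_of_pos_left _ (Nat.succ_pos S)
    have c10 : h ≤ (S + 1) * h := Nat.le_mul_of_pos_left _ (Nat.succ_pos S)
    rw [c1, c7]
    rw [c6] at b2
    omega

end Pool.Agent.Lib.MP_ff3ed7_lc.SQ
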