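import Pool.Agent.Lib.MP_ff3ed7_lc.SQ.TSpec

/-!
# PROJECT SQ2: one-tape programs are sequential machines (`wSml`)
-/

set_option autoImplicit false

open Finset

namespace Pool.Agent.Lib.MP_ff3ed7_lc.SQ

open Pool.Agent.Lib.MP_ff3ed7_lc.PLT

/-- The lists which occur while `p` is executed and `l` remains to be done. -/
def TSml_cs : TProg → List TProg → Set (List TProg)
  | .set i e, l => {.set i e :: l}
  | .read i e, l => {.read i e :: l}
  | .write e f, l => {.write e f :: l}
  | .seq p q, l => {.seq p q :: l} ∪ TSml_cs p (q :: l) ∪ TSml_cs q l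
  | .ite e p q, l => {.ite e p q :: l} ∪ TSml_cs p l ∪ TSml_cs q l
  | .loop e p, l => {.loop e p :: l} ∪ TSml_cs p (.loop e p :: l)

private theorem cs_fin (p : TProg) : ∀ l, (TSml_cs p l).Finite := by
  induction p with
  | set i e => intro l; exact Set.finite_singleton _
  | read i e => intro l; exact Set.finite_singleton _
  | write e f => intro l; exact Set.finite_singleton _
  | seq p q ihp ihq =>
    intro l; exact ((Set.finite_singleton _).union (ihp _)).union (ihq _)
  | ite e p q ihp ihq =>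
    intro l; exact ((Set.finite_singleton _).union (ihp _)).union (ihq _)
  | loop e p ih => intro l; exact (Set.finite_singleton _).union (ih _)

private theorem cs_self (p : TProg) (l : List TProg) : p :: l ∈ TSml_cs p l := by
  cases p <;> simp [TSml_cs]

section machine

variable (C : Finset (List TProg)) (hC : [] ∈ C) (R S : ℕ)

/-- Memory states: what remains to be done, and the registers. -/
abbrev TSml_Q : Type := {l // l ∈ C} × (Fin R → Fin (2 ^ S))

open Classical in
/-- Coding. -/
noncomputable def TSml_enc (l : List TProg) (s : ℕ → ℕ) : TSml_Q C R S :=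
  (if h : l ∈ C then ⟨l, h⟩ else ⟨[], hC⟩,
    fun i => ⟨s i % 2 ^ S, Nat.mod_lt _ (Nat.two_pow_pos S)⟩)

/-- Decoding of the registers. -/
def TSml_reg (ρ : Fin R → Fin (2 ^ S)) (i : ℕ) : ℕ := if h : i < R then (ρ ⟨i, h⟩).1 else 0

/-- The action for the list `l` and the registers `s`. -/
noncomputable def TSml_ac : List TProg → (ℕ → ℕ) → Act (TSml_Q C R S) ℕ
  | [], s => .stop (decide (s 0 = 1))
  | .set i e :: l, s => .jump (TSml_enc C hC R S l (Function.update s i (e.val s)))
  | .read i e :: l, s => .visit (e.val s) fun b =>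
      (b, TSml_enc C hC R S l (Function.update s i b))
  | .write e f :: l, s => .visit (e.val s) fun _ => (f.val s, TSml_enc C hC R S l s)
  | .seq p q :: l, s => .jump (TSml_enc C hC R S (p :: q :: l) s)
  | .ite e p q :: l, s => .jump (if e.val s ≠ 0 then TSml_enc C hC R S (p :: l) s
      else TSml_enc C hC R S (q :: l) s)
  | .loop e p :: l, s => .jump (if e.val s ≠ 0 then TSml_enc C hC R S (p :: .loop e p :: l) s
      else TSml_enc C hC R S l s)

/-- The symbol for an input bit. -/
def TSml_sym (o : Option Bool) : ℕ := if o.getD false then 1 else 0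

/-- The machine. -/
noncomputable def TSml_M (P : TProg) (N y r : ℕ) : SM (TSml_Q C R S) ℕ where
  start := TSml_enc C hC R S [P] (ini N y r)
  act q := TSml_ac C hC R S q.1.1 (TSml_reg R S q.2)
  sym := TSml_sym

variable {C hC R S}

/-- The registers which occur. -/
def TSml_Gd (R S : ℕ) (s : ℕ → ℕ) : Prop := (∀ i, s i < 2 ^ S) ∧ ∀ i, R ≤ i → s i = 0

private theorem reg_enc (l : List TProg) {s : ℕ → ℕ} (hs : TSml_Gd R S s) :
    TSml_reg R S (TSml_enc C hC R S l s).2 = s := by
  funext i
  unfold TSml_reg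
  by_cases h : i < R
  · rw [dif_pos h]
    exact Nat.mod_eq_of_lt (hs.1 i)
  · rw [dif_neg h]
    exact (hs.2 i (not_lt.1 h)).symm

private theorem lst_enc {l : List TProg} (hl : l ∈ C) (s : ℕ → ℕ) :
    (TSml_enc C hC R S l s).1.1 = l := by
  unfold TSml_enc
  simp only [dif_pos hl]

private theorem act_enc (P : TProg) (N y r : ℕ) {l : List TProg} (hl : l ∈ C) {s : ℕ → ℕ}
    (hs : TSml_Gd R S s) :
    (TSml_M C hC R S P N y r).act (TSml_enc C hC R S l s) = TSml_ac C hC R S l s := by
  unfold TSml_M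
  simp only [lst_enc hl, reg_enc l hs]

private theorem Gd_update {s : ℕ → ℕ} (hs : TSml_Gd R S s) {i v : ℕ} (hi : i < R) (hv : v < 2 ^ S) :
    TSml_Gd R S (Function.update s i v) := by
  refine ⟨fun j => ?_, fun j hj => ?_⟩
  · by_cases h : j = i
    · subst h; simpa using hv
    · rw [Function.update_of_ne h]; exact hs.1 j
  · rw [Function.update_of_ne (by omega)]; exact hs.2 j hj

/-- Reachability. -/
private def Rch {Q Γ : Type} (M : SM Q Γ) (a b : Cfg Q Γ) : Prop := ∃ T, M.step^[T] a = b

private theorem Rch.trans {Q Γ : Type} {M : SM Q Γ} {a b c : Cfg Q Γ} (h : Rch M a b)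
    (h' : Rch M b c) : Rch M a c := by
  obtain ⟨T, rfl⟩ := h
  obtain ⟨T', rfl⟩ := h'
  exact ⟨T' + T, Function.iterate_add_apply _ _ _ _⟩

private theorem Rch.one {Q Γ : Type} {M : SM Q Γ} {a b : Cfg Q Γ} (h : M.step a = b) :
    Rch M a b := ⟨1, h⟩

private theorem tp_bit (P : TProg) (N y r : ℕ) (x : Fin N → Bool) :
    (TSml_M C hC R S P N y r).tp x = bit (word x) := by
  funext v
  unfold SM.tp TSml_M TSml_sym
  simp only
  by_cases h : v < N
  · rw [dif_pos h, bit_word x v h]
    simp only [Option.getD_some]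
    cases x ⟨v, h⟩ <;> rfl
  · rw [dif_neg h, bit_word_ge x v h]
    rfl

private theorem sim (P : TProg) (N y r : ℕ) {p : TProg} {s s' τ τ' : ℕ → ℕ}
    {h h' c : ℕ} (a : TRun S p s τ h s' τ' h' c) :
    p.Lt R → TSml_Gd R S s → ∀ l, TSml_cs p l ⊆ (C : Set (List TProg)) → l ∈ C → ∀ m : ℕ, ∃ m',
      Rch (TSml_M C hC R S P N y r) ⟨TSml_enc C hC R S (p :: l) s, h, τ, m⟩
        ⟨TSml_enc C hC R S l s', h', τ', m'⟩ ∧ m' ≤ m + c ∧ TSml_Gd R S s' := by
  induction a with
  | set i e s τ h hS =>
    intro hp hs l hcs hl m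
    have h1 : TProg.set i e :: l ∈ C := hcs (cs_self _ _)
    refine ⟨m, Rch.one ?_, by omega, Gd_update hs hp.1 hS⟩
    unfold SM.step
    simp only [act_enc P N y r h1 hs, TSml_ac]
  | read i e s τ h he hS =>
    intro hp hs l hcs hl m
    have h1 : TProg.read i e :: l ∈ C := hcs (cs_self _ _)
    refine ⟨m + dst (e.val s) h, Rch.one ?_, by omega, Gd_update hs hp.1 hS⟩
    unfold SM.step
    simp only [act_enc P N y r h1 hs, TSml_ac, Function.update_eq_self]
  | write e f s τ h he hS =>
    intro hp hs l hcs hl m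
    have h1 : TProg.write e f :: l ∈ C := hcs (cs_self _ _)
    refine ⟨m + dst (e.val s) h, Rch.one ?_, by omega, hs⟩
    unfold SM.step
    simp only [act_enc P N y r h1 hs, TSml_ac]
  | seq a b iha ihb =>
    rename_i p q _ _ _ _ _ _ _ _ _ _ _
    intro hp hs l hcs hl m
    have h1 : TProg.seq p q :: l ∈ C := hcs (cs_self _ _)
    have hcp : TSml_cs p (q :: l) ⊆ (C : Set (List TProg)) := fun z hz =>
      hcs (Or.inl (Or.inr hz))
    have hcq : TSml_cs q l ⊆ (C : Set (List TProg)) := fun z hz => hcs (Or.inr hz)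
    obtain ⟨m1, r1, e1, g1⟩ := iha hp.1 hs (q :: l) hcp (hcq (cs_self _ _)) m
    obtain ⟨m2, r2, e2, g2⟩ := ihb hp.2 g1 l hcq hl m1
    refine ⟨m2, (Rch.one ?_).trans (r1.trans r2), by omega, g2⟩
    unfold SM.step
    simp only [act_enc P N y r h1 hs, TSml_ac]
  | iteT he a ih =>
    rename_i e p q _ _ _ _ _ _ _
    intro hp hs l hcs hl m
    have h1 : TProg.ite e p q :: l ∈ C := hcs (cs_self _ _)
    obtain ⟨m1, r1, e1, g1⟩ := ih hp.2.1 hs l (fun z hz => hcs (Or.inl (Or.inr hz))) hl m
    refine ⟨m1, (Rch.one ?_).trans r1, by omega, g1⟩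
    unfold SM.step
    simp only [act_enc P N y r h1 hs, TSml_ac, if_pos he]
  | iteF he a ih =>
    rename_i e p q _ _ _ _ _ _ _
    intro hp hs l hcs hl m
    have h1 : TProg.ite e p q :: l ∈ C := hcs (cs_self _ _)
    obtain ⟨m1, r1, e1, g1⟩ := ih hp.2.2 hs l (fun z hz => hcs (Or.inr hz)) hl m
    refine ⟨m1, (Rch.one ?_).trans r1, by omega, g1⟩
    unfold SM.step
    simp only [act_enc P N y r h1 hs, TSml_ac, if_neg (not_not.2 he)]
  | loopT he a b iha ihb =>
    rename_i e p _ _ _ _ _ _ _ _ _ _ _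
    intro hp hs l hcs hl m
    have h1 : TProg.loop e p :: l ∈ C := hcs (cs_self _ _)
    obtain ⟨m1, r1, e1, g1⟩ := iha hp.2 hs (TProg.loop e p :: l) (fun z hz => hcs (Or.inr hz)) h1 m
    obtain ⟨m2, r2, e2, g2⟩ := ihb hp g1 l hcs hl m1
    refine ⟨m2, (Rch.one ?_).trans (r1.trans r2), by omega, g2⟩
    unfold SM.step
    simp only [act_enc P N y r h1 hs, TSml_ac, if_pos he]
  | loopF he =>
    rename_i e p s τ h
    intro hp hs l hcs hl m
    have h1 : TProg.loop e p :: l ∈ C := hcs (cs_self _ _)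
    refine ⟨m, Rch.one ?_, by omega, hs⟩
    unfold SM.step
    simp only [act_enc P N y r h1 hs, TSml_ac, if_neg (not_not.2 he)]

end machine

private theorem mot_le {Q Γ : Type} (M : SM Q Γ) (a : Cfg Q Γ) : a.mot ≤ (M.step a).mot := by
  unfold SM.step
  split
  · exact le_rfl
  · exact le_rfl
  · simp

private theorem mot_mono {Q Γ : Type} (M : SM Q Γ) (a : Cfg Q Γ) (T T' : ℕ) (h : T ≤ T') :
    (M.step^[T] a).mot ≤ (M.step^[T'] a).mot := by
  induction T', h using Nat.le_induction with
  | base => exact le_rfl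
  | succ n hn ih =>
    rw [Function.iterate_succ_apply']
    exact ih.trans (mot_le M _)

private theorem stop_iter {Q Γ : Type} (M : SM Q Γ) (a : Cfg Q Γ) (b : Bool)
    (h : M.act a.q = .stop b) (T : ℕ) : M.step^[T] a = a := by
  have h1 : M.step a = a := by
    unfold SM.step
    rw [h]
  exact Function.iterate_fixed h1 T

private theorem stop_after {Q Γ : Type} (M : SM Q Γ) (a : Cfg Q Γ) (b : Bool) (T T' : ℕ)
    (h : T ≤ T') (hs : M.act (M.step^[T] a).q = .stop b) : M.step^[T'] a = M.step^[T] a := by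
  obtain ⟨d, rfl⟩ := Nat.exists_eq_add_of_le h
  rw [Nat.add_comm, Function.iterate_add_apply]
  exact stop_iter M _ b hs d

theorem wSml : T_Sml := by
  classical
  intro P
  obtain ⟨R, hR3, hPR⟩ := P.exists_lt
  have hfin : (TSml_cs P [] ∪ {[]}).Finite := (cs_fin P []).union (Set.finite_singleton _)
  obtain ⟨C, hCeq⟩ : ∃ C : Finset (List TProg), (C : Set (List TProg)) = TSml_cs P [] ∪ {[]} :=
    ⟨hfin.toFinset, hfin.coe_toFinset⟩
  have hC : [] ∈ C := by
    rw [← Finset.mem_coe, hCeq]; exact Or.inr rfl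
  have hcs : TSml_cs P [] ⊆ (C : Set (List TProg)) := by
    rw [hCeq]; exact Set.subset_union_left
  refine ⟨C.card + R, fun S => ⟨TSml_Q C R S, inferInstance, ?_, ?_⟩⟩
  · rw [Fintype.card_prod, Fintype.card_coe, Fintype.card_fun, Fintype.card_fin, Fintype.card_fin]
    calc C.card * (2 ^ S) ^ R ≤ 2 ^ C.card * (2 ^ S) ^ R :=
          Nat.mul_le_mul_right _ Nat.lt_two_pow_self.le
      _ = 2 ^ (C.card + S * R) := by rw [← pow_mul, ← pow_add]
      _ ≤ 2 ^ ((C.card + R) * (S + 1)) := by
          apply Nat.pow_le_pow_right (by norm_num)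
          nlinarith
  · intro N y r t hst
    have key : ∀ x : Fin N → Bool, ∃ s' τ' h' c T m', TRun S P (ini (word x).length y r)
        (bit (word x)) 0 s' τ' h' c ∧
        c ≤ t ∧ m' ≤ c ∧ (TSml_M C hC R S P N y r).run ((TSml_M C hC R S P N y r).tp x) T =
          ⟨TSml_enc C hC R S [] s', h', τ', m'⟩ ∧ TSml_Gd R S s' := by
      intro x
      obtain ⟨hN, hy, hr, s', τ', h', c, hrun, hct⟩ := hst x
      have hrun2 := hrun
      rw [word_length] at hN hrun
      have hini : TSml_Gd R S (ini N y r) := by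
        refine ⟨fun i => ?_, fun i hi => ?_⟩
        · unfold ini
          split_ifs
          · exact hN
          · exact hy
          · exact hr
          · exact Nat.two_pow_pos S
        · unfold ini
          rw [if_neg (by omega), if_neg (by omega), if_neg (by omega)]
      obtain ⟨m', ⟨T, hT⟩, hm, hg⟩ := sim (C := C) (hC := hC) P N y r hrun hPR hini [] hcs hC 0
      refine ⟨s', τ', h', c, T, m', hrun2, hct, by omega, ?_, hg⟩
      unfold SM.run
      rw [tp_bit]
      exact hT
    have hstop : ∀ s' : ℕ → ℕ, TSml_Gd R S s' → (TSml_M C hC R S P N y r).act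
        (TSml_enc C hC R S [] s') = .stop (decide (s' 0 = 1)) := by
      intro s' hg
      rw [act_enc P N y r hC hg]
      rfl
    have hact : ∀ (x : Fin N → Bool) (s' τ' : ℕ → ℕ) (h' T m' : ℕ),
        (TSml_M C hC R S P N y r).run ((TSml_M C hC R S P N y r).tp x) T =
          ⟨TSml_enc C hC R S [] s', h', τ', m'⟩ → TSml_Gd R S s' →
        (TSml_M C hC R S P N y r).act ((TSml_M C hC R S P N y r).run
          ((TSml_M C hC R S P N y r).tp x) T).q = .stop (decide (s' 0 = 1)) := by
      intro x s' τ' h' T m' hT hg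
      rw [hT]
      exact hstop s' hg
    refine ⟨TSml_M C hC R S P N y r, fun x T' => ?_, fun x => ?_⟩
    · obtain ⟨s', τ', h', c, T, m', hrun, hct, hm, hT, hg⟩ := key x
      rcases le_total T' T with h | h
      · have h1 := mot_mono (TSml_M C hC R S P N y r)
          ⟨(TSml_M C hC R S P N y r).start, 0, (TSml_M C hC R S P N y r).tp x, 0⟩ T' T h
        have h2 : ((TSml_M C hC R S P N y r).run ((TSml_M C hC R S P N y r).tp x) T).mot = m' := by
          rw [hT]
        unfold SM.run at h2 ⊢
        omega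
      · have h1 := stop_after (TSml_M C hC R S P N y r)
          ⟨(TSml_M C hC R S P N y r).start, 0, (TSml_M C hC R S P N y r).tp x, 0⟩
          (decide (s' 0 = 1)) T T' h (hact x s' τ' h' T m' hT hg)
        have h2 : ((TSml_M C hC R S P N y r).run ((TSml_M C hC R S P N y r).tp x) T').mot = m' := by
          unfold SM.run at hT ⊢
          rw [h1, hT]
        omega
    · obtain ⟨s', τ', h', c, T, m', hrun, hct, hm, hT, hg⟩ := key x
      rw [TRun.acc hrun]
      constructor
      · rintro ⟨T', hT'⟩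
        have e1 : (TSml_M C hC R S P N y r).run ((TSml_M C hC R S P N y r).tp x) (max T T') =
            (TSml_M C hC R S P N y r).run ((TSml_M C hC R S P N y r).tp x) T' :=
          stop_after _ _ _ T' (max T T') (le_max_right _ _) hT'
        have e2 : (TSml_M C hC R S P N y r).run ((TSml_M C hC R S P N y r).tp x) (max T T') =
            (TSml_M C hC R S P N y r).run ((TSml_M C hC R S P N y r).tp x) T := by
          refine stop_after _ _ (decide (s' 0 = 1)) T (max T T') (le_max_left _ _) ?_
          exact hact x s' τ' h' T m' hT hg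
        rw [← e1, e2, hT, hstop s' hg] at hT'
        have h3 : decide (s' 0 = 1) = true := by
          injection hT'
        exact of_decide_eq_true h3
      · intro h
        refine ⟨T, ?_⟩
        rw [hT, hstop s' hg, h]
        rfl

end Pool.Agent.Lib.MP_ff3ed7_lc.SQ
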