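import Pool.Agent.Lib.MP_ff3ed7_lc.SQ.TSpec

/-!
# PROJECT SQ2, task TTwn: the twin of a program (helper40)
-/

set_option autoImplicit false

open Finset

namespace Pool.Agent.Lib.MP_ff3ed7_lc.SQ

open Pool.Agent.Lib.MP_ff3ed7_lc.PLT

/-- the statement for one run -/
private def Twn_K (R S : ℕ) (b : ℕ → ℕ) (p : TProg) (s τ : ℕ → ℕ) (h : ℕ) (s' τ' : ℕ → ℕ)
    (h' c : ℕ) : Prop :=
  ∀ u : ℕ → ℕ, (∀ j, τ j < 2 ^ S) → (∀ i < R, u i = s i) → u (R + 1) < 2 ^ S →
    ∃ (u' : ℕ → ℕ) (c' : ℕ),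
    TRun (S + 1) (tw R p) u (fun j => 2 * τ j + b j) h u' (fun j => 2 * τ' j + b j) h' c' ∧
    (∀ i < R, u' i = s' i) ∧ (∀ i, R + 2 ≤ i → u' i = u i) ∧ u (R + 1) ≤ u' (R + 1) ∧
    u' (R + 1) < 2 ^ S ∧ u' (R + 1) ≤ max (u (R + 1)) (h + c) ∧ h' ≤ h + c ∧
    (∀ j, u' (R + 1) < j → τ' j = τ j) ∧ (∀ j, τ' j < 2 ^ S) ∧ c' ≤ 100 * (S + 1) * c

private lemma Twn_pow {S v : ℕ} (h : v < 2 ^ S) : v < 2 ^ (S + 1) :=
  h.trans_le (Nat.pow_le_pow_right (by norm_num) (Nat.le_succ S))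

private lemma Twn_cell {S v b : ℕ} (h : v < 2 ^ S) (hb : b ≤ 1) : 2 * v + b < 2 ^ (S + 1) := by
  rw [pow_succ]
  omega

private lemma Twn_b {S c c' : ℕ} (hc : 1 ≤ c) (h : c' ≤ 3 * c + 20 * (S + 1)) :
    c' ≤ 100 * (S + 1) * c := by
  have h1 : c ≤ (S + 1) * c := Nat.le_mul_of_pos_left _ (Nat.succ_pos S)
  have h2 : S + 1 ≤ (S + 1) * c := Nat.le_mul_of_pos_right _ hc
  have h3 : 100 * (S + 1) * c = 100 * ((S + 1) * c) := by ring
  rw [h3]
  omega

private lemma Twn_e {S a c c' : ℕ} (h : c' ≤ 100 * (S + 1) * c) :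
    a + c' ≤ 100 * (S + 1) * (a + c) := by
  have h1 : a ≤ (S + 1) * a := Nat.le_mul_of_pos_left _ (Nat.succ_pos S)
  have h2 : 100 * (S + 1) * (a + c) = 100 * ((S + 1) * a) + 100 * (S + 1) * c := by ring
  rw [h2]
  omega

private lemma Twn_s {S c c' d d' : ℕ} (h : c' ≤ 100 * (S + 1) * c) (h' : d' ≤ 100 * (S + 1) * d) :
    c' + d' ≤ 100 * (S + 1) * (c + d) := by
  rw [Nat.mul_add]
  omega

private lemma Twn_dst (a h : ℕ) : a ≤ h + dst a h := by
  unfold dst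
  omega

private lemma Twn_size {S v : ℕ} (h : v < 2 ^ S) : Nat.size v ≤ S := Nat.size_le.2 h

private lemma Twn_size2 : Nat.size 2 = 2 := by
  have h1 : Nat.size 2 ≤ 2 := Nat.size_le.2 (by norm_num)
  have h2 : 1 < Nat.size 2 := Nat.lt_size.2 (by norm_num)
  omega

/-- the two first steps of `read` and `write` -/
private lemma Twn_pre {R S : ℕ} {b : ℕ → ℕ} (hb : ∀ j, b j ≤ 1) {e : Expr} (he : e.Lt R)
    {s τ : ℕ → ℕ} (h : ℕ) (ha : e.val s < 2 ^ S) {u : ℕ → ℕ} (hτ : ∀ j, τ j < 2 ^ S)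
    (hu : ∀ i < R, u i = s i) (hm : u (R + 1) < 2 ^ S) : ∃ (v : ℕ → ℕ) (c₁ : ℕ),
    (∀ (q : TProg) (u' T' : ℕ → ℕ) (h' c₂ : ℕ),
      TRun (S + 1) q v (fun j => 2 * τ j + b j) (e.val s) u' T' h' c₂ →
      TRun (S + 1) (.seq (.read R e) (.seq (.set (R + 1) (mxE (R + 1) e)) q)) u
        (fun j => 2 * τ j + b j) h u' T' h' (c₁ + c₂)) ∧
    (∀ i < R, v i = s i) ∧ v R = 2 * τ (e.val s) + b (e.val s) ∧
    v (R + 1) = max (u (R + 1)) (e.val s) ∧ (∀ i, R + 2 ≤ i → v i = u i) ∧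
    c₁ ≤ 2 * e.cost s + dst (e.val s) h + 5 * (S + 1) := by
  obtain ⟨a, haa⟩ : ∃ a, a = e.val s := ⟨_, rfl⟩
  obtain ⟨m, hmm⟩ : ∃ m, m = u (R + 1) := ⟨_, rfl⟩
  rw [← haa] at ha ⊢
  rw [← hmm] at hm ⊢
  obtain ⟨hv0, hc0⟩ := he.congr hu
  rw [← haa] at hv0
  have hcell : 2 * τ a + b a < 2 ^ (S + 1) := Twn_cell (hτ a) (hb a)
  -- after the first step
  obtain ⟨u1, hu1⟩ : ∃ u1, u1 = Function.update u R (2 * τ a + b a) := ⟨_, rfl⟩
  have hu1s : ∀ i < R, u1 i = s i := by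
    intro i hi
    rw [hu1, Function.update_of_ne (by omega), hu i hi]
  obtain ⟨hv1, hc1⟩ := he.congr hu1s
  rw [← haa] at hv1
  have hu1m : u1 (R + 1) = m := by
    rw [hu1, Function.update_of_ne (by omega), hmm]
  have hval : (mxE (R + 1) e).val u1 = m + (a - m) := by
    show u1 (R + 1) + (e.val u1 - u1 (R + 1)) = _
    rw [hu1m, hv1]
  have hcost : (mxE (R + 1) e).cost u1 = (1 + Nat.size m) + (e.cost s + (1 + Nat.size m) + 1 +
      Nat.size (a - m)) + 1 + Nat.size (m + (a - m)) := by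
    show (1 + Nat.size (u1 (R + 1))) + (e.cost u1 + (1 + Nat.size (u1 (R + 1))) + 1 +
      Nat.size (e.val u1 - u1 (R + 1))) + 1 +
      Nat.size (u1 (R + 1) + (e.val u1 - u1 (R + 1))) = _
    rw [hu1m, hv1, hc1]
  have hmax : m + (a - m) = max m a := by omega
  have hmx : max m a < 2 ^ S := max_lt hm ha
  have r1 : TRun (S + 1) (.read R e) u (fun j => 2 * τ j + b j) h u1 (fun j => 2 * τ j + b j) a
      (e.cost s + Nat.size (2 * τ a + b a) + dst a h) := by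
    have r := TRun.read (S := S + 1) R e u (fun j => 2 * τ j + b j) h
      (by rw [hv0]; exact Twn_pow ha) (by rw [hv0]; exact hcell)
    rw [hv0, hc0, ← hu1] at r
    exact r
  have r2 : TRun (S + 1) (.set (R + 1) (mxE (R + 1) e)) u1 (fun j => 2 * τ j + b j) a
      (Function.update u1 (R + 1) (max m a)) (fun j => 2 * τ j + b j) a
      ((mxE (R + 1) e).cost u1) := by
    have r := TRun.set (S := S + 1) (R + 1) (mxE (R + 1) e) u1 (fun j => 2 * τ j + b j) a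
      (by rw [hval, hmax]; exact Twn_pow hmx)
    rw [hval, hmax] at r
    exact r
  refine ⟨Function.update u1 (R + 1) (max m a),
    (e.cost s + Nat.size (2 * τ a + b a) + dst a h) + (mxE (R + 1) e).cost u1,
    ?_, ?_, ?_, ?_, ?_, ?_⟩
  · intro q u' T' h' c₂ hq
    have r := TRun.seq r1 (TRun.seq r2 hq)
    rw [← Nat.add_assoc] at r
    exact r
  · intro i hi
    rw [Function.update_of_ne (by omega), hu1s i hi]
  · rw [Function.update_of_ne (by omega), hu1, Function.update_self]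
  · rw [Function.update_self]
  · intro i hi
    rw [Function.update_of_ne (by omega), hu1, Function.update_of_ne (by omega)]
  · rw [hcost, hmax]
    have s1 := Twn_size hcell
    have s2 := Twn_size hm
    have s3 : Nat.size (a - m) ≤ S := Twn_size (lt_of_le_of_lt (Nat.sub_le a m) ha)
    have s4 := Twn_size hmx
    omega

private lemma Twn_read {R S : ℕ} {b : ℕ → ℕ} (hb : ∀ j, b j ≤ 1) (i : ℕ) (e : Expr)
    (s τ : ℕ → ℕ) (h : ℕ) (ha : e.val s < 2 ^ S) (hi : i < R) (he : e.Lt R) :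
    Twn_K R S b (.read i e) s τ h (Function.update s i (τ (e.val s))) τ (e.val s)
      (e.cost s + Nat.size (τ (e.val s)) + dst (e.val s) h) := by
  intro u hτ hu hm
  obtain ⟨v, c₁, hv, v1, v2, v3, v4, v5⟩ := Twn_pre hb he h ha hτ hu hm
  obtain ⟨a, haa⟩ : ∃ a, a = e.val s := ⟨_, rfl⟩
  rw [← haa] at ha hv v2 v3 v5 ⊢
  have hcell : 2 * τ a + b a < 2 ^ (S + 1) := Twn_cell (hτ a) (hb a)
  have hdiv : (2 * τ a + b a) / 2 = τ a := by
    have := hb a
    omega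
  have hval : (Expr.div (.reg R) (.num 2)).val v = τ a := by
    show v R / 2 = _
    rw [v2, hdiv]
  have hcost : (Expr.div (.reg R) (.num 2)).cost v =
      (1 + Nat.size (2 * τ a + b a)) + (1 + Nat.size 2) + 1 + Nat.size (τ a) := by
    show (1 + Nat.size (v R)) + (1 + Nat.size 2) + 1 + Nat.size (v R / 2) = _
    rw [v2, hdiv]
  have r := TRun.set (S := S + 1) i (.div (.reg R) (.num 2)) v (fun j => 2 * τ j + b j) a
    (by rw [hval]; exact Twn_pow (hτ a))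
  rw [hval] at r
  have hd := Twn_dst a h
  have he1 := e.one_le_cost s
  refine ⟨_, _, hv _ _ _ _ _ r, ?_, ?_, ?_, ?_, ?_, ?_, ?_, hτ, ?_⟩
  · intro j hj
    by_cases hji : j = i
    · rw [hji, Function.update_self, Function.update_self]
    · rw [Function.update_of_ne hji, Function.update_of_ne hji, v1 j hj]
  · intro j hj
    rw [Function.update_of_ne (by omega), v4 j hj]
  · rw [Function.update_of_ne (by omega), v3]
    exact le_max_left _ _
  · rw [Function.update_of_ne (by omega), v3]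
    exact max_lt hm ha
  · rw [Function.update_of_ne (by omega), v3]
    refine max_le_max le_rfl ?_
    omega
  · omega
  · intro j _
    rfl
  · rw [hcost]
    have s1 := Twn_size hcell
    have s2 := Twn_size (hτ a)
    have s3 := Twn_size2
    refine Twn_b (by omega) ?_
    omega

private lemma Twn_write {R S : ℕ} {b : ℕ → ℕ} (hb : ∀ j, b j ≤ 1) (e f : Expr)
    (s τ : ℕ → ℕ) (h : ℕ) (ha : e.val s < 2 ^ S) (hf : f.val s < 2 ^ S) (he : e.Lt R)
    (hfR : f.Lt R) :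
    Twn_K R S b (.write e f) s τ h s (Function.update τ (e.val s) (f.val s)) (e.val s)
      (e.cost s + f.cost s + dst (e.val s) h) := by
  intro u hτ hu hm
  obtain ⟨v, c₁, hv, v1, v2, v3, v4, v5⟩ := Twn_pre hb he h ha hτ hu hm
  obtain ⟨g1, g2⟩ := he.congr v1
  obtain ⟨g3, g4⟩ := hfR.congr v1
  obtain ⟨a, haa⟩ : ∃ a, a = e.val s := ⟨_, rfl⟩
  obtain ⟨w, hww⟩ : ∃ w, w = f.val s := ⟨_, rfl⟩
  rw [← haa] at ha hv v2 v3 v5 g1 ⊢
  rw [← hww] at hf g3 ⊢
  have hcell : 2 * τ a + b a < 2 ^ (S + 1) := Twn_cell (hτ a) (hb a)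
  have hmod : (2 * τ a + b a) % 2 = b a := by
    have := hb a
    omega
  have hnew : 2 * w + b a < 2 ^ (S + 1) := Twn_cell hf (hb a)
  have h2w : 2 * w < 2 ^ (S + 1) := by
    have := hb a
    omega
  have hval : (Expr.add (.mul (.num 2) f) (.mod (.reg R) (.num 2))).val v = 2 * w + b a := by
    show 2 * f.val v + v R % 2 = _
    rw [v2, hmod, g3]
  have hcost : (Expr.add (.mul (.num 2) f) (.mod (.reg R) (.num 2))).cost v =
      ((1 + Nat.size 2) + f.cost s + 1 + Nat.size (2 * w)) +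
      ((1 + Nat.size (2 * τ a + b a)) + (1 + Nat.size 2) + 1 + Nat.size (b a)) + 1 +
      Nat.size (2 * w + b a) := by
    show ((1 + Nat.size 2) + f.cost v + 1 + Nat.size (2 * f.val v)) +
      ((1 + Nat.size (v R)) + (1 + Nat.size 2) + 1 + Nat.size (v R % 2)) + 1 +
      Nat.size (2 * f.val v + v R % 2) = _
    rw [v2, hmod, g3, g4]
  have htape : Function.update (fun j => 2 * τ j + b j) a (2 * w + b a) =
      fun j => 2 * (Function.update τ a w) j + b j := by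
    funext j
    by_cases hj : j = a
    · rw [hj, Function.update_self, Function.update_self]
    · rw [Function.update_of_ne hj, Function.update_of_ne hj]
  have r := TRun.write (S := S + 1) e (.add (.mul (.num 2) f) (.mod (.reg R) (.num 2))) v
    (fun j => 2 * τ j + b j) a (by rw [g1]; exact Twn_pow ha) (by rw [hval]; exact hnew)
  rw [hval, g1, htape] at r
  have hd := Twn_dst a h
  have he1 := e.one_le_cost s
  refine ⟨_, _, hv _ _ _ _ _ r, v1, v4, ?_, ?_, ?_, ?_, ?_, ?_, ?_⟩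
  · rw [v3]
    exact le_max_left _ _
  · rw [v3]
    exact max_lt hm ha
  · rw [v3]
    refine max_le_max le_rfl ?_
    omega
  · omega
  · intro j hj
    rw [v3] at hj
    have h1 : a < j := lt_of_le_of_lt (le_max_right _ _) hj
    rw [Function.update_of_ne (by omega)]
  · intro j
    by_cases hj : j = a
    · rw [hj, Function.update_self]
      exact hf
    · rw [Function.update_of_ne hj]
      exact hτ j
  · rw [hcost, g2]
    have s1 := Twn_size hcell
    have s2 := Twn_size h2w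
    have s3 := Twn_size2
    have s4 := Twn_size hnew
    have s5 : Nat.size (b a) ≤ 1 := Nat.size_le.2 (by have := hb a; omega)
    have s6 : dst a a = 0 := by unfold dst; omega
    refine Twn_b (by omega) ?_
    omega

private lemma Twn_seq {R S : ℕ} {b : ℕ → ℕ} {p q r : TProg} {s s' s'' τ τ' τ'' : ℕ → ℕ}
    {h h' h'' c c' : ℕ}
    (hr : ∀ (u u' u'' T T' T'' : ℕ → ℕ) (k k' k'' d d' : ℕ), TRun (S + 1) (tw R p) u T k u' T' k' d →
      TRun (S + 1) (tw R q) u' T' k' u'' T'' k'' d' → TRun (S + 1) (tw R r) u T k u'' T'' k'' (d + d'))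
    (a1 : Twn_K R S b p s τ h s' τ' h' c) (a2 : Twn_K R S b q s' τ' h' s'' τ'' h'' c') :
    Twn_K R S b r s τ h s'' τ'' h'' (c + c') := by
  intro u hτ hu hm
  obtain ⟨u', d, e0, e1, e2, e3, e4, e5, e6, e7, e8, e9⟩ := a1 u hτ hu hm
  obtain ⟨u'', d', f0, f1, f2, f3, f4, f5, f6, f7, f8, f9⟩ := a2 u' e8 e1 e4
  refine ⟨u'', d + d', hr _ _ _ _ _ _ _ _ _ _ _ e0 f0, f1, ?_, e3.trans f3, f4, ?_, ?_, ?_, f8,
    Twn_s e9 f9⟩
  · intro i hi
    rw [f2 i hi, e2 i hi]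
  · omega
  · omega
  · intro j hj
    rw [f7 j hj, e7 j (lt_of_le_of_lt f3 hj)]

private lemma Twn_set {R S : ℕ} {b : ℕ → ℕ} (i : ℕ) (e : Expr) (s τ : ℕ → ℕ) (h : ℕ)
    (hS : e.val s < 2 ^ S) (hi : i < R) (he : e.Lt R) :
    Twn_K R S b (.set i e) s τ h (Function.update s i (e.val s)) τ h (e.cost s) := by
  intro u hτ hu hm
  obtain ⟨h1, h2⟩ := he.congr hu
  have he1 := e.one_le_cost s
  refine ⟨Function.update u i (e.val s), e.cost s, ?_, ?_, ?_, ?_, ?_, ?_, Nat.le_add_right _ _,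
    fun _ _ => rfl, hτ, Twn_b he1 (by omega)⟩
  · have r := TRun.set (S := S + 1) i e u (fun j => 2 * τ j + b j) h
      (by rw [h1]; exact Twn_pow hS)
    rw [h1, h2] at r
    exact r
  · intro j hj
    by_cases hji : j = i
    · rw [hji, Function.update_self, Function.update_self]
    · rw [Function.update_of_ne hji, Function.update_of_ne hji, hu j hj]
  · intro j hj
    rw [Function.update_of_ne (by omega)]
  · rw [Function.update_of_ne (by omega)]
  · rw [Function.update_of_ne (by omega)]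
    exact hm
  · rw [Function.update_of_ne (by omega)]
    exact le_max_left _ _

private lemma Twn_loopF {R S : ℕ} {b : ℕ → ℕ} {e : Expr} {p : TProg} {s τ : ℕ → ℕ} {h : ℕ}
    (h0 : e.val s = 0) (he : e.Lt R) :
    Twn_K R S b (.loop e p) s τ h s τ h (e.cost s) := by
  intro u hτ hu hm
  obtain ⟨h1, h2⟩ := he.congr hu
  have he1 := e.one_le_cost s
  refine ⟨u, e.cost s, ?_, hu, fun _ _ => rfl, le_rfl, hm, le_max_left _ _,
    Nat.le_add_right _ _, fun _ _ => rfl, hτ, Twn_b he1 (by omega)⟩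
  have r : TRun (S + 1) (.loop e (tw R p)) u (fun j => 2 * τ j + b j) h u
      (fun j => 2 * τ j + b j) h (e.cost u) := TRun.loopF (by rw [h1]; exact h0)
  rw [h2] at r
  exact r

private lemma Twn_iteT {R S : ℕ} {b : ℕ → ℕ} {e : Expr} {p q : TProg} {s s' τ τ' : ℕ → ℕ}
    {h h' c : ℕ} (h0 : e.val s ≠ 0) (he : e.Lt R) (a : Twn_K R S b p s τ h s' τ' h' c) :
    Twn_K R S b (.ite e p q) s τ h s' τ' h' (e.cost s + c) := by
  intro u hτ hu hm
  obtain ⟨h1, h2⟩ := he.congr hu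
  obtain ⟨u', d, e0, e1, e2, e3, e4, e5, e6, e7, e8, e9⟩ := a u hτ hu hm
  refine ⟨u', e.cost s + d, ?_, e1, e2, e3, e4, by omega, by omega, e7, e8, Twn_e e9⟩
  have r : TRun (S + 1) (.ite e (tw R p) (tw R q)) u (fun j => 2 * τ j + b j) h u'
      (fun j => 2 * τ' j + b j) h' (e.cost u + d) := TRun.iteT (by rw [h1]; exact h0) e0
  rw [h2] at r
  exact r

private lemma Twn_iteF {R S : ℕ} {b : ℕ → ℕ} {e : Expr} {p q : TProg} {s s' τ τ' : ℕ → ℕ}
    {h h' c : ℕ} (h0 : e.val s = 0) (he : e.Lt R) (a : Twn_K R S b q s τ h s' τ' h' c) :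
    Twn_K R S b (.ite e p q) s τ h s' τ' h' (e.cost s + c) := by
  intro u hτ hu hm
  obtain ⟨h1, h2⟩ := he.congr hu
  obtain ⟨u', d, e0, e1, e2, e3, e4, e5, e6, e7, e8, e9⟩ := a u hτ hu hm
  refine ⟨u', e.cost s + d, ?_, e1, e2, e3, e4, by omega, by omega, e7, e8, Twn_e e9⟩
  have r : TRun (S + 1) (.ite e (tw R p) (tw R q)) u (fun j => 2 * τ j + b j) h u'
      (fun j => 2 * τ' j + b j) h' (e.cost u + d) := TRun.iteF (by rw [h1]; exact h0) e0
  rw [h2] at r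
  exact r

private lemma Twn_loopT {R S : ℕ} {b : ℕ → ℕ} {e : Expr} {p : TProg}
    {s s' s'' τ τ' τ'' : ℕ → ℕ} {h h' h'' c c' : ℕ} (h0 : e.val s ≠ 0) (he : e.Lt R)
    (a1 : Twn_K R S b p s τ h s' τ' h' c)
    (a2 : Twn_K R S b (.loop e p) s' τ' h' s'' τ'' h'' c') :
    Twn_K R S b (.loop e p) s τ h s'' τ'' h'' (e.cost s + c + c') := by
  intro u hτ hu hm
  obtain ⟨h1, h2⟩ := he.congr hu
  obtain ⟨u', d, e0, e1, e2, e3, e4, e5, e6, e7, e8, e9⟩ := a1 u hτ hu hm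
  obtain ⟨u'', d', f0, f1, f2, f3, f4, f5, f6, f7, f8, f9⟩ := a2 u' e8 e1 e4
  refine ⟨u'', e.cost s + d + d', ?_, f1, ?_, e3.trans f3, f4, ?_, ?_, ?_, f8,
    Twn_s (Twn_e e9) f9⟩
  · have r : TRun (S + 1) (.loop e (tw R p)) u (fun j => 2 * τ j + b j) h u''
        (fun j => 2 * τ'' j + b j) h'' (e.cost u + d + d') :=
      TRun.loopT (by rw [h1]; exact h0) e0 f0
    rw [h2] at r
    exact r
  · intro i hi
    rw [f2 i hi, e2 i hi]
  · omega
  · omega
  · intro j hj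
    rw [f7 j hj, e7 j (lt_of_le_of_lt f3 hj)]

private lemma Twn_all {R S : ℕ} {b : ℕ → ℕ} (hb : ∀ j, b j ≤ 1) {p : TProg}
    {s s' τ τ' : ℕ → ℕ} {h h' c : ℕ} (a : TRun S p s τ h s' τ' h' c) :
    p.Lt R → Twn_K R S b p s τ h s' τ' h' c := by
  induction a with
  | set i e s τ h hS => exact fun hp => Twn_set i e s τ h hS hp.1 hp.2
  | read i e s τ h he hS => exact fun hp => Twn_read hb i e s τ h he hp.1 hp.2
  | write e f s τ h he hS => exact fun hp => Twn_write hb e f s τ h he hS hp.1 hp.2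
  | seq a b iha ihb =>
    exact fun hp => Twn_seq (fun _ _ _ _ _ _ _ _ _ _ _ r1 r2 => TRun.seq r1 r2)
      (iha hp.1) (ihb hp.2)
  | iteT he a ih => exact fun hp => Twn_iteT he hp.1 (ih hp.2.1)
  | iteF he a ih => exact fun hp => Twn_iteF he hp.1 (ih hp.2.2)
  | loopT he a b iha ihb => exact fun hp => Twn_loopT he hp.1 (iha hp.2) (ihb hp)
  | loopF he => exact fun hp => Twn_loopF he hp.1

/-- The twin. -/
theorem wTwn : T_Twn :=
  ⟨100, fun _ _ hP _ _ _ _ _ _ _ _ hrun _ u hb hτ hu hm => Twn_all hb hrun hP u hτ hu hm⟩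

end Pool.Agent.Lib.MP_ff3ed7_lc.SQ
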