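import Pool.Agent.Lib.MP_ff3ed7_lc.SQ.Main
import Pool.Agent.Lib.MP_ff3ed7_lc.SQ.TMain0
import Pool.Agent.Lib.MP_ff3ed7_lc.SQ.TSml
import Pool.Agent.Lib.MP_ff3ed7_lc.SQ.TRst
import Pool.Agent.Lib.MP_ff3ed7_lc.SQ.TEng
import Pool.Agent.Lib.MP_ff3ed7_lc.SQ.TGen
import Pool.Agent.Lib.MP_ff3ed7_lc.SQ.TInM
import Pool.Agent.Lib.MP_ff3ed7_lc.SQ.TInS
import Pool.Agent.Lib.MP_ff3ed7_lc.SQ.TEmb
import Pool.Agent.Lib.MP_ff3ed7_lc.SQ.TMem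
import Pool.Agent.Lib.MP_ff3ed7_lc.SQ.TCln
import Pool.Agent.Lib.MP_ff3ed7_lc.SQ.TNmM
import Pool.Agent.Lib.MP_ff3ed7_lc.SQ.TNmS
import Pool.Agent.Lib.MP_ff3ed7_lc.SQ.TNmP
import Pool.Agent.Lib.MP_ff3ed7_lc.SQ.TTwn

/-!
# PROJECT SQ2: the chain of the classes of one-tape machines
-/

set_option autoImplicit false

open Finset

namespace Pool.Agent.Lib.MP_ff3ed7_lc.SQ

open Pool.Agent.Lib.MP_ff3ed7_lc.PLT

/-- The chain of the classes of one-tape machines. -/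
theorem main_chain_ot : MAot ⊂ SBPot ∧ SBPot ⊂ AMot ∧ ¬ AMot ⊆ PPot := by
  have hG : T_GenC := genC wGen wCln wTwn wRst wPrp wEng
  exact tmain_chain' (wInM hG tPrB (tAmp tPrB) tMaSbp) (wInS hG tPrB tHash tSet tSbpAm) wEmb wMem
    wSml wNmM wNmS wNmP tVir tUp tRed tRdP tPrt tCrs tAvg tAvP tMj

end Pool.Agent.Lib.MP_ff3ed7_lc.SQ
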