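import Pool.Agent.Lib.MP_ff3ed7_lc.SQ.TSpec

/-!
# PROJECT SQ2: the classes with a read-only input are contained in the one-tape classes
-/

set_option autoImplicit false

open Finset

namespace Pool.Agent.Lib.MP_ff3ed7_lc.SQ

open Pool.Agent.Lib.MP_ff3ed7_lc.PLT

private lemma Mem_two_le (n : ℕ) : 2 ≤ Nat.log 2 n + 2 := by omega

private lemma Mem_one_le_pl (c n : ℕ) : 1 ≤ pl c n := Nat.one_le_pow _ _ (by omega)

private lemma Mem_pl_mul (c d n : ℕ) : pl c n * pl d n = pl (c + d) n := (pow_add _ _ _).symm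

private lemma Mem_const_mul_pl (C c n : ℕ) : C * pl c n ≤ pl (C + c) n := by
  rw [← Mem_pl_mul]
  refine Nat.mul_le_mul_right _ ?_
  calc C ≤ 2 ^ C := Nat.lt_two_pow_self.le
    _ ≤ (Nat.log 2 n + 2) ^ C := Nat.pow_le_pow_left (Mem_two_le n) C

private lemma Mem_succ_le (c n : ℕ) : pl c n + 1 ≤ pl (1 + c) n := by
  have h1 := Mem_one_le_pl c n
  have h2 : 2 * pl c n ≤ pl (1 + c) n := by
    rw [← Mem_pl_mul]
    refine Nat.mul_le_mul_right _ ?_
    exact (Mem_two_le n).trans (pow_one _).ge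
  omega

private lemma Mem_space (C e n : ℕ) : C * (pl e n + 1) ≤ pl (C + (1 + e)) n :=
  (Nat.mul_le_mul_left _ (Mem_succ_le e n)).trans (Mem_const_mul_pl _ _ _)

private lemma Mem_time (C e d n : ℕ) :
    C * (pl e n + 1) * (ql d n + 1) ≤ ql (C + ((1 + e) + (1 + d))) n := by
  have h1 : ql d n + 1 ≤ (n + 1) * pl (1 + d) n := by
    have h2 : ql d n + 1 ≤ (n + 1) * (pl d n + 1) := by
      unfold ql
      have h3 : (n + 1) * (pl d n + 1) = (n + 1) * pl d n + (n + 1) := by ring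
      omega
    exact h2.trans (Nat.mul_le_mul_left _ (Mem_succ_le d n))
  unfold ql at h1 ⊢
  calc C * (pl e n + 1) * ((n + 1) * pl d n + 1)
      ≤ C * pl (1 + e) n * ((n + 1) * pl (1 + d) n) :=
        Nat.mul_le_mul (Nat.mul_le_mul_left _ (Mem_succ_le e n)) h1
    _ = (n + 1) * (C * (pl (1 + e) n * pl (1 + d) n)) := by ring
    _ = (n + 1) * (C * pl ((1 + e) + (1 + d)) n) := by rw [Mem_pl_mul]
    _ ≤ _ := Nat.mul_le_mul_left _ (Mem_const_mul_pl _ _ _)

private lemma Mem_pr_congr (k : ℕ) {A B : ℕ → Prop} (h : ∀ r < 2 ^ k, (A r ↔ B r)) :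
    pr k A = pr k B := by
  unfold pr
  congr 2
  exact Nat.card_congr (Equiv.subtypeEquivRight fun r => h r.1 r.2)

/-- **TMem.** -/
theorem wMem : T_Mem := by
  intro hE
  constructor
  · rintro L ⟨c, d, e, P, hV, hL⟩
    obtain ⟨P', C, hA, hP⟩ := hE P
    refine ⟨c, C + ((1 + e) + (1 + d)), C + (1 + e), P', ⟨⟨0, hA⟩, ?_⟩, ?_⟩
    · intro x y r hy hr
      exact (hP x y r _ _ (hV x y r hy hr)).1.mono (Mem_time C e d x.length)
        (Mem_space C e x.length)
    · intro x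
      have h1 : pr (pl c x.length) (fun r => ∃ y < 2 ^ pl c x.length, TAcc P' x y r) =
          pr (pl c x.length) (fun r => ∃ y < 2 ^ pl c x.length, Acc P x y r) := by
        refine Mem_pr_congr _ fun r hr => ?_
        constructor
        · rintro ⟨y, hy, h⟩
          exact ⟨y, hy, (hP x y r _ _ (hV x y r hy hr)).2.1 h⟩
        · rintro ⟨y, hy, h⟩
          exact ⟨y, hy, (hP x y r _ _ (hV x y r hy hr)).2.2 h⟩
      rw [h1]
      exact hL x
  · rintro L ⟨c, d, e, f, P, hV, hL⟩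
    obtain ⟨P', C, hA, hP⟩ := hE P
    refine ⟨c, C + ((1 + e) + (1 + d)), C + (1 + e), f, P', ⟨⟨0, hA⟩, ?_⟩, ?_⟩
    · intro x y r hy hr
      exact (hP x y r _ _ (hV x y r hy hr)).1.mono (Mem_time C e d x.length)
        (Mem_space C e x.length)
    · intro x
      have h0 : (0 : ℕ) < 2 ^ pl c x.length := by positivity
      have h1 : pr (pl c x.length) (fun r => TAcc P' x 0 r) =
          pr (pl c x.length) (fun r => Acc P x 0 r) :=
        Mem_pr_congr _ fun r hr => (hP x 0 r _ _ (hV x 0 r h0 hr)).2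
      rw [h1]
      exact hL x

end Pool.Agent.Lib.MP_ff3ed7_lc.SQ
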