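import Pool.Agent.Lib.MP_ff3ed7_lc.SQ.TBas

/-!
# PROJECT SQ2: programs and statements
-/

set_option autoImplicit false

open Finset

namespace Pool.Agent.Lib.MP_ff3ed7_lc.SQ

open Pool.Agent.Lib.MP_ff3ed7_lc.PLT

/-! ### Programs with a read-only input -/

/-- The one-tape program for the program with a read-only input; register `R` contains the length `n`
of the input, and `e - (e - n)` is the smaller one of `e` and `n`. -/
def emb (R : ℕ) : Prog → TProg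
  | .set i e => .set i e
  | .read i e => .read i (.sub e (.sub e (.reg R)))
  | .seq p q => .seq (emb R p) (emb R q)
  | .ite e p q => .ite e (emb R p) (emb R q)
  | .loop e p => .loop e (emb R p)

/-- **TEmb.**  `P' = seq (set R (reg 0)) (emb R P)`, where `P.Lt R` and `3 ≤ R`.

Key claim, by induction on `SRun x S P s h s' h' c`: if `u i = s i` for `i < R`, `u R = x.length` and
`x.length < 2 ^ S` then `TRun S (emb R P) u (bit x) h u' (bit x) h' c'` with `u' i = s' i` for `i < R`,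
`u' R = u R`, `c' ≤ 10 * (S + 1) * c` (the head of `SRun` is clamped to `min e n`; `bit x n = 0`, and
`bit x e = bit x (min e n)`).  Acceptance: `SRun.run`, `Run.det`, `TRun.acc`. -/
def T_Emb : Prop := ∀ P : Prog, ∃ (P' : TProg) (C : ℕ), P'.Al 0 ∧ ∀ (x : List Bool) (y r t S : ℕ),
  SStops P x y r t S →
    TStops P' x y r (C * (S + 1) * (t + 1)) (C * (S + 1)) ∧ (TAcc P' x y r ↔ Acc P x y r)

/-- **TMem.**  From `T_Emb`; `C * (pl e n + 1) * (ql d n + 1) ≤ ql d' n` etc. (see the lemmas on `pl`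
in `SQ/SInc.lean` and `SQ/Num.lean`). -/
def T_Mem : Prop := T_Emb → AMql ⊆ AMot ∧ SBPql ⊆ SBPot

/-! ### Programs which keep their input -/

/-- The larger one of register `r` and `e`. -/
def mxE (r : ℕ) (e : Expr) : Expr := .add (.reg r) (.sub e (.reg r))

/-- The twin of a program with registers smaller than `R`: a cell contains `2 * v + b`, where `v` is
the content of the cell for the program and the bit `b` never changes.  Register `R` is for the whole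
content of a cell, register `R + 1` contains the largest address up to now. -/
def tw (R : ℕ) : TProg → TProg
  | .set i e => .set i e
  | .read i e => .seq (.read R e) (.seq (.set (R + 1) (mxE (R + 1) e))
      (.set i (.div (.reg R) (.num 2))))
  | .write e f => .seq (.read R e) (.seq (.set (R + 1) (mxE (R + 1) e))
      (.write e (.add (.mul (.num 2) f) (.mod (.reg R) (.num 2)))))
  | .seq p q => .seq (tw R p) (tw R q)
  | .ite e p q => .ite e (tw R p) (tw R q)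
  | .loop e p => .loop e (tw R p)

/-- **TTwn.**  By induction on the run (`C = 100` is enough).  In the case `write` the old content of
the cell is read first, therefore the hypothesis that all cells contain at most `S` bits.  The head:
`h' ≤ h + c` (induction), an address `e` satisfies `e ≤ h + dst e h ≤ h + c`. -/
def T_Twn : Prop := ∃ C, ∀ (P : TProg) (R : ℕ), P.Lt R → ∀ (S : ℕ) (s s' τ τ' : ℕ → ℕ)
  (h h' c : ℕ), TRun S P s τ h s' τ' h' c → ∀ (b u : ℕ → ℕ), (∀ j, b j ≤ 1) →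
  (∀ j, τ j < 2 ^ S) → (∀ i < R, u i = s i) → u (R + 1) < 2 ^ S → ∃ (u' : ℕ → ℕ) (c' : ℕ),
    TRun (S + 1) (tw R P) u (fun j => 2 * τ j + b j) h u' (fun j => 2 * τ' j + b j) h' c' ∧
    (∀ i < R, u' i = s' i) ∧ (∀ i, R + 2 ≤ i → u' i = u i) ∧ u (R + 1) ≤ u' (R + 1) ∧
    u' (R + 1) < 2 ^ S ∧ u' (R + 1) ≤ max (u (R + 1)) (h + c) ∧ h' ≤ h + c ∧
    (∀ j, u' (R + 1) < j → τ' j = τ j) ∧ (∀ j, τ' j < 2 ^ S) ∧ c' ≤ C * (S + 1) * c

/-- The reset: for `j = m, m - 1, ..., 0`, where `m` is the content of register `R + 1`, the content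
`2 * v + b` of cell `j` is replaced by `3 * b`. -/
def rst (R : ℕ) : TProg := .seq (.set (R + 1) (.add (.reg (R + 1)) (.num 1)))
  (.loop (.reg (R + 1)) (.seq (.set (R + 1) (.sub (.reg (R + 1)) (.num 1)))
    (.seq (.read R (.reg (R + 1)))
      (.write (.reg (R + 1)) (.mul (.num 3) (.mod (.reg R) (.num 2)))))))

/-- **TRst.**  A loop with `m + 1` rounds; invariant before the round for cell `j - 1` (`j` is the
content of register `R + 1`): the cells `≥ j` contain `3 * b`, the cells `< j` are unchanged, the head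
is on cell `j` (before the first round: on cell `h`).  Do not use `tloop_of` with one bound for the
whole motion; a direct induction on `j` with the total cost `C₀ * (S + 1) * (j + 1)`, plus `m + h` for
the first move, is simplest. -/
def T_Rst : Prop := ∃ C, ∀ (R S m h : ℕ) (v b s : ℕ → ℕ), (∀ j, b j ≤ 1) → (∀ j, v j < 2 ^ S) →
  s (R + 1) = m → m < 2 ^ S → (∀ j, m < j → v j = b j) → ∃ (s' : ℕ → ℕ) (c : ℕ),
    TRun (S + 2) (rst R) s (fun j => 2 * v j + b j) h s' (fun j => 3 * b j) 0 c ∧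
    (∀ i, i ≠ R → i ≠ R + 1 → s' i = s i) ∧ s' (R + 1) = 0 ∧ c ≤ C * (S + 1) * (m + h + 1)

/-- The program which leaves the tape as it was (cell `j` contains `3 * bit x j`). -/
def cln (R : ℕ) (P : TProg) : TProg := .seq (.set (R + 1) (.num 0)) (.seq (tw R P) (rst R))

/-- The preparation of the tape: cell `j` with the content `bit x j` gets `3 * bit x j`. -/
def prp (R : ℕ) : TProg := .seq (.set (R + 1) (.reg 0)) (.seq (rst R) (.set R (.num 0)))

/-- **TCln.**  `TStops P x y r t S` gives the run, with `S + 1` instead of `S` (so that the bits of the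
input are smaller than `2 ^ (S + 1)`); then `T_Twn` with `b = τ = bit x` (`2 * b + b = 3 * b`) and
`T_Rst` with `v = τ'`, `m ≤ t`, `h ≤ t`. -/
def T_Cln : Prop := T_Twn → T_Rst → ∀ (P : TProg) (R : ℕ), 3 ≤ R → P.Lt R → ∃ C,
  ∀ (x : List Bool) (y r t S : ℕ), TStops P x y r t S → ∀ u : ℕ → ℕ,
    (∀ i < R, u i = ini x.length y r i) → ∃ (u' : ℕ → ℕ) (c : ℕ),
    TRun (S + 3) (cln R P) u (fun j => 3 * bit x j) 0 u' (fun j => 3 * bit x j) 0 c ∧
    c ≤ C * (S + 1) * (t + 1) ∧ (u' 0 = 1 ↔ TAcc P x y r) ∧ ∀ i, R + 2 ≤ i → u' i = u i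

/-- **TPrp.**  `T_Rst` with `v = 0`, `b = bit x`, `m = x.length`; register `R` is set to `0` at the
end, so the registers are again those of `ini`. -/
def T_Prp : Prop := T_Rst → ∃ C, ∀ (R : ℕ), 3 ≤ R → ∀ (x : List Bool) (y r S : ℕ),
  x.length < 2 ^ S → ∃ c, TRun (S + 2) (prp R) (ini x.length y r) (bit x) 0
    (ini x.length y r) (fun j => 3 * bit x j) 0 c ∧ c ≤ C * (S + 1) * (x.length + 1)

/-! ### Repetitions -/

/-- The engine. -/
def teng (Q : TProg) (R : ℕ) : TProg :=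
  .loop (.reg (R + 4)) (.seq (up (pre R)) (.seq Q (up (post R))))

/-- **TEng.**  Copy of `seng_run` (`SQ/SEng.lean`) for a program `Q` that leaves the tape `τ` and the
head (cell `0`) as they were; `tlift`, `tloop_of`, `TRun.bd` instead of `lift`, `sloop_of`, `SRun.bd`;
no moves of the head. -/
def T_Eng : Prop := ∀ R : ℕ, 3 ≤ R → ∃ K, 1 ≤ K ∧ ∀ (Q : TProg) (τ : ℕ → ℕ) (A : ℕ → Prop)
  (n Y RR k M t B S : ℕ) (s : ℕ → ℕ),
  s R = n → s (R + 1) = Y → s (R + 2) = RR → s (R + 3) = 2 ^ k → s (R + 4) = M →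
  s (R + 5) = 0 → (∀ i < M, ∀ u : ℕ → ℕ, (∀ j < R, u j = ini n Y (blk k RR i) j) →
    ∃ (u' : ℕ → ℕ) (c : ℕ), TRun B Q u τ 0 u' τ 0 c ∧ c ≤ t ∧ (u' 0 = 1 ↔ A i) ∧
      ∀ j, R ≤ j → u' j = u j) →
  1 ≤ B → K * B ≤ S → PLT.Bd s B →
  ∃ (s' : ℕ → ℕ) (c : ℕ), TRun S (teng Q R) s τ 0 s' τ 0 c ∧ c ≤ (K * B + t) * (M + 1) ∧
    s' (R + 5) = Nat.card {i : Fin M // A i} ∧
    s' R = s R ∧ s' (R + 1) = s (R + 1) ∧ s' (R + 3) = s (R + 3) ∧
    (∀ i, R + 6 ≤ i → s' i = s i) ∧ PLT.Bd s' B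

/-- **TGen.**  Copy of `sgen` (`SQ/SGen2.lean`) with `R = R₀ + 2`: the program is
`seq (prp R₀) (seq (up Q) (seq (teng (cln R₀ P) R) (up A9)))`, `Q` from `sprep R` (`SQ/SGen.lean`).
The engine with `τ j = 3 * bit x j`, `A i = TAcc P x Y (blk k RR i)`, `Q = cln R₀ P` and `K1 * B + 3`
instead of `K1 * B` (memory of `cln`). -/
def T_Gen : Prop := T_Cln → T_Twn → T_Rst → T_Prp → T_Eng → ∀ (P : TProg) (R₀ R : ℕ), 3 ≤ R₀ →
  P.Lt R₀ → R = R₀ + 2 → ∀ (c e : ℕ) (EY ER EM ET : Expr)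
  (fY fR fM : ℕ → ℕ → ℕ → ℕ → ℕ → ℕ) (fT : ℕ → ℕ → ℕ → ℕ → ℕ → ℕ → ℕ),
  (∀ s, EY.val s = fY (s (R + 6)) (s (R + 7)) (s (R + 8)) (s (R + 9)) (s (R + 10))) →
  (∀ s, ER.val s = fR (s (R + 6)) (s (R + 7)) (s (R + 8)) (s (R + 9)) (s (R + 10))) →
  (∀ s, EM.val s = fM (s (R + 6)) (s (R + 7)) (s (R + 8)) (s (R + 9)) (s (R + 10))) →
  (∀ s, ET.val s =
    fT (s (R + 6)) (s (R + 7)) (s (R + 8)) (s (R + 9)) (s (R + 10)) (s (R + 5))) →
  ∃ (P' : TProg) (C : ℕ), 1 ≤ C ∧ (∀ K, P.Al K → P'.Al (2 * K + 4)) ∧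
    ∀ (x : List Bool) (y r t B k u Y RR M : ℕ),
    k = pl c x.length → u = pl e x.length → Y = fY y r k (2 ^ k) (2 ^ u) →
    RR = fR y r k (2 ^ k) (2 ^ u) → M = fM y r k (2 ^ k) (2 ^ u) →
    1 ≤ B → k + 1 ≤ B → u + 1 ≤ B → x.length < 2 ^ B → y < 2 ^ B → r < 2 ^ B →
    (∀ i < M, TStops P x Y (blk k RR i) t B) →
    TStops P' x y r (C * ((B * B + (B + 1) * (t + x.length + 1)) * (M + 1))) (C * (B * B)) ∧
    (TAcc P' x y r ↔
      fT y r k (2 ^ k) (2 ^ u) (Nat.card {i : Fin M // TAcc P x Y (blk k RR i)}) = 1)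

/-- The conclusion of `T_Gen`. -/
def T_GenC : Prop := ∀ (P : TProg) (R₀ R : ℕ), 3 ≤ R₀ →
  P.Lt R₀ → R = R₀ + 2 → ∀ (c e : ℕ) (EY ER EM ET : Expr)
  (fY fR fM : ℕ → ℕ → ℕ → ℕ → ℕ → ℕ) (fT : ℕ → ℕ → ℕ → ℕ → ℕ → ℕ → ℕ),
  (∀ s, EY.val s = fY (s (R + 6)) (s (R + 7)) (s (R + 8)) (s (R + 9)) (s (R + 10))) →
  (∀ s, ER.val s = fR (s (R + 6)) (s (R + 7)) (s (R + 8)) (s (R + 9)) (s (R + 10))) →
  (∀ s, EM.val s = fM (s (R + 6)) (s (R + 7)) (s (R + 8)) (s (R + 9)) (s (R + 10))) →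
  (∀ s, ET.val s =
    fT (s (R + 6)) (s (R + 7)) (s (R + 8)) (s (R + 9)) (s (R + 10)) (s (R + 5))) →
  ∃ (P' : TProg) (C : ℕ), 1 ≤ C ∧ (∀ K, P.Al K → P'.Al (2 * K + 4)) ∧
    ∀ (x : List Bool) (y r t B k u Y RR M : ℕ),
    k = pl c x.length → u = pl e x.length → Y = fY y r k (2 ^ k) (2 ^ u) →
    RR = fR y r k (2 ^ k) (2 ^ u) → M = fM y r k (2 ^ k) (2 ^ u) →
    1 ≤ B → k + 1 ≤ B → u + 1 ≤ B → x.length < 2 ^ B → y < 2 ^ B → r < 2 ^ B →
    (∀ i < M, TStops P x Y (blk k RR i) t B) →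
    TStops P' x y r (C * ((B * B + (B + 1) * (t + x.length + 1)) * (M + 1))) (C * (B * B)) ∧
    (TAcc P' x y r ↔
      fT y r k (2 ^ k) (2 ^ u) (Nat.card {i : Fin M // TAcc P x Y (blk k RR i)}) = 1)

/-- **TInM.**  Copy of `MAql_subset_SBPql` (`SQ/SInc.lean`); with `obtain ⟨R₀, hR₀, hP⟩ := P.exists_lt`
and `R = R₀ + 2`. -/
def T_InM : Prop := T_GenC → S_PrB → S_Amp → S_MaSbp → MAot ⊆ SBPot

/-- **TInS.**  Copy of `SBPql_subset_AMql` (`SQ/SInc.lean`, with `SBPs_enlarge`). -/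
def T_InS : Prop := T_GenC → S_PrB → S_Hash → S_Set → S_SbpAm → SBPot ⊆ AMot

/-! ### Nonuniform machines -/

/-- **TSml.**  As `S_Sml` (proof in `SQ/Sml.lean`), with the tape alphabet `ℕ`: `sym (some b)` is the
bit and `sym none = 0`.  A program `read i e` visits the cell `e` and leaves its content `γ`, a program
`write e f` visits the cell `e` and writes the value of `f`. -/
def T_Sml : Prop := ∀ P : TProg, ∃ K : ℕ, ∀ S : ℕ, ∃ (Q : Type) (_ : Fintype Q),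
  Fintype.card Q ≤ 2 ^ (K * (S + 1)) ∧ ∀ N y r t : ℕ,
    (∀ x : Fin N → Bool, TStops P (word x) y r t S) →
    ∃ M : SM Q ℕ, (∀ (x : Fin N → Bool) T, (M.run (M.tp x) T).mot ≤ t) ∧
      ∀ x : Fin N → Bool, M.Accτ (M.tp x) ↔ TAcc P (word x) y r

/-- **TNmM.**  Copy of `hasMAseq_of` and `not_MAql` (`SQ/Num.lean`). -/
def T_NmM : Prop := T_Sml → ∀ (L : Set (List Bool)) (C : ℕ), (∀ N p s t,
  HasMAseq (slice L N) p s t → N ≤ C * ((p + 1) * (s + 1) * (t / N + 1)) ^ 10) → L ∉ MAot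

/-- **TNmS.**  Copy of `hasSBPseq_of` and `not_SBPql` (`SQ/Num.lean`). -/
def T_NmS : Prop := T_Sml → ∀ (L : Set (List Bool)) (C : ℕ), (∀ N u s t,
  HasSBPseq (slice L N) u s t → N ≤ C * (u + (s + 1) * (t / N + 1)) ^ 10) → L ∉ SBPot

/-- **TNmP.**  Copy of `hasPPseq_of` and `not_PPql` (`SQ/NumP.lean`). -/
def T_NmP : Prop := T_Sml → ∀ (L : Set (List Bool)) (C : ℕ), (∀ N p s t,
  HasPPseq (slice L N) p s t → N ≤ C * ((p + 1) * (s + 1) * (t / N + 1)) ^ 10) → L ∉ PPot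

end Pool.Agent.Lib.MP_ff3ed7_lc.SQ
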